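import Pool.Agent.H341.FS.Stm3

set_option autoImplicit false

/-!
# Cyclically reduced form (helper79)
-/

namespace Pool.Agent.H341.FS

open Monoid Function

universe u

namespace CYC

variable {G : Bool → Type u} [∀ s, Group (G s)]

/-- the value of a letter -/
def vl (g : Σ s, G s) : CoprodI G := CoprodI.of g.2

/-- `x` is conjugate to the product of the letters of `L` -/
def PP (x : CoprodI G) (L : List (Σ s, G s)) : Prop :=
  ∃ c : CoprodI G, x = c * (L.map vl).prod * c⁻¹

theorem exists_list (x : CoprodI G) : ∃ L : List (Σ s, G s), (L.map vl).prod = x := by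
  induction x using CoprodI.induction_on with
  | one => exact ⟨[], rfl⟩
  | of i m => exact ⟨[⟨i, m⟩], by simp [vl]⟩
  | mul x y hx hy =>
    obtain ⟨L, rfl⟩ := hx
    obtain ⟨M, rfl⟩ := hy
    exact ⟨L ++ M, by simp⟩

theorem PP.rot {x : CoprodI G} : ∀ (j : ℕ) (L : List (Σ s, G s)), PP x L → PP x (L.rotate j) := by
  intro j
  induction j with
  | zero => intro L h; rwa [List.rotate_zero]
  | succ j ih =>
    intro L h
    cases L with
    | nil => simpa using h
    | cons a l =>
      rw [List.rotate_cons_succ]
      apply ih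
      obtain ⟨c, hc⟩ := h
      refine ⟨c * vl a, ?_⟩
      rw [hc, List.map_cons, List.prod_cons, List.map_append, List.prod_append, List.map_singleton,
        List.prod_singleton]
      group

theorem ne_one {x : CoprodI G} {a : Σ s, G s} {l : List (Σ s, G s)} (h : PP x (a :: l))
    (hmin : ∀ L', PP x L' → (a :: l).length ≤ L'.length) : a.2 ≠ 1 := by
  intro h1
  have h2 : PP x l := by
    obtain ⟨c, hc⟩ := h
    refine ⟨c, ?_⟩
    rw [hc, List.map_cons, List.prod_cons]
    have : vl a = 1 := by rw [vl, h1, map_one]
    rw [this, one_mul]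
  have := hmin l h2
  simp at this

theorem side_ne {x : CoprodI G} {a b : Σ s, G s} {l : List (Σ s, G s)} (h : PP x (a :: b :: l))
    (hmin : ∀ L', PP x L' → (a :: b :: l).length ≤ L'.length) : a.1 ≠ b.1 := by
  intro h1
  obtain ⟨s, g⟩ := a
  obtain ⟨t, g'⟩ := b
  change s = t at h1
  subst h1
  have h2 : PP x (⟨s, g * g'⟩ :: l) := by
    obtain ⟨c, hc⟩ := h
    refine ⟨c, ?_⟩
    rw [hc]
    simp only [List.map_cons, List.prod_cons, vl, map_mul, mul_assoc]
  have := hmin _ h2
  simp at this

/-- the component in `G false` -/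
def toF : (Σ s, G s) → G false
  | ⟨false, g⟩ => g
  | ⟨true, _⟩ => 1

/-- the component in `G true` -/
def toT : (Σ s, G s) → G true
  | ⟨false, _⟩ => 1
  | ⟨true, g⟩ => g

theorem toF_spec {g : Σ s, G s} (h : g.1 = false) : vl g = CoprodI.of (toF g) ∧
    (g.2 ≠ 1 → toF g ≠ 1) := by
  obtain ⟨s, g⟩ := g
  change s = false at h
  subst h
  exact ⟨rfl, fun h => h⟩

theorem toT_spec {g : Σ s, G s} (h : g.1 = true) : vl g = CoprodI.of (toT g) ∧
    (g.2 ≠ 1 → toT g ≠ 1) := by
  obtain ⟨s, g⟩ := g
  change s = true at h
  subst h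
  exact ⟨rfl, fun h => h⟩

theorem pp_take {M : Type*} [Monoid M] {α : Type*} (f : α → M) (L : List α) (c : ℕ → M) (k : ℕ)
    (hk : L.length = 2 * k)
    (hc : ∀ n, ∀ h : n < k, c n = f (L[2 * n]'(by omega)) * f (L[2 * n + 1]'(by omega))) :
    pp c k = (L.map f).prod := by
  have key : ∀ n ≤ k, pp c n = ((L.take (2 * n)).map f).prod := by
    intro n
    induction n with
    | zero => intro _; rfl
    | succ n ih =>
      intro hn
      rw [pp, ih (by omega), hc n (by omega)]
      have e1 : 2 * (n + 1) = 2 * n + 1 + 1 := by ring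
      rw [e1, List.take_add_one, List.take_add_one, List.getElem?_eq_getElem (by omega),
        List.getElem?_eq_getElem (by omega)]
      simp only [Option.toList_some, List.map_append, List.map_cons, List.map_nil,
        List.prod_append, List.prod_cons, List.prod_nil, mul_one, mul_assoc]
  rw [key k le_rfl, ← hk, List.take_length]

end CYC

open CYC in
/-- **CYC** -/
theorem s_cyc : S_CYC.{u} := by
  classical
  intro G _ x
  have hex : ∃ n : ℕ, ∃ L : List (Σ s, G s), L.length = n ∧ PP x L := by
    obtain ⟨L, hL⟩ := exists_list x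
    exact ⟨L.length, L, rfl, 1, by rw [hL]; group⟩
  obtain ⟨L, hLn, hL⟩ := Nat.find_spec hex
  have hmin : ∀ L' : List (Σ s, G s), PP x L' → L.length ≤ L'.length := by
    intro L' hL'
    rw [hLn]
    exact Nat.find_min' hex ⟨L', rfl, hL'⟩
  clear hLn
  match L, hL, hmin with
  | [], ⟨c, hc⟩, _ => exact Or.inl ⟨false, 1, c, by simpa using hc⟩
  | [g], ⟨c, hc⟩, _ => exact Or.inl ⟨g.1, g.2, c, by simpa [vl] using hc⟩
  | (a0 :: b0 :: l0), hL, hmin =>
    right
    -- all rotations
    have hrot : ∀ L : List (Σ s, G s), PP x L → (∀ L' : List (Σ s, G s), PP x L' →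
        L.length ≤ L'.length) → 2 ≤ L.length → ∀ j, ∀ hj : j < L.length, (L[j]).2 ≠ 1 ∧
          (L[j]).1 ≠ (L[(j + 1) % L.length]'(Nat.mod_lt _ (by omega))).1 := by
      intro L hL hmin h2 j hj
      have h3 : PP x (L.rotate j) := hL.rot j
      have h4 : (L.rotate j).length = L.length := List.length_rotate L j
      match hM : L.rotate j, h4 with
      | a :: b :: l, h4 =>
        have h5 : ∀ L' : List (Σ s, G s), PP x L' → (a :: b :: l).length ≤ L'.length := by
          intro L' hL'
          rw [h4]
          exact hmin L' hL'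
        rw [hM] at h3
        have e0 : (L.rotate j)[0]'(by rw [List.length_rotate]; omega) = L[j] := by
          rw [List.getElem_rotate]
          congr 1
          rw [zero_add, Nat.mod_eq_of_lt hj]
        have e1 : (L.rotate j)[1]'(by rw [List.length_rotate]; omega)
            = L[(j + 1) % L.length]'(Nat.mod_lt _ (by omega)) := by
          rw [List.getElem_rotate]
          congr 1
          rw [add_comm]
        simp only [hM, List.getElem_cons_zero, List.getElem_cons_succ] at e0 e1
        rw [← e0, ← e1]
        exact ⟨ne_one h3 h5, side_ne h3 h5⟩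
      | [], h4 => simp at h4; omega
      | [a], h4 => simp at h4; omega
    -- arrange that the first side is `false`
    obtain ⟨L, hL, hmin, h2, h0⟩ : ∃ L : List (Σ s, G s), PP x L ∧
        (∀ L' : List (Σ s, G s), PP x L' → L.length ≤ L'.length) ∧
        ∃ h2 : 2 ≤ L.length, (L[0]'(by omega)).1 = false := by
      set L := a0 :: b0 :: l0 with hLdef
      have h2 : 2 ≤ L.length := by simp [hLdef]
      by_cases h0 : (L[0]'(by omega)).1 = false
      · exact ⟨L, hL, hmin, h2, h0⟩
      · refine ⟨L.rotate 1, hL.rot 1, ?_, ?_, ?_⟩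
        · rw [List.length_rotate]; exact hmin
        · rw [List.length_rotate]; exact h2
        · have h5 := (hrot L hL hmin h2 0 (by omega)).2
          rw [Bool.not_eq_false] at h0
          rw [h0] at h5
          have e1 : (L.rotate 1)[0]'(by rw [List.length_rotate]; omega)
              = L[(0 + 1) % L.length]'(Nat.mod_lt _ (by omega)) := List.getElem_rotate ..
          rw [e1]
          revert h5
          cases (L[(0 + 1) % L.length]'(Nat.mod_lt _ (by omega))).1 <;> simp
    have hr := hrot L hL hmin h2
    set n := L.length with hn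
    have hnpos : 0 < n := by omega
    -- sides
    have hside : ∀ j, ((L[(2 * j) % n]'(Nat.mod_lt _ hnpos)).1 = false) ∧
        ((L[(2 * j + 1) % n]'(Nat.mod_lt _ hnpos)).1 = true) := by
      have hstep : ∀ j, (L[j % n]'(Nat.mod_lt _ hnpos)).1 ≠
          (L[(j + 1) % n]'(Nat.mod_lt _ hnpos)).1 := by
        intro j
        have := (hr (j % n) (Nat.mod_lt _ hnpos)).2
        have e : (j % n + 1) % L.length = (j + 1) % n := by rw [← hn, Nat.mod_add_mod]
        simp only [e] at this
        exact this
      have hstepF : ∀ j, (L[j % n]'(Nat.mod_lt _ hnpos)).1 = false →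
          (L[(j + 1) % n]'(Nat.mod_lt _ hnpos)).1 = true := by
        intro j hj
        have := hstep j
        rw [hj] at this
        revert this
        cases (L[(j + 1) % n]'(Nat.mod_lt _ hnpos)).1 <;> simp
      have hstepT : ∀ j, (L[j % n]'(Nat.mod_lt _ hnpos)).1 = true →
          (L[(j + 1) % n]'(Nat.mod_lt _ hnpos)).1 = false := by
        intro j hj
        have := hstep j
        rw [hj] at this
        revert this
        cases (L[(j + 1) % n]'(Nat.mod_lt _ hnpos)).1 <;> simp
      intro j
      have h3 : (L[(2 * j) % n]'(Nat.mod_lt _ hnpos)).1 = false := by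
        induction j with
        | zero => simpa using h0
        | succ j ih =>
          have := hstepT _ (hstepF _ ih)
          exact this
      exact ⟨h3, hstepF _ h3⟩
    have heven : ∃ k, n = 2 * k := by
      rcases Nat.even_or_odd' n with ⟨k, hk | hk⟩
      · exact ⟨k, hk⟩
      · exfalso
        have h3 := (hside k).2
        have e : (2 * k + 1) % n = 0 := by rw [← hk, Nat.mod_self]
        simp only [e] at h3
        rw [h0] at h3
        exact Bool.false_ne_true h3
    obtain ⟨k, hk⟩ := heven
    have hk0 : k ≠ 0 := by omega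
    have hlt : ∀ i : ZMod k, 2 * i.val + 1 < n := by
      intro i
      have : NeZero k := ⟨hk0⟩
      have := ZMod.val_lt i
      omega
    obtain ⟨c, hc⟩ := hL
    refine ⟨k, ⟨hk0⟩, fun i => toF (L[2 * i.val]'(by have := hlt i; omega)),
      fun i => toT (L[2 * i.val + 1]'(hlt i)), c, ?_, ?_, ?_⟩
    · intro i
      have h3 := (hside i.val).1
      have h4 := hlt i
      have e : (2 * i.val) % n = 2 * i.val := Nat.mod_eq_of_lt (by omega)
      simp only [e] at h3
      exact (toF_spec h3).2 (hr _ (by omega)).1
    · intro i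
      have h3 := (hside i.val).2
      have h4 := hlt i
      have e : (2 * i.val + 1) % n = 2 * i.val + 1 := Nat.mod_eq_of_lt (by omega)
      simp only [e] at h3
      exact (toT_spec h3).2 (hr _ (by omega)).1
    · refine hc.trans ?_
      congr 2
      rw [W, wd]
      refine (pp_take vl L _ k hk ?_).symm
      intro j hj
      have hv : ((j : ℕ) : ZMod k).val = j := ZMod.val_cast_of_lt hj
      have h3 := hside j
      have e1 : (2 * j) % n = 2 * j := Nat.mod_eq_of_lt (by omega)
      have e2 : (2 * j + 1) % n = 2 * j + 1 := Nat.mod_eq_of_lt (by omega)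
      simp only [e1, e2] at h3
      simp only [hv]
      rw [(toF_spec h3.1).1, (toT_spec h3.2).1]

end Pool.Agent.H341.FS
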