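import Pool.Agent.H341.FS.Stm2

set_option autoImplicit false

/-!
# FS-5 (helper94): periodic words are proper powers; the general principle (RCQ)
-/

namespace Pool.Agent.H341.FS

universe u v

theorem pp_add {M : Type u} [Monoid M] (c : ℕ → M) (m l : ℕ) :
    pp c (m + l) = pp c m * pp (fun j => c (m + j)) l := by
  induction l with
  | zero => simp [pp]
  | succ l ih => rw [← Nat.add_assoc]; simp only [pp]; rw [ih, mul_assoc]

theorem pp_periodic {M : Type u} [Monoid M] (c : ℕ → M) (g : ℕ) (hc : ∀ j, c (g + j) = c j)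
    (n : ℕ) : pp c (g * n) = (pp c g) ^ n := by
  induction n with
  | zero => simp [pp]
  | succ n ih =>
    have h1 : g * (n + 1) = g + g * n := by ring
    have h2 : (fun j => c (g + j)) = c := funext hc
    rw [h1, pp_add, h2, ih, pow_succ']

theorem s_per : S_PER.{u} := by
  intro P _ k _ a b d hd ha hb
  have hk : 0 < k := Nat.pos_of_ne_zero (NeZero.ne k)
  have hdv : 0 < d.val := Nat.pos_of_ne_zero (fun h => hd ((ZMod.val_eq_zero d).1 h))
  have hdk : d.val < k := ZMod.val_lt d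
  set g := Nat.gcd d.val k with hg
  have hgpos : 0 < g := Nat.gcd_pos_of_pos_left _ hdv
  have hgk : g < k := lt_of_le_of_lt (Nat.gcd_le_left _ hdv) hdk
  obtain ⟨n, hn⟩ := Nat.gcd_dvd_right d.val k
  rw [← hg] at hn
  have hn2 : 2 ≤ n := by
    by_contra h
    have : n = 0 ∨ n = 1 := by omega
    rcases this with h0 | h1
    · subst h0; omega
    · subst h1; omega
  -- multiples of `d`
  have hma : ∀ (m : ℕ) (i : ZMod k), a (i + m * d) = a i := by
    intro m
    induction m with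
    | zero => intro i; simp
    | succ m ih =>
      intro i
      have : i + ((m + 1 : ℕ) : ZMod k) * d = (i + m * d) + d := by push_cast; ring
      rw [this, ha, ih]
  have hmb : ∀ (m : ℕ) (i : ZMod k), b (i + m * d) = b i := by
    intro m
    induction m with
    | zero => intro i; simp
    | succ m ih =>
      intro i
      have : i + ((m + 1 : ℕ) : ZMod k) * d = (i + m * d) + d := by push_cast; ring
      rw [this, hb, ih]
  -- `g` is a multiple of `d` modulo `k`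
  have hgd : ∃ m : ℕ, ((g : ℕ) : ZMod k) = m * d := by
    have h1 : ((g : ℕ) : ℤ) = d.val * Nat.gcdA d.val k + k * Nat.gcdB d.val k :=
      Nat.gcd_eq_gcd_ab d.val k
    have h2 : ((g : ℕ) : ZMod k) = d * ((Nat.gcdA d.val k : ℤ) : ZMod k) := by
      have := congrArg (fun x : ℤ => (x : ZMod k)) h1
      simp only [Int.cast_natCast, Int.cast_add, Int.cast_mul] at this
      rw [this]
      simp
    refine ⟨((Nat.gcdA d.val k : ℤ) : ZMod k).val, ?_⟩
    rw [h2, ZMod.natCast_zmod_val, mul_comm]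
  obtain ⟨m, hm⟩ := hgd
  have hc : ∀ j : ℕ, (fun n : ℕ => a (n : ZMod k) * b (n : ZMod k)) (g + j) =
      (fun n : ℕ => a (n : ZMod k) * b (n : ZMod k)) j := by
    intro j
    simp only
    have : ((g + j : ℕ) : ZMod k) = (j : ZMod k) + m * d := by
      push_cast; rw [hm]; ring
    rw [this, hma, hmb]
  refine ⟨pp (fun n : ℕ => a (n : ZMod k) * b (n : ZMod k)) g, n, hn2, ?_⟩
  rw [← pp_periodic _ g hc n]
  unfold wd
  rw [← hn]

theorem s_rcq : S_RCQ.{u, v} := by
  intro P _ H Q _ t Ω _ σ z hcoc hinv w hw hwz hmove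
  have hmul : ∀ h ∈ H, ∀ x, t 1 (h * x) = t 1 h * t 1 x := by
    intro h hh x
    have h1 := hcoc 1 h x
    have h2 := hinv h hh 1 x
    rw [mul_one] at h2
    rw [one_mul, h2] at h1
    exact h1
  have hone : t 1 1 = 1 := by
    have h1 := hmul 1 H.one_mem 1
    rw [mul_one] at h1
    exact (mul_eq_left.1 h1.symm)
  have hinv' : ∀ h ∈ H, t 1 h⁻¹ = (t 1 h)⁻¹ := by
    intro h hh
    have h1 := hmul h hh h⁻¹
    rw [mul_inv_cancel, hone] at h1
    exact (inv_eq_of_mul_eq_one_right h1.symm).symm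
  have hact : ∀ h ∈ H, ∀ x, ∀ y : Ω, σ (t 1 (h * x)) y = σ (t 1 h) (σ (t 1 x) y) := by
    intro h hh x y
    rw [hmul h hh x, map_mul]; rfl
  have hactinv : ∀ h ∈ H, ∀ y : Ω, σ (t 1 h⁻¹) (σ (t 1 h) y) = y := by
    intro h hh y
    have : σ (t 1 (h⁻¹ * h)) y = σ (t 1 h⁻¹) (σ (t 1 h) y) := hact _ (H.inv_mem hh) _ _
    rw [← this, inv_mul_cancel, hone, map_one]; rfl
  let H' : Subgroup P :=
    { carrier := {h | h ∈ H ∧ σ (t 1 h) z = z}
      one_mem' := ⟨H.one_mem, by rw [hone, map_one]; rfl⟩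
      mul_mem' := by
        rintro x y ⟨hx, hx'⟩ ⟨hy, hy'⟩
        exact ⟨H.mul_mem hx hy, by rw [hact x hx, hy', hx']⟩
      inv_mem' := by
        rintro x ⟨hx, hx'⟩
        refine ⟨H.inv_mem hx, ?_⟩
        have := hactinv x hx z
        rwa [hx'] at this }
  refine ⟨{h | h ∈ H ∧ z < σ (t 1 h) z}, H', ?_, ?_, ⟨hw, hwz⟩, ?_, ?_, ?_, ?_, ?_⟩
  · rintro x ⟨hx, _⟩; exact hx
  · intro h
    obtain ⟨x, hx, hxz⟩ := hmove
    have : x ∈ H' := by rw [h]; exact hx
    exact hxz this.2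
  · rintro s ⟨hs, _⟩; exact hs
  · rintro s ⟨hs, hs'⟩ r ⟨hr, hr'⟩
    refine ⟨H.mul_mem hs hr, ?_⟩
    rw [hact s hs]
    exact lt_trans hs' ((σ (t 1 s)).lt_iff_lt.2 hr')
  · rintro s ⟨hs, hs'⟩ r ⟨hr, hr'⟩
    refine ⟨⟨H.mul_mem hs hr, ?_⟩, ⟨H.mul_mem hr hs, ?_⟩⟩
    · rw [hact s hs, hr']; exact hs'
    · rw [hact r hr]
      have := (σ (t 1 r)).lt_iff_lt.2 hs'
      rwa [hr'] at this
  · intro g hg
    rcases lt_trichotomy z (σ (t 1 g) z) with h | h | h
    · exact Or.inr (Or.inl ⟨hg, h⟩)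
    · exact Or.inl ⟨hg, h.symm⟩
    · refine Or.inr (Or.inr ⟨H.inv_mem hg, ?_⟩)
      have := (σ (t 1 g⁻¹)).lt_iff_lt.2 h
      rwa [hactinv g hg] at this
  · rintro ⟨_, h⟩
    rw [hone, map_one] at h
    exact lt_irrefl _ h

end Pool.Agent.H341.FS
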