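import Pool.Agent.H341.FS.Stm3

set_option autoImplicit false

/-!
# Transfers: `S_MI0 → S_MI → S_FREI`
-/

namespace Pool.Agent.H341.FS

open Monoid Function

universe u

namespace XF

theorem nc_map {P Q : Type u} [Group P] [Group Q] (φ : P →* Q) {x y : P}
    (h : y ∈ Subgroup.normalClosure ({x} : Set P)) :
    φ y ∈ Subgroup.normalClosure ({φ x} : Set Q) := by
  have h1 : Subgroup.normalClosure ({x} : Set P) ≤
      (Subgroup.normalClosure ({φ x} : Set Q)).comap φ := by
    apply Subgroup.normalClosure_le_normal
    intro z hz
    rw [Set.mem_singleton_iff] at hz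
    subst hz
    exact Subgroup.subset_normalClosure (Set.mem_singleton _)
  exact h1 h

section swap

variable (G : Bool → Type u) [∀ s, Group (G s)]

/-- the factors in the other order -/
abbrev Gs : Bool → Type u := fun s => G (!s)

/-- the isomorphism with the free product in the other order, one direction -/
def fw : CoprodI G →* CoprodI (Gs G) :=
  CoprodI.lift fun s => match s with
    | false => (CoprodI.of (M := Gs G) (i := true))
    | true => (CoprodI.of (M := Gs G) (i := false))

/-- the other direction -/
def bw : CoprodI (Gs G) →* CoprodI G :=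
  CoprodI.lift fun s => (CoprodI.of (M := G) (i := !s))

theorem bw_of (s : Bool) (g : Gs G s) : bw G (CoprodI.of g) = CoprodI.of (M := G) (i := !s) g := by
  unfold bw
  rw [CoprodI.lift_of]

theorem fw_false (g : G false) : fw G (CoprodI.of g) = CoprodI.of (M := Gs G) (i := true) g := by
  unfold fw
  rw [CoprodI.lift_of]

theorem fw_true (g : G true) : fw G (CoprodI.of g) = CoprodI.of (M := Gs G) (i := false) g := by
  unfold fw
  rw [CoprodI.lift_of]

theorem bw_fw (x : CoprodI G) : bw G (fw G x) = x := by
  have h : (bw G).comp (fw G) = MonoidHom.id _ := by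
    apply CoprodI.ext_hom
    intro s
    ext g
    cases s
    · show bw G (fw G (CoprodI.of g)) = CoprodI.of g
      rw [fw_false, bw_of]
    · show bw G (fw G (CoprodI.of g)) = CoprodI.of g
      rw [fw_true, bw_of]
  exact DFunLike.congr_fun h x

end swap

section two

/-- the family of the two groups `A`, `B` -/
def AB (A B : Type u) : Bool → Type u
  | false => A
  | true => B

instance (A B : Type u) [Group A] [Group B] : ∀ s, Group (AB A B s)
  | false => inferInstanceAs (Group A)
  | true => inferInstanceAs (Group B)

variable (A B : Type u) [Group A] [Group B]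

/-- `A * B` as a free product of a family -/
def toI : Coprod A B →* CoprodI (AB A B) :=
  Coprod.lift (CoprodI.of (M := AB A B) (i := false) : A →* CoprodI (AB A B))
    (CoprodI.of (M := AB A B) (i := true) : B →* CoprodI (AB A B))

/-- the inverse -/
def ofI : CoprodI (AB A B) →* Coprod A B :=
  CoprodI.lift fun s => match s with
    | false => (Coprod.inl : A →* Coprod A B)
    | true => (Coprod.inr : B →* Coprod A B)

theorem ofI_false (a : A) : ofI A B (CoprodI.of (M := AB A B) (i := false) a) = Coprod.inl a := by
  unfold ofI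
  rw [CoprodI.lift_of]
  rfl

theorem ofI_true (b : B) : ofI A B (CoprodI.of (M := AB A B) (i := true) b) = Coprod.inr b := by
  unfold ofI
  rw [CoprodI.lift_of]
  rfl

theorem toI_inl (a : A) : toI A B (Coprod.inl a) = CoprodI.of (M := AB A B) (i := false) a := by
  unfold toI
  rw [Coprod.lift_apply_inl]
  rfl

theorem toI_inr (b : B) : toI A B (Coprod.inr b) = CoprodI.of (M := AB A B) (i := true) b := by
  unfold toI
  rw [Coprod.lift_apply_inr]
  rfl

theorem ofI_toI (x : Coprod A B) : ofI A B (toI A B x) = x := by
  have h : (ofI A B).comp (toI A B) = MonoidHom.id _ := by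
    apply Coprod.hom_ext
    · ext a
      show ofI A B (toI A B (Coprod.inl a)) = Coprod.inl a
      rw [toI_inl, ofI_false]
    · ext b
      show ofI A B (toI A B (Coprod.inr b)) = Coprod.inr b
      rw [toI_inr, ofI_true]
  exact DFunLike.congr_fun h x

end two

end XF

open XF

theorem mi_of : S_MI0.{u} → S_MI.{u} := by
  intro h0 G _ hG x hx s g hg
  cases s
  · exact h0 G hG x hx g hg
  · refine h0 (Gs G) (fun s => hG (!s)) (fw G x) ?_ g ?_
    · rintro ⟨s, g', c, hc⟩
      apply hx
      refine ⟨!s, g', bw G c, ?_⟩
      rw [← bw_fw G x, hc, map_mul, map_mul, map_inv, bw_of]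
    · rw [← fw_true]
      exact nc_map (fw G) hg

theorem frei_of : S_MI.{u} → S_FREI.{u} := by
  intro h A B _ _ hA hB r hr1 hr2 m _
  have hLO : ∀ s, LO (AB A B s) := by
    intro s
    cases s
    · exact hA
    · exact hB
  have hx : ¬ ∃ (s : Bool) (g : AB A B s) (c : CoprodI (AB A B)),
      toI A B r = c * CoprodI.of g * c⁻¹ := by
    rintro ⟨s, g, c, hc⟩
    cases s
    · apply hr1 (ofI A B c) g
      rw [← ofI_toI A B r, hc, map_mul, map_mul, map_inv]
      exact congrArg (fun t => ofI A B c * t * (ofI A B c)⁻¹) (ofI_false A B g)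
    · apply hr2 (ofI A B c) g
      rw [← ofI_toI A B r, hc, map_mul, map_mul, map_inv]
      exact congrArg (fun t => ofI A B c * t * (ofI A B c)⁻¹) (ofI_true A B g)
  have hm : ∀ y, y ∈ Subgroup.normalClosure ({r ^ m} : Set (Coprod A B)) →
      toI A B y ∈ Subgroup.normalClosure ({toI A B r} : Set (CoprodI (AB A B))) := by
    intro y hy
    apply nc_map (toI A B)
    have h1 : Subgroup.normalClosure ({r ^ m} : Set (Coprod A B)) ≤
        Subgroup.normalClosure ({r} : Set (Coprod A B)) := by
      apply Subgroup.normalClosure_le_normal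
      intro z hz
      rw [Set.mem_singleton_iff] at hz
      subst hz
      exact Subgroup.pow_mem _ (Subgroup.subset_normalClosure (Set.mem_singleton _)) m
    exact h1 hy
  constructor
  · rw [injective_iff_map_eq_one]
    intro a ha
    have h2 : Coprod.inl a ∈ Subgroup.normalClosure ({r ^ m} : Set (Coprod A B)) :=
      (QuotientGroup.eq_one_iff _).1 ha
    have h3 := hm _ h2
    rw [toI_inl] at h3
    exact h (AB A B) hLO (toI A B r) hx false a h3
  · rw [injective_iff_map_eq_one]
    intro b hb
    have h2 : Coprod.inr b ∈ Subgroup.normalClosure ({r ^ m} : Set (Coprod A B)) :=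
      (QuotientGroup.eq_one_iff _).1 hb
    have h3 := hm _ h2
    rw [toI_inr] at h3
    exact h (AB A B) hLO (toI A B r) hx true b h3

end Pool.Agent.H341.FS
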