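import Pool.Agent.H341.FS.Stm4

set_option autoImplicit false

/-! # The Freiheitssatz with coefficient groups by amalgams (helper935) -/

namespace Pool.Agent.H341.FS

open Monoid Function

universe u

/-- two groups as a family -/
def Two (G₁ G₂ : Type u) : Bool → Type u
  | true => G₁
  | false => G₂

instance twoGroup (G₁ G₂ : Type u) [hG₁ : Group G₁] [hG₂ : Group G₂] : ∀ b, Group (Two G₁ G₂ b)
  | true => hG₁
  | false => hG₂

/-- two homomorphisms as a family -/
def twoHom {H G₁ G₂ : Type u} [Group H] [Group G₁] [Group G₂] (φ₁ : H →* G₁) (φ₂ : H →* G₂) :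
    ∀ b, H →* Two G₁ G₂ b
  | true => φ₁
  | false => φ₂

/-- amalgams of two groups over a common subgroup -/
theorem exists_amalgam (H G₁ G₂ : Type u) [hH : Group H] [hG₁ : Group G₁] [hG₂ : Group G₂]
    (φ₁ : H →* G₁) (φ₂ : H →* G₂) (h₁ : Injective φ₁) (h₂ : Injective φ₂) :
    ∃ (P : Type u) (_ : Group P) (i₁ : G₁ →* P) (i₂ : G₂ →* P),
      Injective i₁ ∧ Injective i₂ ∧ i₁.comp φ₁ = i₂.comp φ₂ := by
  have hφ : ∀ b, Injective (twoHom φ₁ φ₂ b) := by
    intro b
    cases b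
    · exact h₂
    · exact h₁
  refine ⟨PushoutI (twoHom φ₁ φ₂), inferInstance, PushoutI.of (φ := twoHom φ₁ φ₂) true,
    PushoutI.of (φ := twoHom φ₁ φ₂) false,
    PushoutI.of_injective hφ true, PushoutI.of_injective hφ false, ?_⟩
  have e₁ := PushoutI.of_comp_eq_base (φ := twoHom φ₁ φ₂) true
  have e₂ := PushoutI.of_comp_eq_base (φ := twoHom φ₁ φ₂) false
  exact e₁.trans e₂.symm

/-- (FREIC) from (FREI) -/
theorem freic_of : S_FREI.{u} → S_FREIC.{u} := by
  intro hfrei A B _ _ A₀ B₀ hA hB r hr hrA hrB m hm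
  let φ : Coprod A₀ B₀ →* Coprod A B := Coprod.map A₀.subtype B₀.subtype
  have hφl : ∀ a : A₀, φ (Coprod.inl a) = Coprod.inl (a : A) := fun a => by
    show Coprod.map A₀.subtype B₀.subtype (Coprod.inl a) = _
    rw [Coprod.map_apply_inl]
    rfl
  have hφr : ∀ b : B₀, φ (Coprod.inr b) = Coprod.inr (b : B) := fun b => by
    show Coprod.map A₀.subtype B₀.subtype (Coprod.inr b) = _
    rw [Coprod.map_apply_inr]
    rfl
  have hrange : A₀.map (Coprod.inl : A →* Coprod A B) ⊔ B₀.map (Coprod.inr : B →* Coprod A B) ≤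
      φ.range := by
    refine sup_le ?_ ?_
    · rintro _ ⟨a, ha, rfl⟩
      exact ⟨Coprod.inl ⟨a, ha⟩, hφl ⟨a, ha⟩⟩
    · rintro _ ⟨b, hb, rfl⟩
      exact ⟨Coprod.inr ⟨b, hb⟩, hφr ⟨b, hb⟩⟩
  obtain ⟨r₀, hr₀⟩ := hrange hr
  have h0 := hfrei A₀ B₀ hA hB r₀ ?_ ?_ m hm
  · obtain ⟨hl, hr'⟩ := h0
    set N₀ := Subgroup.normalClosure ({r₀ ^ m} : Set (Coprod A₀ B₀)) with hN₀
    obtain ⟨P₁, gP₁, i₁, i₂, hi₁, hi₂, hi⟩ := exists_amalgam A₀ A (Coprod A₀ B₀ ⧸ N₀)
      A₀.subtype ((QuotientGroup.mk' N₀).comp Coprod.inl) A₀.subtype_injective hl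
    have hinj : Injective (i₂.comp ((QuotientGroup.mk' N₀).comp (Coprod.inr : B₀ →* Coprod A₀ B₀))) :=
      hi₂.comp hr'
    obtain ⟨P₂, gP₂, j₁, j₂, hj₁, hj₂, hj⟩ := exists_amalgam B₀ B P₁
      B₀.subtype (i₂.comp ((QuotientGroup.mk' N₀).comp Coprod.inr)) B₀.subtype_injective hinj
    let Ψ : Coprod A B →* P₂ := Coprod.lift (j₂.comp i₁) j₁
    have hΨl : ∀ a : A, Ψ (Coprod.inl a) = j₂ (i₁ a) := fun a => by
      show Coprod.lift (j₂.comp i₁) j₁ (Coprod.inl a) = _
      rw [Coprod.lift_apply_inl]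
      rfl
    have hΨr : ∀ b : B, Ψ (Coprod.inr b) = j₁ b := fun b => by
      show Coprod.lift (j₂.comp i₁) j₁ (Coprod.inr b) = _
      rw [Coprod.lift_apply_inr]
    have hΨ : Ψ.comp φ = j₂.comp (i₂.comp (QuotientGroup.mk' N₀)) := by
      apply Coprod.hom_ext
      · ext a
        show Ψ (φ (Coprod.inl a)) = j₂ (i₂ (QuotientGroup.mk' N₀ (Coprod.inl a)))
        rw [hφl, hΨl]
        exact congrArg j₂ (DFunLike.congr_fun hi a)
      · ext b
        show Ψ (φ (Coprod.inr b)) = j₂ (i₂ (QuotientGroup.mk' N₀ (Coprod.inr b)))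
        rw [hφr, hΨr]
        exact DFunLike.congr_fun hj b
    have hker : Ψ (r ^ m) = 1 := by
      rw [← hr₀, ← map_pow]
      have h1 := DFunLike.congr_fun hΨ (r₀ ^ m)
      have h2 : QuotientGroup.mk' N₀ (r₀ ^ m) = 1 := by
        rw [QuotientGroup.mk'_apply, QuotientGroup.eq_one_iff]
        exact Subgroup.subset_normalClosure rfl
      have h3 : (j₂.comp (i₂.comp (QuotientGroup.mk' N₀))) (r₀ ^ m) = 1 := by
        show j₂ (i₂ (QuotientGroup.mk' N₀ (r₀ ^ m))) = 1
        rw [h2, map_one, map_one]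
      exact h1.trans h3
    have hle : Subgroup.normalClosure ({r ^ m} : Set (Coprod A B)) ≤ Ψ.ker := by
      apply Subgroup.normalClosure_le_normal
      intro x hx
      rw [Set.mem_singleton_iff] at hx
      rw [hx]
      exact hker
    constructor
    · rw [injective_iff_map_eq_one]
      intro a ha
      have h1 : (Coprod.inl a : Coprod A B) ∈ Subgroup.normalClosure ({r ^ m} : Set (Coprod A B)) := by
        rw [← QuotientGroup.eq_one_iff]
        exact ha
      have h2 : Ψ (Coprod.inl a) = 1 := hle h1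
      rw [hΨl] at h2
      exact hi₁ (hj₂ (by rw [h2, map_one, map_one]))
    · rw [injective_iff_map_eq_one]
      intro b hb
      have h1 : (Coprod.inr b : Coprod A B) ∈ Subgroup.normalClosure ({r ^ m} : Set (Coprod A B)) := by
        rw [← QuotientGroup.eq_one_iff]
        exact hb
      have h2 : Ψ (Coprod.inr b) = 1 := hle h1
      rw [hΨr] at h2
      exact hj₁ (by rw [h2, map_one])
  · intro g a h
    refine hrA (φ g) (a : A) ?_
    rw [← hr₀, h, map_mul, map_mul, map_inv, hφl]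
  · intro g b h
    refine hrB (φ g) (b : B) ?_
    rw [← hr₀, h, map_mul, map_mul, map_inv, hφr]

end Pool.Agent.H341.FS
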