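import Pool.Agent.H341.FS.Stm4

/-!
# FS-16: one relator in a free product of `n` left-orderable groups
-/

set_option autoImplicit false

namespace Pool.Agent.H341.FS

open Monoid Function

universe u

namespace NFaux

section

variable {ι : Type} (A : ι → Type u) [∀ i, Group (A i)]

/-- transport along an equality of indices -/
def castHom {i j : ι} (h : i = j) : A i →* A j := by
  subst h; exact MonoidHom.id _

lemma castHom_rfl (j : ι) : castHom A (rfl : j = j) = MonoidHom.id _ := rfl

variable [DecidableEq ι]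

/-- the decomposition of the free product -/
noncomputable def toCop (j : ι) :
    CoprodI A →* Coprod (A j) (CoprodI (fun i : ({j}ᶜ : Set ι) => A i)) :=
  CoprodI.lift (fun i => if h : i = j then
    (Coprod.inl : A j →* Coprod (A j) (CoprodI (fun i : ({j}ᶜ : Set ι) => A i))).comp (castHom A h)
    else (Coprod.inr : CoprodI (fun i : ({j}ᶜ : Set ι) => A i) →*
      Coprod (A j) (CoprodI (fun i : ({j}ᶜ : Set ι) => A i))).comp
        (CoprodI.of (M := fun i : ({j}ᶜ : Set ι) => A i) (i := ⟨i, h⟩)))

lemma toCop_self (j : ι) (a : A j) : toCop A j (CoprodI.of a) = Coprod.inl a := by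
  rw [toCop, CoprodI.lift_of, dif_pos rfl, castHom_rfl]
  rfl

lemma toCop_other (j : ι) (i : ({j}ᶜ : Set ι)) (a : A i) :
    toCop A j (CoprodI.of a) =
      Coprod.inr (CoprodI.of (M := fun i : ({j}ᶜ : Set ι) => A i) (i := i) a) := by
  rw [toCop, CoprodI.lift_of, dif_neg (show ¬ (i : ι) = j from i.2)]
  rfl

/-- back -/
noncomputable def ofCop (j : ι) :
    Coprod (A j) (CoprodI (fun i : ({j}ᶜ : Set ι) => A i)) →* CoprodI A :=
  Coprod.lift (CoprodI.of (i := j)) (subProd A {j}ᶜ)

lemma subProd_of (T : Set ι) (i : T) (a : A i) :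
    subProd A T (CoprodI.of (M := fun i : T => A i) (i := i) a) = CoprodI.of (i := (i : ι)) a := by
  rw [subProd, CoprodI.lift_of]

lemma ofCop_toCop (j : ι) (x : CoprodI A) : ofCop A j (toCop A j x) = x := by
  have : (ofCop A j).comp (toCop A j) = MonoidHom.id _ := by
    apply CoprodI.ext_hom
    intro i
    ext a
    simp only [MonoidHom.comp_apply, MonoidHom.id_apply]
    by_cases h : i = j
    · subst h
      rw [toCop_self, ofCop, Coprod.lift_apply_inl]
    · have := toCop_other A j ⟨i, h⟩ a
      rw [this, ofCop, Coprod.lift_apply_inr, subProd_of]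
  exact DFunLike.congr_fun this x

lemma toCop_subProd (j : ι) (x : CoprodI (fun i : ({j}ᶜ : Set ι) => A i)) :
    toCop A j (subProd A {j}ᶜ x) = Coprod.inr x := by
  have : (toCop A j).comp (subProd A {j}ᶜ) =
      (Coprod.inr : _ →* Coprod (A j) (CoprodI (fun i : ({j}ᶜ : Set ι) => A i))) := by
    apply CoprodI.ext_hom
    intro i
    ext a
    simp only [MonoidHom.comp_apply]
    rw [subProd_of, toCop_other]
  exact DFunLike.congr_fun this x

end

lemma map_normalClosure {G H : Type*} [Group G] [Group H] (φ : G →* H) (r x : G)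
    (hx : x ∈ Subgroup.normalClosure ({r} : Set G)) :
    φ x ∈ Subgroup.normalClosure ({φ r} : Set H) := by
  have h : Subgroup.normalClosure ({r} : Set G) ≤
      (Subgroup.normalClosure ({φ r} : Set H)).comap φ := by
    apply Subgroup.normalClosure_le_normal
    intro y hy
    rw [Set.mem_singleton_iff] at hy
    subst hy
    exact Subgroup.subset_normalClosure (Set.mem_singleton _)
  exact h hx

end NFaux

open NFaux

theorem nf1_of : S_FREI.{u} → S_LOF.{u} → S_NF1.{u} := by
  intro hF hL ι _ A _ hA j r h1 h2 x hx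
  have hB : LO (CoprodI (fun i : ({j}ᶜ : Set ι) => A i)) := hL _ _ fun i => hA i
  obtain ⟨_, hinj⟩ := hF (A j) (CoprodI (fun i : ({j}ᶜ : Set ι) => A i)) (hA j) hB (toCop A j r)
    (fun g a he => by
      apply h2 (ofCop A j g) a
      have := congrArg (ofCop A j) he
      rw [ofCop_toCop, map_mul, map_mul, map_inv] at this
      rw [this, ofCop, Coprod.lift_apply_inl])
    (fun g b he => by
      apply h1 (ofCop A j g) b
      have := congrArg (ofCop A j) he
      rw [ofCop_toCop, map_mul, map_mul, map_inv] at this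
      rw [this, ofCop, Coprod.lift_apply_inr]) 1 le_rfl
  apply hinj
  rw [map_one, MonoidHom.comp_apply, QuotientGroup.mk'_apply, QuotientGroup.eq_one_iff, pow_one,
    ← toCop_subProd]
  exact map_normalClosure _ _ _ hx

namespace NFaux

section

variable {ι : Type} (A : ι → Type u) [∀ i, Group (A i)]

open Classical in
/-- the retraction onto the factors in `T` -/
noncomputable def rtr (T : Set ι) : CoprodI A →* CoprodI (fun i : T => A i) :=
  CoprodI.lift (fun i => if h : i ∈ T then
    (CoprodI.of (M := fun i : T => A i) (i := ⟨i, h⟩)) else 1)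

lemma rtr_mem (T : Set ι) (i : ι) (h : i ∈ T) (a : A i) :
    rtr A T (CoprodI.of a) = CoprodI.of (M := fun i : T => A i) (i := ⟨i, h⟩) a := by
  rw [rtr, CoprodI.lift_of, dif_pos h]

lemma rtr_notMem (T : Set ι) (i : ι) (h : i ∉ T) (a : A i) :
    rtr A T (CoprodI.of a) = 1 := by
  rw [rtr, CoprodI.lift_of, dif_neg h]; rfl

lemma subProd_of' (T : Set ι) (i : T) (a : A i) :
    subProd A T (CoprodI.of (M := fun i : T => A i) (i := i) a) = CoprodI.of (i := (i : ι)) a := by
  rw [subProd, CoprodI.lift_of]

lemma rtr_subProd (T : Set ι) (x : CoprodI (fun i : T => A i)) :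
    rtr A T (subProd A T x) = x := by
  have : (rtr A T).comp (subProd A T) = MonoidHom.id _ := by
    apply CoprodI.ext_hom
    intro i
    ext a
    simp only [MonoidHom.comp_apply, MonoidHom.id_apply]
    rw [subProd_of', rtr_mem A T i i.2]
  exact DFunLike.congr_fun this x

/-- if `T` and `S` are disjoint then the retraction onto `S` kills the factors in `T` -/
lemma rtr_subProd_disj (S T : Set ι) (h : ∀ i ∈ T, i ∉ S) (x : CoprodI (fun i : T => A i)) :
    rtr A S (subProd A T x) = 1 := by
  have : (rtr A S).comp (subProd A T) = 1 := by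
    apply CoprodI.ext_hom
    intro i
    ext a
    simp only [MonoidHom.comp_apply, MonoidHom.one_apply]
    rw [subProd_of', rtr_notMem A S i (h i i.2)]
  exact DFunLike.congr_fun this x

/-- the range of the subproduct is contained in a subgroup -/
lemma subProd_le (T : Set ι) (H : Subgroup (CoprodI A))
    (h : ∀ i ∈ T, ∀ a : A i, (CoprodI.of a : CoprodI A) ∈ H) : (subProd A T).range ≤ H := by
  rw [subProd, CoprodI.range_eq_iSup]
  apply iSup_le
  rintro i _ ⟨a, rfl⟩
  exact h i i.2 a

/-- the retraction onto `T`, as an endomorphism, maps the subproduct of `S` into that of `S ∩ T` -/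
lemma retr_mem (S T R : Set ι) (h : ∀ i ∈ S, i ∈ T → i ∈ R) (z : CoprodI A)
    (hz : z ∈ (subProd A S).range) : subProd A T (rtr A T z) ∈ (subProd A R).range := by
  have : (subProd A S).range ≤
      ((subProd A R).range).comap ((subProd A T).comp (rtr A T)) := by
    apply subProd_le
    intro i hi a
    rw [Subgroup.mem_comap, MonoidHom.comp_apply]
    by_cases hiT : i ∈ T
    · rw [rtr_mem A T i hiT, subProd_of']
      exact ⟨CoprodI.of (M := fun i : R => A i) (i := ⟨i, h i hi hiT⟩) a,
        subProd_of' A R ⟨i, h i hi hiT⟩ a⟩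
    · rw [rtr_notMem A T i hiT, map_one]
      exact Subgroup.one_mem _
  exact this hz

/-- `r` is conjugate into the subproduct over `T` -/
def Good (r : CoprodI A) (T : Set ι) : Prop :=
  ∃ g : CoprodI A, ∃ y ∈ (subProd A T).range, r = g * y * g⁻¹

lemma good_univ (r : CoprodI A) : Good A r Set.univ := by
  refine ⟨1, r, ?_, by group⟩
  induction r using CoprodI.induction_on with
  | one => exact Subgroup.one_mem _
  | of i a =>
    exact ⟨CoprodI.of (M := fun i : (Set.univ : Set ι) => A i) (i := ⟨i, trivial⟩) a,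
      subProd_of' A Set.univ ⟨i, trivial⟩ a⟩
  | mul x y hx hy => exact Subgroup.mul_mem _ hx hy

lemma of_mem (T : Set ι) (i : ι) (h : i ∈ T) (a : A i) :
    (CoprodI.of a : CoprodI A) ∈ (subProd A T).range :=
  ⟨CoprodI.of (M := fun i : T => A i) (i := ⟨i, h⟩) a, subProd_of' A T ⟨i, h⟩ a⟩

/-- the key step: if `r` is conjugate into the subproducts of `T` and of `S` then it is conjugate
into the subproduct of `S ∩ T` -/
lemma good_inter (r : CoprodI A) (S T R : Set ι) (hR : ∀ i ∈ S, i ∈ T → i ∈ R)
    (hT : Good A r T) (hS : Good A r S) : Good A r R := by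
  obtain ⟨g, y, ⟨y', rfl⟩, h1⟩ := hT
  obtain ⟨k, z, hz, h2⟩ := hS
  -- `y = (g⁻¹ k) z (g⁻¹ k)⁻¹`
  have h3 : subProd A T y' = (g⁻¹ * k) * z * (g⁻¹ * k)⁻¹ := by
    have : g * subProd A T y' * g⁻¹ = k * z * k⁻¹ := h1.symm.trans h2
    calc subProd A T y' = g⁻¹ * (g * subProd A T y' * g⁻¹) * g := by group
      _ = g⁻¹ * (k * z * k⁻¹) * g := by rw [this]
      _ = _ := by group
  have h4 := congrArg (fun x => subProd A T (rtr A T x)) h3
  simp only [rtr_subProd, map_mul, map_inv] at h4
  refine ⟨g * (subProd A T (rtr A T g))⁻¹ * subProd A T (rtr A T k), subProd A T (rtr A T z),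
    retr_mem A S T R hR z hz, ?_⟩
  rw [h1, h4]
  group

end

end NFaux

theorem nfac_of : S_NF1.{u} → S_NFAC.{u} := by
  intro hN n hn A _ hA r
  classical
  -- it suffices to find `j`
  suffices H : ∃ j : Fin n, ∀ x : CoprodI (fun i : ({j}ᶜ : Set (Fin n)) => A i),
      subProd A {j}ᶜ x ∈ Subgroup.normalClosure ({r} : Set (CoprodI A)) → x = 1 by
    obtain ⟨j, hj⟩ := H
    refine ⟨Finset.univ.erase j, by simp, ?_⟩
    rw [injective_iff_map_eq_one]
    intro x hx
    rw [MonoidHom.comp_apply, QuotientGroup.mk'_apply, QuotientGroup.eq_one_iff] at hx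
    have hmem : ∀ i : (Finset.univ.erase j : Finset (Fin n)), (i : Fin n) ∈ ({j}ᶜ : Set (Fin n)) :=
      fun i => fun h => Finset.ne_of_mem_erase i.2 h
    have hmem' : ∀ i : ({j}ᶜ : Set (Fin n)), (i : Fin n) ∈ Finset.univ.erase j :=
      fun i => Finset.mem_erase.2 ⟨fun h => i.2 h, Finset.mem_univ _⟩
    set e : CoprodI (fun i : (Finset.univ.erase j : Finset (Fin n)) => A i) →*
        CoprodI (fun i : ({j}ᶜ : Set (Fin n)) => A i) :=
      CoprodI.lift (fun i => CoprodI.of (M := fun i : ({j}ᶜ : Set (Fin n)) => A i)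
        (i := ⟨i, hmem i⟩)) with he
    set e' : CoprodI (fun i : ({j}ᶜ : Set (Fin n)) => A i) →*
        CoprodI (fun i : (Finset.univ.erase j : Finset (Fin n)) => A i) :=
      CoprodI.lift (fun i => CoprodI.of
        (M := fun i : (Finset.univ.erase j : Finset (Fin n)) => A i) (i := ⟨i, hmem' i⟩)) with he'
    have h1 : ∀ x, e' (e x) = x := by
      intro x
      have : e'.comp e = MonoidHom.id _ := by
        apply CoprodI.ext_hom
        intro i
        ext a
        simp only [MonoidHom.comp_apply, MonoidHom.id_apply]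
        rw [he, CoprodI.lift_of, he', CoprodI.lift_of]
      exact DFunLike.congr_fun this x
    have h2 : subProd A {j}ᶜ (e x) = CoprodI.lift (M := fun i : (Finset.univ.erase j : Finset (Fin n)) => A i)
        (fun i => CoprodI.of (i := (i : Fin n))) x := by
      have : (subProd A {j}ᶜ).comp e =
          CoprodI.lift (M := fun i : (Finset.univ.erase j : Finset (Fin n)) => A i)
            (fun i => CoprodI.of (i := (i : Fin n))) := by
        apply CoprodI.ext_hom
        intro i
        ext a
        simp only [MonoidHom.comp_apply]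
        rw [he, CoprodI.lift_of, CoprodI.lift_of, subProd_of']
      exact DFunLike.congr_fun this x
    have h3 := hj (e x) (by rw [h2]; exact hx)
    rw [← h1 x, h3, map_one]
  -- a good set of minimal cardinality
  obtain ⟨T, hT, hTmin⟩ : ∃ T : Finset (Fin n), Good A r (T : Set (Fin n)) ∧
      ∀ T' : Finset (Fin n), Good A r (T' : Set (Fin n)) → T.card ≤ T'.card := by
    have hne : ((Finset.univ : Finset (Finset (Fin n))).filter
        fun T : Finset (Fin n) => Good A r (T : Set (Fin n))).Nonempty :=
      ⟨Finset.univ, Finset.mem_filter.2 ⟨Finset.mem_univ _, by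
        rw [Finset.coe_univ]; exact good_univ A r⟩⟩
    obtain ⟨T, hT, hm⟩ := Finset.exists_min_image _ Finset.card hne
    exact ⟨T, (Finset.mem_filter.1 hT).2, fun T' hT' => hm T' (Finset.mem_filter.2 ⟨Finset.mem_univ _, hT'⟩)⟩
  have : Nonempty (Fin n) := ⟨⟨0, hn⟩⟩
  rcases le_or_gt T.card 1 with hc | hc
  · -- at most one factor
    obtain ⟨j, hj⟩ : ∃ j : Fin n, T ⊆ ({j} : Finset (Fin n)) :=
      Finset.card_le_one_iff_subset_singleton.1 hc
    refine ⟨j, fun x hx => ?_⟩
    have h1 : rtr A ({j}ᶜ : Set (Fin n)) r = 1 := by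
      obtain ⟨g, y, ⟨y', rfl⟩, h1⟩ := hT
      rw [h1, map_mul, map_mul, map_inv, rtr_subProd_disj A ({j}ᶜ : Set (Fin n)) (T : Set (Fin n)), mul_one,
        mul_inv_cancel]
      intro i hi hi'
      exact hi' (Finset.mem_singleton.1 (hj hi))
    have h2 := map_normalClosure (rtr A ({j}ᶜ : Set (Fin n))) r _ hx
    rw [h1, rtr_subProd] at h2
    have h3 : Subgroup.normalClosure
        ({1} : Set (CoprodI (fun i : ({j}ᶜ : Set (Fin n)) => A i))) = ⊥ := by
      rw [eq_bot_iff]
      apply Subgroup.normalClosure_le_normal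
      intro y hy
      simpa using hy
    rw [h3] at h2
    exact Subgroup.mem_bot.1 h2
  · obtain ⟨j, hj⟩ : T.Nonempty := Finset.card_pos.1 (by omega)
    refine ⟨j, hN (Fin n) A hA j r ?_ ?_⟩
    · intro g x he
      have hS : Good A r ({j}ᶜ : Set (Fin n)) := ⟨g, _, ⟨x, rfl⟩, he⟩
      have := good_inter A r ({j}ᶜ : Set (Fin n)) T ((T.erase j : Finset (Fin n)) : Set (Fin n))
        (fun i hi hi' => by
          rw [Finset.mem_coe, Finset.mem_erase]
          exact ⟨by simpa using hi, by simpa using hi'⟩) hT hS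
      have h2 := hTmin _ this
      rw [Finset.card_erase_of_mem hj] at h2
      omega
    · intro g x he
      have hS : Good A r (({j} : Finset (Fin n)) : Set (Fin n)) :=
        ⟨g, _, of_mem A _ j (by simp) x, he⟩
      have h2 := hTmin _ hS
      rw [Finset.card_singleton] at h2
      omega

end Pool.Agent.H341.FS
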