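import Pool.Agent.H341.FS.Stm3

set_option autoImplicit false

/-!
# Free products of left-orderable groups are left-orderable (helper97, following Dicks and Sunic)
-/

open Monoid

namespace Pool.Agent.H341.FS

universe u

namespace LOF

variable {ι : Type} {G : ι → Type u} [∀ i, Group (G i)]

/-- signs of the elements of the factors -/
structure Sg (sg : ∀ i, G i → ℤ) : Prop where
  pm : ∀ i (g : G i), sg i g = 1 ∨ sg i g = -1
  inv : ∀ i (g : G i), g ≠ 1 → sg i g⁻¹ = -sg i g
  mul : ∀ i (g h : G i), g ≠ 1 → h ≠ 1 → g * h ≠ 1 → |sg i (g * h) - sg i g - sg i h| ≤ 1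

/-- signs of the pairs of indices -/
structure Sj (s : ι → ι → ℤ) : Prop where
  pm : ∀ p q, s p q = 1 ∨ s p q = -1
  anti : ∀ p q, p ≠ q → s q p = -s p q
  tri : ∀ p q r, p ≠ q → p ≠ r → r ≠ q → |s p q - s p r - s r q| ≤ 1

/-- the jump from the head of the first list to the head of the second list -/
def jp (s : ι → ι → ℤ) : List (Σ i, G i) → List (Σ i, G i) → ℤ
  | a :: _, b :: _ => s a.1 b.1
  | _, _ => 0

/-- the weight of a list -/
def ta (sg : ∀ i, G i → ℤ) (s : ι → ι → ℤ) : List (Σ i, G i) → ℤ
  | [] => 0
  | a :: L => sg a.1 a.2 + jp s [a] L + ta sg s L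

/-- the weight of the reversed list -/
def tr (sg : ∀ i, G i → ℤ) (s : ι → ι → ℤ) : List (Σ i, G i) → ℤ
  | [] => 0
  | a :: R => sg a.1 a.2 + jp s R [a] + tr sg s R

theorem jp_nil_left (s : ι → ι → ℤ) (L : List (Σ i, G i)) : jp s [] L = 0 := by
  cases L <;> rfl

theorem jp_nil_right (s : ι → ι → ℤ) (L : List (Σ i, G i)) : jp s L [] = 0 := by
  cases L <;> rfl

theorem jp_cons (s : ι → ι → ℤ) (a b : Σ i, G i) (L M : List (Σ i, G i)) :
    jp s (a :: L) (b :: M) = s a.1 b.1 := rfl

theorem jp_congr_right (s : ι → ι → ℤ) (R : List (Σ i, G i)) {a b : Σ i, G i} (h : a.1 = b.1)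
    (L M : List (Σ i, G i)) : jp s R (a :: L) = jp s R (b :: M) := by
  cases R with
  | nil => rfl
  | cons c R => rw [jp_cons, jp_cons, h]

theorem jp_congr_left (s : ι → ι → ℤ) (R : List (Σ i, G i)) {a b : Σ i, G i} (h : a.1 = b.1)
    (L M : List (Σ i, G i)) : jp s (a :: L) R = jp s (b :: M) R := by
  cases R with
  | nil => rfl
  | cons c R => rw [jp_cons, jp_cons, h]

theorem ta_rev_append (sg : ∀ i, G i → ℤ) (s : ι → ι → ℤ) (R L : List (Σ i, G i)) :
    ta sg s (R.reverse ++ L) = tr sg s R + ta sg s L + jp s R L := by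
  induction R generalizing L with
  | nil => simp [tr, jp_nil_left]
  | cons a R ih =>
    rw [List.reverse_cons, List.append_assoc, List.singleton_append, ih]
    show tr sg s R + (sg a.1 a.2 + jp s [a] L + ta sg s L) + jp s R (a :: L) =
      (sg a.1 a.2 + jp s R [a] + tr sg s R) + ta sg s L + jp s (a :: R) L
    rw [jp_congr_right s R rfl L [] (a := a) (b := a), jp_congr_left s L rfl [] R (a := a) (b := a)]
    ring

/-- reduced lists -/
def Rd (L : List (Σ i, G i)) : Prop :=
  (∀ l ∈ L, Sigma.snd l ≠ 1) ∧ L.IsChain fun l l' => Sigma.fst l ≠ Sigma.fst l'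

theorem Rd.tail {a : Σ i, G i} {L : List (Σ i, G i)} (h : Rd (a :: L)) : Rd L :=
  ⟨fun l hl => h.1 l (List.mem_cons_of_mem _ hl), h.2.tail⟩

theorem Rd.rev {L : List (Σ i, G i)} (h : Rd L) : Rd L.reverse := by
  refine ⟨fun l hl => h.1 l (List.mem_reverse.1 hl), ?_⟩
  rw [List.isChain_reverse]
  exact h.2.imp fun a b hab => hab.symm

theorem Rd.rev_append {R : List (Σ i, G i)} {L : List (Σ i, G i)}
    (hR : Rd R) (hL : Rd L) (h : ∀ a ∈ R.head?, ∀ b ∈ L.head?, a.1 ≠ b.1) :
    Rd (R.reverse ++ L) := by
  refine ⟨fun l hl => ?_, ?_⟩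
  · rcases List.mem_append.1 hl with h1 | h1
    · exact hR.1 l (List.mem_reverse.1 h1)
    · exact hL.1 l h1
  · refine hR.rev.2.append hL.2 ?_
    intro a ha b hb
    rw [List.getLast?_reverse] at ha
    exact h a ha b hb

/-- the product of a list -/
def pL (L : List (Σ i, G i)) : CoprodI G := (L.map fun l => CoprodI.of l.2).prod

theorem pL_cons (a : Σ i, G i) (L : List (Σ i, G i)) : pL (a :: L) = CoprodI.of a.2 * pL L := by
  simp [pL]

theorem pL_append (L M : List (Σ i, G i)) : pL (L ++ M) = pL L * pL M := by
  simp [pL]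

variable [DecidableEq ι] [∀ i, DecidableEq (G i)]

/-- the weight of an element of the free product -/
def T (sg : ∀ i, G i → ℤ) (s : ι → ι → ℤ) (x : CoprodI G) : ℤ :=
  ta sg s (CoprodI.Word.equiv x).toList

theorem T_pL (sg : ∀ i, G i → ℤ) (s : ι → ι → ℤ) {L : List (Σ i, G i)} (h : Rd L) :
    T sg s (pL L) = ta sg s L := by
  let w : CoprodI.Word G := ⟨L, h.1, h.2⟩
  have h1 : CoprodI.Word.equiv (pL L) = w := CoprodI.Word.equiv.apply_symm_apply w
  unfold T
  rw [h1]

theorem exists_list (x : CoprodI G) : ∃ L : List (Σ i, G i), Rd L ∧ pL L = x :=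
  ⟨(CoprodI.Word.equiv x).toList, ⟨(CoprodI.Word.equiv x).ne_one, (CoprodI.Word.equiv x).chain_ne⟩,
    CoprodI.Word.equiv.symm_apply_apply x⟩

theorem main {sg : ∀ i, G i → ℤ} {s : ι → ι → ℤ} (hsg : Sg sg) (hs : Sj s)
    (R L : List (Σ i, G i)) (hR : Rd R) (hL : Rd L) :
    |T sg s (pL R.reverse * pL L) - tr sg s R - ta sg s L| ≤ 1 := by
  have habs : ∀ p q, |s p q| ≤ 1 := fun p q => by
    rcases hs.pm p q with h | h <;> rw [h] <;> norm_num
  -- the case without interaction
  have hdir : ∀ R L : List (Σ i, G i), Rd R → Rd L →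
      (∀ a ∈ R.head?, ∀ b ∈ L.head?, a.1 ≠ b.1) →
      T sg s (pL R.reverse * pL L) - tr sg s R - ta sg s L = jp s R L := by
    intro R L hR hL h
    rw [← pL_append, T_pL sg s (hR.rev_append hL h), ta_rev_append]
    ring
  induction R generalizing L with
  | nil =>
    rw [hdir [] L hR hL (by simp), jp_nil_left]
    norm_num
  | cons a R ih =>
    cases L with
    | nil =>
      rw [hdir (a :: R) [] hR hL (by simp), jp_nil_right]
      norm_num
    | cons b L =>
      by_cases hab : a.1 = b.1
      · obtain ⟨i, x⟩ := a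
        obtain ⟨j, y⟩ := b
        simp only at hab
        subst hab
        have hx : x ≠ 1 := hR.1 ⟨i, x⟩ (by simp)
        have hy : y ≠ 1 := hL.1 ⟨i, y⟩ (by simp)
        have hRt := hR.tail
        have hLt := hL.tail
        have hprod : pL ((⟨i, x⟩ : Σ i, G i) :: R).reverse * pL (⟨i, y⟩ :: L) =
            pL R.reverse * (CoprodI.of (x * y) * pL L) := by
          rw [List.reverse_cons, pL_append, pL_cons, pL_cons, map_mul]
          simp [pL, mul_assoc]
        have etr : tr sg s (⟨i, x⟩ :: R) = sg i x + jp s R [⟨i, x⟩] + tr sg s R := rfl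
        have eta : ta sg s (⟨i, y⟩ :: L) = sg i y + jp s [⟨i, y⟩] L + ta sg s L := rfl
        rw [hprod, etr, eta]
        by_cases hxy : x * y = 1
        · rw [hxy, map_one, one_mul]
          have hy' : y = x⁻¹ := eq_inv_of_mul_eq_one_right hxy
          have hsum : sg i x + sg i y = 0 := by
            rw [hy', hsg.inv i x hx]
            ring
          cases R with
          | nil =>
            have h0 := hdir [] L hRt hLt (by simp)
            rw [jp_nil_left] at h0
            rw [jp_nil_left]
            have h1 : |jp s [(⟨i, y⟩ : Σ i, G i)] L| ≤ 1 := by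
              cases L with
              | nil => rw [jp_nil_right]; norm_num
              | cons d L => rw [jp_cons]; exact habs _ _
            rw [abs_le] at h1 ⊢
            constructor <;> linarith [h1.1, h1.2]
          | cons c R =>
            cases L with
            | nil =>
              have h0 := hdir (c :: R) [] hRt hLt (by simp)
              rw [jp_nil_right] at h0
              rw [jp_nil_right, jp_cons]
              have h1 := habs c.1 i
              rw [abs_le] at h1 ⊢
              constructor <;> linarith [h1.1, h1.2]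
            | cons d L =>
              have hci : i ≠ c.1 := by
                have h2 := hR.2
                rw [List.isChain_cons_cons] at h2
                exact h2.1
              have hid : i ≠ d.1 := by
                have h2 := hL.2
                rw [List.isChain_cons_cons] at h2
                exact h2.1
              rw [jp_cons, jp_cons]
              by_cases hcd : c.1 = d.1
              · have h0 := ih (d :: L) hRt hLt
                have h1 : s i d.1 = -s c.1 i := by
                  rw [← hcd]
                  exact hs.anti c.1 i hci.symm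
                simp only [h1]
                rw [abs_le] at h0 ⊢
                constructor <;> linarith [h0.1, h0.2]
              · have h0 := hdir (c :: R) (d :: L) hRt hLt (by
                  intro a ha b hb
                  simp only [List.head?_cons, Option.mem_def, Option.some.injEq] at ha hb
                  rw [← ha, ← hb]
                  exact hcd)
                rw [jp_cons] at h0
                have h1 := hs.tri c.1 d.1 i hcd hci.symm hid
                rw [abs_le] at h1 ⊢
                simp only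
                constructor <;> linarith [h1.1, h1.2]
        · have hL' : Rd ((⟨i, x * y⟩ : Σ i, G i) :: L) := by
            refine ⟨?_, ?_⟩
            · intro l hl
              rcases List.mem_cons.1 hl with h1 | h1
              · rw [h1]; exact hxy
              · exact hLt.1 l h1
            · cases L with
              | nil => exact List.isChain_singleton _
              | cons d L =>
                have h2 := hL.2
                rw [List.isChain_cons_cons] at h2 ⊢
                exact h2
          have h0 := hdir R (⟨i, x * y⟩ :: L) hRt hL' (by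
            intro a ha b hb
            cases R with
            | nil => simp at ha
            | cons c R =>
              simp only [List.head?_cons, Option.mem_def, Option.some.injEq] at ha hb
              rw [← ha, ← hb]
              have h2 := hR.2
              rw [List.isChain_cons_cons] at h2
              exact h2.1.symm)
          rw [pL_cons] at h0
          have eta' : ta sg s (⟨i, x * y⟩ :: L) =
            sg i (x * y) + jp s [⟨i, x * y⟩] L + ta sg s L := rfl
          rw [eta', jp_congr_left s L (a := ⟨i, x * y⟩) (b := ⟨i, y⟩) rfl [] [],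
            jp_congr_right s R (a := ⟨i, x * y⟩) (b := ⟨i, x⟩) rfl L []] at h0
          have h1 := hsg.mul i x y hx hy hxy
          rw [abs_le] at h1 ⊢
          constructor <;> linarith [h1.1, h1.2]
      · rw [hdir (a :: R) (b :: L) hR hL (by
          intro a' ha b' hb
          simp only [List.head?_cons, Option.mem_def, Option.some.injEq] at ha hb
          rw [← ha, ← hb]
          exact hab), jp_cons]
        exact habs _ _

theorem T_mul {sg : ∀ i, G i → ℤ} {s : ι → ι → ℤ} (hsg : Sg sg) (hs : Sj s) (x y : CoprodI G) :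
    |T sg s (x * y) - T sg s x - T sg s y| ≤ 1 := by
  obtain ⟨L, hL, rfl⟩ := exists_list x
  obtain ⟨M, hM, rfl⟩ := exists_list y
  have h1 := main hsg hs L.reverse M hL.rev hM
  have h2 := ta_rev_append sg s L.reverse []
  rw [List.reverse_reverse, List.append_nil, jp_nil_right] at h2
  have h3 : ta sg s ([] : List (Σ i, G i)) = 0 := rfl
  rw [List.reverse_reverse] at h1
  rw [T_pL sg s hL, T_pL sg s hM, h2, h3, add_zero, add_zero]
  exact h1

theorem ta_odd {sg : ∀ i, G i → ℤ} {s : ι → ι → ℤ} (hsg : Sg sg) (hs : Sj s)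
    (a : Σ i, G i) (L : List (Σ i, G i)) : Odd (ta sg s (a :: L)) := by
  have h1 : ∀ n : ℤ, n = 1 ∨ n = -1 → Odd n := by
    rintro n (rfl | rfl)
    · exact odd_one
    · exact odd_neg.2 odd_one
  induction L generalizing a with
  | nil =>
    show Odd (sg a.1 a.2 + jp s [a] [] + 0)
    rw [jp_nil_right, add_zero, add_zero]
    exact h1 _ (hsg.pm _ _)
  | cons b L ih =>
    show Odd (sg a.1 a.2 + jp s [a] (b :: L) + ta sg s (b :: L))
    rw [jp_cons]
    exact ((h1 _ (hsg.pm a.1 a.2)).add_odd (h1 _ (hs.pm a.1 b.1))).add_odd (ih b)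

theorem T_odd {sg : ∀ i, G i → ℤ} {s : ι → ι → ℤ} (hsg : Sg sg) (hs : Sj s) {x : CoprodI G}
    (hx : x ≠ 1) : Odd (T sg s x) := by
  obtain ⟨L, hL, rfl⟩ := exists_list x
  rw [T_pL sg s hL]
  cases L with
  | nil => exact absurd (by simp [pL]) hx
  | cons a L => exact ta_odd hsg hs a L

theorem T_one (sg : ∀ i, G i → ℤ) (s : ι → ι → ℤ) : T sg s (1 : CoprodI G) = 0 := by
  have h1 : (1 : CoprodI G) = pL [] := by simp [pL]
  rw [h1, T_pL sg s ⟨by simp, List.isChain_nil⟩]
  rfl

end LOF

/-- a left order from a positive cone -/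
theorem lo_of_cone {H : Type u} [Group H] (P : H → Prop) (h1 : ¬ P 1)
    (hmul : ∀ x y, P x → P y → P (x * y)) (htot : ∀ x, x ≠ 1 → P x ∨ P x⁻¹) : LO H := by
  classical
  refine ⟨{ le := fun x y => x = y ∨ P (x⁻¹ * y)
            lt := fun x y => P (x⁻¹ * y)
            le_refl := fun x => Or.inl rfl
            le_trans := ?_
            le_antisymm := ?_
            le_total := ?_
            lt_iff_le_not_ge := ?_
            toDecidableLE := fun _ _ => Classical.propDecidable _ }, ?_⟩
  · rintro x y z (rfl | hxy) (rfl | hyz)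
    · exact Or.inl rfl
    · exact Or.inr hyz
    · exact Or.inr hxy
    · right
      have := hmul _ _ hxy hyz
      rwa [show x⁻¹ * y * (y⁻¹ * z) = x⁻¹ * z by group] at this
  · intro x y
    constructor
    · intro hxy
      refine ⟨Or.inr hxy, ?_⟩
      rintro (rfl | hyx)
      · rw [inv_mul_cancel] at hxy
        exact h1 hxy
      · apply h1
        have := hmul _ _ hxy hyx
        rwa [show x⁻¹ * y * (y⁻¹ * x) = 1 by group] at this
    · rintro ⟨rfl | hxy, hn⟩
      · exact absurd (Or.inl rfl) hn
      · exact hxy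
  · rintro x y (rfl | hxy) (hyx | hyx)
    · rfl
    · rfl
    · exact hyx.symm
    · exfalso
      apply h1
      have := hmul _ _ hxy hyx
      rwa [show x⁻¹ * y * (y⁻¹ * x) = 1 by group] at this
  · intro x y
    by_cases hxy : x = y
    · exact Or.inl (Or.inl hxy)
    · rcases htot (x⁻¹ * y) (fun h => hxy (by
        rw [inv_mul_eq_one] at h
        exact h)) with h | h
      · exact Or.inl (Or.inr h)
      · right; right
        rwa [show (x⁻¹ * y)⁻¹ = y⁻¹ * x by group] at h
  · intro x y z hxy
    show P ((z * x)⁻¹ * (z * y))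
    have hxy' : P (x⁻¹ * y) := hxy
    rwa [show (z * x)⁻¹ * (z * y) = x⁻¹ * y by group]

open LOF in
theorem s_lof : S_LOF.{u} := by
  classical
  intro ι _ G _ hG
  choose lo hlo using hG
  set sg : ∀ i, G i → ℤ := fun i g => if (lo i).lt 1 g then 1 else -1 with hsgd
  have hpos : ∀ i (g : G i), (lo i).lt 1 g → sg i g = 1 := fun i g h => if_pos h
  have hneg : ∀ i (g : G i), ¬ (lo i).lt 1 g → sg i g = -1 := fun i g h => if_neg h
  have hlt : ∀ i (g : G i), g ≠ 1 → ¬ (lo i).lt 1 g → (lo i).lt g 1 := by
    intro i g hg h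
    letI := lo i
    exact lt_of_le_of_ne (not_lt.1 h) hg
  have hasy : ∀ i (g h : G i), (lo i).lt g h → ¬ (lo i).lt h g := by
    intro i g h h1 h2
    letI := lo i
    exact lt_asymm h1 h2
  have htr : ∀ i (g h k : G i), (lo i).lt g h → (lo i).lt h k → (lo i).lt g k := by
    intro i g h k h1 h2
    letI := lo i
    exact lt_trans h1 h2
  have hsg : Sg sg := by
    refine ⟨?_, ?_, ?_⟩
    · intro i g
      by_cases h : (lo i).lt 1 g
      · exact Or.inl (hpos i g h)
      · exact Or.inr (hneg i g h)
    · intro i g hg
      by_cases h : (lo i).lt 1 g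
      · rw [hpos i g h, hneg i g⁻¹]
        intro h2
        have h3 := hlo i _ _ g⁻¹ h
        rw [mul_one, inv_mul_cancel] at h3
        exact hasy i _ _ h2 h3
      · rw [hneg i g h, hpos i g⁻¹]
        · norm_num
        · have h3 := hlo i _ _ g⁻¹ (hlt i g hg h)
          rw [mul_one, inv_mul_cancel] at h3
          exact h3
    · intro i g h hg hh hgh
      have hpm : sg i (g * h) = 1 ∨ sg i (g * h) = -1 := by
        by_cases h : (lo i).lt 1 (g * h)
        · exact Or.inl (hpos i _ h)
        · exact Or.inr (hneg i _ h)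
      by_cases h1 : (lo i).lt 1 g
      · by_cases h2 : (lo i).lt 1 h
        · have h3 := hlo i _ _ g h2
          rw [mul_one] at h3
          rw [hpos i g h1, hpos i h h2, hpos i _ (htr i _ _ _ h1 h3)]
          norm_num
        · rw [hpos i g h1, hneg i h h2]
          rcases hpm with h3 | h3 <;> rw [h3] <;> norm_num
      · by_cases h2 : (lo i).lt 1 h
        · rw [hneg i g h1, hpos i h h2]
          rcases hpm with h3 | h3 <;> rw [h3] <;> norm_num
        · have h3 := hlo i _ _ g (hlt i h hh h2)
          rw [mul_one] at h3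
          rw [hneg i g h1, hneg i h h2, hneg i _ (hasy i _ _ (htr i _ _ _ h3 (hlt i g hg h1)))]
          norm_num
  letI : LinearOrder ι := linearOrderOfSTO (WellOrderingRel : ι → ι → Prop)
  set s : ι → ι → ℤ := fun p q => if p < q then 1 else -1 with hsd
  have hs : Sj s := by
    refine ⟨?_, ?_, ?_⟩
    · intro p q
      simp only [hsd]
      split_ifs
      · exact Or.inl rfl
      · exact Or.inr rfl
    · intro p q hpq
      simp only [hsd]
      rcases lt_or_gt_of_ne hpq with h | h
      · rw [if_pos h, if_neg (lt_asymm h)]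
      · rw [if_pos h, if_neg (lt_asymm h), neg_neg]
    · intro p q r hpq hpr hrq
      simp only [hsd]
      rcases lt_or_gt_of_ne hpq with h | h <;> rcases lt_or_gt_of_ne hpr with h' | h' <;>
        rcases lt_or_gt_of_ne hrq with h'' | h''
      · rw [if_pos h, if_pos h', if_pos h'']; norm_num
      · rw [if_pos h, if_pos h', if_neg (lt_asymm h'')]; norm_num
      · rw [if_pos h, if_neg (lt_asymm h'), if_pos h'']; norm_num
      · exact absurd (h''.trans h') (lt_asymm h)
      · exact absurd (h'.trans h'') (lt_asymm h)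
      · rw [if_neg (lt_asymm h), if_pos h', if_neg (lt_asymm h'')]; norm_num
      · rw [if_neg (lt_asymm h), if_neg (lt_asymm h'), if_pos h'']; norm_num
      · rw [if_neg (lt_asymm h), if_neg (lt_asymm h'), if_neg (lt_asymm h'')]; norm_num
  refine lo_of_cone (fun x : CoprodI G => 0 < T sg s x) ?_ ?_ ?_
  · rw [T_one]; exact lt_irrefl _
  · intro x y hx hy
    have h1 := T_mul hsg hs x y
    rw [abs_le] at h1
    show 0 < T sg s (x * y)
    have hx' : 0 < T sg s x := hx
    have hy' : 0 < T sg s y := hy
    omega
  · intro x hx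
    have h1 := T_mul hsg hs x x⁻¹
    rw [mul_inv_cancel, T_one, abs_le] at h1
    obtain ⟨a, ha⟩ := T_odd hsg hs hx
    obtain ⟨b, hb⟩ := T_odd hsg hs (inv_ne_one.2 hx)
    show 0 < T sg s x ∨ 0 < T sg s x⁻¹
    omega

end Pool.Agent.H341.FS
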