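import Pool.Agent.H341.FS.Mi
import Pool.Agent.H341.FS.FS_CYC
import Pool.Agent.H341.FS.FS_LOF

set_option autoImplicit false

/-!
# The Freiheitssatz for left-orderable factors
-/

namespace Pool.Agent.H341.FS

universe u

theorem s_mi : S_MI.{u} := mi_main s_cyc

theorem s_frei : S_FREI.{u} := frei_main s_cyc

end Pool.Agent.H341.FS
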