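import Pool.Agent.H341.FS.Asph5
import Pool.Agent.H341.FS.FS_AMI
import Pool.Agent.H341.FS.FS_FREIC
import Pool.Agent.H341.FS.FS_NFAC
import Pool.Agent.H341.FS.Frei

set_option autoImplicit false

/-!
# Summary of the results on one-relator products of left-orderable groups
-/

namespace Pool.Agent.H341.FS

universe u

theorem s_ami : S_AMI.{u} := ami_of s_aspw

theorem s_acop : S_ACOP.{u} := acop_of s_ami

theorem s_ord : S_ORD.{u} := ord_of s_acop

theorem s_freic : S_FREIC.{u} := freic_of s_frei

theorem s_nf1 : S_NF1.{u} := nf1_of s_frei s_lof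

theorem s_nfac : S_NFAC.{u} := nfac_of s_nf1

end Pool.Agent.H341.FS
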