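import Pool.Agent.H341.FS.FS_FREIC
import Pool.Agent.H341.FS.Asph

set_option autoImplicit false

/-!
# The coefficient version: order of the relator
-/

namespace Pool.Agent.H341.FS

open Monoid Function

universe u

/-- the quotient of `A₀ * B₀` embeds in the quotient of `A * B` -/
theorem coeff_embed (A B : Type u) [Group A] [Group B] (A₀ : Subgroup A) (B₀ : Subgroup B)
    (hA : LO A₀) (hB : LO B₀) (r₀ : Coprod A₀ B₀)
    (hrA : ∀ (g : Coprod A B) (a : A), Coprod.map A₀.subtype B₀.subtype r₀ ≠ g * Coprod.inl a * g⁻¹)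
    (hrB : ∀ (g : Coprod A B) (b : B), Coprod.map A₀.subtype B₀.subtype r₀ ≠ g * Coprod.inr b * g⁻¹)
    (m : ℕ) (hm : 1 ≤ m) (x : Coprod A₀ B₀)
    (hx : Coprod.map A₀.subtype B₀.subtype x ∈ Subgroup.normalClosure
      ({(Coprod.map A₀.subtype B₀.subtype r₀) ^ m} : Set (Coprod A B))) :
    x ∈ Subgroup.normalClosure ({r₀ ^ m} : Set (Coprod A₀ B₀)) := by
  have hfrei := s_frei.{u}
  let φ : Coprod A₀ B₀ →* Coprod A B := Coprod.map A₀.subtype B₀.subtype
  have hφl : ∀ a : A₀, φ (Coprod.inl a) = Coprod.inl (a : A) := fun a => by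
    show Coprod.map A₀.subtype B₀.subtype (Coprod.inl a) = _
    rw [Coprod.map_apply_inl]
    rfl
  have hφr : ∀ b : B₀, φ (Coprod.inr b) = Coprod.inr (b : B) := fun b => by
    show Coprod.map A₀.subtype B₀.subtype (Coprod.inr b) = _
    rw [Coprod.map_apply_inr]
    rfl
  set r : Coprod A B := φ r₀ with hr₀'
  have hr₀ : φ r₀ = r := rfl
  have h0 := hfrei A₀ B₀ hA hB r₀ ?_ ?_ m hm
  · obtain ⟨hl, hr'⟩ := h0
    set N₀ := Subgroup.normalClosure ({r₀ ^ m} : Set (Coprod A₀ B₀)) with hN₀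
    obtain ⟨P₁, gP₁, i₁, i₂, hi₁, hi₂, hi⟩ := exists_amalgam A₀ A (Coprod A₀ B₀ ⧸ N₀)
      A₀.subtype ((QuotientGroup.mk' N₀).comp Coprod.inl) A₀.subtype_injective hl
    have hinj : Injective (i₂.comp ((QuotientGroup.mk' N₀).comp (Coprod.inr : B₀ →* Coprod A₀ B₀))) :=
      hi₂.comp hr'
    obtain ⟨P₂, gP₂, j₁, j₂, hj₁, hj₂, hj⟩ := exists_amalgam B₀ B P₁
      B₀.subtype (i₂.comp ((QuotientGroup.mk' N₀).comp Coprod.inr)) B₀.subtype_injective hinj
    let Ψ : Coprod A B →* P₂ := Coprod.lift (j₂.comp i₁) j₁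
    have hΨl : ∀ a : A, Ψ (Coprod.inl a) = j₂ (i₁ a) := fun a => by
      show Coprod.lift (j₂.comp i₁) j₁ (Coprod.inl a) = _
      rw [Coprod.lift_apply_inl]
      rfl
    have hΨr : ∀ b : B, Ψ (Coprod.inr b) = j₁ b := fun b => by
      show Coprod.lift (j₂.comp i₁) j₁ (Coprod.inr b) = _
      rw [Coprod.lift_apply_inr]
    have hΨ : Ψ.comp φ = j₂.comp (i₂.comp (QuotientGroup.mk' N₀)) := by
      apply Coprod.hom_ext
      · ext a
        show Ψ (φ (Coprod.inl a)) = j₂ (i₂ (QuotientGroup.mk' N₀ (Coprod.inl a)))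
        rw [hφl, hΨl]
        exact congrArg j₂ (DFunLike.congr_fun hi a)
      · ext b
        show Ψ (φ (Coprod.inr b)) = j₂ (i₂ (QuotientGroup.mk' N₀ (Coprod.inr b)))
        rw [hφr, hΨr]
        exact DFunLike.congr_fun hj b
    have hker : Ψ (r ^ m) = 1 := by
      rw [← hr₀, ← map_pow]
      have h1 := DFunLike.congr_fun hΨ (r₀ ^ m)
      have h2 : QuotientGroup.mk' N₀ (r₀ ^ m) = 1 := by
        rw [QuotientGroup.mk'_apply, QuotientGroup.eq_one_iff]
        exact Subgroup.subset_normalClosure rfl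
      have h3 : (j₂.comp (i₂.comp (QuotientGroup.mk' N₀))) (r₀ ^ m) = 1 := by
        show j₂ (i₂ (QuotientGroup.mk' N₀ (r₀ ^ m))) = 1
        rw [h2, map_one, map_one]
      exact h1.trans h3
    have hle : Subgroup.normalClosure ({r ^ m} : Set (Coprod A B)) ≤ Ψ.ker := by
      apply Subgroup.normalClosure_le_normal
      intro x hx
      rw [Set.mem_singleton_iff] at hx
      rw [hx]
      exact hker
    have h2 : Ψ (φ x) = 1 := hle hx
    have h3 := DFunLike.congr_fun hΨ x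
    have h4 : j₂ (i₂ (QuotientGroup.mk' N₀ x)) = 1 := h3.symm.trans h2
    have h5 : QuotientGroup.mk' N₀ x = 1 := hi₂ (hj₂ (by rw [h4, map_one, map_one]))
    rw [QuotientGroup.mk'_apply, QuotientGroup.eq_one_iff] at h5
    exact h5
  · intro g a h
    refine hrA (φ g) (a : A) ?_
    rw [← hr₀, h, map_mul, map_mul, map_inv, hφl]
  · intro g b h
    refine hrB (φ g) (b : B) ?_
    rw [← hr₀, h, map_mul, map_mul, map_inv, hφr]


theorem frei_full (A B : Type u) [Group A] [Group B] (A₀ : Subgroup A) (B₀ : Subgroup B)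
    (hA : LO A₀) (hB : LO B₀) (r : Coprod A B)
    (hr : r ∈ A₀.map (Coprod.inl : A →* Coprod A B) ⊔ B₀.map (Coprod.inr : B →* Coprod A B))
    (hrA : ∀ (g : Coprod A B) (a : A), r ≠ g * Coprod.inl a * g⁻¹)
    (hrB : ∀ (g : Coprod A B) (b : B), r ≠ g * Coprod.inr b * g⁻¹)
    (m : ℕ) (hm : 1 ≤ m) :
    Injective ((QuotientGroup.mk' (Subgroup.normalClosure ({r ^ m} : Set (Coprod A B)))).comp
        (Coprod.inl : A →* Coprod A B)) ∧
      Injective ((QuotientGroup.mk' (Subgroup.normalClosure ({r ^ m} : Set (Coprod A B)))).comp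
        (Coprod.inr : B →* Coprod A B)) ∧
      ((∀ (s : Coprod A B) (k : ℕ), 2 ≤ k → s ^ k ≠ r) →
        orderOf (QuotientGroup.mk' (Subgroup.normalClosure ({r ^ m} : Set (Coprod A B))) r) = m) := by
  obtain ⟨h1, h2⟩ := s_freic A B A₀ B₀ hA hB r hr hrA hrB m hm
  refine ⟨h1, h2, fun hpow => ?_⟩
  let φ : Coprod A₀ B₀ →* Coprod A B := Coprod.map A₀.subtype B₀.subtype
  have hφl : ∀ a : A₀, φ (Coprod.inl a) = Coprod.inl (a : A) := fun a => by
    show Coprod.map A₀.subtype B₀.subtype (Coprod.inl a) = _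
    rw [Coprod.map_apply_inl]
    rfl
  have hφr : ∀ b : B₀, φ (Coprod.inr b) = Coprod.inr (b : B) := fun b => by
    show Coprod.map A₀.subtype B₀.subtype (Coprod.inr b) = _
    rw [Coprod.map_apply_inr]
    rfl
  have hrange : A₀.map (Coprod.inl : A →* Coprod A B) ⊔ B₀.map (Coprod.inr : B →* Coprod A B) ≤
      φ.range := by
    refine sup_le ?_ ?_
    · rintro _ ⟨a, ha, rfl⟩
      exact ⟨Coprod.inl ⟨a, ha⟩, hφl ⟨a, ha⟩⟩
    · rintro _ ⟨b, hb, rfl⟩
      exact ⟨Coprod.inr ⟨b, hb⟩, hφr ⟨b, hb⟩⟩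
  obtain ⟨r₀, hr₀⟩ := hrange hr
  subst hr₀
  set N := Subgroup.normalClosure ({(φ r₀) ^ m} : Set (Coprod A B)) with hN
  have hmk : ∀ n : ℕ, (QuotientGroup.mk' N (φ r₀)) ^ n = 1 ↔ (φ r₀) ^ n ∈ N := by
    intro n
    rw [← map_pow (QuotientGroup.mk' N) (φ r₀) n, QuotientGroup.mk'_apply, QuotientGroup.eq_one_iff]
  apply Nat.dvd_antisymm
  · apply orderOf_dvd_of_pow_eq_one
    rw [hmk]
    exact Subgroup.subset_normalClosure rfl
  · set j := orderOf (QuotientGroup.mk' N (φ r₀)) with hj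
    have h3 := pow_orderOf_eq_one (QuotientGroup.mk' N (φ r₀))
    rw [← hj, hmk, ← map_pow φ r₀ j] at h3
    have h4 := coeff_embed A B A₀ B₀ hA hB r₀ hrA hrB m hm (r₀ ^ j) h3
    have h5 := s_ord A₀ B₀ hA hB r₀ ?_ ?_ ?_ (m : ℤ) (j : ℤ) (by
      rw [zpow_natCast, zpow_natCast]; exact h4)
    · exact_mod_cast h5
    · intro g a h
      refine hrA (φ g) (a : A) ?_
      show φ r₀ = _
      rw [h, map_mul, map_mul, map_inv, hφl]
    · intro g b h
      refine hrB (φ g) (b : B) ?_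
      show φ r₀ = _
      rw [h, map_mul, map_mul, map_inv, hφr]
    · intro s n hn h
      apply hpow (φ s) n hn
      rw [← map_pow, h]

end Pool.Agent.H341.FS
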