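import Pool.Agent.H341.FS.Star

set_option autoImplicit false

/-!
# The counting step, main inequality
-/

namespace Pool.Agent.H341.FS

open Finset Module

universe u

section
variable {P : Type u} [Group P] {k : ℕ} [NeZero k] (a b : ZMod k → P) (S : Set P)
  (hS1 : ∀ s ∈ S, ∀ t ∈ S, s * t ∈ S) (hS2 : (1 : P) ∉ S)
  (hS3 : ∀ s ∈ S, wd a b * s ∈ S ∧ (wd a b)⁻¹ * s ∈ S ∧ s * wd a b ∈ S ∧ s * (wd a b)⁻¹ ∈ S)
  (hS4 : ∀ p q, p ≠ q → pre a b p * (pre a b q)⁻¹ ∈ S ∨ pre a b q * (pre a b p)⁻¹ ∈ S)

include hS1 hS2 hS3 hS4 in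
theorem star_core {E X F : Type} [Fintype E] [Fintype X] [Fintype F] [DecidableEq E] [DecidableEq X]
    (v : Bool → E → X) (U : Bool → E → P) (ed : F → ZMod k × Bool → E) (bad : Bool × X → Prop)
    (hv : ∀ f p, v p.2 (ed f (nxt p)) = v p.2 (ed f p))
    (hU : ∀ f p, ¬ bad (p.2, v p.2 (ed f p)) → U p.2 (ed f (nxt p)) = U p.2 (ed f p) * ltr a b p)
    (hinj : ∀ p f f', ed f p = ed f' p → f = f')
    (es : Finset E) (fs : Finset F) (hfs : ∀ f ∈ fs, ∀ p, ed f p ∈ es)
    (hA : ∀ e ∈ es, ∃ f ∈ fs, ∃ p, ed f p = e)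
    (hB : ∀ f ∈ fs, ∀ p, ∃ f' ∈ fs, ∃ p', ed f' p' = ed f p ∧ (f' = f → p' ≠ p))
    (V : Finset (Bool × X)) (hV : ∀ y ∈ V, ¬ bad y ∧ ∃ e ∈ es, v y.1 e = y.2) :
    V.card + fs.card ≤ es.card := by
  classical
  -- top strands
  let top : F → ZMod k × Bool → Prop := fun f p =>
    ∀ f' ∈ fs, ∀ p', ed f' p' = ed f p → ¬ (f' = f ∧ p' = p) → pre a b p' * (pre a b p)⁻¹ ∈ S
  let Uf : F → Finset (ZMod k × Bool) := fun f => Finset.univ.filter (fun p => top f p)
  have memUf : ∀ f p, p ∈ Uf f ↔ top f p := by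
    intro f p; simp [Uf]
  have asym : ∀ p q : ZMod k × Bool, pre a b p * (pre a b q)⁻¹ ∈ S →
      pre a b q * (pre a b p)⁻¹ ∈ S → False := by
    intro p q h1 h2
    have := hS1 _ h1 _ h2
    simp at this
    exact hS2 this
  -- every edge has a top strand
  have htop : ∀ e ∈ es, ∃ f ∈ fs, ∃ p, ed f p = e ∧ top f p := by
    intro e he
    obtain ⟨f0, hf0, p0, h0⟩ := hA e he
    obtain ⟨⟨f, p⟩, hfp, hmax⟩ := exists_top (P := P) S hS1 hS2
      ((fs ×ˢ (Finset.univ : Finset (ZMod k × Bool))).filter (fun q => ed q.1 q.2 = e))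
      ⟨(f0, p0), by simp [hf0, h0]⟩ (fun q => (pre a b q.2)⁻¹)
    simp only [Finset.mem_filter, Finset.mem_product, Finset.mem_univ, and_true] at hfp
    refine ⟨f, hfp.1, p, hfp.2, fun f' hf' p' h' hne => ?_⟩
    have hpp : p' ≠ p := by
      rintro rfl
      exact hne ⟨hinj _ _ _ h', rfl⟩
    rcases hS4 p' p hpp with h3 | h3
    · exact h3
    · exfalso
      apply hmax (f', p')
      · simp only [Finset.mem_filter, Finset.mem_product, Finset.mem_univ, and_true]
        exact ⟨hf', h'.trans hfp.2⟩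
      · simpa using h3
  have posne : (Finset.univ : Finset (ZMod k × Bool)).Nonempty := ⟨(0, false), Finset.mem_univ _⟩
  -- the number of top strands
  have hT : ∑ f ∈ fs, (Uf f).card ≤ es.card := by
    rw [← Finset.card_sigma]
    apply Finset.card_le_card_of_injOn (fun q => ed q.1 q.2)
    · intro q hq
      simp only [Finset.coe_sigma, Set.mem_sigma_iff, Finset.mem_coe] at hq
      exact hfs _ hq.1 _
    · rintro ⟨f, p⟩ hq ⟨f', p'⟩ hq' hqq
      simp only [Finset.coe_sigma, Set.mem_sigma_iff, Finset.mem_coe, memUf] at hq hq'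
      simp only at hqq
      by_contra hne
      have hne2 : ¬ (f' = f ∧ p' = p) := by
        rintro ⟨rfl, rfl⟩
        exact hne rfl
      have hne3 : ¬ (f = f' ∧ p = p') := by
        rintro ⟨rfl, rfl⟩
        exact hne rfl
      exact asym _ _ (hq.2 f' hq'.1 p' hqq.symm hne2) (hq'.2 f hq.1 p hqq hne3)
  have hUf : ∀ f ∈ fs, ((Uf f).filter (fun p => nxt p ∈ Uf f)).card + 1 ≤ (Uf f).card := by
    intro f hf
    apply card_nxt_lt
    · obtain ⟨p, _, hp⟩ := exists_top (P := P) S hS1 hS2 (Finset.univ : Finset (ZMod k × Bool)) posne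
        (fun q => (pre a b q)⁻¹)
      refine ⟨p, (memUf f p).2 ?_⟩
      intro f' hf' p' h' hne
      have hpp : p' ≠ p := by
        rintro rfl
        exact hne ⟨hinj _ _ _ h', rfl⟩
      rcases hS4 p' p hpp with h3 | h3
      · exact h3
      · exfalso
        apply hp p' (Finset.mem_univ _)
        simpa using h3
    · -- the lowest position is never on top
      by_contra hall
      push Not at hall
      have hbot : ∃ p : ZMod k × Bool, ∀ q, q ≠ p → pre a b p * (pre a b q)⁻¹ ∈ S := by
        by_contra hcon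
        push Not at hcon
        have hcon2 : ∀ p : ZMod k × Bool, ∃ q, pre a b q * (pre a b p)⁻¹ ∈ S := by
          intro p
          obtain ⟨q, hq1, hq2⟩ := hcon p
          exact ⟨q, (hS4 p q (Ne.symm hq1)).resolve_left hq2⟩
        choose g hg using hcon2
        -- use exists_top for the opposite semigroup
        have h7 : ∀ T : Finset (ZMod k × Bool), T.Nonempty →
            ∃ i ∈ T, ∀ j ∈ T, pre a b j * (pre a b i)⁻¹ ∉ S := by
          intro T hT0
          have := exists_top (P := P) (S := {x | x⁻¹ ∈ S})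
            (by
              intro s hs t ht
              simp only [Set.mem_setOf_eq, mul_inv_rev] at hs ht ⊢
              exact hS1 _ ht _ hs)
            (by simpa using hS2) T hT0 (fun q => (pre a b q)⁻¹)
          obtain ⟨i, hi, hi2⟩ := this
          refine ⟨i, hi, fun j hj hj2 => hi2 j hj ?_⟩
          simpa using hj2
        obtain ⟨i, _, hi⟩ := h7 Finset.univ posne
        exact hi (g i) (Finset.mem_univ _) (hg i)
      obtain ⟨p, hp⟩ := hbot
      obtain ⟨f', hf', p', h', hne⟩ := hB f hf p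
      have hne2 : ¬ (f' = f ∧ p' = p) := fun h => hne h.1 h.2
      have hpp : p' ≠ p := by
        rintro rfl
        exact hne2 ⟨hinj _ _ _ h', rfl⟩
      have h8 := (memUf f p).1 (hall p) f' hf' p' h' hne2
      exact asym _ _ h8 (hp p' hpp)
  -- the used nonexceptional vertices
  have hVcard : V.card ≤ ∑ f ∈ fs, ((Uf f).filter (fun p => nxt p ∈ Uf f)).card := by
    rw [← Finset.card_sigma]
    refine le_trans (Finset.card_le_card (t := (fs.sigma (fun f => (Uf f).filter
      (fun p => nxt p ∈ Uf f))).image (fun q => (q.2.2, v q.2.2 (ed q.1 q.2)))) ?_)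
      Finset.card_image_le
    rintro ⟨s, x⟩ hy
    obtain ⟨hexc, e0, he0, hx⟩ := hV _ hy
    obtain ⟨f0, hf0, p0, hp0, ht0⟩ := htop e0 he0
    obtain ⟨⟨f, p⟩, hfp, hmax⟩ := exists_top (P := P) S hS1 hS2
      ((fs ×ˢ (Finset.univ : Finset (ZMod k × Bool))).filter
        (fun q => v s (ed q.1 q.2) = x ∧ top q.1 q.2))
      ⟨(f0, p0), by simp only [Finset.mem_filter, Finset.mem_product, Finset.mem_univ, and_true];
                    exact ⟨hf0, by rw [hp0]; exact hx, ht0⟩⟩
      (fun q => U s (ed q.1 q.2) * (pre a b q.2)⁻¹)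
    simp only [Finset.mem_filter, Finset.mem_product, Finset.mem_univ, and_true] at hfp
    -- the partner
    have hcorner : ∃ q, q.2 = s ∧ ((p = q) ∨ (p = nxt q)) := by
      by_cases hs : p.2 = s
      · exact ⟨p, hs, Or.inl rfl⟩
      · obtain ⟨q, hq⟩ := nxt_surj p
        refine ⟨q, ?_, Or.inr hq.symm⟩
        have h9 := nxt_snd q
        rw [hq] at h9
        revert h9 hs
        cases q.2 <;> cases p.2 <;> cases s <;> simp
    obtain ⟨q, hqs, hpq⟩ := hcorner
    have hvq := hv f q
    rw [hqs] at hvq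
    have hxq : v s (ed f q) = x := by
      rcases hpq with rfl | rfl
      · exact hfp.2.1
      · rw [← hvq]; exact hfp.2.1
    have hxnq : v s (ed f (nxt q)) = x := by rw [hvq]; exact hxq
    have hUq := hU f q (by rw [hqs, hxq]; exact hexc)
    rw [hqs] at hUq
    -- heights of the two strands of the corner agree modulo w
    have hh : ∀ z : P, ((U s (ed f q) * (pre a b q)⁻¹)⁻¹ * z ∈ S ↔
        (U s (ed f (nxt q)) * (pre a b (nxt q))⁻¹)⁻¹ * z ∈ S) := by
      intro z
      rcases pre_nxt a b q with h10 | h10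
      · have h11 : U s (ed f (nxt q)) * (pre a b (nxt q))⁻¹ = U s (ed f q) * (pre a b q)⁻¹ := by
          rw [h10, hUq]; group
        rw [h11]
      · have h11 : (U s (ed f (nxt q)) * (pre a b (nxt q))⁻¹)⁻¹ =
            (wd a b)⁻¹ * (U s (ed f q) * (pre a b q)⁻¹)⁻¹ := by
          have h12 : pre a b (nxt q) = (wd a b)⁻¹ * (pre a b q * ltr a b q) := by
            rw [← h10]; group
          rw [h12, hUq]; group
        rw [h11]
        constructor
        · intro h13
          rw [mul_assoc]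
          exact (hS3 _ h13).2.1
        · intro h13
          have := (hS3 _ h13).1
          simpa [mul_assoc] using this
    -- both strands of the corner are on top
    have key : ∀ r, (r = q ∨ r = nxt q) → top f r := by
      intro r hr
      by_contra hnt
      have hxr : v s (ed f r) = x := by rcases hr with rfl | rfl <;> assumption
      have her : ed f r ∈ es := hfs f hfp.1 r
      obtain ⟨f2, hf2, p2, hp2, ht2⟩ := htop _ her
      have hne : ¬ (f = f2 ∧ r = p2) := by
        rintro ⟨rfl, rfl⟩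
        exact hnt ht2
      have h14 := ht2 f hfp.1 r hp2.symm hne
      have h15 : (U s (ed f r) * (pre a b r)⁻¹)⁻¹ * (U s (ed f2 p2) * (pre a b p2)⁻¹) ∈ S := by
        rw [hp2]
        have : (U s (ed f r) * (pre a b r)⁻¹)⁻¹ * (U s (ed f r) * (pre a b p2)⁻¹) =
          pre a b r * (pre a b p2)⁻¹ := by group
        rw [this]
        exact h14
      apply hmax (f2, p2)
      · simp only [Finset.mem_filter, Finset.mem_product, Finset.mem_univ, and_true]
        exact ⟨hf2, by rw [hp2]; exact hxr, ht2⟩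
      · simp only
        rcases hr with rfl | rfl <;> rcases hpq with rfl | rfl
        · exact h15
        · exact (hh _).1 h15
        · exact (hh _).2 h15
        · exact h15
    rw [Finset.mem_image]
    refine ⟨⟨f, q⟩, ?_, ?_⟩
    · simp only [Finset.mem_sigma, Finset.mem_filter, memUf]
      exact ⟨hfp.1, key q (Or.inl rfl), key (nxt q) (Or.inr rfl)⟩
    · simp only [hqs, hxq]
  have h21 : ∑ f ∈ fs, (((Uf f).filter (fun p => nxt p ∈ Uf f)).card + 1) ≤ ∑ f ∈ fs, (Uf f).card :=
    Finset.sum_le_sum hUf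
  rw [Finset.sum_add_distrib, Finset.sum_const, smul_eq_mul, mul_one] at h21
  omega

end

end Pool.Agent.H341.FS
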