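import Pool.Agent.H341.FS.Rep2
import Pool.Agent.H341.FS.StarCore

set_option autoImplicit false

/-!
# Asphericity: refined states
-/

namespace Pool.Agent.H341.FS

open Finset Module

universe u

/-- signs -/
def sg {P : Type u} [Group P] (ε : Bool) (x : P) : P := if ε = true then x else x⁻¹

/-- vanishing of a signed list -/
def ZS {Γ : Type u} (l : List (Γ × Bool)) : Prop :=
  ∀ φ : Γ → ℤ, (l.map (fun t => if t.2 = true then φ t.1 else - φ t.1)).sum = 0

theorem sg_one {P : Type u} [Group P] (ε : Bool) : sg ε (1 : P) = 1 := by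
  cases ε <;> simp [sg]

theorem sg_conj {P : Type u} [Group P] (ε : Bool) (c x : P) : sg ε (c * x * c⁻¹) = c * sg ε x * c⁻¹ := by
  cases ε
  · simp [sg, mul_assoc]
  · simp [sg]

theorem map_sg {P Q : Type*} [Group P] [Group Q] (φ : P →* Q) (ε : Bool) (x : P) :
    φ (if ε = true then x else x⁻¹) = if ε = true then φ x else (φ x)⁻¹ := by
  cases ε <;> simp

theorem lift_altp {P : Type u} [Group P] {E : Type} (θ : E → P) (s : Bool) (L : List E) :
    FreeGroup.lift θ (altp FreeGroup.of s L) = altp θ s L := by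
  induction L generalizing s with
  | nil => simp [altp]
  | cons e L ih =>
    simp only [altp, map_mul, ih]
    cases s <;> simp

theorem map_pp {P Q : Type*} [Group P] [Group Q] (φ : P →* Q) (c : ℕ → P) (n : ℕ) :
    φ (pp c n) = pp (fun i => φ (c i)) n := by
  induction n with
  | zero => simp [pp]
  | succ n ih => simp only [pp, map_mul, ih]

theorem lift_Phi {P : Type u} [Group P] {E : Type} {k : ℕ} (θ : E → P) (g : ZMod k × Bool → E) :
    FreeGroup.lift θ (Phi FreeGroup.of g) = Phi θ g := by
  unfold Phi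
  rw [map_pp]
  simp

/-- one factor of the identity -/
def fac {P : Type u} [Group P] {E F : Type} {k : ℕ} (θ : E → P) (ed : F → ZMod k × Bool → E)
    (t : List E × F × Bool) : P :=
  altp θ false t.1 * sg t.2.2 (Phi θ (ed t.2.1)) * (altp θ false t.1)⁻¹

theorem lift_fac {P : Type u} [Group P] {E F : Type} {k : ℕ} (θ : E → P) (ed : F → ZMod k × Bool → E)
    (t : List E × F × Bool) : FreeGroup.lift θ (fac FreeGroup.of ed t) = fac θ ed t := by
  unfold fac sg
  rw [map_mul, map_mul, map_inv, lift_altp, map_sg, lift_Phi]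

/-- refined states -/
structure Sa {P Γ : Type u} [Group P] [Group Γ] {k : ℕ} [NeZero k] (G : Bool → Subgroup P) (a b : ZMod k → P)
    (π : P →* Γ) {E X F : Type} [Fintype F] [DecidableEq E] (es : Finset E) (v : Bool → E → X)
    (U : Bool → E → P) (ed : F → ZMod k × Bool → E) (Sg : List E) (x0 : X)
    (D : E → Γ) (h : Bool → X → Γ) (L : List (List E × F × Bool)) : Prop where
  hU : ∀ s e, U s e ∈ G s
  hes : ∀ f p, ed f p ∈ es
  hv : ∀ f p, v p.2 (ed f (nxt p)) = v p.2 (ed f p)
  hc : ∀ f p, U p.2 (ed f (nxt p)) = U p.2 (ed f p) * ltr a b p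
  walk : wk v false x0 Sg false x0
  wes : ∀ e ∈ Sg, e ∈ es
  s3 : ∀ e, (univ.filter (fun q : F × (ZMod k × Bool) => ed q.1 q.2 = e)).card + Sg.count e ≤ 2
  dev : ∀ s e, h s (v s e) * π (U s e) = D e
  lw : ∀ t ∈ L, wk v false x0 t.1 false (v false (ed t.2.1 (0, false)))
  lnd : (L.map (fun t => t.2.1)).Nodup
  lall : ∀ f, ∃ t ∈ L, t.2.1 = f
  ident : altp FreeGroup.of false Sg = (L.map (fac FreeGroup.of ed)).prod

section
variable {P Γ : Type u} [Group P] [Group Γ] {k : ℕ} [NeZero k] {G : Bool → Subgroup P} {a b : ZMod k → P}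
  {π : P →* Γ} {E X F : Type} [Fintype E] [Fintype X] [Fintype F] [DecidableEq E] [DecidableEq X]
  {es : Finset E} {v : Bool → E → X} {U : Bool → E → P} {ed : F → ZMod k × Bool → E} {x0 : X}
  {Sg : List E} {D : E → Γ} {h : Bool → X → Γ} {L : List (List E × F × Bool)}

omit [Fintype E] [Fintype X] [DecidableEq X] in
theorem Sa.identQ (hS : Sa G a b π es v U ed Sg x0 D h L) {Q : Type*} [Group Q] (θ : E → Q) :
    altp θ false Sg = (L.map (fac θ ed)).prod := by
  have := congrArg (FreeGroup.lift θ) hS.ident
  rw [lift_altp, map_list_prod, List.map_map] at this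
  rw [this]
  congr 1
  apply List.map_congr_left
  intro t _
  exact lift_fac θ ed t

omit [Fintype E] [Fintype X] [DecidableEq X] in
theorem Sa.len (hS : Sa G a b π es v U ed Sg x0 D h L) : L.length = Fintype.card F := by
  classical
  have h1 : (L.map (fun t => t.2.1)).toFinset = Finset.univ := by
    ext f
    simp only [List.mem_toFinset, List.mem_map, Finset.mem_univ, iff_true]
    exact hS.lall f
  have h2 := List.toFinset_card_of_nodup hS.lnd
  rw [h1, List.length_map, Finset.card_univ] at h2
  exact h2.symm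

/-- development along a walk -/
theorem dev_walk {E X : Type} {v : Bool → E → X} {U : Bool → E → P} {D : E → Γ} {h : Bool → X → Γ}
    (hdev : ∀ s e, h s (v s e) * π (U s e) = D e) {s s' : Bool} {x x' : X} {c : List E}
    (hw : wk v s x c s' x') : π (altp (th U) s c) = (h s x)⁻¹ * h s' x' := by
  induction c generalizing s x with
  | nil =>
    obtain ⟨rfl, rfl⟩ := hw
    simp [altp]
  | cons e c ih =>
    obtain ⟨h1, h2⟩ := hw
    simp only [altp]
    rw [th_side, map_mul, map_mul, map_inv, ih h2]
    have e1 : π (U s e) = (h s x)⁻¹ * D e := by rw [← hdev s e, h1]; group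
    have e2 : π (U (!s) e) = (h (!s) (v (!s) e))⁻¹ * D e := by rw [← hdev (!s) e]; group
    rw [e1, e2]
    group

/-- development along a face -/
theorem dev_face (hπ : π (wd a b) = 1) {E X : Type} {v : Bool → E → X} {U : Bool → E → P} {D : E → Γ}
    {h : Bool → X → Γ} (hdev : ∀ s e, h s (v s e) * π (U s e) = D e) (g : ZMod k × Bool → E)
    (hv : ∀ p, v p.2 (g (nxt p)) = v p.2 (g p))
    (hc : ∀ p, U p.2 (g (nxt p)) = U p.2 (g p) * ltr a b p) :
    ∀ p, D (g p) * (π (pre a b p))⁻¹ = D (g (0, false)) := by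
  have step : ∀ p, D (g (nxt p)) * (π (pre a b (nxt p)))⁻¹ = D (g p) * (π (pre a b p))⁻¹ := by
    intro p
    have e1 : D (g (nxt p)) = D (g p) * π (ltr a b p) := by
      rw [← hdev p.2 (g (nxt p)), ← hdev p.2 (g p), hv, hc, map_mul]
      group
    have e2 : π (pre a b (nxt p)) = π (pre a b p) * π (ltr a b p) := by
      rcases pre_nxt a b p with h1 | h1
      · rw [h1, map_mul]
      · have := congrArg π h1
        rw [map_mul, hπ, one_mul, map_mul] at this
        exact this
    rw [e1, e2]
    group
  classical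
  have h1 := nxt_closed (univ.filter (fun p : ZMod k × Bool =>
    D (g p) * (π (pre a b p))⁻¹ = D (g (0, false)))) ⟨(0, false), by simp [pre, pp]⟩ (by
      intro p hp
      simp only [Finset.mem_filter, Finset.mem_univ, true_and] at hp ⊢
      rw [step, hp])
  intro p
  have := h1 p
  simpa using this

omit [Fintype E] [Fintype X] [DecidableEq X] in
theorem Sa.drop {L1 L2 : List E} {e : E} (hS : Sa G a b π es v U ed (L1 ++ e :: e :: L2) x0 D h L) :
    Sa G a b π es v U ed (L1 ++ L2) x0 D h L ∧
      altp (th U) false (L1 ++ e :: e :: L2) = altp (th U) false (L1 ++ L2) := by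
  have hval : ∀ {Q : Type u} [Group Q] (θ : E → Q),
      altp θ false (L1 ++ e :: e :: L2) = altp θ false (L1 ++ L2) := by
    intro Q _ θ
    rw [altp_append, altp_append]
    congr 1
    simp only [altp, Bool.not_not]
    cases sd false L1 <;> simp
  have hval0 : ∀ {Q : Type} [Group Q] (θ : E → Q),
      altp θ false (L1 ++ e :: e :: L2) = altp θ false (L1 ++ L2) := by
    intro Q _ θ
    rw [altp_append, altp_append]
    congr 1
    simp only [altp, Bool.not_not]
    cases sd false L1 <;> simp
  refine ⟨?_, hval _⟩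
  have hw := hS.walk
  rw [wk_append] at hw
  obtain ⟨y, hw1, hw2, hw3, hw4⟩ := hw
  refine ⟨hS.hU, hS.hes, hS.hv, hS.hc, ?_, ?_, ?_, hS.dev, hS.lw, hS.lnd, hS.lall, ?_⟩
  · rw [wk_append]
    refine ⟨y, hw1, ?_⟩
    rw [Bool.not_not] at hw4
    rw [← hw2]
    exact hw4
  · intro e' he'
    apply hS.wes
    simp only [List.mem_append, List.mem_cons] at he' ⊢
    tauto
  · intro e'
    have := hS.s3 e'
    refine le_trans (Nat.add_le_add_left ?_ _) this
    apply List.Sublist.count_le
    apply List.Sublist.append_left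
    exact (List.sublist_cons_self _ _).trans (List.sublist_cons_self _ _)
  · rw [← hval0]
    exact hS.ident

omit [Fintype E] [Fintype X] in
theorem Sa.merge (hS : Sa G a b π es v U ed Sg x0 D h L) (s : Bool) (x x' : X) (g : P) (hg : g ∈ G s)
    (hgh : h s x * π g = h s x')
    (v' : Bool → E → X) (U' : Bool → E → P)
    (hv' : ∀ r d, v' r d = if r = s ∧ v r d = x' then x else v r d)
    (hU' : ∀ r d, U' r d = if r = s ∧ v r d = x' then g * U r d else U r d) :
    ∃ (x0' : X) (c : P), c ∈ G false ∧ Sa G a b π es v' U' ed Sg x0' D h L ∧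
      altp (th U') false Sg = c * altp (th U) false Sg * c⁻¹ ∧ h false x0' * π c = h false x0 := by
  classical
  let μ : Bool → X → X := fun r y => if r = s ∧ y = x' then x else y
  let γ : Bool → X → P := fun r y => if r = s ∧ y = x' then g else 1
  have hμ : ∀ r d, v' r d = μ r (v r d) := hv'
  have hγ : ∀ r d, U' r d = γ r (v r d) * U r d := by
    intro r d
    rw [hU']
    simp only [γ]
    split_ifs <;> simp
  have hγG : ∀ r y, γ r y ∈ G r := by
    intro r y
    simp only [γ]
    split_ifs with h1
    · rw [h1.1]; exact hg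
    · exact (G r).one_mem
  have hγh : ∀ r y, h r (μ r y) * π (γ r y) = h r y := by
    intro r y
    simp only [γ, μ]
    split_ifs with h1
    · rw [h1.1, h1.2]; exact hgh
    · simp
  refine ⟨μ false x0, γ false x0, hγG _ _, ?_, gauge γ hγ hS.walk, hγh _ _⟩
  refine ⟨?_, hS.hes, ?_, ?_, ?_, hS.wes, hS.s3, ?_, ?_, hS.lnd, hS.lall, hS.ident⟩
  · intro r d
    rw [hγ]
    exact (G r).mul_mem (hγG _ _) (hS.hU _ _)
  · intro f p
    rw [hμ, hμ, hS.hv]
  · intro f p
    rw [hγ, hγ, hS.hv, hS.hc, mul_assoc]
  · have := wk_map (v := v) (v' := v') id μ hμ hS.walk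
    simpa using this
  · intro r e
    rw [hμ, hγ, map_mul, ← mul_assoc, hγh, hS.dev]
  · intro t ht
    have := wk_map (v := v) (v' := v') id μ hμ (hS.lw t ht)
    rw [← hμ] at this
    simpa using this

omit [Fintype E] [Fintype X] [DecidableEq X] in
theorem Sa.ident_edges {L1 L2 : List E} {e e' : E} (hee : e ≠ e')
    (hS : Sa G a b π es v U ed (L1 ++ e :: e' :: L2) x0 D h L)
    (hvv : ∀ r, v r e = v r e') (hUU : ∀ r, U r e = U r e') :
    Sa G a b π (es.erase e') v U (fun f p => if ed f p = e' then e else ed f p)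
      ((L1 ++ L2).map (fun d => if d = e' then e else d)) x0 D h
      (L.map (fun t => (t.1.map (fun d => if d = e' then e else d), t.2.1, t.2.2))) ∧
      altp (th U) false (L1 ++ e :: e' :: L2) =
        altp (th U) false ((L1 ++ L2).map (fun d => if d = e' then e else d)) ∧
      ∀ d, D (if d = e' then e else d) = D d := by
  classical
  set ρ : E → E := fun d => if d = e' then e else d with hρ
  have hρe : ρ e = e := by simp only [hρ]; rw [if_neg hee]
  have hρe' : ρ e' = e := by simp [hρ]
  have hvρ : ∀ r d, v r (ρ d) = v r d := by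
    intro r d
    simp only [hρ]
    split_ifs with h1
    · rw [h1, hvv]
    · rfl
  have hUρ : ∀ r d, U r (ρ d) = U r d := by
    intro r d
    simp only [hρ]
    split_ifs with h1
    · rw [h1, hUU]
    · rfl
  have hDρ : ∀ d, D (ρ d) = D d := by
    intro d
    rw [← hS.dev false (ρ d), ← hS.dev false d, hvρ, hUρ]
  have hval : ∀ {Q : Type u} [Group Q] (θ : E → Q), θ e = θ e' →
      altp θ false (L1 ++ e :: e' :: L2) = altp θ false (L1 ++ L2) := by
    intro Q _ θ hθ
    rw [altp_append, altp_append]
    congr 1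
    simp only [altp, Bool.not_not, hθ]
    cases sd false L1 <;> simp
  have hval0 : ∀ {Q : Type} [Group Q] (θ : E → Q), θ e = θ e' →
      altp θ false (L1 ++ e :: e' :: L2) = altp θ false (L1 ++ L2) := by
    intro Q _ θ hθ
    rw [altp_append, altp_append]
    congr 1
    simp only [altp, Bool.not_not, hθ]
    cases sd false L1 <;> simp
  have hes : e ∈ es := hS.wes e (by simp)
  refine ⟨⟨hS.hU, ?_, ?_, ?_, ?_, ?_, ?_, hS.dev, ?_, ?_, ?_, ?_⟩, ?_, hDρ⟩
  · intro f p
    show ρ (ed f p) ∈ es.erase e'
    simp only [hρ]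
    split_ifs with h1
    · exact Finset.mem_erase.2 ⟨hee, hes⟩
    · exact Finset.mem_erase.2 ⟨h1, hS.hes f p⟩
  · intro f p
    show v p.2 (ρ (ed f (nxt p))) = v p.2 (ρ (ed f p))
    rw [hvρ, hvρ, hS.hv]
  · intro f p
    show U p.2 (ρ (ed f (nxt p))) = U p.2 (ρ (ed f p)) * ltr a b p
    rw [hUρ, hUρ, hS.hc]
  · have hw := hS.walk
    rw [wk_append] at hw
    obtain ⟨y, hw1, hw2, hw3, hw4⟩ := hw
    have hw5 : wk v false x0 (L1 ++ L2) false x0 := by
      rw [wk_append]
      refine ⟨y, hw1, ?_⟩
      rw [Bool.not_not, ← hvv, hw2] at hw4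
      exact hw4
    exact wk_map (v := v) (v' := v) ρ (fun _ x => x) hvρ hw5
  · intro d hd
    rw [List.mem_map] at hd
    obtain ⟨c, hc, rfl⟩ := hd
    simp only [hρ]
    split_ifs with h1
    · exact Finset.mem_erase.2 ⟨hee, hes⟩
    · refine Finset.mem_erase.2 ⟨h1, hS.wes c ?_⟩
      simp only [List.mem_append, List.mem_cons] at hc ⊢
      tauto
  · intro d
    have h1 : ((L1 ++ L2).map ρ).count d ≤ if d = e' then 0 else if d = e then
        (L1 ++ L2).count e + (L1 ++ L2).count e' else (L1 ++ L2).count d := count_map_redirect hee (L1 ++ L2) d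
    have h2 : ∀ c, (L1 ++ e :: e' :: L2).count c = (L1 ++ L2).count c +
        ((if e = c then 1 else 0) + if e' = c then 1 else 0) := by
      intro c
      simp only [List.count_append, List.count_cons, beq_iff_eq]
      omega
    show (univ.filter (fun q : F × (ZMod k × Bool) => ρ (ed q.1 q.2) = d)).card + _ ≤ 2
    by_cases hd' : d = e'
    · subst hd'
      have h3 : (univ.filter (fun q : F × (ZMod k × Bool) => ρ (ed q.1 q.2) = d)) = ∅ := by
        rw [Finset.filter_eq_empty_iff]
        intro q _ hq
        simp only [hρ] at hq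
        split_ifs at hq with h4
        · exact hee hq
        · exact h4 hq
      rw [h3, Finset.card_empty]
      rw [if_pos rfl] at h1
      omega
    · rw [if_neg hd'] at h1
      by_cases hde : d = e
      · subst hde
        rw [if_pos rfl] at h1
        have h3 : (univ.filter (fun q : F × (ZMod k × Bool) => ρ (ed q.1 q.2) = d)) ⊆
            (univ.filter (fun q : F × (ZMod k × Bool) => ed q.1 q.2 = d)) ∪
            (univ.filter (fun q : F × (ZMod k × Bool) => ed q.1 q.2 = e')) := by
          intro q hq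
          simp only [Finset.mem_filter, Finset.mem_univ, true_and, Finset.mem_union, hρ] at hq ⊢
          by_cases h4 : ed q.1 q.2 = e'
          · exact Or.inr h4
          · rw [if_neg h4] at hq
            exact Or.inl hq
        have h4 := le_trans (Finset.card_le_card h3) (Finset.card_union_le _ _)
        have h5 := hS.s3 d
        have h6 := hS.s3 e'
        rw [h2] at h5 h6
        rw [if_pos rfl, if_neg (fun h => hee h.symm)] at h5
        rw [if_neg hee, if_pos rfl] at h6
        omega
      · rw [if_neg hde] at h1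
        have h3 : (univ.filter (fun q : F × (ZMod k × Bool) => ρ (ed q.1 q.2) = d)) ⊆
            (univ.filter (fun q : F × (ZMod k × Bool) => ed q.1 q.2 = d)) := by
          intro q hq
          simp only [Finset.mem_filter, Finset.mem_univ, true_and, hρ] at hq ⊢
          by_cases h4 : ed q.1 q.2 = e'
          · rw [if_pos h4] at hq
            exact absurd hq.symm hde
          · rw [if_neg h4] at hq
            exact hq
        have h4 := Finset.card_le_card h3
        have h5 := hS.s3 d
        rw [h2] at h5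
        omega
  · intro t ht
    rw [List.mem_map] at ht
    obtain ⟨t, ht, rfl⟩ := ht
    have := wk_map (v := v) (v' := v) ρ (fun _ x => x) hvρ (hS.lw t ht)
    show wk v false x0 (t.1.map ρ) false (v false (ρ (ed t.2.1 (0, false))))
    rw [hvρ]
    exact this
  · rw [List.map_map]
    exact hS.lnd
  · intro f
    obtain ⟨t, ht, htf⟩ := hS.lall f
    exact ⟨_, List.mem_map.2 ⟨t, ht, rfl⟩, htf⟩
  · have h3 := congrArg (FreeGroup.lift (FreeGroup.of ∘ ρ)) hS.ident
    rw [lift_altp, map_list_prod, List.map_map, hval0 _ (by simp [hρe, hρe'])] at h3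
    rw [altp_map, h3, List.map_map]
    congr 1
    apply List.map_congr_left
    intro t _
    simp only [Function.comp_apply]
    rw [lift_fac]
    show altp (FreeGroup.of ∘ ρ) false t.1 * sg t.2.2 (Phi (FreeGroup.of ∘ ρ) (ed t.2.1)) *
      (altp (FreeGroup.of ∘ ρ) false t.1)⁻¹ = altp FreeGroup.of false (t.1.map ρ) *
      sg t.2.2 (Phi FreeGroup.of (fun p => ρ (ed t.2.1 p))) * (altp FreeGroup.of false (t.1.map ρ))⁻¹
    rw [altp_map]
    rfl
  · rw [altp_map, hval]
    · apply altp_congr
      intro d _
      simp only [Function.comp, th, hUρ]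
    · simp only [th, hUU]

end

end Pool.Agent.H341.FS
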