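import Pool.Agent.H341.FS.Asph1

set_option autoImplicit false

/-!
# Asphericity: cancelling two faces
-/

namespace Pool.Agent.H341.FS

open Finset Module

universe u

/-- one can kill a face by modifying the weight at one position -/
theorem exists_kill2 {P : Type u} [Group P] {k : ℕ} [NeZero k] (a b : ZMod k → P) (p : ZMod k × Bool) :
    ∃ t : P, (∃ q : P, t = q⁻¹ * wd a b * q ∨ t = q⁻¹ * (wd a b)⁻¹ * q) ∧ pp (fun n : ℕ => a (n : ZMod k) * (if ((n : ZMod k), true) = p then t else 1) * b (n : ZMod k) *
        (if ((n : ZMod k) + 1, false) = p then t else 1)⁻¹) k = 1 := by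
  have key : ∀ i : ZMod k, i.val < k := fun i => ZMod.val_lt i
  have key2 : ∀ (i : ZMod k) (n : ℕ), n < k → n ≠ i.val → (n : ZMod k) ≠ i := by
    intro i n hn h1 h2
    apply h1
    rw [← h2, ZMod.val_natCast, Nat.mod_eq_of_lt hn]
  have cong : ∀ (c c' : ℕ → P) (m : ℕ), (∀ i, i < m → c i = c' i) → pp c m = pp c' m := by
    intro c c' m hm
    induction m with
    | zero => rfl
    | succ m ih => simp only [pp]; rw [ih (fun i hi => hm i (by omega)), hm m (by omega)]
  rcases p with ⟨i, _ | _⟩
  · -- p = (i, false), index of i - 1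
    set j : ZMod k := i - 1 with hj
    set c : ℕ → P := fun n => a (n : ZMod k) * b (n : ZMod k) with hc
    set q : P := pp c j.val * c j.val with hq
    refine ⟨q⁻¹ * wd a b * q, ⟨q, Or.inl rfl⟩, ?_⟩
    set c' : ℕ → P := fun n => if n = j.val then c n * (q⁻¹ * wd a b * q)⁻¹ else c n with hc'
    have h1 := (pp_change c c' j.val (by intro n hn; simp [hc', hn]) k).2 (key j)
    rw [cong _ c' k]
    · rw [h1]
      have h2 : c' j.val = c j.val * (q⁻¹ * wd a b * q)⁻¹ := by simp [hc']
      rw [h2]
      have h3 : pp c k = wd a b := rfl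
      rw [h3, hq]
      group
    · intro n hn
      simp only [Prod.mk.injEq, Bool.true_eq_false, and_false, if_false, and_true, mul_one, hc', hc]
      by_cases hnj : n = j.val
      · rw [if_pos hnj, if_pos]
        rw [hnj, ZMod.natCast_zmod_val, hj]; ring
      · rw [if_neg hnj, if_neg]
        · simp
        · intro h4
          apply key2 j n hn hnj
          rw [hj, ← h4]; ring
  · set c : ℕ → P := fun n => a (n : ZMod k) * b (n : ZMod k) with hc
    set q : P := pp c i.val * a i with hq
    refine ⟨q⁻¹ * (wd a b)⁻¹ * q, ⟨q, Or.inr rfl⟩, ?_⟩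
    set c' : ℕ → P := fun n => if n = i.val then a (n : ZMod k) * (q⁻¹ * (wd a b)⁻¹ * q) * b (n : ZMod k)
      else c n with hc'
    have h1 := (pp_change c c' i.val (by intro n hn; simp [hc', hn]) k).2 (key i)
    rw [cong _ c' k]
    · rw [h1]
      have h2 : c' i.val = a i * (q⁻¹ * (wd a b)⁻¹ * q) * b i := by
        simp only [hc', if_true, ZMod.natCast_zmod_val]
      have h4 : c i.val = a i * b i := by simp only [hc, ZMod.natCast_zmod_val]
      rw [h2, h4]
      have h3 : pp c k = wd a b := rfl
      rw [h3, hq]
      group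
    · intro n hn
      simp only [Prod.mk.injEq, Bool.false_eq_true, and_false, if_false, and_true, inv_one, mul_one,
        hc', hc]
      by_cases hni : n = i.val
      · rw [if_pos hni, if_pos]
        rw [hni, ZMod.natCast_zmod_val]
      · rw [if_neg hni, if_neg]
        · simp
        · exact key2 i n hn hni


theorem ofAdd_pp (c : ℕ → ℤ) (n : ℕ) :
    pp (fun i => Multiplicative.ofAdd (c i)) n = Multiplicative.ofAdd (∑ i ∈ Finset.range n, c i) := by
  induction n with
  | zero => simp [pp]
  | succ n ih => rw [pp, ih, Finset.sum_range_succ, ofAdd_add]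

theorem sum_range_zmod {k : ℕ} [NeZero k] (f : ZMod k → ℤ) :
    ∑ n ∈ Finset.range k, f (n : ZMod k) = ∑ i : ZMod k, f i := by
  refine Finset.sum_nbij' (fun n : ℕ => (n : ZMod k)) (fun i : ZMod k => i.val) ?_ ?_ ?_ ?_ ?_
  · intro n _; exact Finset.mem_univ _
  · intro i _; exact Finset.mem_range.2 (ZMod.val_lt i)
  · intro n hn; exact ZMod.val_natCast_of_lt (Finset.mem_range.1 hn)
  · intro i _; exact ZMod.natCast_zmod_val i
  · intro n _; rfl

/-- signed count of the boundary of a face -/
theorem Phi_int {E : Type} {k : ℕ} [NeZero k] (χ : E → ℤ) (g : ZMod k × Bool → E) :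
    Phi (fun e => Multiplicative.ofAdd (χ e)) g =
      Multiplicative.ofAdd (∑ p : ZMod k × Bool, (if p.2 = true then χ (g p) else - χ (g p))) := by
  unfold Phi
  have h1 : (fun n : ℕ => Multiplicative.ofAdd (χ (g ((n : ZMod k), true))) *
      (Multiplicative.ofAdd (χ (g ((n : ZMod k) + 1, false))))⁻¹) =
      fun n : ℕ => Multiplicative.ofAdd (χ (g ((n : ZMod k), true)) - χ (g ((n : ZMod k) + 1, false))) := by
    funext n
    rw [ofAdd_sub, div_eq_mul_inv]
  rw [h1, ofAdd_pp, sum_range_zmod (fun i => χ (g (i, true)) - χ (g (i + 1, false)))]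
  congr 1
  rw [Fintype.sum_prod_type]
  simp only [Fintype.sum_bool, if_true, Bool.false_eq_true, if_false]
  rw [Finset.sum_sub_distrib, Finset.sum_add_distrib, Finset.sum_neg_distrib, sub_eq_add_neg]
  congr 2
  exact Fintype.sum_equiv (Equiv.addRight (1 : ZMod k)) _ _ (fun _ => rfl)

theorem prod_map_filter {Q α : Type*} [Monoid Q] (l : List α) (p : α → Bool) (g : α → Q)
    (h : ∀ x ∈ l, p x = false → g x = 1) : (l.map g).prod = ((l.filter p).map g).prod := by
  induction l with
  | nil => rfl
  | cons x l ih =>
    have ih' := ih (fun y hy => h y (List.mem_cons_of_mem _ hy))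
    by_cases hp : p x = true
    · rw [List.filter_cons_of_pos hp, List.map_cons, List.prod_cons, List.map_cons, List.prod_cons, ih']
    · rw [List.filter_cons_of_neg hp, List.map_cons, List.prod_cons, ih',
        h x List.mem_cons_self (by simpa using hp), one_mul]

theorem ofAdd_sum_list {α : Type*} (l : List α) (c : α → ℤ) :
    (l.map (fun x => Multiplicative.ofAdd (c x))).prod = Multiplicative.ofAdd ((l.map c).sum) := by
  induction l with
  | nil => rfl
  | cons x l ih => rw [List.map_cons, List.prod_cons, ih, List.map_cons, List.sum_cons, ofAdd_add]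

theorem fac_int {E F : Type} {k : ℕ} [NeZero k] (χ : E → ℤ) (ed : F → ZMod k × Bool → E)
    (t : List E × F × Bool) : fac (fun e => Multiplicative.ofAdd (χ e)) ed t =
      Multiplicative.ofAdd (if t.2.2 = true then
        (∑ p : ZMod k × Bool, (if p.2 = true then χ (ed t.2.1 p) else - χ (ed t.2.1 p)))
        else - (∑ p : ZMod k × Bool, (if p.2 = true then χ (ed t.2.1 p) else - χ (ed t.2.1 p)))) := by
  unfold fac
  rw [mul_comm (altp _ false t.1), mul_assoc, mul_inv_cancel, mul_one, Phi_int]
  unfold sg
  split_ifs with h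
  · rfl
  · rw [ofAdd_neg]

section
variable {P Γ : Type u} [Group P] [Group Γ] {k : ℕ} [NeZero k] {G : Bool → Subgroup P} {a b : ZMod k → P}
  {π : P →* Γ} {E X F : Type} [Fintype E] [Fintype X] [Fintype F] [DecidableEq E] [DecidableEq X]
  {es : Finset E} {v : Bool → E → X} {U : Bool → E → P} {ed : F → ZMod k × Bool → E} {x0 : X}
  {Sg : List E} {D : E → Γ} {h : Bool → X → Γ} {L : List (List E × F × Bool)}

omit [Fintype E] [Fintype X] [DecidableEq X] in
/-- integral version of the identity -/
theorem Sa.identZ (hS : Sa G a b π es v U ed Sg x0 D h L) (χ : E → ℤ)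
    (hval : altp (fun e => Multiplicative.ofAdd (χ e)) false Sg = 1) :
    (L.map (fun t => if t.2.2 = true then
        (∑ p : ZMod k × Bool, (if p.2 = true then χ (ed t.2.1 p) else - χ (ed t.2.1 p)))
        else - (∑ p : ZMod k × Bool, (if p.2 = true then χ (ed t.2.1 p) else - χ (ed t.2.1 p))))).sum = 0 := by
  have h1 := hS.identQ (fun e => Multiplicative.ofAdd (χ e))
  rw [hval] at h1
  have h2 : (L.map (fac (fun e => Multiplicative.ofAdd (χ e)) ed)) = L.map (fun t =>
      Multiplicative.ofAdd (if t.2.2 = true then
        (∑ p : ZMod k × Bool, (if p.2 = true then χ (ed t.2.1 p) else - χ (ed t.2.1 p)))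
        else - (∑ p : ZMod k × Bool, (if p.2 = true then χ (ed t.2.1 p) else - χ (ed t.2.1 p))))) := by
    apply List.map_congr_left
    intro t _
    exact fac_int χ ed t
  rw [h2, ofAdd_sum_list] at h1
  exact (ofAdd_eq_one.1 h1.symm)

omit [Fintype E] [Fintype X] [DecidableEq X] in
theorem Sa.kill (hS : Sa G a b π es v U ed Sg x0 D h L) (hπ : π (wd a b) = 1)
    (hval : altp (th U) false Sg = 1) (f f' : F) (p : ZMod k × Bool) (hne : f ≠ f')
    (hK1 : ∀ q : F × (ZMod k × Bool), (ed q.1 q.2 = ed f p ∨ ed q.1 q.2 = ed f' p) →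
      q = (f, p) ∨ q = (f', p))
    (hK3 : D (ed f p) = D (ed f' p))
    (hvP : ∀ t : P, altp (fun d => if d = ed f p ∨ d = ed f' p then U false d * t * (U true d)⁻¹
      else th U d) false Sg = altp (th U) false Sg)
    (hvZ : altp (fun d => Multiplicative.ofAdd (if d = ed f p ∨ d = ed f' p then (1 : ℤ) else 0)) false Sg = 1)
    (hmin : ∀ l : List (P × Bool), l.length < Fintype.card F →
      (l.map (fun t => t.1 * sg t.2 (wd a b) * t.1⁻¹)).prod = 1 → ZS (l.map (fun t => (π t.1, t.2)))) :
    ZS (L.map (fun t => (D (ed t.2.1 (0, false)), t.2.2))) := by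
  classical
  obtain ⟨t, ⟨q, hq⟩, ht⟩ := exists_kill2 a b p
  have hπt : π t = 1 := by
    rcases hq with hq | hq
    · rw [hq, map_mul, map_mul, hπ, mul_one, map_inv, inv_mul_cancel]
    · rw [hq, map_mul, map_mul, map_inv π (wd a b), hπ, inv_one, mul_one, map_inv, inv_mul_cancel]
  set θ : E → P := fun d => if d = ed f p ∨ d = ed f' p then U false d * t * (U true d)⁻¹
    else th U d with hθ
  have hθD : ∀ d, (d = ed f p ∨ d = ed f' p) → θ d = U false d * t * (U true d)⁻¹ := by
    intro d hd; simp only [θ]; rw [if_pos hd]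
  have hθN : ∀ d, ¬ (d = ed f p ∨ d = ed f' p) → θ d = th U d := by
    intro d hd; simp only [θ]; rw [if_neg hd]
  have hkill : ∀ g, (g = f ∨ g = f') → Phi θ (ed g) = 1 := by
    intro g hg
    have h3 := Phi_eq a b U θ (ed g) (fun q => if q = p then t else 1) (hS.hc g) (by
      intro q
      by_cases hq : q = p
      · subst hq
        rw [hθD _ (by rcases hg with rfl | rfl <;> simp)]
        simp
      · rw [hθN, if_neg hq]
        · simp [th]
        · intro h4
          rcases hK1 (g, q) h4 with h5 | h5
          · exact hq (congrArg Prod.snd h5)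
          · exact hq (congrArg Prod.snd h5))
    rw [h3, ht]
    group
  have hother : ∀ g, g ≠ f → g ≠ f' → Phi θ (ed g) = U false (ed g (0, false)) * wd a b *
      (U false (ed g (0, false)))⁻¹ := by
    intro g hg hg'
    rw [← Phi_th a b U (ed g) (hS.hc g)]
    unfold Phi
    congr 1
    funext n
    have h5 : ∀ q, θ (ed g q) = th U (ed g q) := by
      intro q
      apply hθN
      intro h4
      rcases hK1 (g, q) h4 with h5 | h5
      · exact hg (congrArg Prod.fst h5)
      · exact hg' (congrArg Prod.fst h5)
    rw [h5, h5]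
  -- images in Γ
  have hπθ : ∀ d, π (θ d) = π (th U d) := by
    intro d
    by_cases hd : d = ed f p ∨ d = ed f' p
    · rw [hθD d hd]
      simp [th, hπt]
    · rw [hθN d hd]
  have hπaltp : ∀ (c : List E) s, π (altp θ s c) = π (altp (th U) s c) := by
    intro c
    induction c with
    | nil => intro s; simp [altp]
    | cons e c ih =>
      intro s
      simp only [altp, map_mul, ih]
      congr 1
      cases s <;> simp [hπθ]
  -- the shorter identity
  let pr : List E × F × Bool → Bool := fun t => decide (t.2.1 ≠ f ∧ t.2.1 ≠ f')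
  let l' : List (P × Bool) := (L.filter pr).map
    (fun t => (altp θ false t.1 * U false (ed t.2.1 (0, false)), t.2.2))
  have hl'len : l'.length < Fintype.card F := by
    rw [List.length_map, ← hS.len]
    obtain ⟨t0, ht0, ht0f⟩ := hS.lall f
    refine lt_of_le_of_ne (List.length_filter_le _ _) (fun heq => ?_)
    have := List.length_filter_eq_length_iff.1 heq t0 ht0
    simp only [pr, decide_eq_true_eq] at this
    exact this.1 ht0f
  have hl'prod : (l'.map (fun t => t.1 * sg t.2 (wd a b) * t.1⁻¹)).prod = 1 := by
    have h1 := hS.identQ θ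
    have h0 : altp θ false Sg = 1 := (hvP t).trans hval
    rw [h0] at h1
    rw [prod_map_filter L pr (fac θ ed)] at h1
    · rw [h1]
      simp only [l', List.map_map]
      congr 1
      apply List.map_congr_left
      intro t ht
      have ht2 := (List.mem_filter.1 ht).2
      simp only [pr, decide_eq_true_eq] at ht2
      simp only [Function.comp_apply, fac]
      rw [hother _ ht2.1 ht2.2, sg_conj]
      group
    · intro x _ hx
      simp only [pr, decide_eq_false_iff_not, not_and_or, not_not] at hx
      unfold fac
      rw [hkill _ hx, sg_one]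
      group
  have hZS := hmin l' hl'len hl'prod
  -- classes
  have hcls : ∀ t ∈ L, (h false x0)⁻¹ * D (ed t.2.1 (0, false)) =
      π (altp θ false t.1 * U false (ed t.2.1 (0, false))) := by
    intro t ht
    rw [map_mul, hπaltp, dev_walk hS.dev (hS.lw t ht), ← hS.dev false (ed t.2.1 (0, false))]
    group
  have hff : D (ed f (0, false)) = D (ed f' (0, false)) := by
    rw [← dev_face hπ hS.dev (ed f) (hS.hv f) (hS.hc f) p, ← dev_face hπ hS.dev (ed f') (hS.hv f') (hS.hc f') p,
      hK3]
  -- the signs of f and f' add up to zero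
  have hsign : (L.map (fun t => if t.2.1 = f ∨ t.2.1 = f' then (if t.2.2 = true then (1 : ℤ) else -1) else 0)).sum = 0 := by
    have h1 := hS.identZ (fun d => if d = ed f p ∨ d = ed f' p then (1 : ℤ) else 0) hvZ
    have h2 : ∀ g, (∑ q : ZMod k × Bool, (if q.2 = true then
        (if ed g q = ed f p ∨ ed g q = ed f' p then (1 : ℤ) else 0) else
        - (if ed g q = ed f p ∨ ed g q = ed f' p then (1 : ℤ) else 0))) =
        if g = f ∨ g = f' then (if p.2 = true then 1 else -1) else 0 := by
      intro g
      by_cases hg : g = f ∨ g = f'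
      · rw [if_pos hg, Finset.sum_eq_single p]
        · have hc : ed g p = ed f p ∨ ed g p = ed f' p := by rcases hg with rfl | rfl <;> simp
          simp only [if_pos hc]
        · intro q _ hqp
          have hc : ¬ (ed g q = ed f p ∨ ed g q = ed f' p) := by
            intro h4
            rcases hK1 (g, q) h4 with h5 | h5
            · exact hqp (congrArg Prod.snd h5)
            · exact hqp (congrArg Prod.snd h5)
          simp only [if_neg hc]
          simp
        · intro h; exact absurd (Finset.mem_univ _) h
      · rw [if_neg hg]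
        apply Finset.sum_eq_zero
        intro q _
        have hc : ¬ (ed g q = ed f p ∨ ed g q = ed f' p) := by
          intro h4
          rcases hK1 (g, q) h4 with h5 | h5
          · exact hg (Or.inl (congrArg Prod.fst h5))
          · exact hg (Or.inr (congrArg Prod.fst h5))
        simp only [if_neg hc]
        simp
    have h3 : (L.map (fun t => if t.2.2 = true then
        (∑ q : ZMod k × Bool, (if q.2 = true then
        (if ed t.2.1 q = ed f p ∨ ed t.2.1 q = ed f' p then (1 : ℤ) else 0) else
        - (if ed t.2.1 q = ed f p ∨ ed t.2.1 q = ed f' p then (1 : ℤ) else 0)))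
        else - (∑ q : ZMod k × Bool, (if q.2 = true then
        (if ed t.2.1 q = ed f p ∨ ed t.2.1 q = ed f' p then (1 : ℤ) else 0) else
        - (if ed t.2.1 q = ed f p ∨ ed t.2.1 q = ed f' p then (1 : ℤ) else 0))))) =
        L.map (fun t => (if p.2 = true then 1 else -1) *
          (if t.2.1 = f ∨ t.2.1 = f' then (if t.2.2 = true then (1 : ℤ) else -1) else 0)) := by
      apply List.map_congr_left
      intro t _
      rw [h2]
      split_ifs <;> simp
    rw [h3, List.sum_map_mul_left] at h1
    rcases mul_eq_zero.1 h1 with h4 | h4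
    · exfalso
      revert h4
      cases p.2 <;> simp
    · exact h4
  -- conclusion
  intro φ
  rw [List.map_map]
  have hsplit : (L.map ((fun t : Γ × Bool => if t.2 = true then φ t.1 else - φ t.1) ∘
      (fun t : List E × F × Bool => (D (ed t.2.1 (0, false)), t.2.2)))) =
      L.map (fun t => (if pr t = true then (if t.2.2 = true then φ (D (ed t.2.1 (0, false))) else
        - φ (D (ed t.2.1 (0, false)))) else 0) +
        φ (D (ed f (0, false))) * (if t.2.1 = f ∨ t.2.1 = f' then (if t.2.2 = true then (1 : ℤ) else -1) else 0)) := by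
    apply List.map_congr_left
    intro t _
    simp only [Function.comp_apply, pr, decide_eq_true_eq]
    by_cases h5 : t.2.1 = f ∨ t.2.1 = f'
    · have h6 : D (ed t.2.1 (0, false)) = D (ed f (0, false)) := by
        rcases h5 with h5 | h5
        · rw [h5]
        · rw [h5, hff]
      have h5' : ¬ (t.2.1 ≠ f ∧ t.2.1 ≠ f') := by tauto
      simp only [if_pos h5, if_neg h5', h6]
      split_ifs <;> simp
    · have h5' : t.2.1 ≠ f ∧ t.2.1 ≠ f' := not_or.1 h5
      simp only [if_neg h5, if_pos h5']
      simp
  rw [hsplit, List.sum_map_add, List.sum_map_mul_left, hsign, mul_zero, add_zero]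
  have h6 := hZS (fun γ => φ (h false x0 * γ))
  rw [List.map_map, List.map_map] at h6
  have h7 : ∀ (M : List (List E × F × Bool)) (c : List E × F × Bool → ℤ),
      (M.map (fun t => if pr t = true then c t else 0)).sum = ((M.filter pr).map c).sum := by
    intro M c
    induction M with
    | nil => rfl
    | cons x M ih =>
      by_cases hp : pr x = true
      · rw [List.filter_cons_of_pos hp, List.map_cons, List.sum_cons, List.map_cons, List.sum_cons, ih,
          if_pos hp]
      · rw [List.filter_cons_of_neg hp, List.map_cons, List.sum_cons, ih, if_neg hp, zero_add]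
  rw [h7, ← h6]
  congr 1
  apply List.map_congr_left
  intro t ht
  have htL := (List.mem_filter.1 ht).1
  simp only [Function.comp_apply]
  rw [← hcls t htL]
  have h8 : h false x0 * ((h false x0)⁻¹ * D (ed t.2.1 (0, false))) = D (ed t.2.1 (0, false)) := by group
  rw [h8]

end

end Pool.Agent.H341.FS
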