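import Pool.Agent.H341.FS.Asph2

set_option autoImplicit false

/-!
# Asphericity: reduction of refined states
-/

namespace Pool.Agent.H341.FS

open Finset Module

universe u

theorem altp_one {Q : Type*} [Group Q] {E : Type} (θ : E → Q) (s : Bool) (L : List E)
    (h : ∀ e ∈ L, θ e = 1) : altp θ s L = 1 := by
  induction L generalizing s with
  | nil => rfl
  | cons e L ih =>
    simp only [altp]
    rw [ih _ (fun e' he' => h e' (List.mem_cons_of_mem _ he')), h e List.mem_cons_self]
    cases s <;> simp

theorem sum_map_key {α β : Type*} [DecidableEq β] (L : List α) (key : α → β) (hnd : (L.map key).Nodup)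
    (t0 : α) (ht0 : t0 ∈ L) (c : α → ℤ) : (L.map (fun t => if key t = key t0 then c t else 0)).sum = c t0 := by
  induction L with
  | nil => simp at ht0
  | cons x L ih =>
    rw [List.map_cons, List.nodup_cons] at hnd
    rw [List.map_cons, List.sum_cons]
    rcases List.mem_cons.1 ht0 with rfl | h
    · rw [if_pos rfl]
      have : (L.map (fun t => if key t = key t0 then c t else 0)).sum = 0 := by
        apply List.sum_eq_zero
        intro y hy
        obtain ⟨t, ht, rfl⟩ := List.mem_map.1 hy
        rw [if_neg]
        intro h2
        apply hnd.1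
        rw [← h2]
        exact List.mem_map.2 ⟨t, ht, rfl⟩
      rw [this, add_zero]
    · rw [ih hnd.2 h, if_neg, zero_add]
      intro h2
      apply hnd.1
      rw [h2]
      exact List.mem_map.2 ⟨t0, h, rfl⟩

section usage
variable {k : ℕ} [NeZero k] {E F : Type} [Fintype F] [DecidableEq E] {ed : F → ZMod k × Bool → E}

theorem usage_same {Sg : List E}
    (s3 : ∀ e, (univ.filter (fun q : F × (ZMod k × Bool) => ed q.1 q.2 = e)).card + Sg.count e ≤ 2)
    {f f' : F} {p : ZMod k × Bool} (hne : f ≠ f') (hff : ed f p = ed f' p) :
    (∀ q : F × (ZMod k × Bool), (ed q.1 q.2 = ed f p ∨ ed q.1 q.2 = ed f' p) → q = (f, p) ∨ q = (f', p)) ∧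
      ∀ d ∈ Sg, ¬ (d = ed f p ∨ d = ed f' p) := by
  classical
  constructor
  · intro q hq
    by_contra hq2
    push Not at hq2
    have hq3 : ed q.1 q.2 = ed f p := by rcases hq with hq | hq; exacts [hq, hq.trans hff.symm]
    have h3 := s3 (ed f p)
    have h6 : ({q, (f, p), (f', p)} : Finset (F × (ZMod k × Bool))) ⊆
        univ.filter (fun r : F × (ZMod k × Bool) => ed r.1 r.2 = ed f p) := by
      intro r hr
      simp only [Finset.mem_insert, Finset.mem_singleton] at hr
      simp only [Finset.mem_filter, Finset.mem_univ, true_and]
      rcases hr with rfl | rfl | rfl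
      · exact hq3
      · rfl
      · exact hff.symm
    have h7 := Finset.card_le_card h6
    rw [Finset.card_insert_of_notMem (by simp [hq2.1, hq2.2]),
      Finset.card_insert_of_notMem (by simp [hne]), Finset.card_singleton] at h7
    omega
  · intro d hd h5
    have h6 : d = ed f p := by rcases h5 with h5 | h5; exacts [h5, h5.trans hff.symm]
    have h7 : ({(f, p), (f', p)} : Finset (F × (ZMod k × Bool))) ⊆
        univ.filter (fun r : F × (ZMod k × Bool) => ed r.1 r.2 = d) := by
      intro r hr
      simp only [Finset.mem_insert, Finset.mem_singleton] at hr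
      simp only [Finset.mem_filter, Finset.mem_univ, true_and]
      rcases hr with rfl | rfl
      · exact h6.symm
      · rw [h6, hff]
    have h8 := Finset.card_le_card h7
    rw [Finset.card_insert_of_notMem (by simp [hne]), Finset.card_singleton] at h8
    have h9 := s3 d
    have h10 : 0 < Sg.count d := List.count_pos_iff.2 hd
    omega

theorem usage_pair {L1 L2 : List E} {e e' : E} (hee : e ≠ e')
    (s3 : ∀ c, (univ.filter (fun q : F × (ZMod k × Bool) => ed q.1 q.2 = c)).card +
      (L1 ++ e :: e' :: L2).count c ≤ 2)
    {f f' : F} {p : ZMod k × Bool} (hne : f ≠ f')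
    (hff : (ed f p = e ∧ ed f' p = e') ∨ (ed f p = e' ∧ ed f' p = e)) :
    (∀ q : F × (ZMod k × Bool), (ed q.1 q.2 = ed f p ∨ ed q.1 q.2 = ed f' p) → q = (f, p) ∨ q = (f', p)) ∧
      (∀ d, (d = ed f p ∨ d = ed f' p) ↔ (d = e ∨ d = e')) ∧
      (∀ d ∈ L1, ¬ (d = ed f p ∨ d = ed f' p)) ∧ (∀ d ∈ L2, ¬ (d = ed f p ∨ d = ed f' p)) := by
  classical
  have h2 : ∀ c, (L1 ++ e :: e' :: L2).count c = L1.count c + L2.count c +
      ((if e = c then 1 else 0) + if e' = c then 1 else 0) := by
    intro c
    simp only [List.count_append, List.count_cons, beq_iff_eq]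
    omega
  have hD : ∀ d, (d = ed f p ∨ d = ed f' p) ↔ (d = e ∨ d = e') := by
    intro d
    rcases hff with ⟨h5, h6⟩ | ⟨h5, h6⟩
    · rw [h5, h6]
    · rw [h5, h6]; tauto
  have hD1 : ∀ g, (g = f ∨ g = f') → (ed g p = e ∨ ed g p = e') := by
    rintro g (rfl | rfl)
    · exact (hD _).1 (Or.inl rfl)
    · exact (hD _).1 (Or.inr rfl)
  have hc1 : ∀ c, (c = e ∨ c = e') → (1 : ℕ) ≤ (if e = c then 1 else 0) + (if e' = c then 1 else 0) := by
    intro c hc
    rcases hc with rfl | rfl
    · simp
    · simp
  have hstre : ∀ c, (c = e ∨ c = e') → ∃ g, (g = f ∨ g = f') ∧ ed g p = c := by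
    intro c hc
    rcases (hD c).2 hc with hc | hc
    · exact ⟨f, Or.inl rfl, hc.symm⟩
    · exact ⟨f', Or.inr rfl, hc.symm⟩
  refine ⟨?_, hD, ?_⟩
  · intro q hq
    have hq' := (hD _).1 hq
    by_contra hq2
    push Not at hq2
    obtain ⟨g, hg, hgc⟩ := hstre _ hq'
    have h3 := s3 (ed q.1 q.2)
    rw [h2] at h3
    have h4 := hc1 _ hq'
    have hqg : q ≠ (g, p) := by
      rcases hg with rfl | rfl
      · exact hq2.1
      · exact hq2.2
    have h6 : ({q, (g, p)} : Finset (F × (ZMod k × Bool))) ⊆
        univ.filter (fun r : F × (ZMod k × Bool) => ed r.1 r.2 = ed q.1 q.2) := by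
      intro r hr
      simp only [Finset.mem_insert, Finset.mem_singleton] at hr
      simp only [Finset.mem_filter, Finset.mem_univ, true_and]
      rcases hr with rfl | rfl
      · rfl
      · exact hgc
    have h7 := Finset.card_le_card h6
    rw [Finset.card_insert_of_notMem (by simp [hqg]), Finset.card_singleton] at h7
    omega
  · have hnot : ∀ d, (d = ed f p ∨ d = ed f' p) → d ∉ L1 ∧ d ∉ L2 := by
      intro d hd
      have hd' := (hD d).1 hd
      obtain ⟨g, hg, hgc⟩ := hstre _ hd'
      have h3 := s3 d
      rw [h2] at h3
      have h4 := hc1 _ hd'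
      have h8 : 0 < (univ.filter (fun r : F × (ZMod k × Bool) => ed r.1 r.2 = d)).card := by
        rw [Finset.card_pos]
        exact ⟨(g, p), by simp [hgc]⟩
      constructor
      · intro h10
        have := List.count_pos_iff.2 h10
        omega
      · intro h10
        have := List.count_pos_iff.2 h10
        omega
    exact ⟨fun d hd h => (hnot d h).1 hd, fun d hd h => (hnot d h).2 hd⟩

end usage

/-- a trivial value forces a coincidence -/
theorem exists_coinc1 {P : Type u} [Group P] (G : Bool → Subgroup P) (hNF : NF G) {E X : Type}
    (v : Bool → E → X) (U : Bool → E → P) (hU : ∀ s e, U s e ∈ G s) (Sg : List E) (x0 : X)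
    (hw : wk v false x0 Sg false x0) (hval : altp (th U) false Sg = 1) (hne : Sg ≠ []) :
    ∃ L1 e1 e2 L2, Sg = L1 ++ e1 :: e2 :: L2 ∧ U (!(sd false L1)) e1 = U (!(sd false L1)) e2 := by
  rcases Sg with _ | ⟨e, L⟩
  · exact absurd rfl hne
  · rcases coinc G U hU L false e with ⟨l, c, h1, h2, h3, h4⟩ | h
    · exfalso
      rw [wk_sd hw] at h2
      have hL : L ≠ [] := by
        rintro rfl
        have := wk_sd hw
        simp [sd] at this
      have hl := h4 hL
      have h5 : l.prod ∈ G false := by
        have : l.prod = (U false e)⁻¹ * altp (th U) false (e :: L) * c⁻¹ := by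
          rw [h3]; group
        rw [this, hval, mul_one]
        exact (G false).mul_mem ((G false).inv_mem (hU _ _)) ((G false).inv_mem h2)
      by_cases h6 : l.prod = 1
      · exact hNF _ l hl h1 h6
      · apply hNF false (l.prod⁻¹ :: l) (by simp)
        · exact ⟨(G false).inv_mem h5, by simpa using h6, h1⟩
        · simp
    · exact h

section
variable {P Γ : Type u} [Group P] [Group Γ] {k : ℕ} [NeZero k] {G : Bool → Subgroup P} {a b : ZMod k → P}
  {π : P →* Γ} {E X F : Type} [Fintype E] [Fintype X] [Fintype F] [DecidableEq E] [DecidableEq X]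

/-- closed complexes are impossible unless two faces can be cancelled -/
theorem Sa.closed (S : Set P)
    (hS1 : ∀ s ∈ S, ∀ t ∈ S, s * t ∈ S) (hS2 : (1 : P) ∉ S)
    (hS3 : ∀ s ∈ S, wd a b * s ∈ S ∧ (wd a b)⁻¹ * s ∈ S ∧ s * wd a b ∈ S ∧ s * (wd a b)⁻¹ ∈ S)
    (hS4 : ∀ p q, p ≠ q → pre a b p * (pre a b q)⁻¹ ∈ S ∨ pre a b q * (pre a b p)⁻¹ ∈ S)
    {es : Finset E} {v : Bool → E → X} {U : Bool → E → P} {ed : F → ZMod k × Bool → E} {x0 : X}
    {D : E → Γ} {h : Bool → X → Γ} {L : List (List E × F × Bool)}
    (hS : Sa G a b π es v U ed [] x0 D h L) (hdim : finrank ℚ (Z v es) ≤ Fintype.card F)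
    (f0 : F) (hinj : ∀ p f f', ed f p = ed f' p → f = f') : False := by
  classical
  let es0 : Finset E := (univ : Finset (F × (ZMod k × Bool))).image (fun q => ed q.1 q.2)
  have hes0 : ∀ f p, ed f p ∈ es0 := fun f p => Finset.mem_image.2 ⟨(f, p), Finset.mem_univ _, rfl⟩
  have hsub : es0 ⊆ es := by
    intro e he
    obtain ⟨q, _, rfl⟩ := Finset.mem_image.1 he
    exact hS.hes _ _
  let V : Finset (Bool × X) := univ.filter (fun y => ∃ e ∈ es0, v y.1 e = y.2)
  have hcore := star_core a b S hS1 hS2 hS3 hS4 v U ed (fun _ => False) hS.hv (fun f p _ => hS.hc f p)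
    hinj es0 univ (fun f _ p => hes0 f p)
    (by
      intro e he
      obtain ⟨q, _, rfl⟩ := Finset.mem_image.1 he
      exact ⟨q.1, Finset.mem_univ _, q.2, rfl⟩)
    (by
      intro f _ p
      by_contra hcon
      have hcon2 : ∀ f' p', ed f' p' = ed f p → f' = f ∧ p' = p := by
        intro f' p' h1
        by_contra h2
        apply hcon
        refine ⟨f', Finset.mem_univ _, p', h1, fun h3 h4 => h2 ⟨h3, h4⟩⟩
      have h1 := hS.identZ (fun d => if d = ed f p then (1 : ℤ) else 0) rfl
      have h2 : ∀ g, (∑ q : ZMod k × Bool, (if q.2 = true then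
          (if ed g q = ed f p then (1 : ℤ) else 0) else - (if ed g q = ed f p then (1 : ℤ) else 0))) =
          if g = f then (if p.2 = true then 1 else -1) else 0 := by
        intro g
        by_cases hg : g = f
        · subst hg
          rw [if_pos rfl, Finset.sum_eq_single p]
          · simp only [if_true]
          · intro q _ hqp
            have hc : ¬ (ed g q = ed g p) := fun h4 => hqp (hcon2 _ _ h4).2
            simp only [if_neg hc]
            simp
          · intro h; exact absurd (Finset.mem_univ _) h
        · rw [if_neg hg]
          apply Finset.sum_eq_zero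
          intro q _
          have hc : ¬ (ed g q = ed f p) := fun h4 => hg (hcon2 _ _ h4).1
          simp only [if_neg hc]
          simp
      simp only [h2] at h1
      obtain ⟨t0, ht0, ht0f⟩ := hS.lall f
      have h3 : (L.map (fun t => if t.2.2 = true then (if t.2.1 = f then (if p.2 = true then (1 : ℤ) else -1) else 0)
          else - (if t.2.1 = f then (if p.2 = true then (1 : ℤ) else -1) else 0))) =
          L.map (fun t => if t.2.1 = t0.2.1 then (if t.2.2 = true then (if p.2 = true then (1 : ℤ) else -1)
            else - (if p.2 = true then (1 : ℤ) else -1)) else 0) := by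
        apply List.map_congr_left
        intro t _
        rw [ht0f]
        by_cases h5 : t.2.1 = f
        · simp only [if_pos h5]
        · simp only [if_neg h5]
          simp
      rw [h3, sum_map_key L (fun t => t.2.1) hS.lnd t0 ht0] at h1
      revert h1
      cases t0.2.2 <;> cases p.2 <;> simp)
    V (by
      intro y hy
      exact ⟨id, (Finset.mem_filter.1 hy).2⟩)
  have hy0 : (false, v false (ed f0 (0, false))) ∈ V := by
    simp only [V, Finset.mem_filter, Finset.mem_univ, true_and]
    exact ⟨_, hes0 f0 (0, false), rfl⟩
  have h1 := Z_dim v es0 (false, v false (ed f0 (0, false))) (V.erase (false, v false (ed f0 (0, false)))) (by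
    intro e he s hs
    rw [Finset.mem_erase]
    refine ⟨hs, ?_⟩
    simp only [V, Finset.mem_filter, Finset.mem_univ, true_and]
    exact ⟨e, he, rfl⟩)
  rw [Finset.card_erase_of_mem hy0] at h1
  have h2 : 0 < V.card := Finset.card_pos.2 ⟨_, hy0⟩
  have h3 := Submodule.finrank_mono (Z_mono v hsub)
  rw [Finset.card_univ] at hcore
  omega

theorem Sa.main (hNF : NF G) (hπ : π (wd a b) = 1) (S : Set P)
    (hS1 : ∀ s ∈ S, ∀ t ∈ S, s * t ∈ S) (hS2 : (1 : P) ∉ S)
    (hS3 : ∀ s ∈ S, wd a b * s ∈ S ∧ (wd a b)⁻¹ * s ∈ S ∧ s * wd a b ∈ S ∧ s * (wd a b)⁻¹ ∈ S)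
    (hS4 : ∀ p q, p ≠ q → pre a b p * (pre a b q)⁻¹ ∈ S ∨ pre a b q * (pre a b p)⁻¹ ∈ S)
    (hmin : ∀ l : List (P × Bool), l.length < Fintype.card F →
      (l.map (fun t => t.1 * sg t.2 (wd a b) * t.1⁻¹)).prod = 1 → ZS (l.map (fun t => (π t.1, t.2)))) :
    ∀ (n : ℕ) (es : Finset E) (v : Bool → E → X) (U : Bool → E → P) (ed : F → ZMod k × Bool → E)
      (Sg : List E) (x0 : X) (D : E → Γ) (h : Bool → X → Γ) (L : List (List E × F × Bool)),
      Sg.length = n → Sa G a b π es v U ed Sg x0 D h L →
      finrank ℚ (Z v es) ≤ Fintype.card F → altp (th U) false Sg = 1 →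
      ZS (L.map (fun t => (D (ed t.2.1 (0, false)), t.2.2))) := by
  classical
  intro n
  induction n using Nat.strong_induction_on with
  | _ n ih =>
  intro es v U ed Sg x0 D h L hn hSt hdim hval
  by_cases hSg : Sg = []
  · subst hSg
    by_cases hF : Nonempty F
    · obtain ⟨f0⟩ := hF
      by_cases hinj : ∀ p f f', ed f p = ed f' p → f = f'
      · exact (Sa.closed S hS1 hS2 hS3 hS4 hSt hdim f0 hinj).elim
      · push Not at hinj
        obtain ⟨p, f, f', hff, hne⟩ := hinj
        obtain ⟨hK1, hK2⟩ := usage_same hSt.s3 hne hff
        exact hSt.kill hπ hval f f' p hne hK1 (by rw [hff]) (fun t => rfl) rfl hmin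
    · have hL : L = [] := by
        rw [← List.length_eq_zero_iff, hSt.len]
        rw [not_nonempty_iff] at hF
        exact Fintype.card_eq_zero
      rw [hL]
      intro φ
      rfl
  obtain ⟨L1, e, e', L2, rfl, hUU⟩ := exists_coinc1 G hNF v U hSt.hU Sg x0 hSt.walk hval hSg
  by_cases hee : e = e'
  · subst hee
    obtain ⟨h1, h2⟩ := hSt.drop
    rw [h2] at hval
    refine ih (L1 ++ L2).length ?_ es v U ed (L1 ++ L2) x0 D h L rfl h1 hdim hval
    rw [← hn]
    simp only [List.length_append, List.length_cons]
    omega
  · have hw := hSt.walk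
    rw [wk_append] at hw
    obtain ⟨y, hw1, hw2, hw3, hw4⟩ := hw
    have hes : e ∈ es := hSt.wes e (by simp)
    have hes' : e' ∈ es := hSt.wes e' (by simp)
    have hr : ∀ r : Bool, r = sd false L1 ∨ r = !(sd false L1) := by
      intro r
      cases r <;> cases sd false L1 <;> simp
    have hDee : D e = D e' := by
      rw [← hSt.dev (!(sd false L1)) e, ← hSt.dev (!(sd false L1)) e', hw3, hUU]
    by_cases hfar : v (sd false L1) e = v (sd false L1) e'
    · have hvv : ∀ r, v r e = v r e' := by
        intro r
        rcases hr r with h1 | h1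
        · rw [h1]; exact hfar
        · rw [h1]; exact hw3.symm
      by_cases hU2 : U (sd false L1) e = U (sd false L1) e'
      · have hUU2 : ∀ r, U r e = U r e' := by
          intro r
          rcases hr r with h1 | h1
          · rw [h1]; exact hU2
          · rw [h1]; exact hUU
        obtain ⟨h1, h2, h3⟩ := hSt.ident_edges hee hvv hUU2
        have h4 := finrank_ident (v := v) es hee hes hes' hvv
        rw [h2] at hval
        have h5 := ih _ ?_ _ v U _ _ x0 D h _ rfl h1 (by omega) hval
        · rw [List.map_map] at h5
          simp only [Function.comp_def, h3] at h5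
          exact h5
        · rw [← hn]
          simp only [List.length_map, List.length_append, List.length_cons]
          omega
      · -- the contradiction, or two faces cancel
        have hcases : (∃ p f f', f ≠ f' ∧ (ed f p = ed f' p ∨ (ed f p = e ∧ ed f' p = e') ∨
            (ed f p = e' ∧ ed f' p = e))) ∨
            (∀ p f f', (if ed f p = e' then e else ed f p) = (if ed f' p = e' then e else ed f' p) → f = f') := by
          by_contra hcon
          rw [not_or] at hcon
          obtain ⟨hc1, hc2⟩ := hcon
          apply hc2
          intro p f f' hff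
          by_contra hne
          apply hc1
          refine ⟨p, f, f', hne, ?_⟩
          split_ifs at hff with h3 h4 h4
          · left; rw [h3, h4]
          · right; right; exact ⟨h3, hff.symm⟩
          · right; left; exact ⟨hff, h4⟩
          · left; exact hff
        rcases hcases with ⟨p, f, f', hne, hff | hff⟩ | hinj
        · obtain ⟨hK1, hK2⟩ := usage_same hSt.s3 hne hff
          refine hSt.kill hπ hval f f' p hne hK1 (by rw [hff]) (fun t => ?_) ?_ hmin
          · apply altp_congr
            intro d hd
            simp only [if_neg (hK2 d hd)]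
          · apply altp_one
            intro d hd
            simp only [if_neg (hK2 d hd)]
            rfl
        · obtain ⟨hK1, hD, hn1, hn2⟩ := usage_pair hee hSt.s3 hne hff
          refine hSt.kill hπ hval f f' p hne hK1 ?_ (fun t => ?_) ?_ hmin
          · rcases hff with ⟨h5, h6⟩ | ⟨h5, h6⟩
            · rw [h5, h6, hDee]
            · rw [h5, h6, hDee]
          · rw [altp_append, altp_append]
            congr 1
            · apply altp_congr
              intro d hd
              simp only [if_neg (hn1 d hd)]
            · simp only [altp]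
              rw [← mul_assoc, ← mul_assoc]
              congr 1
              · rw [if_pos ((hD e).2 (Or.inl rfl)), if_pos ((hD e').2 (Or.inr rfl))]
                simp only [th]
                cases hsb : sd false L1
                · rw [hsb] at hUU
                  simp only [Bool.not_false] at hUU
                  simp [hUU]
                · rw [hsb] at hUU
                  simp only [Bool.not_true] at hUU
                  simp only [Bool.not_true, Bool.false_eq_true, if_true, if_false, hUU]
                  group
              · apply altp_congr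
                intro d hd
                simp only [if_neg (hn2 d hd)]
          · rw [altp_append, altp_one _ _ L1 (by
              intro d hd
              simp only [if_neg (hn1 d hd)]
              rfl), one_mul]
            simp only [altp]
            rw [altp_one _ _ L2 (by
              intro d hd
              simp only [if_neg (hn2 d hd)]
              rfl), mul_one]
            rw [if_pos ((hD e).2 (Or.inl rfl)), if_pos ((hD e').2 (Or.inr rfl))]
            cases sd false L1 <;> simp
        · exfalso
          set s := sd false L1 with hs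
          have hlt := finrank_ident (v := v) es hee hes hes' hvv
          have hvρ : ∀ r d, v r (if d = e' then e else d) = v r d := by
            intro r d
            split_ifs with h1
            · rw [h1, hvv]
            · rfl
          have h30 := star a b S hS1 hS2 hS3 hS4 v U (fun f p => if ed f p = e' then e else ed f p) (s, v s e)
            (by
              intro f p
              rw [hvρ, hvρ, hSt.hv])
            (by
              intro f p hexc
              have h31 : ∀ d, (p.2, v p.2 d) ≠ (s, v s e) → U p.2 (if d = e' then e else d) = U p.2 d := by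
                intro d hd
                split_ifs with h32
                · subst h32
                  by_cases h33 : p.2 = s
                  · exfalso
                    apply hd
                    rw [h33, hvv]
                  · have h34 : p.2 = !s := by
                      revert h33
                      cases p.2 <;> cases s <;> simp
                    rw [h34]
                    exact hUU
                · rfl
              rw [hvρ] at hexc
              rw [h31 _ hexc, h31 _ (by rw [hSt.hv]; exact hexc), hSt.hc])
            hinj (es.erase e') Finset.univ (by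
              intro f _ p
              split_ifs with h1
              · exact Finset.mem_erase.2 ⟨hee, hes⟩
              · exact Finset.mem_erase.2 ⟨h1, hSt.hes f p⟩)
          rw [Finset.card_univ] at h30
          omega
    · set s := sd false L1 with hs
      set x := v s e with hx
      set x' := v s e' with hx'
      set g := U s e * (U s e')⁻¹ with hg
      set v' : Bool → E → X := fun r d => if r = s ∧ v r d = x' then x else v r d with hv'
      set U' : Bool → E → P := fun r d => if r = s ∧ v r d = x' then g * U r d else U r d with hU'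
      obtain ⟨x0', c, hc, hSt', hcv, hbase⟩ := hSt.merge s x x' g
        ((G s).mul_mem (hSt.hU _ _) ((G s).inv_mem (hSt.hU _ _))) (by
          have e1 : h s x * π (U s e) = D e := hSt.dev s e
          have e2 : h s x' * π (U s e') = D e' := hSt.dev s e'
          rw [hg, map_mul, map_inv, ← mul_assoc, e1, hDee, ← e2]
          group) v' U' (fun _ _ => rfl) (fun _ _ => rfl)
      have hns : ∀ d, v' (!s) d = v (!s) d := by
        intro d
        simp [hv']
      have hnsU : ∀ d, U' (!s) d = U (!s) d := by
        intro d
        simp [hU']
      have hvv : ∀ r, v' r e = v' r e' := by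
        intro r
        rcases hr r with h1 | h1
        · subst h1
          simp only [hv']
          rw [if_neg, if_pos]
          · exact ⟨trivial, rfl⟩
          · rintro ⟨_, h2⟩; exact hfar h2
        · subst h1
          rw [hns, hns, hw3]
      have hUU2 : ∀ r, U' r e = U' r e' := by
        intro r
        rcases hr r with h1 | h1
        · subst h1
          simp only [hU']
          rw [if_neg, if_pos]
          · rw [hg]; group
          · exact ⟨trivial, rfl⟩
          · rintro ⟨_, h2⟩; exact hfar h2
        · subst h1
          rw [hnsU, hnsU, hUU]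
      obtain ⟨h1, h2, h3⟩ := hSt'.ident_edges hee hvv hUU2
      have h4 := finrank_ident (v := v') es hee hes hes' hvv
      have h5 := finrank_merge (v := v) es s x x' hfar v' (fun _ _ => rfl)
      have h6 := ih _ ?_ _ v' U' _ _ x0' D h _ rfl h1 (by omega) ?_
      · rw [List.map_map] at h6
        simp only [Function.comp_def, h3] at h6
        exact h6
      · rw [← hn]
        simp only [List.length_map, List.length_append, List.length_cons]
        omega
      · rw [← h2, hcv, hval]
        group

end

end Pool.Agent.H341.FS
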