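import Pool.Agent.H341.FS.Rep2

set_option autoImplicit false

/-!
# Part II: certificate implies that the factor embeds
-/

namespace Pool.Agent.H341.FS

open Finset Module

universe u

variable {P : Type u} [Group P] {k : ℕ} [NeZero k] {G : Bool → Subgroup P} {a b : ZMod k → P}

theorem Rep.conj_all (hgen : G false ⊔ G true = ⊤) (c : P) : ∀ (m : ℕ) (u : P), Rep G a b m u →
    Rep G a b m (c * u * c⁻¹) := by
  let N : Subgroup P :=
    { carrier := {c | ∀ (m : ℕ) (u : P), Rep G a b m (c * u * c⁻¹) ↔ Rep G a b m u}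
      one_mem' := by
        intro m u
        simp
      mul_mem' := by
        intro c d hc hd m u
        have h1 : c * d * u * (c * d)⁻¹ = c * (d * u * d⁻¹) * c⁻¹ := by group
        rw [h1, hc, hd]
      inv_mem' := by
        intro c hc m u
        have h1 := hc m (c⁻¹ * u * c⁻¹⁻¹)
        rw [← h1]
        have h2 : c * (c⁻¹ * u * c⁻¹⁻¹) * c⁻¹ = u := by group
        rw [h2] }
  have h1 : ∀ s, G s ≤ N := by
    intro s c hc m u
    constructor
    · intro h
      have h2 : Rep G a b m (c⁻¹ * (c * u * c⁻¹) * c⁻¹⁻¹) := by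
        cases s
        · exact h.conj_false ((G false).inv_mem hc)
        · exact h.conj_true ((G true).inv_mem hc)
      have h3 : c⁻¹ * (c * u * c⁻¹) * c⁻¹⁻¹ = u := by group
      rwa [h3] at h2
    · intro h
      cases s
      · exact h.conj_false hc
      · exact h.conj_true hc
  have h2 : N = ⊤ := by
    rw [eq_top_iff, ← hgen]
    exact sup_le (h1 false) (h1 true)
  intro m u h
  have h3 : c ∈ N := by rw [h2]; exact Subgroup.mem_top c
  exact (h3 m u).2 h

theorem Rep.of_ar (hgen : G false ⊔ G true = ⊤) (haG : ∀ i, a i ∈ G false) (hbG : ∀ i, b i ∈ G true)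
    {m : ℕ} {u : P} (h : Ar (wd a b) m u) : Rep G a b m u := by
  induction h with
  | zero => exact Rep.one
  | pos m u c _ ih =>
    rw [add_comm]
    exact ((Rep.conj_all hgen c _ _ (Rep.base haG hbG))).mul ih
  | neg m u c _ ih =>
    rw [add_comm]
    exact ((Rep.conj_all hgen c _ _ (Rep.base haG hbG).inv)).mul ih

theorem exists_ar {w u : P} (h : u ∈ Subgroup.normalClosure ({w} : Set P)) : ∃ m, Ar w m u := by
  let N : Subgroup P :=
    { carrier := {u | ∃ m, Ar w m u}
      one_mem' := ⟨0, Ar.zero⟩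
      mul_mem' := by
        rintro x y ⟨m, hm⟩ ⟨n, hn⟩
        exact ⟨m + n, hm.mul hn⟩
      inv_mem' := by
        rintro x ⟨m, hm⟩
        exact ⟨m, hm.inv⟩ }
  have hN : N.Normal := by
    constructor
    rintro x ⟨m, hm⟩ g
    exact ⟨m, hm.conj g⟩
  have h1 : Subgroup.normalClosure ({w} : Set P) ≤ N := by
    apply Subgroup.normalClosure_le_normal
    rintro x hx
    rw [Set.mem_singleton_iff] at hx
    subst hx
    refine ⟨1, ?_⟩
    simpa using Ar.one_pos x 1
  exact h1 h

theorem part2 (hNF : NF G) (hgen : G false ⊔ G true = ⊤) (haG : ∀ i, a i ∈ G false)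
    (hbG : ∀ i, b i ∈ G true) (hcert : HasCert a b) :
    ∀ u ∈ G false, u ∈ Subgroup.normalClosure ({wd a b} : Set P) → u = 1 := by
  classical
  intro u hu hun
  obtain ⟨S, hS1, hS2, hS3, hS4⟩ := hcert
  have hex := exists_ar hun
  have hspec := Nat.find_spec hex
  have hmin : ∀ m, m < Nat.find hex → ¬ Ar (wd a b) m u := fun m hm => Nat.find_min hex hm
  obtain ⟨E, X, F, _, _, _, _, _, es, v, U, ed, Sg, x0, hSt, h1, h2, h3⟩ := Rep.of_ar hgen haG hbG hspec
  have := St.main hNF S hS1 hS2 hS3 hS4 Sg.length es v U ed Sg x0 rfl hSt h1 (by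
    intro m hm
    rw [h3]
    apply hmin
    omega) (by rw [h3]; exact hu)
  rw [h3] at this
  exact this

end Pool.Agent.H341.FS
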