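import Pool.Agent.H341.FS.Asph3
import Pool.Agent.H341.FS.Main2

set_option autoImplicit false

/-!
# Asphericity: initial states
-/

namespace Pool.Agent.H341.FS

open Finset Module

universe u

/-- representation of an identity sequence by a refined state -/
def RepA {P Γ : Type u} [Group P] [Group Γ] {k : ℕ} [NeZero k] (G : Bool → Subgroup P) (a b : ZMod k → P)
    (π : P →* Γ) (l : List (Γ × Bool)) (u : P) : Prop :=
  ∃ (E X F : Type) (_ : Fintype E) (_ : Fintype X) (_ : Fintype F) (_ : DecidableEq E)
    (_ : DecidableEq X) (es : Finset E) (v : Bool → E → X) (U : Bool → E → P)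
    (ed : F → ZMod k × Bool → E) (Sg : List E) (x0 : X) (D : E → Γ) (h : Bool → X → Γ)
    (L : List (List E × F × Bool)),
    Sa G a b π es v U ed Sg x0 D h L ∧ finrank ℚ (Z v es) ≤ Fintype.card F ∧ h false x0 = 1 ∧
      L.map (fun t => (D (ed t.2.1 (0, false)), t.2.2)) = l ∧ altp (th U) false Sg = u

variable {P Γ : Type u} [Group P] [Group Γ] {k : ℕ} [NeZero k] {G : Bool → Subgroup P} {a b : ZMod k → P}
  {π : P →* Γ}

theorem sg_not {Q : Type u} [Group Q] (ε : Bool) (x : Q) : sg (!ε) x = (sg ε x)⁻¹ := by
  cases ε <;> simp [sg]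

theorem sg_not0 {Q : Type} [Group Q] (ε : Bool) (x : Q) : sg (!ε) x = (sg ε x)⁻¹ := by
  cases ε <;> simp [sg]

theorem RepA.one : RepA G a b π [] 1 := by
  refine ⟨Empty, Unit, Empty, inferInstance, inferInstance, inferInstance, inferInstance, inferInstance,
    ∅, fun _ e => e.elim, fun _ e => e.elim, fun e => e.elim, [], (), fun e => e.elim, fun _ _ => 1, [],
    ?_, ?_, rfl, rfl, rfl⟩
  · refine ⟨?_, ?_, ?_, ?_, ⟨rfl, rfl⟩, ?_, ?_, ?_, ?_, ?_, ?_, rfl⟩
    · intro _ e; exact e.elim
    · intro e; exact e.elim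
    · intro e; exact e.elim
    · intro e; exact e.elim
    · intro e he; exact e.elim
    · intro e; exact e.elim
    · intro _ e; exact e.elim
    · intro t ht; simp at ht
    · simp
    · intro f; exact f.elim
  · refine le_trans (Submodule.finrank_le _) ?_
    simp

theorem RepA.inv {l : List (Γ × Bool)} {u : P} (h0 : RepA G a b π l u) :
    RepA G a b π (l.reverse.map (fun t => (t.1, !t.2))) u⁻¹ := by
  obtain ⟨E, X, F, _, _, _, _, _, es, v, U, ed, Sg, x0, D, h, L, hS, h1, h2, rfl, rfl⟩ := h0
  have hsd := wk_sd hS.walk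
  refine ⟨E, X, F, inferInstance, inferInstance, inferInstance, inferInstance, inferInstance,
    es, v, U, ed, Sg.reverse, x0, D, h, L.reverse.map (fun t => (t.1, t.2.1, !t.2.2)), ?_, h1, h2, ?_, ?_⟩
  · refine ⟨hS.hU, hS.hes, hS.hv, hS.hc, wk_reverse hS.walk, ?_, ?_, hS.dev, ?_, ?_, ?_, ?_⟩
    · intro e he
      exact hS.wes e (List.mem_reverse.1 he)
    · intro e
      rw [List.count_reverse]
      exact hS.s3 e
    · intro t0 ht0
      obtain ⟨t, ht, rfl⟩ := List.mem_map.1 ht0
      exact hS.lw t (List.mem_reverse.1 ht)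
    · rw [List.map_map]
      have : (L.reverse.map ((fun t : List E × F × Bool => t.2.1) ∘ fun t => (t.1, t.2.1, !t.2.2))) =
          (L.map (fun t => t.2.1)).reverse := by
        rw [← List.map_reverse]
        rfl
      rw [this, List.nodup_reverse]
      exact hS.lnd
    · intro f
      obtain ⟨t, ht, htf⟩ := hS.lall f
      exact ⟨_, List.mem_map.2 ⟨t, List.mem_reverse.2 ht, rfl⟩, htf⟩
    · have h3 := altp_reverse (FreeGroup.of : E → FreeGroup E) false Sg
      rw [hsd] at h3
      rw [h3, hS.ident, List.prod_inv_reverse, List.map_map, List.map_map, ← List.map_reverse]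
      congr 1
      apply List.map_congr_left
      intro t _
      simp only [Function.comp_apply, fac, sg_not0]
      group
  · rw [List.map_map, ← List.map_reverse, List.map_map]
    rfl
  · have := altp_reverse (th U) false Sg
    rwa [hsd] at this

theorem RepA.conj_false {l : List (Γ × Bool)} {u c : P} (hc : c ∈ G false) (h0 : RepA G a b π l u) :
    RepA G a b π (l.map (fun t => (π c * t.1, t.2))) (c * u * c⁻¹) := by
  classical
  obtain ⟨E, X, F, _, _, _, _, _, es, v, U, ed, Sg, x0, D, h, L, hS, h1, h2, rfl, rfl⟩ := h0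
  let γ : Bool → X → P := fun r y => if r = false ∧ y = x0 then c else 1
  have hγG : ∀ r y, γ r y ∈ G r := by
    intro r y
    simp only [γ]
    split_ifs with h1
    · rw [h1.1]; exact hc
    · exact (G r).one_mem
  refine ⟨E, X, F, inferInstance, inferInstance, inferInstance, inferInstance, inferInstance,
    es, v, fun r d => γ r (v r d) * U r d, ed, Sg, x0, fun d => π c * D d,
    fun r y => π c * h r y * (π (γ r y))⁻¹, L, ?_, h1, ?_, ?_, ?_⟩
  · refine ⟨?_, hS.hes, hS.hv, ?_, hS.walk, hS.wes, hS.s3, ?_, hS.lw, hS.lnd, hS.lall, hS.ident⟩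
    · intro r d
      exact (G r).mul_mem (hγG _ _) (hS.hU _ _)
    · intro f p
      show γ _ _ * _ = γ _ _ * _ * _
      rw [hS.hv, hS.hc, mul_assoc]
    · intro r d
      show π c * h r (v r d) * (π (γ r (v r d)))⁻¹ * π (γ r (v r d) * U r d) = π c * D d
      rw [← hS.dev r d, map_mul]
      group
  · simp [γ, h2]
  · rw [List.map_map]
    rfl
  · rw [gauge (U := U) γ (fun _ _ => rfl) hS.walk]
    simp [γ]

theorem RepA.conj_true {l : List (Γ × Bool)} {u d : P} (hd : d ∈ G true) (h0 : RepA G a b π l u) :
    RepA G a b π (l.map (fun t => (π d * t.1, t.2))) (d * u * d⁻¹) := by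
  classical
  obtain ⟨E, X, F, _, _, _, _, _, es, v, U, ed, Sg, x0, D, h, L, hS, h1, h2, rfl, rfl⟩ := h0
  let v' : Bool → E ⊕ Bool → X ⊕ Unit := fun r => Sum.elim (fun e => Sum.inl (v r e))
    (fun c => if c = true ∧ r = false then Sum.inl x0 else Sum.inr ())
  let U' : Bool → E ⊕ Bool → P := fun r => Sum.elim (fun e => U r e)
    (fun c => if c = true ∧ r = true then d else 1)
  let Sg' : List (E ⊕ Bool) := [Sum.inr false, Sum.inr true] ++ (Sg.map Sum.inl ++ [Sum.inr true, Sum.inr false])
  have hsd := wk_sd hS.walk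
  have hval : ∀ {Q : Type u} [Group Q] (θ : E ⊕ Bool → Q), altp θ false Sg' =
      θ (Sum.inr false) * (θ (Sum.inr true))⁻¹ * altp (θ ∘ Sum.inl) false Sg *
        (θ (Sum.inr false) * (θ (Sum.inr true))⁻¹)⁻¹ := by
    intro Q _ θ
    simp only [Sg']
    rw [altp_append, altp_append]
    have e1 : sd false [(Sum.inr false : E ⊕ Bool), Sum.inr true] = false := rfl
    rw [e1, sd_map, hsd, altp_map]
    simp [altp, mul_assoc]
  have hval0 : ∀ {Q : Type} [Group Q] (θ : E ⊕ Bool → Q), altp θ false Sg' =
      θ (Sum.inr false) * (θ (Sum.inr true))⁻¹ * altp (θ ∘ Sum.inl) false Sg *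
        (θ (Sum.inr false) * (θ (Sum.inr true))⁻¹)⁻¹ := by
    intro Q _ θ
    simp only [Sg']
    rw [altp_append, altp_append]
    have e1 : sd false [(Sum.inr false : E ⊕ Bool), Sum.inr true] = false := rfl
    rw [e1, sd_map, hsd, altp_map]
    simp [altp, mul_assoc]
  have hstart : ∀ (c : List E) (y : X), wk v false x0 c false y →
      wk v' false (Sum.inr ()) ([Sum.inr false, Sum.inr true] ++ c.map Sum.inl) false (Sum.inl y) := by
    intro c y hc
    rw [wk_append]
    refine ⟨Sum.inl x0, ⟨by simp [v'], by simp [v'], rfl, by simp [v']⟩, ?_⟩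
    have e1 : sd false [(Sum.inr false : E ⊕ Bool), Sum.inr true] = false := rfl
    rw [e1]
    exact wk_map (v := v) (v' := v') Sum.inl (fun _ x => Sum.inl x) (fun _ _ => rfl) hc
  have hwalk : wk v' false (Sum.inr ()) Sg' false (Sum.inr ()) := by
    simp only [Sg']
    rw [← List.append_assoc, wk_append]
    have h3 := hstart Sg x0 hS.walk
    rw [wk_sd h3]
    refine ⟨Sum.inl x0, h3, ?_⟩
    exact ⟨by simp [v'], by simp [v'], rfl, by simp [v']⟩
  refine ⟨E ⊕ Bool, X ⊕ Unit, F, inferInstance, inferInstance, inferInstance, inferInstance, inferInstance,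
    es.disjSum univ, v', U', fun f p => Sum.inl (ed f p), Sg', Sum.inr (),
    Sum.elim (fun e => π d * D e) (fun c => if c = true then π d else 1),
    fun r => Sum.elim (fun y => π d * h r y) (fun _ => 1),
    L.map (fun t => ([Sum.inr false, Sum.inr true] ++ t.1.map Sum.inl, t.2.1, t.2.2)), ?_, ?_, rfl, ?_, ?_⟩
  · refine ⟨?_, ?_, ?_, ?_, hwalk, ?_, ?_, ?_, ?_, ?_, ?_, ?_⟩
    · rintro r (e | c)
      · exact hS.hU r e
      · show (if c = true ∧ r = true then d else 1) ∈ G r
        split_ifs with h3
        · rw [h3.2]; exact hd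
        · exact (G r).one_mem
    · intro f p
      exact Finset.inl_mem_disjSum.2 (hS.hes f p)
    · intro f p
      show Sum.inl (v _ _) = Sum.inl (v _ _)
      rw [hS.hv]
    · intro f p
      exact hS.hc f p
    · intro e he
      simp only [Sg', List.mem_append, List.mem_cons, List.mem_map, List.not_mem_nil, or_false] at he
      rcases he with (rfl | rfl) | ⟨c, hc, rfl⟩ | rfl | rfl
      · exact Finset.inr_mem_disjSum.2 (Finset.mem_univ _)
      · exact Finset.inr_mem_disjSum.2 (Finset.mem_univ _)
      · exact Finset.inl_mem_disjSum.2 (hS.wes c hc)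
      · exact Finset.inr_mem_disjSum.2 (Finset.mem_univ _)
      · exact Finset.inr_mem_disjSum.2 (Finset.mem_univ _)
    · rintro (e | c)
      · have h3 := hS.s3 e
        have h4 : (univ.filter (fun q : F × (ZMod k × Bool) => (Sum.inl (ed q.1 q.2) : E ⊕ Bool) = Sum.inl e)) =
            univ.filter (fun q : F × (ZMod k × Bool) => ed q.1 q.2 = e) := by
          ext q; simp
        rw [h4, count_spike _ _ (by simp), count_emb _ Sum.inl_injective]
        simpa using h3
      · have h4 : (univ.filter (fun q : F × (ZMod k × Bool) => (Sum.inl (ed q.1 q.2) : E ⊕ Bool) = Sum.inr c)) = ∅ := by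
          ext q; simp
        rw [h4, count_spike _ _ (by simp), count_emb_zero _ _ _ (by simp)]
        split_ifs <;> simp
    · rintro r (e | c)
      · show π d * h r (v r e) * π (U r e) = π d * D e
        rw [mul_assoc, hS.dev]
      · cases r <;> cases c <;> simp [v', U', h2]
    · intro t0 ht0
      obtain ⟨t, ht, rfl⟩ := List.mem_map.1 ht0
      exact hstart _ _ (hS.lw t ht)
    · rw [List.map_map]
      exact hS.lnd
    · intro f
      obtain ⟨t, ht, htf⟩ := hS.lall f
      exact ⟨_, List.mem_map.2 ⟨t, ht, rfl⟩, htf⟩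
    · rw [hval0]
      have h3 := congrArg (FreeGroup.lift (FreeGroup.of ∘ (Sum.inl : E → E ⊕ Bool))) hS.ident
      rw [lift_altp, map_list_prod, List.map_map] at h3
      rw [h3, List.map_map]
      set q : FreeGroup (E ⊕ Bool) := FreeGroup.of (Sum.inr false) * (FreeGroup.of (Sum.inr true))⁻¹ with hq
      have h4 : ∀ (M : List (List E × F × Bool)), q * (M.map ((FreeGroup.lift (FreeGroup.of ∘ (Sum.inl : E → E ⊕ Bool))) ∘
          fac FreeGroup.of ed)).prod * q⁻¹ = (M.map (fac FreeGroup.of (fun f p => (Sum.inl (ed f p) : E ⊕ Bool)) ∘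
          fun t => ([Sum.inr false, Sum.inr true] ++ t.1.map Sum.inl, t.2.1, t.2.2))).prod := by
        intro M
        induction M with
        | nil => simp
        | cons t M ih =>
          rw [List.map_cons, List.prod_cons, List.map_cons, List.prod_cons, ← ih]
          simp only [Function.comp_apply]
          rw [lift_fac]
          have h5 : altp FreeGroup.of false ([(Sum.inr false : E ⊕ Bool), Sum.inr true] ++ t.1.map Sum.inl) =
              q * altp (FreeGroup.of ∘ (Sum.inl : E → E ⊕ Bool)) false t.1 := by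
            rw [altp_append, altp_map]
            have e1 : sd false [(Sum.inr false : E ⊕ Bool), Sum.inr true] = false := rfl
            rw [e1, hq]
            simp [altp]
          unfold fac
          simp only
          rw [h5]
          have h6 : Phi (FreeGroup.of ∘ (Sum.inl : E → E ⊕ Bool)) (ed t.2.1) =
            Phi FreeGroup.of (fun p => (Sum.inl (ed t.2.1 p) : E ⊕ Bool)) := rfl
          rw [h6]
          group
      exact h4 L
  · -- rank
    refine le_trans ?_ h1
    have hmap : ∀ z ∈ Z v' (es.disjSum univ), z (Sum.inr false) = 0 ∧ z (Sum.inr true) = 0 ∧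
        (fun e => z (Sum.inl e)) ∈ Z v es := by
      intro z hz
      have e1 := hz.2 false (Sum.inr ())
      have e2 := hz.2 true (Sum.inr ())
      rw [Finset.sum_filter, Fintype.sum_sum_type] at e1 e2
      simp [v'] at e1 e2
      rw [e1, add_zero] at e2
      refine ⟨e1, e2, ?_⟩
      refine ⟨fun e he => hz.1 _ (fun h => he (Finset.inl_mem_disjSum.1 h)), fun r y => ?_⟩
      have e3 := hz.2 r (Sum.inl y)
      rw [Finset.sum_filter, Fintype.sum_sum_type] at e3
      simp only [Fintype.sum_bool, e1, e2, ite_self, add_zero] at e3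
      rw [Finset.sum_filter]
      refine Eq.trans (Finset.sum_congr rfl ?_) e3
      intro e _
      simp [v']
    let φ : Z v' (es.disjSum univ) →ₗ[ℚ] Z v es :=
      { toFun := fun z => ⟨fun e => z.1 (Sum.inl e), (hmap z.1 z.2).2.2⟩
        map_add' := fun _ _ => rfl
        map_smul' := fun _ _ => rfl }
    apply LinearMap.finrank_le_finrank_of_injective (f := φ)
    rw [injective_iff_map_eq_zero]
    intro z hz
    have e1 : ∀ e, z.1 (Sum.inl e) = 0 := fun e => congrFun (congrArg Subtype.val hz) e
    apply Subtype.ext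
    funext e
    rcases e with e | c
    · exact e1 e
    · cases c
      · exact (hmap z.1 z.2).1
      · exact (hmap z.1 z.2).2.1
  · rw [List.map_map, List.map_map]
    rfl
  · rw [hval]
    have e1 : (th U' ∘ Sum.inl) = th U := by funext e; rfl
    rw [e1]
    simp [th, U']

end Pool.Agent.H341.FS
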