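import Pool.Agent.H341.FS.Stm2

set_option autoImplicit false
set_option linter.unusedSectionVars false
set_option linter.unusedVariables false

/-!
# The case distinction `S_ASM`
-/

namespace Pool.Agent.H341.FS

open Monoid Function

universe u v

namespace ASM

variable {G : Bool → Type u} [∀ s, Group (G s)]

theorem fg_countable {P : Type u} [Group P] (H : Subgroup P) (hH : H.FG) : Countable H := by
  have h1 : Group.FG H := (Group.fg_iff_subgroup_fg H).2 hH
  obtain ⟨α, hα, φ, hφ⟩ := Group.fg_iff_exists_freeGroup_hom_surjective_finite.1 h1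
  exact hφ.countable

theorem mem_Kst {A : Type u} {P : Type v} [Group A] [Group P] {ι : A →* P} {H : Subgroup P} {g₀ : P}
    {x : A} : x ∈ Kst ι H g₀ ↔ g₀ * ι x * g₀⁻¹ ∈ H := by
  unfold Kst
  rw [Subgroup.mem_comap]
  rfl

/-! ### prefixes -/

section pref

variable {k : ℕ} [NeZero k] (a : ZMod k → G false) (b : ZMod k → G true)

theorem pr_false (i : ZMod k) : pr a b (i, false) =
    pp (fun n : ℕ => (CoprodI.of (a (n : ZMod k)) * CoprodI.of (b (n : ZMod k)) : CoprodI G))
      i.val := by
  simp [pre]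

theorem pr_true (i : ZMod k) : pr a b (i, true) = pr a b (i, false) * CoprodI.of (a i) := by
  simp [pre]

theorem pr_next {H : Subgroup (CoprodI G)} (hw : W a b ∈ H) (i : ZMod k) :
    pr a b (i, true) * CoprodI.of (b i) * (pr a b (i + 1, false))⁻¹ ∈ H := by
  have h1 : (i + 1).val = (i.val + 1) % k := by
    have : i + 1 = ((i.val + 1 : ℕ) : ZMod k) := by
      rw [Nat.cast_add, ZMod.natCast_zmod_val, Nat.cast_one]
    rw [this, ZMod.val_natCast]
  have h2 : pr a b (i, true) * CoprodI.of (b i) =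
      pp (fun n : ℕ => (CoprodI.of (a (n : ZMod k)) * CoprodI.of (b (n : ZMod k)) : CoprodI G))
        (i.val + 1) := by
    rw [pr_true, pr_false, pp, ZMod.natCast_zmod_val, mul_assoc]
  rw [h2, pr_false, h1]
  have h3 : i.val < k := ZMod.val_lt i
  rcases Nat.lt_or_ge (i.val + 1) k with h | h
  · rw [Nat.mod_eq_of_lt h, mul_inv_cancel]
    exact H.one_mem
  · have h4 : i.val + 1 = k := by omega
    rw [h4, Nat.mod_self, pp, inv_one, mul_one]
    exact hw

theorem one_eq (a : ZMod k → G false) (b : ZMod k → G true) : pr a b (0, false) = 1 := by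
  rw [pr_false, ZMod.val_zero]
  rfl

/-- value of an additive cocycle on the word -/
theorem t_word (t : CoprodI G → CoprodI G → ℤ) (hm : ∀ g x y, t g (x * y) = t g x + t (g * x) y) :
    t 1 (W a b) = ∑ i, (t (pr a b (i, false)) (CoprodI.of (a i)) +
      t (pr a b (i, true)) (CoprodI.of (b i))) := by
  set c : ℕ → CoprodI G := fun n : ℕ =>
    (CoprodI.of (a (n : ZMod k)) * CoprodI.of (b (n : ZMod k)) : CoprodI G) with hc
  have h1 : ∀ g, t g 1 = 0 := by
    intro g
    have := hm g 1 1
    rw [mul_one, mul_one] at this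
    linarith
  have h2 : ∀ n, t 1 (pp c n) = ∑ i ∈ Finset.range n,
      (t (pp c i) (CoprodI.of (a (i : ZMod k))) +
        t (pp c i * CoprodI.of (a (i : ZMod k))) (CoprodI.of (b (i : ZMod k)))) := by
    intro n
    induction n with
    | zero => rw [pp, h1]; rfl
    | succ n ih =>
      rw [pp, hm, ih, Finset.sum_range_succ, one_mul]
      congr 1
      rw [hc]
      dsimp only
      rw [hm]
  have h3 : t 1 (W a b) = t 1 (pp c k) := rfl
  rw [h3, h2]
  symm
  refine Finset.sum_bij' (fun i _ => i.val) (fun n _ => (n : ZMod k)) ?_ ?_ ?_ ?_ ?_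
  · intro i _
    exact Finset.mem_range.2 (ZMod.val_lt i)
  · intro n _
    exact Finset.mem_univ _
  · intro i _
    exact ZMod.natCast_zmod_val i
  · intro n hn
    rw [ZMod.val_natCast]
    exact Nat.mod_eq_of_lt (Finset.mem_range.1 hn)
  · intro i _
    rw [pr_true, pr_false, ZMod.natCast_zmod_val]

end pref

/-! ### orbits -/

/-- same orbit -/
def Orb (H : Subgroup (CoprodI G)) (s : Bool) (g g' : CoprodI G) : Prop :=
  ∃ h ∈ H, ∃ y : G s, g = h * g' * CoprodI.of y

theorem Orb.refl (H : Subgroup (CoprodI G)) (s : Bool) (g : CoprodI G) : Orb H s g g :=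
  ⟨1, H.one_mem, 1, by rw [map_one, mul_one, one_mul]⟩

theorem Orb.symm {H : Subgroup (CoprodI G)} {s : Bool} {g g' : CoprodI G} (h : Orb H s g g') :
    Orb H s g' g := by
  obtain ⟨h, hh, y, rfl⟩ := h
  refine ⟨h⁻¹, H.inv_mem hh, y⁻¹, ?_⟩
  rw [map_inv]
  group

theorem Orb.trans {H : Subgroup (CoprodI G)} {s : Bool} {g g' g'' : CoprodI G}
    (h : Orb H s g g') (h' : Orb H s g' g'') : Orb H s g g'' := by
  obtain ⟨h, hh, y, rfl⟩ := h
  obtain ⟨h', hh', y', rfl⟩ := h'
  refine ⟨h * h', H.mul_mem hh hh', y' * y, ?_⟩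
  rw [map_mul]
  group

theorem Orb.of_mem {H : Subgroup (CoprodI G)} (s : Bool) {g g' : CoprodI G} (h : g * g'⁻¹ ∈ H) :
    Orb H s g g' := ⟨g * g'⁻¹, h, 1, by rw [map_one]; group⟩

section graph

variable {k : ℕ} [NeZero k] (a : ZMod k → G false) (b : ZMod k → G true)
  (H : Subgroup (CoprodI G))

/-- positions with the same coset -/
def eS : Setoid (ZMod k × Bool) where
  r p q := pr a b p * (pr a b q)⁻¹ ∈ H
  iseqv := by
    refine ⟨fun p => ?_, fun {p q} h => ?_, fun {p q r} h h' => ?_⟩
    · rw [mul_inv_cancel]; exact H.one_mem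
    · have := H.inv_mem h
      rwa [mul_inv_rev, inv_inv] at this
    · have := H.mul_mem h h'
      rwa [← mul_assoc, inv_mul_cancel_right] at this

/-- positions with the same orbit -/
def oS (s : Bool) : Setoid (ZMod k × Bool) where
  r p q := Orb H s (pr a b p) (pr a b q)
  iseqv := ⟨fun _ => Orb.refl _ _ _, Orb.symm, Orb.trans⟩

/-- the edges -/
abbrev EE : Type := Quotient (eS a b H)

/-- the vertices of type `s` -/
abbrev VV (s : Bool) : Type := Quotient (oS a b H s)

/-- the edge of a position -/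
def xi (p : ZMod k × Bool) : EE a b H := Quotient.mk (eS a b H) p

/-- the vertex of a position -/
def ve (s : Bool) (p : ZMod k × Bool) : VV a b H s := Quotient.mk (oS a b H s) p

theorem xi_eq {p q : ZMod k × Bool} : xi a b H p = xi a b H q ↔ pr a b p * (pr a b q)⁻¹ ∈ H :=
  Quotient.eq (r := eS a b H)

theorem ve_eq {s : Bool} {p q : ZMod k × Bool} :
    ve a b H s p = ve a b H s q ↔ Orb H s (pr a b p) (pr a b q) :=
  Quotient.eq (r := oS a b H s)

/-- the vertex of type `s` of an edge -/
def al (s : Bool) : EE a b H → VV a b H s :=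
  Quotient.lift (ve a b H s) fun p q h => (ve_eq a b H).2 (Orb.of_mem s h)

theorem al_xi (s : Bool) (p : ZMod k × Bool) : al a b H s (xi a b H p) = ve a b H s p := rfl

theorem xi_surj : Surjective (xi a b H) := Quotient.mk_surjective

theorem al_surj (s : Bool) : Surjective (al a b H s) := by
  intro v
  obtain ⟨p, rfl⟩ := Quotient.mk_surjective v
  exact ⟨xi a b H p, rfl⟩

theorem al_false (i : ZMod k) :
    al a b H false (xi a b H (i, false)) = al a b H false (xi a b H (i, true)) := by
  rw [al_xi, al_xi, ve_eq, pr_true]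
  refine ⟨1, H.one_mem, (a i)⁻¹, ?_⟩
  rw [map_inv]
  group

theorem al_true (hw : W a b ∈ H) (i : ZMod k) :
    al a b H true (xi a b H (i, true)) = al a b H true (xi a b H (i + 1, false)) := by
  rw [al_xi, al_xi, ve_eq]
  refine ⟨_, pr_next a b hw i, (b i)⁻¹, ?_⟩
  rw [map_inv]
  group

/-- extension of a function of the edges -/
noncomputable def exN (N : EE a b H → ℤ) (g : CoprodI G) : ℤ := by
  classical exact
    if h : ∃ p, g * (pr a b p)⁻¹ ∈ H then N (xi a b H h.choose) else 0

theorem exN_of (N : EE a b H → ℤ) {g : CoprodI G} {p : ZMod k × Bool}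
    (h : g * (pr a b p)⁻¹ ∈ H) : exN a b H N g = N (xi a b H p) := by
  have h1 : ∃ p, g * (pr a b p)⁻¹ ∈ H := ⟨p, h⟩
  unfold exN
  rw [dif_pos h1]
  congr 1
  rw [xi_eq]
  have h2 := H.mul_mem (H.inv_mem h1.choose_spec) h
  have h3 : (g * (pr a b h1.choose)⁻¹)⁻¹ * (g * (pr a b p)⁻¹) =
      pr a b h1.choose * (pr a b p)⁻¹ := by group
  rwa [h3] at h2

theorem exN_pr (N : EE a b H → ℤ) (p : ZMod k × Bool) :
    exN a b H N (pr a b p) = N (xi a b H p) :=
  exN_of a b H N (by rw [mul_inv_cancel]; exact H.one_mem)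

theorem exN_inv (N : EE a b H → ℤ) (h : CoprodI G) (hh : h ∈ H) (g : CoprodI G) :
    exN a b H N (h * g) = exN a b H N g := by
  by_cases h1 : ∃ p, g * (pr a b p)⁻¹ ∈ H
  · obtain ⟨p, hp⟩ := h1
    rw [exN_of a b H N hp, exN_of a b H N (p := p)]
    rw [mul_assoc]
    exact H.mul_mem hh hp
  · have h2 : ¬ ∃ p, h * g * (pr a b p)⁻¹ ∈ H := by
      rintro ⟨p, hp⟩
      apply h1
      refine ⟨p, ?_⟩
      have := H.mul_mem (H.inv_mem hh) hp
      rwa [mul_assoc, inv_mul_cancel_left] at this
    unfold exN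
    rw [dif_neg h1, dif_neg h2]

theorem nc_of (N : EE a b H → ℤ)
    (hN : ¬ ∃ (mA : VV a b H false → ℚ) (mB : VV a b H true → ℚ), ∀ e,
      (N e : ℚ) = mB (al a b H true e) - mA (al a b H false e)) (s : Bool) :
    NC H s (exN a b H N) := by
  rintro ⟨M, h1, h2, h3⟩
  apply hN
  -- `M` is constant on the `s`-orbits
  have c1 : ∀ p q, Orb H s (pr a b p) (pr a b q) → M (pr a b p) = M (pr a b q) := by
    rintro p q ⟨h, hh, y, hy⟩
    rw [hy, h2, h1 h hh]
  have c2 : ∀ p q, Orb H (!s) (pr a b p) (pr a b q) →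
      N (xi a b H p) - M (pr a b p) = N (xi a b H q) - M (pr a b q) := by
    rintro p q ⟨h, hh, y, hy⟩
    have e1 := h3 (pr a b q) y
    have e2 : exN a b H N (pr a b q * CoprodI.of y) = N (xi a b H p) := by
      rw [← exN_inv a b H N h hh, ← mul_assoc, ← hy, exN_pr]
    have e3 : M (pr a b p) = M (pr a b q * CoprodI.of y) := by
      rw [hy, mul_assoc, h1 h hh]
    rw [e2, exN_pr] at e1
    rw [e3]
    linarith
  cases s with
  | false =>
    refine ⟨Quotient.lift (fun p => -(M (pr a b p) : ℚ)) ?_,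
      Quotient.lift (fun p => (N (xi a b H p) : ℚ) - (M (pr a b p) : ℚ)) ?_, ?_⟩
    · intro p q h
      rw [c1 p q h]
    · intro p q h
      have := c2 p q h
      exact_mod_cast this
    · intro e
      obtain ⟨p, rfl⟩ := xi_surj a b H e
      show (N (xi a b H p) : ℚ) =
        ((N (xi a b H p) : ℚ) - (M (pr a b p) : ℚ)) - (-(M (pr a b p) : ℚ))
      ring
  | true =>
    refine ⟨Quotient.lift (fun p => (M (pr a b p) : ℚ) - (N (xi a b H p) : ℚ)) ?_,
      Quotient.lift (fun p => (M (pr a b p) : ℚ)) ?_, ?_⟩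
    · intro p q h
      have := c2 p q h
      have h4 : ((N (xi a b H p) : ℚ)) - M (pr a b p) = (N (xi a b H q) : ℚ) - M (pr a b q) := by
        exact_mod_cast this
      linarith
    · intro p q h
      rw [c1 p q h]
    · intro e
      obtain ⟨p, rfl⟩ := xi_surj a b H e
      show (N (xi a b H p) : ℚ) =
        (M (pr a b p) : ℚ) - ((M (pr a b p) : ℚ) - (N (xi a b H p) : ℚ))
      ring

theorem ne_false (ha : ∀ i, a i ≠ 1) (i : ZMod k)
    (hK : Kst (CoprodI.of : G false →* CoprodI G) H (pr a b (i, false)) = ⊥) :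
    xi a b H (i, false) ≠ xi a b H (i, true) := by
  intro h
  rw [xi_eq, pr_true] at h
  have h1 : (a i)⁻¹ ∈ Kst (CoprodI.of : G false →* CoprodI G) H (pr a b (i, false)) := by
    rw [mem_Kst, map_inv]
    rwa [mul_inv_rev, ← mul_assoc] at h
  rw [hK, Subgroup.mem_bot] at h1
  exact ha i (inv_eq_one.1 h1)

theorem ne_true (hw : W a b ∈ H) (hb : ∀ i, b i ≠ 1) (i : ZMod k)
    (hK : Kst (CoprodI.of : G true →* CoprodI G) H (pr a b (i, true)) = ⊥) :
    xi a b H (i, true) ≠ xi a b H (i + 1, false) := by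
  intro h
  rw [xi_eq] at h
  have h2 := H.mul_mem (pr_next a b hw i) (H.inv_mem h)
  have h1 : b i ∈ Kst (CoprodI.of : G true →* CoprodI G) H (pr a b (i, true)) := by
    rw [mem_Kst]
    have h3 : pr a b (i, true) * CoprodI.of (b i) * (pr a b (i + 1, false))⁻¹ *
        (pr a b (i, true) * (pr a b (i + 1, false))⁻¹)⁻¹ =
        pr a b (i, true) * CoprodI.of (b i) * (pr a b (i, true))⁻¹ := by group
    rwa [h3] at h2
  rw [hK, Subgroup.mem_bot] at h1
  exact hb i h1

end graph

end ASM

open ASM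

/-- as `S_RC`, for words with aperiodic letters -/
def S_RC2 : Prop :=
  ∀ (G : Bool → Type u) [∀ s, Group (G s)], (∀ s, LO (G s)) → ∀ (k : ℕ) [NeZero k]
    (a : ZMod k → G false) (b : ZMod k → G true), (∀ i, a i ≠ 1) → (∀ i, b i ≠ 1) →
    (∀ d : ZMod k, d ≠ 0 → ¬ ((∀ i, a (i + d) = a i) ∧ ∀ i, b (i + d) = b i)) →
    ∀ H : Subgroup (CoprodI G), H.FG → W a b ∈ H →
      (∃ p q : ZMod k × Bool, p ≠ q ∧ pr a b p * (pr a b q)⁻¹ ∈ H) → RC H (W a b)

def S_ASM2 : Prop :=
  S_KAP.{u} → S_CHI.{u} → S_RCA.{u} → S_RCB.{u} → S_RCC.{u} → S_RCD.{u} → S_GR1 → S_GR2 → S_RC2.{u}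

theorem s_asm2 : S_ASM2.{u} := by
  intro hKAP hCHI hRCA hRCB hRCC hRCD hGR1 hGR2 G _ hG k _ a b ha hb hpow H hFG hw hpq
  have hcount : Countable H := fg_countable H hFG
  by_contra hRC
  -- (a)
  have hA : ∀ p : ZMod k × Bool, Kst (CoprodI.of : G p.2 →* CoprodI G) H (pr a b p) ≠ ⊥ →
      ∀ κ, Kap H p.2 (pr a b p) κ → κ 1 (W a b) ≠ 1 := by
    intro p hp κ hκ h
    exact hRC (hRCA G hG H p.2 (pr a b p) κ hκ (W a b) hw hp h)
  -- (b)
  have hB : ∀ p q : ZMod k × Bool, Kst (CoprodI.of : G p.2 →* CoprodI G) H (pr a b p) ≠ ⊥ →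
      Kst (CoprodI.of : G q.2 →* CoprodI G) H (pr a b q) ≠ ⊥ →
      p.2 = q.2 ∧ Orb H p.2 (pr a b q) (pr a b p) := by
    intro p q hp hq
    by_contra hne
    obtain ⟨κ₁, h1⟩ := hKAP G H p.2 (pr a b p)
    obtain ⟨κ₂, h2⟩ := hKAP G H q.2 (pr a b q)
    refine hRC (hRCB G hG H hcount p.2 q.2 _ _ κ₁ κ₂ h1 h2 ?_ (W a b) hw (hA p hp κ₁ h1)
      (hA q hq κ₂ h2))
    rintro hs g ⟨h3, h4⟩
    apply hne
    refine ⟨hs, ?_⟩
    have h3' : Orb H p.2 g (pr a b p) := h3
    have h4' : Orb H q.2 g (pr a b q) := h4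
    rw [← hs] at h4'
    exact h4'.symm.trans h3'
  have : Finite (EE a b H) := inferInstanceAs (Finite (Quotient _))
  have : ∀ s, Finite (VV a b H s) := fun s => inferInstanceAs (Finite (Quotient _))
  have : Fintype (EE a b H) := Fintype.ofFinite _
  have : Fintype (VV a b H false) := Fintype.ofFinite _
  have : Fintype (VV a b H true) := Fintype.ofFinite _
  -- the end of (c)
  have hC : ∀ p : ZMod k × Bool, Kst (CoprodI.of : G p.2 →* CoprodI G) H (pr a b p) ≠ ⊥ →
      (∃ N : EE a b H → ℤ, ¬ ∃ (mA : VV a b H false → ℚ) (mB : VV a b H true → ℚ), ∀ e,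
        (N e : ℚ) = mB (al a b H true e) - mA (al a b H false e)) → False := by
    rintro p hp ⟨N, hN⟩
    have hNC := nc_of a b H N hN p.2
    obtain ⟨t, ht⟩ := hCHI G H p.2 (exN a b H N) (exN_inv a b H N)
    obtain ⟨κ, hκ⟩ := hKAP G H p.2 (pr a b p)
    by_cases h0 : t 1 (W a b) = 0
    · exact hRC (hRCD G H p.2 _ t ht hNC (W a b) hw h0)
    · exact hRC (hRCC G hG H hcount p.2 _ κ _ t hκ ht hNC (W a b) hw (hA p hp κ hκ) h0)
  by_cases hK : ∃ p : ZMod k × Bool, Kst (CoprodI.of : G p.2 →* CoprodI G) H (pr a b p) ≠ ⊥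
  · obtain ⟨p, hp⟩ := hK
    apply hC p hp
    obtain ⟨i0, s⟩ := p
    cases s with
    | false =>
      refine hGR2 k (EE a b H) (VV a b H false) (VV a b H true) (xi a b H) (al a b H false)
        (al a b H true) {ve a b H false (i0, false)} ∅ (xi_surj a b H) (al_surj a b H false)
        (al_surj a b H true) (al_false a b H) (al_true a b H hw) ?_ ?_ (by simp)
      · intro i hi
        apply ne_false a b H ha
        by_contra hne
        apply hi
        rw [Finset.mem_singleton, al_xi, ve_eq]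
        exact (hB (i0, false) (i, false) hp hne).2
      · intro i _
        apply ne_true a b H hw hb
        by_contra hne
        exact absurd (hB (i0, false) (i, true) hp hne).1 (by simp)
    | true =>
      refine hGR2 k (EE a b H) (VV a b H false) (VV a b H true) (xi a b H) (al a b H false)
        (al a b H true) ∅ {ve a b H true (i0, true)} (xi_surj a b H) (al_surj a b H false)
        (al_surj a b H true) (al_false a b H) (al_true a b H hw) ?_ ?_ (by simp)
      · intro i _
        apply ne_false a b H ha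
        by_contra hne
        exact absurd (hB (i0, true) (i, false) hp hne).1 (by simp)
      · intro i hi
        apply ne_true a b H hw hb
        by_contra hne
        apply hi
        rw [Finset.mem_singleton, al_xi, ve_eq]
        exact (hB (i0, true) (i, true) hp hne).2
  · push Not at hK
    have hK1 : ∀ i, Kst (CoprodI.of : G false →* CoprodI G) H (pr a b (i, false)) = ⊥ :=
      fun i => hK (i, false)
    have hK2 : ∀ i, Kst (CoprodI.of : G true →* CoprodI G) H (pr a b (i, true)) = ⊥ :=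
      fun i => hK (i, true)
    rcases hGR1 k (EE a b H) (VV a b H false) (VV a b H true) (xi a b H) (al a b H false)
        (al a b H true) (xi_surj a b H) (al_surj a b H false)
        (al_surj a b H true) (al_false a b H) (al_true a b H hw)
        (fun i => ne_false a b H ha i (hK1 i)) (fun i => ne_true a b H hw hb i (hK2 i)) with
      ⟨N, hN0, hN⟩ | hper
    · have hNC := nc_of a b H N hN true
      obtain ⟨t, ht⟩ := hCHI G H true (exN a b H N) (exN_inv a b H N)
      refine hRC (hRCD G H true _ t ht hNC (W a b) hw ?_)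
      rw [t_word a b t ht.mul, ← hN0]
      refine Finset.sum_congr rfl fun i _ => ?_
      have h1 := ht.diff (pr a b (i, false)) (a i)
      have h2 := ht.zero (pr a b (i, true)) (b i)
      rw [h2, add_zero]
      rw [← pr_true, exN_pr, exN_pr] at h1
      exact h1
    · obtain ⟨p, q, hne, hpq⟩ := hpq
      obtain ⟨i, c⟩ := p
      obtain ⟨j, c'⟩ := q
      obtain ⟨rfl, hl⟩ := hper i j c c' ((xi_eq a b H).2 hpq)
      have hij : i ≠ j := by
        rintro rfl
        exact hne rfl
      have hd : j - i ≠ 0 := sub_ne_zero.2 (Ne.symm hij)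
      have ka : ∀ l, a (j + l) = a (i + l) := by
        intro l
        obtain ⟨h1, h2⟩ := hl l
        rw [xi_eq] at h1 h2
        rw [pr_true, pr_true] at h2
        have h3 := H.mul_mem (H.inv_mem h2) h1
        have h4 : a (j + l) * (a (i + l))⁻¹ ∈
            Kst (CoprodI.of : G false →* CoprodI G) H (pr a b (j + l, false)) := by
          rw [mem_Kst, map_mul, map_inv]
          have h5 : (pr a b (i + l, false) * CoprodI.of (a (i + l)) *
              (pr a b (j + l, false) * CoprodI.of (a (j + l)))⁻¹)⁻¹ *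
              (pr a b (i + l, false) * (pr a b (j + l, false))⁻¹) =
              pr a b (j + l, false) * (CoprodI.of (a (j + l)) * (CoprodI.of (a (i + l)))⁻¹) *
                (pr a b (j + l, false))⁻¹ := by group
          rwa [h5] at h3
        rw [hK1, Subgroup.mem_bot] at h4
        exact mul_inv_eq_one.1 h4
      have kb : ∀ l, b (j + l) = b (i + l) := by
        intro l
        obtain ⟨-, h2⟩ := hl l
        obtain ⟨h1, -⟩ := hl (l + 1)
        rw [xi_eq] at h1 h2
        rw [← add_assoc, ← add_assoc] at h1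
        have n1 := pr_next a b hw (i + l)
        have n2 := pr_next a b hw (j + l)
        -- `X b_j X⁻¹ (X b_i X⁻¹)⁻¹ ∈ H`
        have h3 := H.mul_mem (H.mul_mem n2 (H.inv_mem h1)) (H.mul_mem (H.inv_mem n1) h2)
        have h4 : b (j + l) * (b (i + l))⁻¹ ∈
            Kst (CoprodI.of : G true →* CoprodI G) H (pr a b (j + l, true)) := by
          rw [mem_Kst, map_mul, map_inv]
          have h5 : pr a b (j + l, true) * CoprodI.of (b (j + l)) *
              (pr a b (j + l + 1, false))⁻¹ *
              (pr a b (i + l + 1, false) * (pr a b (j + l + 1, false))⁻¹)⁻¹ *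
              ((pr a b (i + l, true) * CoprodI.of (b (i + l)) *
                (pr a b (i + l + 1, false))⁻¹)⁻¹ *
                (pr a b (i + l, true) * (pr a b (j + l, true))⁻¹)) =
              pr a b (j + l, true) * (CoprodI.of (b (j + l)) * (CoprodI.of (b (i + l)))⁻¹) *
                (pr a b (j + l, true))⁻¹ := by group
          rwa [h5] at h3
        rw [hK2, Subgroup.mem_bot] at h4
        exact mul_inv_eq_one.1 h4
      apply hpow (j - i) hd
      constructor
      · intro i'
        have h := ka (i' - i)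
        have e1 : j + (i' - i) = i' + (j - i) := by ring
        have e2 : i + (i' - i) = i' := by ring
        rw [e1, e2] at h
        exact h
      · intro i'
        have h := kb (i' - i)
        have e1 : j + (i' - i) = i' + (j - i) := by ring
        have e2 : i + (i' - i) = i' := by ring
        rw [e1, e2] at h
        exact h

end Pool.Agent.H341.FS
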