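import Pool.Agent.H341.FS.Stm2

set_option autoImplicit false

/-! FS-2 (helper740): cocycles on the factors extend to the free product. -/

namespace Pool.Agent.H341.FS

open Monoid Function

universe u v

section

variable {P : Type u} [Group P] {Q : Type v} [Group Q]

/-- right translation of functions -/
def trn (P : Type u) [Group P] (Q : Type v) [Group Q] : P →* MulAut (P → Q) where
  toFun x :=
    { toFun := fun f g => f (g * x)
      invFun := fun f g => f (g * x⁻¹)
      left_inv := fun f => by funext g; simp
      right_inv := fun f => by funext g; simp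
      map_mul' := fun _ _ => rfl }
  map_one' := by
    ext f g
    simp
  map_mul' x y := by
    ext f g
    show f (g * (x * y)) = f (g * x * y)
    rw [mul_assoc]

theorem trn_apply (x : P) (f : P → Q) (g : P) : trn P Q x f g = f (g * x) := rfl

end

theorem s_coc : S_COC.{u, v} := by
  intro G _ Q _ H tt hmul hinv
  have h1 : ∀ s g, tt s g 1 = 1 := by
    intro s g
    have h := hmul s g 1 1
    rw [mul_one, map_one, mul_one] at h
    exact left_eq_mul.1 h
  let fs : (s : Bool) → G s →* (CoprodI G → Q) ⋊[trn (CoprodI G) Q] CoprodI G := fun s =>
    { toFun := fun x => ⟨fun g => tt s g x, CoprodI.of x⟩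
      map_one' := by
        refine SemidirectProduct.ext ?_ ?_
        · funext g
          exact h1 s g
        · exact map_one _
      map_mul' := fun x y => by
        refine SemidirectProduct.ext ?_ ?_
        · funext g
          exact hmul s g x y
        · exact map_mul _ _ _ }
  have hright : ∀ x, (CoprodI.lift fs x).right = x := by
    intro x
    have h2 : (SemidirectProduct.rightHom.comp (CoprodI.lift fs)) = MonoidHom.id (CoprodI G) := by
      refine CoprodI.ext_hom _ _ fun s => ?_
      ext x
      simp [fs]
    exact DFunLike.congr_fun h2 x
  have hm : ∀ g x y, (CoprodI.lift fs (x * y)).left g =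
      (CoprodI.lift fs x).left g * (CoprodI.lift fs y).left (g * x) := by
    intro g x y
    rw [map_mul, SemidirectProduct.mul_left, hright, Pi.mul_apply, trn_apply]
  refine ⟨fun g x => (CoprodI.lift fs x).left g, ?_, hm, ?_⟩
  · intro s g x
    simp [fs]
  · intro h hh g x
    show (CoprodI.lift fs x).left (h * g) = (CoprodI.lift fs x).left g
    induction x using CoprodI.induction_on generalizing g with
    | one => simp
    | of s m =>
      simp only [CoprodI.lift_of]
      exact hinv s h hh g m
    | mul x y ihx ihy =>
      rw [hm, hm, ihx, mul_assoc, ihy]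

theorem s_chi : S_CHI.{u} := by
  intro G _ H s N hN
  obtain ⟨t, h1, h2, h3⟩ := s_coc.{u, 0} G (Multiplicative ℤ) H
    (fun s' g x => if s' = s then 1 else Multiplicative.ofAdd (N (g * CoprodI.of x) - N g))
    (by
      intro s' g x y
      by_cases h : s' = s
      · simp only [h, if_true, mul_one]
      · simp only [if_neg h, ← ofAdd_add]
        congr 1
        rw [map_mul, mul_assoc]
        ring)
    (by
      intro s' h hh g x
      by_cases h' : s' = s
      · simp only [h', if_true]
      · simp only [if_neg h']
        rw [mul_assoc, hN h hh, hN h hh])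
  refine ⟨fun g x => Multiplicative.toAdd (t g x), ?_, ?_, ?_, ?_⟩
  · intro g x y
    show Multiplicative.toAdd (t g (x * y)) = _
    rw [h2, toAdd_mul]
  · intro h hh g x
    show Multiplicative.toAdd (t (h * g) x) = _
    rw [h3 h hh]
  · intro g x
    show Multiplicative.toAdd (t g (CoprodI.of x)) = _
    rw [h1, if_pos rfl, toAdd_one]
  · intro g x
    show Multiplicative.toAdd (t g (CoprodI.of x)) = _
    rw [h1, if_neg (by cases s <;> simp), toAdd_ofAdd]

end Pool.Agent.H341.FS
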