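import Pool.Agent.H341.FS.Stm2

set_option autoImplicit false

/-!
# FS-6: counting in finite bipartite graphs
-/

namespace Pool.Agent.H341.FS

open Function Module

section lin

variable {E VA VB : Type} [Fintype E] [Fintype VA] [Fintype VB]

/-- the coboundary -/
def grD (α : E → VA) (β : E → VB) : ((VA → ℚ) × (VB → ℚ)) →ₗ[ℚ] (E → ℚ) where
  toFun m := fun e => m.2 (β e) - m.1 (α e)
  map_add' x y := by
    funext e
    simp only [Prod.snd_add, Prod.fst_add, Pi.add_apply]
    ring
  map_smul' c x := by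
    funext e
    simp only [Prod.smul_snd, Prod.smul_fst, Pi.smul_apply, smul_eq_mul, RingHom.id_apply]
    ring

theorem gr_rank [Nonempty VA] (α : E → VA) (β : E → VB) :
    finrank ℚ (LinearMap.range (grD α β)) + 1 ≤ Fintype.card VA + Fintype.card VB := by
  have h1 := LinearMap.finrank_range_add_finrank_ker (grD α β)
  have h2 : finrank ℚ ((VA → ℚ) × (VB → ℚ)) = Fintype.card VA + Fintype.card VB := by
    rw [Module.finrank_prod, Module.finrank_fintype_fun_eq_card, Module.finrank_fintype_fun_eq_card]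
  have h3 : 0 < finrank ℚ (LinearMap.ker (grD α β)) := by
    rw [Module.finrank_pos_iff_exists_ne_zero]
    refine ⟨⟨((fun _ => 1), (fun _ => 1)), ?_⟩, ?_⟩
    · rw [LinearMap.mem_ker]
      funext e
      simp [grD]
    · intro h
      have h4 : (((fun _ => 1), (fun _ => 1)) : (VA → ℚ) × (VB → ℚ)) = 0 := by
        exact congrArg Subtype.val h
      have h5 := congrFun (congrArg Prod.fst h4) (Classical.arbitrary VA)
      simp at h5
  omega

theorem gr_den (x : E → ℚ) : ∃ (D : ℕ) (N : E → ℤ), D ≠ 0 ∧ ∀ e, (N e : ℚ) = D * x e := by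
  classical
  refine ⟨∏ e, (x e).den, ?_⟩
  have h0 : (∏ e, (x e).den) ≠ 0 := Finset.prod_ne_zero_iff.2 (fun e _ => (x e).den_nz)
  have h1 : ∀ e, ∃ n : ℤ, (n : ℚ) = ((∏ e, (x e).den : ℕ) : ℚ) * x e := by
    intro e
    obtain ⟨q, hq⟩ := Finset.dvd_prod_of_mem (fun e => (x e).den) (Finset.mem_univ e)
    refine ⟨q * (x e).num, ?_⟩
    rw [hq]
    push_cast
    have h2 : ((x e).num : ℚ) = (x e).den * x e := by
      have := Rat.den_mul_eq_num (x e)
      linarith
    rw [h2]
    ring
  choose N hN using h1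
  exact ⟨N, h0, hN⟩

/-- degree counting: `2 |V| ≤ |E| + |B|`, if all vertices outside `B` have degree at least two -/
theorem gr_deg {V : Type} [Fintype V] [DecidableEq V] (f : E → V) (B : Finset V)
    (hf : Surjective f) (h : ∀ v, v ∉ B → ∃ e e', e ≠ e' ∧ f e = v ∧ f e' = v) :
    2 * Fintype.card V ≤ Fintype.card E + B.card ∧
      (2 * Fintype.card V = Fintype.card E → B = ∅ →
        ∀ e e' e'', f e = f e' → f e = f e'' → e' ≠ e → e'' ≠ e → e' = e'') := by
  classical
  have h1 : Fintype.card E = ∑ v : V, (Finset.univ.filter (fun e => f e = v)).card := by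
    rw [← Finset.card_univ]
    exact Finset.card_eq_sum_card_fiberwise (fun e _ => Finset.mem_univ _)
  have h2 : ∀ v, 2 ≤ (Finset.univ.filter (fun e => f e = v)).card + (if v ∈ B then 1 else 0) := by
    intro v
    by_cases hv : v ∈ B
    · rw [if_pos hv]
      obtain ⟨e, he⟩ := hf v
      have : 0 < (Finset.univ.filter (fun e => f e = v)).card :=
        Finset.card_pos.2 ⟨e, by simp [he]⟩
      omega
    · rw [if_neg hv]
      obtain ⟨e, e', hne, he, he'⟩ := h v hv
      have : 1 < (Finset.univ.filter (fun e => f e = v)).card :=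
        Finset.one_lt_card.2 ⟨e, by simp [he], e', by simp [he'], hne⟩
      omega
  have h3 : ∑ v : V, (if v ∈ B then 1 else 0) = B.card := by
    rw [Finset.sum_ite_mem, Finset.univ_inter]
    simp
  have h4 : ∑ _v : V, 2 = 2 * Fintype.card V := by
    simp [mul_comm]
  constructor
  · rw [h1, ← h3, ← h4, ← Finset.sum_add_distrib]
    exact Finset.sum_le_sum (fun v _ => h2 v)
  · intro hE hB
    subst hB
    have h5 : ∀ v, 2 ≤ (Finset.univ.filter (fun e => f e = v)).card := by
      intro v
      have := h2 v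
      simpa using this
    have h6 : ∀ v, (Finset.univ.filter (fun e => f e = v)).card = 2 := by
      by_contra hcon
      push Not at hcon
      obtain ⟨v, hv⟩ := hcon
      have h7 : ∑ _v : V, 2 < ∑ v : V, (Finset.univ.filter (fun e => f e = v)).card := by
        refine Finset.sum_lt_sum (fun v _ => h5 v) ⟨v, Finset.mem_univ _, ?_⟩
        have := h5 v
        omega
      rw [← h1, h4] at h7
      omega
    intro e e' e'' he he' hne hne'
    by_contra hcon
    have h8 : ({e, e', e''} : Finset E) ⊆ Finset.univ.filter (fun x => f x = f e) := by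
      intro x hx
      simp only [Finset.mem_insert, Finset.mem_singleton] at hx
      simp only [Finset.mem_filter, Finset.mem_univ, true_and]
      rcases hx with rfl | rfl | rfl
      · rfl
      · exact he.symm
      · exact he'.symm
    have h9 := Finset.card_le_card h8
    rw [h6, Finset.card_eq_three.2 ⟨e, e', e'', hne.symm, hne'.symm, hcon, rfl⟩] at h9
    omega

end lin

theorem s_gr2 : S_GR2 := by
  classical
  intro k _ E VA VB _ _ _ ξ α β BA BB hξ hα hβ h1 h2 h3 h4 hcard
  have hA : 2 * Fintype.card VA ≤ Fintype.card E + BA.card := by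
    refine (gr_deg α BA hα ?_).1
    intro v hv
    obtain ⟨e, rfl⟩ := hα v
    obtain ⟨⟨i, c⟩, rfl⟩ := hξ e
    have h5 : α (ξ (i, c)) = α (ξ (i, false)) := by
      cases c
      · rfl
      · exact (h1 i).symm
    rw [h5] at hv ⊢
    exact ⟨ξ (i, false), ξ (i, true), h3 i hv, rfl, (h1 i).symm⟩
  have hB : 2 * Fintype.card VB ≤ Fintype.card E + BB.card := by
    refine (gr_deg β BB hβ ?_).1
    intro v hv
    obtain ⟨e, rfl⟩ := hβ v
    obtain ⟨⟨i, c⟩, rfl⟩ := hξ e
    have h5 : ∃ j, β (ξ (i, c)) = β (ξ (j, true)) := by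
      cases c
      · refine ⟨i - 1, ?_⟩
        rw [h2 (i - 1), sub_add_cancel]
      · exact ⟨i, rfl⟩
    obtain ⟨j, hj⟩ := h5
    rw [hj] at hv ⊢
    exact ⟨ξ (j, true), ξ (j + 1, false), h4 j hv, rfl, (h2 j).symm⟩
  haveI : Nonempty VA := ⟨α (ξ (0, false))⟩
  have hr := gr_rank α β
  by_contra hcon
  push Not at hcon
  have htop : LinearMap.range (grD α β) = ⊤ := by
    rw [eq_top_iff]
    intro x _
    have h6 : x = ∑ e, x e • (Pi.single e (1 : ℚ) : E → ℚ) := by
      funext e'
      simp [Finset.sum_apply, Pi.single_apply]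
    rw [h6]
    refine Submodule.sum_mem _ (fun e _ => Submodule.smul_mem _ _ ?_)
    obtain ⟨mA, mB, hm⟩ := hcon (Pi.single e 1)
    refine ⟨(mA, mB), ?_⟩
    funext e'
    have := hm e'
    simp only [grD, LinearMap.coe_mk, AddHom.coe_mk]
    rw [← this]
    by_cases he : e' = e
    · subst he; simp
    · simp [Pi.single_eq_of_ne he]
  rw [htop, finrank_top, Module.finrank_fintype_fun_eq_card] at hr
  omega

/-- the functional of the path -/
noncomputable def grX {k : ℕ} [NeZero k] {E : Type} (ξ : ZMod k × Bool → E) : (E → ℚ) →ₗ[ℚ] ℚ where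
  toFun N := ∑ i, (N (ξ (i, true)) - N (ξ (i, false)))
  map_add' x y := by
    rw [← Finset.sum_add_distrib]
    refine Finset.sum_congr rfl (fun i _ => ?_)
    simp only [Pi.add_apply]
    ring
  map_smul' c x := by
    simp only [Pi.smul_apply, smul_eq_mul, RingHom.id_apply]
    rw [Finset.mul_sum]
    refine Finset.sum_congr rfl (fun i _ => ?_)
    ring

/-- the periodic case: at every vertex the other edge is determined -/
theorem gr_per {k : ℕ} [NeZero k] {E VA VB : Type} (ξ : ZMod k × Bool → E) (α : E → VA)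
    (β : E → VB) (h1 : ∀ i, α (ξ (i, false)) = α (ξ (i, true)))
    (h2 : ∀ i, β (ξ (i, true)) = β (ξ (i + 1, false)))
    (h3 : ∀ i, ξ (i, false) ≠ ξ (i, true)) (h4 : ∀ i, ξ (i, true) ≠ ξ (i + 1, false))
    (uA : ∀ e e' e'', α e = α e' → α e = α e'' → e' ≠ e → e'' ≠ e → e' = e'')
    (uB : ∀ e e' e'', β e = β e' → β e = β e'' → e' ≠ e → e'' ≠ e → e' = e'') :
    ∀ i j c c', ξ (i, c) = ξ (j, c') →
      c = c' ∧ ∀ l, ξ (i + l, false) = ξ (j + l, false) ∧ ξ (i + l, true) = ξ (j + l, true) := by
  -- steps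
  have sA : ∀ i j, ξ (i, false) = ξ (j, false) → ξ (i, true) = ξ (j, true) := by
    intro i j h
    refine uA (ξ (i, false)) _ _ (h1 i) ?_ (h3 i).symm ?_
    · rw [h]; exact h1 j
    · rw [h]; exact (h3 j).symm
  have sB : ∀ i j, ξ (i, true) = ξ (j, true) → ξ (i + 1, false) = ξ (j + 1, false) := by
    intro i j h
    refine uB (ξ (i, true)) _ _ (h2 i) ?_ (h4 i).symm ?_
    · rw [h]; exact h2 j
    · rw [h]; exact (h4 j).symm
  have fwd : ∀ i j, ξ (i, false) = ξ (j, false) → ∀ n : ℕ,
      ξ (i + n, false) = ξ (j + n, false) ∧ ξ (i + n, true) = ξ (j + n, true) := by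
    intro i j h n
    induction n with
    | zero =>
      rw [Nat.cast_zero, add_zero, add_zero]
      exact ⟨h, sA i j h⟩
    | succ n ih =>
      have h5 := sB _ _ ih.2
      rw [Nat.cast_succ, ← add_assoc, ← add_assoc]
      exact ⟨h5, sA _ _ h5⟩
  have bwd : ∀ i j, ξ (i, false) = ξ (j, true) → False := by
    intro i j h
    have h6 : ∀ i j, ξ (i, false) = ξ (j, true) → ξ (i, true) = ξ (j, false) := by
      intro i j h
      refine uA (ξ (i, false)) _ _ (h1 i) ?_ (h3 i).symm ?_
      · rw [h]; exact (h1 j).symm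
      · rw [h]; exact h3 j
    have h7 : ∀ i j, ξ (i, true) = ξ (j, false) → ξ (i + 1, false) = ξ (j - 1, true) := by
      intro i j h
      have h8 := h2 (j - 1)
      have h9 := h4 (j - 1)
      rw [sub_add_cancel] at h8 h9
      refine uB (ξ (i, true)) _ _ (h2 i) ?_ (h4 i).symm ?_
      · rw [h]; exact h8.symm
      · rw [h]; exact h9
    have h10 : ∀ n : ℕ, ξ (i + n, false) = ξ (j - n, true) ∧ ξ (i + n, true) = ξ (j - n, false) := by
      intro n
      induction n with
      | zero =>
        rw [Nat.cast_zero, add_zero, sub_zero]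
        exact ⟨h, h6 i j h⟩
      | succ n ih =>
        have h5 := h7 _ _ ih.2
        rw [Nat.cast_succ, ← add_assoc, ← sub_sub]
        exact ⟨h5, h6 _ _ h5⟩
    have hm : (((j - i).val : ℕ) : ZMod k) = j - i := ZMod.natCast_zmod_val _
    rcases Nat.even_or_odd' (j - i).val with ⟨l, hl | hl⟩
    · have h11 : i + (l : ZMod k) = j - l := by
        rw [hl] at hm
        push_cast at hm
        linear_combination hm
      have h12 := (h10 l).1
      rw [← h11] at h12
      exact h3 _ h12
    · have h11 : i + (l : ZMod k) + 1 = j - l := by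
        rw [hl] at hm
        push_cast at hm
        linear_combination hm
      have h12 := (h10 l).2
      rw [← h11] at h12
      exact h4 _ h12
  intro i j c c' h
  cases c <;> cases c'
  · refine ⟨rfl, fun l => ?_⟩
    have := fwd i j h l.val
    rwa [ZMod.natCast_zmod_val] at this
  · exact (bwd i j h).elim
  · exact (bwd j i h.symm).elim
  · refine ⟨rfl, fun l => ?_⟩
    have := fwd (i + 1) (j + 1) (sB i j h) (l - 1).val
    rw [ZMod.natCast_zmod_val] at this
    rw [show i + 1 + (l - 1) = i + l by ring, show j + 1 + (l - 1) = j + l by ring] at this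
    exact this

theorem s_gr1 : S_GR1 := by
  classical
  intro k _ E VA VB _ _ _ ξ α β hξ hα hβ h1 h2 h3 h4
  have hA := gr_deg α ∅ hα (by
    intro v _
    obtain ⟨e, rfl⟩ := hα v
    obtain ⟨⟨i, c⟩, rfl⟩ := hξ e
    have h5 : α (ξ (i, c)) = α (ξ (i, false)) := by
      cases c
      · rfl
      · exact (h1 i).symm
    rw [h5]
    exact ⟨ξ (i, false), ξ (i, true), h3 i, rfl, (h1 i).symm⟩)
  have hB := gr_deg β ∅ hβ (by
    intro v _
    obtain ⟨e, rfl⟩ := hβ v
    obtain ⟨⟨i, c⟩, rfl⟩ := hξ e
    have h5 : ∃ j, β (ξ (i, c)) = β (ξ (j, true)) := by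
      cases c
      · refine ⟨i - 1, ?_⟩
        rw [h2 (i - 1), sub_add_cancel]
      · exact ⟨i, rfl⟩
    obtain ⟨j, hj⟩ := h5
    rw [hj]
    exact ⟨ξ (j, true), ξ (j + 1, false), h4 j, rfl, (h2 j).symm⟩)
  rw [Finset.card_empty, add_zero] at hA hB
  haveI : Nonempty VA := ⟨α (ξ (0, false))⟩
  have hr := gr_rank α β
  by_cases hcon : ∃ N : E → ℤ, (∑ i, (N (ξ (i, true)) - N (ξ (i, false))) = 0) ∧
      ¬ ∃ (mA : VA → ℚ) (mB : VB → ℚ), ∀ e, (N e : ℚ) = mB (β e) - mA (α e)
  · exact Or.inl hcon
  right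
  push Not at hcon
  have hker : LinearMap.ker (grX ξ) ≤ LinearMap.range (grD α β) := by
    intro x hx
    rw [LinearMap.mem_ker] at hx
    obtain ⟨D, N, hD, hN⟩ := gr_den x
    have h5 : ∑ i, (N (ξ (i, true)) - N (ξ (i, false))) = 0 := by
      have h6 : ((∑ i, (N (ξ (i, true)) - N (ξ (i, false))) : ℤ) : ℚ) = D * grX ξ x := by
        push_cast
        simp only [grX, LinearMap.coe_mk, AddHom.coe_mk]
        rw [Finset.mul_sum]
        refine Finset.sum_congr rfl (fun i _ => ?_)
        rw [hN, hN]; ring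
      rw [hx, mul_zero] at h6
      exact_mod_cast h6
    obtain ⟨mA, mB, hm⟩ := hcon N h5
    have hD' : (D : ℚ) ≠ 0 := by exact_mod_cast hD
    have h7 : x = (D : ℚ)⁻¹ • grD α β (mA, mB) := by
      funext e
      simp only [grD, LinearMap.coe_mk, AddHom.coe_mk, Pi.smul_apply, smul_eq_mul]
      rw [← hm e, hN e]
      field_simp
    rw [h7]
    exact Submodule.smul_mem _ _ ⟨_, rfl⟩
  have h8 := Submodule.finrank_mono hker
  have h9 := LinearMap.finrank_range_add_finrank_ker (grX ξ)
  rw [Module.finrank_fintype_fun_eq_card] at h9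
  have h10 : finrank ℚ (LinearMap.range (grX ξ)) ≤ 1 := by
    have := Submodule.finrank_le (LinearMap.range (grX ξ))
    rwa [Module.finrank_self] at this
  have hcA : 2 * Fintype.card VA = Fintype.card E := by omega
  have hcB : 2 * Fintype.card VB = Fintype.card E := by omega
  exact gr_per ξ α β h1 h2 h3 h4 (hA.2 hcA rfl) (hB.2 hcB rfl)

end Pool.Agent.H341.FS
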