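import Pool.Agent.H341.FS.Stm2

set_option autoImplicit false

/-!
# ORB and KAP: the stabiliser cocycle of an orbit
-/

namespace Pool.Agent.H341.FS

open Monoid Function

universe u v

namespace ORB

variable {A : Type u} {P : Type v} [Group A] [Group P] (ι : A →* P) (H : Subgroup P) (g₀ : P)

theorem mem_Kst {x : A} : x ∈ Kst ι H g₀ ↔ g₀ * ι x * g₀⁻¹ ∈ H := Iff.rfl

/-- `g` is a point of the orbit -/
def InO (g : P) : Prop := ∃ h ∈ H, ∃ y : A, g = h * g₀ * ι y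

/-- the chosen element of `A` -/
noncomputable def rr (g : P) : A := Classical.epsilon fun y : A => ∃ h ∈ H, g = h * g₀ * ι y

theorem rr_spec {g : P} (hg : InO ι H g₀ g) : ∃ h ∈ H, g = h * g₀ * ι (rr ι H g₀ g) := by
  obtain ⟨h, hh, y, hy⟩ := hg
  exact Classical.epsilon_spec (p := fun y : A => ∃ h ∈ H, g = h * g₀ * ι y) ⟨y, h, hh, hy⟩

theorem rr_inv {h : P} (hh : h ∈ H) (g : P) : rr ι H g₀ (h * g) = rr ι H g₀ g := by
  unfold rr
  congr 1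
  funext y
  apply propext
  constructor
  · rintro ⟨k, hk, e⟩
    refine ⟨h⁻¹ * k, H.mul_mem (H.inv_mem hh) hk, ?_⟩
    rw [mul_assoc h⁻¹, mul_assoc h⁻¹, ← e, inv_mul_cancel_left]
  · rintro ⟨k, hk, e⟩
    refine ⟨h * k, H.mul_mem hh hk, ?_⟩
    rw [e]
    group

theorem InO_inv {h : P} (hh : h ∈ H) (g : P) : InO ι H g₀ (h * g) ↔ InO ι H g₀ g := by
  constructor
  · rintro ⟨k, hk, y, e⟩
    refine ⟨h⁻¹ * k, H.mul_mem (H.inv_mem hh) hk, y, ?_⟩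
    rw [mul_assoc h⁻¹, mul_assoc h⁻¹, ← e, inv_mul_cancel_left]
  · rintro ⟨k, hk, y, e⟩
    refine ⟨h * k, H.mul_mem hh hk, y, ?_⟩
    rw [e]
    group

theorem InO_mul (g : P) (x : A) : InO ι H g₀ (g * ι x) ↔ InO ι H g₀ g := by
  constructor
  · rintro ⟨k, hk, y, e⟩
    refine ⟨k, hk, y * x⁻¹, ?_⟩
    rw [map_mul, ← mul_assoc, ← e, map_inv, mul_inv_cancel_right]
  · rintro ⟨k, hk, y, e⟩
    refine ⟨k, hk, y * x, ?_⟩
    rw [map_mul, e, mul_assoc, mul_assoc]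

theorem gen_aux {Q : Type v} [Group Q] (h k g₁ r x r' g : Q) (e : g = h * g₁ * r)
    (e' : g * x = k * g₁ * r') : g₁ * (r * x * r'⁻¹) * g₁⁻¹ = h⁻¹ * k := by
  have h2 : k = g * x * r'⁻¹ * g₁⁻¹ := by
    rw [e']
    group
  rw [h2, e]
  group

theorem mem_val {g : P} (hg : InO ι H g₀ g) (x : A) :
    rr ι H g₀ g * x * (rr ι H g₀ (g * ι x))⁻¹ ∈ Kst ι H g₀ := by
  obtain ⟨h, hh, e⟩ := rr_spec ι H g₀ hg
  obtain ⟨k, hk, e'⟩ := rr_spec ι H g₀ ((InO_mul ι H g₀ g x).2 hg)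
  rw [mem_Kst, map_mul, map_mul, map_inv]
  have h1 := gen_aux h k g₀ (ι (rr ι H g₀ g)) (ι x) (ι (rr ι H g₀ (g * ι x))) g e e'
  rw [h1]
  exact H.mul_mem (H.inv_mem hh) hk

open Classical in
/-- the cocycle -/
noncomputable def kk (g : P) (x : A) : Kst ι H g₀ :=
  if h : InO ι H g₀ g then ⟨rr ι H g₀ g * x * (rr ι H g₀ (g * ι x))⁻¹, mem_val ι H g₀ h x⟩ else 1

theorem kk_pos {g : P} (hg : InO ι H g₀ g) (x : A) :
    (kk ι H g₀ g x : A) = rr ι H g₀ g * x * (rr ι H g₀ (g * ι x))⁻¹ := by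
  unfold kk
  rw [dif_pos hg]

theorem kk_neg {g : P} (hg : ¬ InO ι H g₀ g) (x : A) : kk ι H g₀ g x = 1 := by
  unfold kk
  rw [dif_neg hg]

end ORB

open ORB in
theorem s_orb : S_ORB.{u, v} := by
  intro A P _ _ ι H g₀
  refine ⟨kk ι H g₀, ?_, ?_, ?_, ?_⟩
  · intro g x y
    by_cases hg : InO ι H g₀ g
    · apply Subtype.ext
      rw [Subgroup.coe_mul, kk_pos ι H g₀ hg, kk_pos ι H g₀ hg,
        kk_pos ι H g₀ ((InO_mul ι H g₀ g x).2 hg), map_mul, mul_assoc g]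
      group
    · rw [kk_neg ι H g₀ hg, kk_neg ι H g₀ hg,
        kk_neg ι H g₀ (fun h => hg ((InO_mul ι H g₀ g x).1 h)), one_mul]
  · intro h hh g x
    by_cases hg : InO ι H g₀ g
    · apply Subtype.ext
      rw [kk_pos ι H g₀ hg, kk_pos ι H g₀ ((InO_inv ι H g₀ hh g).2 hg), rr_inv ι H g₀ hh,
        mul_assoc h, rr_inv ι H g₀ hh]
    · rw [kk_neg ι H g₀ hg, kk_neg ι H g₀ (fun h' => hg ((InO_inv ι H g₀ hh g).1 h'))]
  · intro g hg x
    exact kk_neg ι H g₀ hg x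
  · intro g hg m
    have hg' : InO ι H g₀ g := hg
    obtain ⟨h, hh, e⟩ := rr_spec ι H g₀ hg'
    have hm : g₀ * ι (m : A) * g₀⁻¹ ∈ H := (mem_Kst ι H g₀).1 m.2
    have h1 : g * ι ((rr ι H g₀ g)⁻¹ * m * rr ι H g₀ g) * g⁻¹ ∈ H := by
      have h2 : g * ι ((rr ι H g₀ g)⁻¹ * m * rr ι H g₀ g) * g⁻¹ =
          h * (g₀ * ι (m : A) * g₀⁻¹) * h⁻¹ := by
        have h3 : ∀ r : A, g = h * g₀ * ι r → g * ι (r⁻¹ * m * r) * g⁻¹ =
            h * (g₀ * ι (m : A) * g₀⁻¹) * h⁻¹ := by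
          intro r hr
          rw [hr, map_mul, map_mul, map_inv]
          group
        exact h3 _ e
      rw [h2]
      exact H.mul_mem (H.mul_mem hh hm) (H.inv_mem hh)
    refine ⟨(rr ι H g₀ g)⁻¹ * m * rr ι H g₀ g, h1, ?_⟩
    apply Subtype.ext
    rw [kk_pos ι H g₀ hg']
    have h4 : rr ι H g₀ (g * ι ((rr ι H g₀ g)⁻¹ * m * rr ι H g₀ g)) = rr ι H g₀ g := by
      have h5 := rr_inv ι H g₀ h1 g
      rw [inv_mul_cancel_right] at h5
      exact h5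
    rw [h4]
    group

theorem kap_of (hC : S_COC.{u, u}) : S_KAP.{u} := by
  intro G _ H s g₀
  obtain ⟨κ, k1, k2, k3, k4⟩ := s_orb (G s) (CoprodI G) (CoprodI.of : G s →* CoprodI G) H g₀
  let tt : (s' : Bool) → CoprodI G → G s' → Kst (CoprodI.of : G s →* CoprodI G) H g₀ :=
    fun s' g x => if h : s' = s then κ g (h ▸ x) else 1
  have tts : ∀ g x, tt s g x = κ g x := by
    intro g x
    simp only [tt, dif_pos]
  have ttn : ∀ s', s' ≠ s → ∀ g x, tt s' g x = 1 := by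
    intro s' hs g x
    simp only [tt, dif_neg hs]
  obtain ⟨t, t1, t2, t3⟩ := hC G (Kst (CoprodI.of : G s →* CoprodI G) H g₀) H tt (by
    intro s' g x y
    by_cases hs : s' = s
    · subst hs
      rw [tts, tts, tts]
      exact k1 g x y
    · rw [ttn s' hs, ttn s' hs, ttn s' hs, one_mul]) (by
    intro s' h hh g x
    by_cases hs : s' = s
    · subst hs
      rw [tts, tts]
      exact k2 h hh g x
    · rw [ttn s' hs, ttn s' hs])
  refine ⟨t, t2, t3, ?_, ?_, ?_⟩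
  · intro s' hs g x
    rw [t1, ttn s' hs]
  · intro g hg x
    rw [t1, tts]
    exact k3 g hg x
  · intro g hg m
    obtain ⟨x, hx1, hx2⟩ := k4 g hg m
    exact ⟨x, hx1, by rw [t1, tts]; exact hx2⟩

end Pool.Agent.H341.FS
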