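import Pool.Agent.H341.FS.Stm

set_option autoImplicit false

/-!
# (FS-4) overlapping actions of two left-ordered groups on a chain
-/

namespace Pool.Agent.H341.FS

open Set

universe u v

namespace Ovl

/-- a homomorphism to order automorphisms from strictly monotone action maps -/
def mkAct {K : Type u} {Ω : Type v} [Group K] [LinearOrder Ω] (φ : K → Ω → Ω)
    (h1 : ∀ x, φ 1 x = x) (hm : ∀ g h x, φ (g * h) x = φ g (φ h x))
    (hmono : ∀ g, StrictMono (φ g)) : K →* (Ω ≃o Ω) where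
  toFun g :=
    { toFun := φ g
      invFun := φ g⁻¹
      left_inv := fun x => by rw [← hm, inv_mul_cancel, h1]
      right_inv := fun x => by rw [← hm, mul_inv_cancel, h1]
      map_rel_iff' := fun {a b} => (hmono g).le_iff_le }
  map_one' := by
    ext x
    exact h1 x
  map_mul' g h := by
    ext x
    exact hm g h x

theorem mkAct_apply {K : Type u} {Ω : Type v} [Group K] [LinearOrder Ω] (φ : K → Ω → Ω)
    (h1 : ∀ x, φ 1 x = x) (hm : ∀ g h x, φ (g * h) x = φ g (φ h x))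
    (hmono : ∀ g, StrictMono (φ g)) (g : K) (x : Ω) : mkAct φ h1 hm hmono g x = φ g x := rfl

/-- the action of a countable left-ordered group on a countable dense order without endpoints -/
theorem exAct {K : Type u} [Group K] [Countable K] [LinearOrder K]
    (hK : ∀ a b c : K, a < b → c * a < c * b) (X : Type v) [LinearOrder X] [Countable X]
    [DenselyOrdered X] [NoMinOrder X] [NoMaxOrder X] [Nonempty X] :
    ∃ (σ : K →* (X ≃o X)) (π : X → K), Monotone π ∧ Function.Surjective π ∧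
      ∀ g q, π (σ g q) = g * π q := by
  classical
  have : Countable (K ×ₗ ℚ) := inferInstanceAs (Countable (K × ℚ))
  have : Nonempty (K ×ₗ ℚ) := ⟨toLex (1, 0)⟩
  obtain ⟨e⟩ := Order.iso_of_countable_dense (K ×ₗ ℚ) X
  have hmono : ∀ g : K, StrictMono (fun p : K ×ₗ ℚ => toLex (g * (ofLex p).1, (ofLex p).2)) := by
    intro g a b hab
    rw [Prod.Lex.lt_iff] at hab ⊢
    rcases hab with h | ⟨h1, h2⟩
    · left
      exact hK _ _ _ h
    · right
      exact ⟨by simp only [ofLex_toLex]; rw [h1], h2⟩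
  refine ⟨mkAct (fun g q => e (toLex (g * (ofLex (e.symm q)).1, (ofLex (e.symm q)).2))) ?_ ?_ ?_,
    fun q => (ofLex (e.symm q)).1, ?_, ?_, ?_⟩
  · intro x
    simp
  · intro g h x
    simp [mul_assoc]
  · intro g
    exact e.strictMono.comp ((hmono g).comp e.symm.strictMono)
  · intro p q hpq
    have h := e.symm.monotone hpq
    rw [Prod.Lex.le_iff] at h
    rcases h with h | ⟨h, -⟩
    · exact h.le
    · exact h.le
  · intro g
    exact ⟨e (toLex (g, 0)), by simp⟩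
  · intro g q
    rw [mkAct_apply]
    simp

/-- extension of an action on a convex set by the identity -/
theorem extAct {K : Type u} [Group K] (s : Set ℚ) [hs : OrdConnected s] (τ : K →* (s ≃o s)) :
    ∃ σ : K →* (ℚ ≃o ℚ), (∀ g (q : s), σ g q = τ g q) ∧ ∀ g, ∀ q, q ∉ s → σ g q = q := by
  classical
  have key1 : ∀ p q p' : ℚ, p ∈ s → q ∉ s → p < q → p' ∈ s → p' < q := by
    intro p q p' hp hq hpq hp'
    by_contra h
    push Not at h
    exact hq (hs.out hp hp' ⟨hpq.le, h⟩)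
  have key2 : ∀ p q p' : ℚ, p ∈ s → q ∉ s → q < p → p' ∈ s → q < p' := by
    intro p q p' hp hq hpq hp'
    by_contra h
    push Not at h
    exact hq (hs.out hp' hp ⟨h, hpq.le⟩)
  refine ⟨mkAct (fun g q => if h : q ∈ s then (τ g ⟨q, h⟩ : ℚ) else q) ?_ ?_ ?_, ?_, ?_⟩
  · intro x
    by_cases h : x ∈ s
    · simp [h]
    · simp [h]
  · intro g g' x
    by_cases h : x ∈ s
    · simp [h]
    · simp [h]
  · intro g p q hpq
    by_cases hp : p ∈ s <;> by_cases hq : q ∈ s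
    · simp only [hp, hq, dite_true]
      have : τ g ⟨p, hp⟩ < τ g ⟨q, hq⟩ := (τ g).strictMono (by exact hpq)
      exact this
    · simp only [hp, hq, dite_true, dite_false]
      exact key1 p q _ hp hq hpq (τ g ⟨p, hp⟩).2
    · simp only [hp, hq, dite_true, dite_false]
      exact key2 q p _ hq hp hpq (τ g ⟨q, hq⟩).2
    · simp only [hp, hq, dite_false]
      exact hpq
  · intro g q
    rw [mkAct_apply]
    simp
  · intro g q hq
    rw [mkAct_apply]
    simp [hq]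

/-- the action on lower sets -/
noncomputable def lam : (ℚ ≃o ℚ) →* (LowerSet ℚ ≃o LowerSet ℚ) where
  toFun f := LowerSet.map f
  map_one' := by
    ext c x
    change x ∈ (fun y => y) '' (c : Set ℚ) ↔ x ∈ c
    simp
  map_mul' f g := by
    ext c x
    change x ∈ (fun y => f (g y)) '' (c : Set ℚ) ↔ x ∈ f '' (g '' (c : Set ℚ))
    rw [image_image]

theorem mem_lam (f : ℚ ≃o ℚ) (c : LowerSet ℚ) (x : ℚ) : x ∈ lam f c ↔ f.symm x ∈ c := by
  change x ∈ f '' (c : Set ℚ) ↔ _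
  constructor
  · rintro ⟨y, hy, rfl⟩
    simpa using hy
  · intro h
    exact ⟨f.symm x, h, by simp⟩

theorem symm_eq_inv (f : ℚ ≃o ℚ) : f.symm = f⁻¹ := rfl

/-- if `lam f c = c` then `f` maps `c` to `c` -/
theorem fix_mem {f : ℚ ≃o ℚ} {c : LowerSet ℚ} (h : lam f c = c) {x : ℚ} (hx : x ∈ c) : f x ∈ c := by
  rw [← h, mem_lam]
  simpa using hx

/-- the fixed cut between a point moved up and a point moved down -/
theorem exCut (f : ℚ ≃o ℚ) (x y : ℚ) (hxy : x < y) (hx : x ≤ f x) (hy : f y ≤ y) :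
    ∃ c : LowerSet ℚ, lam f c = c ∧ x ∈ c ∧ y ∉ c := by
  have hn : ∀ n : ℕ, (f ^ n) x < y := by
    intro n
    induction n with
    | zero => simpa using hxy
    | succ n ih =>
      rw [pow_succ', RelIso.mul_apply]
      exact (f.strictMono ih).trans_le hy
  let c : LowerSet ℚ := ⟨{q | ∃ n : ℕ, q ≤ (f ^ n) x}, fun a b hab ⟨n, hn⟩ => ⟨n, hab.trans hn⟩⟩
  have hc : ∀ q, q ∈ c ↔ ∃ n : ℕ, q ≤ (f ^ n) x := fun q => Iff.rfl
  refine ⟨c, ?_, ?_, ?_⟩
  · ext q
    change q ∈ lam f c ↔ q ∈ c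
    rw [mem_lam, hc, hc]
    constructor
    · rintro ⟨n, h⟩
      refine ⟨n + 1, ?_⟩
      rw [pow_succ', RelIso.mul_apply]
      have := f.monotone h
      simpa using this
    · rintro ⟨n, h⟩
      refine ⟨n, ?_⟩
      have h2 : q ≤ (f ^ (n + 1)) x := by
        rw [pow_succ, RelIso.mul_apply]
        exact h.trans ((f ^ n).monotone hx)
      rw [pow_succ', RelIso.mul_apply] at h2
      have := f.symm.monotone h2
      simpa using this
  · exact (hc x).2 ⟨0, by simp⟩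
  · intro h
    obtain ⟨n, h⟩ := (hc y).1 h
    exact absurd h (not_le.2 (hn n))

theorem noMax {K : Type u} [Group K] [LinearOrder K]
    (hK : ∀ a b c : K, a < b → c * a < c * b) (k : K) (hk : k ≠ 1) (h : K) : ∃ h', h < h' := by
  rcases lt_or_gt_of_ne hk with h1 | h1
  · refine ⟨h * k⁻¹, ?_⟩
    have h2 := hK k 1 k⁻¹ h1
    rw [inv_mul_cancel, mul_one] at h2
    have h3 := hK 1 k⁻¹ h h2
    rwa [mul_one] at h3
  · refine ⟨h * k, ?_⟩
    have h3 := hK 1 k h h1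
    rwa [mul_one] at h3

/-- case (A): the image of the word in the first factor moves a point up and a point down -/
theorem caseA {K₁ : Type u} {K₂ : Type v} [Group K₁] [Group K₂] [Countable K₁] [LinearOrder K₁]
    (hK : ∀ a b c : K₁, a < b → c * a < c * b) (L : List (K₁ ⊕ K₂))
    (h1 : (L.map (Sum.elim (fun x => x) (fun _ => (1 : K₁)))).prod ≠ 1)
    (p q : K₁) (hp : p < (L.map (Sum.elim (fun x => x) (fun _ => (1 : K₁)))).prod * p)
    (hq : (L.map (Sum.elim (fun x => x) (fun _ => (1 : K₁)))).prod * q < q) :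
    ∃ (σ₁ : K₁ →* (LowerSet ℚ ≃o LowerSet ℚ)) (z : LowerSet ℚ),
        (L.map (Sum.elim (fun x => σ₁ x)
          (fun x => (1 : K₂ →* (LowerSet ℚ ≃o LowerSet ℚ)) x))).prod z = z ∧
        ¬ (∀ x, σ₁ x z = z) := by
  obtain ⟨σ, π, hπm, hπs, hπ⟩ := exAct hK ℚ
  set k := (L.map (Sum.elim (fun x => x) (fun _ => (1 : K₁)))).prod with hk
  have hlt : ∀ x y : ℚ, π x < π y → x < y := by
    intro x y h
    by_contra h'
    exact absurd (hπm (not_lt.1 h')) (not_le.2 h)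
  have hprod : (L.map (Sum.elim (fun x => lam.comp σ x)
          (fun x => (1 : K₂ →* (LowerSet ℚ ≃o LowerSet ℚ)) x))).prod = lam (σ k) := by
    have : lam (σ k) = (lam.comp σ) k := rfl
    rw [this, hk, map_list_prod, List.map_map]
    congr 2
    funext x
    cases x with
    | inl x => rfl
    | inr x => simp
  obtain ⟨x, hx⟩ := hπs p
  obtain ⟨y, hy⟩ := hπs q
  have hx' : x < σ k x := hlt _ _ (by rw [hπ, hx]; exact hp)
  have hy' : σ k y < y := hlt _ _ (by rw [hπ, hy]; exact hq)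
  have hfix : ∃ (c : LowerSet ℚ) (x y : ℚ), lam (σ k) c = c ∧ x ∈ c ∧ y ∉ c := by
    rcases lt_trichotomy x y with h | h | h
    · obtain ⟨c, hc⟩ := exCut (σ k) x y h hx'.le hy'.le
      exact ⟨c, x, y, hc⟩
    · subst h
      exact absurd hx' (not_lt.2 hy'.le)
    · have e1 : y ≤ (σ k)⁻¹ y := by
        have h5 := (σ k).symm.monotone hy'.le
        rw [OrderIso.symm_apply_apply] at h5
        exact h5
      have e2 : (σ k)⁻¹ x ≤ x := by
        have h5 := (σ k).symm.monotone hx'.le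
        rw [OrderIso.symm_apply_apply] at h5
        exact h5
      obtain ⟨c, hc1, hc2, hc3⟩ := exCut (σ k)⁻¹ y x h e1 e2
      refine ⟨c, y, x, ?_, hc2, hc3⟩
      rw [map_inv] at hc1
      have := congrArg (lam (σ k)) hc1
      rw [← RelIso.mul_apply, mul_inv_cancel] at this
      exact this.symm
  obtain ⟨c, x, y, hc1, hc2, hc3⟩ := hfix
  refine ⟨lam.comp σ, c, ?_, ?_⟩
  · rw [hprod]
    exact hc1
  · intro hall
    obtain ⟨g', hg'⟩ := noMax hK k h1 (π y)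
    have h3 : π y < π (σ (g' * (π x)⁻¹) x) := by
      rw [hπ, inv_mul_cancel_right]
      exact hg'
    have h4 : σ (g' * (π x)⁻¹) x ∈ c := fix_mem (hall _) hc2
    exact hc3 (c.lower (hlt _ _ h3).le h4)

/-- far to the left only the first group acts -/
theorem farLeft {K₁ : Type u} {K₂ : Type v} [Group K₁] [Group K₂] (σ₁ : K₁ →* (ℚ ≃o ℚ))
    (σ₂ : K₂ →* (ℚ ≃o ℚ)) (b : ℚ) (hb : ∀ h q, q ≤ b → σ₂ h q = q) (L : List (K₁ ⊕ K₂)) :
    ∀ m, ∃ x₀, ∀ x ≤ x₀, (L.map (Sum.elim (fun x => σ₁ x) (fun x => σ₂ x))).prod x ≤ m ∧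
      (L.map (Sum.elim (fun x => σ₁ x) (fun x => σ₂ x))).prod x =
        σ₁ (L.map (Sum.elim (fun x => x) (fun _ => (1 : K₁)))).prod x := by
  induction L with
  | nil =>
    intro m
    exact ⟨m, fun x hx => by simpa using hx⟩
  | cons l L ih =>
    intro m
    cases l with
    | inl g =>
      obtain ⟨x₀, h⟩ := ih ((σ₁ g).symm m)
      refine ⟨x₀, fun x hx => ?_⟩
      obtain ⟨h1, h2⟩ := h x hx
      simp only [List.map_cons, List.prod_cons, Sum.elim_inl, RelIso.mul_apply, map_mul]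
      refine ⟨?_, by rw [h2]⟩
      have := (σ₁ g).monotone h1
      simpa using this
    | inr g =>
      obtain ⟨x₀, h⟩ := ih (min m b)
      refine ⟨x₀, fun x hx => ?_⟩
      obtain ⟨h1, h2⟩ := h x hx
      simp only [List.map_cons, List.prod_cons, Sum.elim_inr, RelIso.mul_apply, one_mul]
      rw [hb _ _ (h1.trans (min_le_right _ _))]
      exact ⟨h1.trans (min_le_left _ _), h2⟩

/-- far to the right only the second group acts -/
theorem farRight {K₁ : Type u} {K₂ : Type v} [Group K₁] [Group K₂] (σ₁ : K₁ →* (ℚ ≃o ℚ))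
    (σ₂ : K₂ →* (ℚ ≃o ℚ)) (b : ℚ) (hb : ∀ h q, b ≤ q → σ₁ h q = q) (L : List (K₁ ⊕ K₂)) :
    ∀ m, ∃ x₀, ∀ x ≥ x₀, m ≤ (L.map (Sum.elim (fun x => σ₁ x) (fun x => σ₂ x))).prod x ∧
      (L.map (Sum.elim (fun x => σ₁ x) (fun x => σ₂ x))).prod x =
        σ₂ (L.map (Sum.elim (fun _ => (1 : K₂)) (fun x => x))).prod x := by
  induction L with
  | nil =>
    intro m
    exact ⟨m, fun x hx => by simpa using hx⟩
  | cons l L ih =>
    intro m
    cases l with
    | inr g =>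
      obtain ⟨x₀, h⟩ := ih ((σ₂ g).symm m)
      refine ⟨x₀, fun x hx => ?_⟩
      obtain ⟨h1, h2⟩ := h x hx
      simp only [List.map_cons, List.prod_cons, Sum.elim_inr, RelIso.mul_apply, map_mul]
      refine ⟨?_, by rw [h2]⟩
      have := (σ₂ g).monotone h1
      simpa using this
    | inl g =>
      obtain ⟨x₀, h⟩ := ih (max m b)
      refine ⟨x₀, fun x hx => ?_⟩
      obtain ⟨h1, h2⟩ := h x hx
      simp only [List.map_cons, List.prod_cons, Sum.elim_inl, RelIso.mul_apply, one_mul]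
      rw [hb _ _ ((le_max_right _ _).trans h1)]
      exact ⟨(le_max_left _ _).trans h1, h2⟩

/-- case (B): the image in the first factor moves every point up, the image in the second factor moves every
point down -/
theorem caseB {K₁ : Type u} {K₂ : Type v} [Group K₁] [Group K₂] [Countable K₁] [Countable K₂]
    [LinearOrder K₁] [LinearOrder K₂]
    (hK₁ : ∀ a b c : K₁, a < b → c * a < c * b) (hK₂ : ∀ a b c : K₂, a < b → c * a < c * b)
    (L : List (K₁ ⊕ K₂))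
    (h1 : ∀ p : K₁, p < (L.map (Sum.elim (fun x => x) (fun _ => (1 : K₁)))).prod * p)
    (h2 : ∀ p : K₂, (L.map (Sum.elim (fun _ => (1 : K₂)) (fun x => x))).prod * p < p) :
    ∃ (σ₁ : K₁ →* (LowerSet ℚ ≃o LowerSet ℚ)) (σ₂ : K₂ →* (LowerSet ℚ ≃o LowerSet ℚ))
      (z : LowerSet ℚ),
        (L.map (Sum.elim (fun x => σ₁ x) (fun x => σ₂ x))).prod z = z ∧
        ∀ T : Set K₂, (∀ p q : K₂, ∃ t ∈ T, q < t * p) →
          ¬ ((∀ x, σ₁ x z = z) ∧ ∀ t ∈ T, σ₂ t z = z) := by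
  have : Nonempty (Iio (1 : ℚ)) := ⟨⟨0, by simp⟩⟩
  have : Nonempty (Ioi (0 : ℚ)) := ⟨⟨1, by simp⟩⟩
  have : NoMaxOrder (Iio (1 : ℚ)) := by
    constructor
    rintro ⟨a, ha⟩
    obtain ⟨b, hb1, hb2⟩ := exists_between (show a < 1 from ha)
    exact ⟨⟨b, hb2⟩, hb1⟩
  have : NoMinOrder (Ioi (0 : ℚ)) := by
    constructor
    rintro ⟨a, ha⟩
    obtain ⟨b, hb1, hb2⟩ := exists_between (show 0 < a from ha)
    exact ⟨⟨b, hb1⟩, hb2⟩
  obtain ⟨τ₁, π₁, hm₁, -, hπ₁⟩ := exAct hK₁ (Iio (1 : ℚ))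
  obtain ⟨τ₂, π₂, hm₂, -, hπ₂⟩ := exAct hK₂ (Ioi (0 : ℚ))
  obtain ⟨σ₁, hσ₁, hσ₁'⟩ := extAct (Iio (1 : ℚ)) τ₁
  obtain ⟨σ₂, hσ₂, hσ₂'⟩ := extAct (Ioi (0 : ℚ)) τ₂
  have hlt₁ : ∀ x y : Iio (1 : ℚ), π₁ x < π₁ y → (x : ℚ) < y := by
    intro x y h
    by_contra h'
    exact absurd (hm₁ (show y ≤ x from not_lt.1 h')) (not_le.2 h)
  have hlt₂ : ∀ x y : Ioi (0 : ℚ), π₂ x < π₂ y → (x : ℚ) < y := by
    intro x y h
    by_contra h'
    exact absurd (hm₂ (show y ≤ x from not_lt.1 h')) (not_le.2 h)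
  set k₁ := (L.map (Sum.elim (fun x => x) (fun _ => (1 : K₁)))).prod with hk₁
  set k₂ := (L.map (Sum.elim (fun _ => (1 : K₂)) (fun x => x))).prod with hk₂
  set F := (L.map (Sum.elim (fun x => σ₁ x) (fun x => σ₂ x))).prod with hF
  have hprod : (L.map (Sum.elim (fun x => lam.comp σ₁ x) (fun x => lam.comp σ₂ x))).prod =
      lam F := by
    rw [hF, map_list_prod, List.map_map]
    congr 2
    funext x
    cases x <;> rfl
  obtain ⟨x₀, hx₀⟩ := farLeft σ₁ σ₂ 0 (fun h q hq => hσ₂' h q (by simpa using hq)) L 0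
  obtain ⟨y₀, hy₀⟩ := farRight σ₁ σ₂ 1 (fun h q hq => hσ₁' h q (by simpa using hq)) L 0
  have hxlt : min x₀ 0 < (1 : ℚ) := lt_of_le_of_lt (min_le_right _ _) zero_lt_one
  have hylt : 0 < max y₀ (1 : ℚ) := lt_of_lt_of_le zero_lt_one (le_max_right _ _)
  let x : Iio (1 : ℚ) := ⟨min x₀ 0, hxlt⟩
  let y : Ioi (0 : ℚ) := ⟨max y₀ 1, hylt⟩
  have hFx : (x : ℚ) ≤ F x := by
    rw [(hx₀ x (min_le_left _ _)).2, hσ₁]
    exact (hlt₁ _ _ (by rw [hπ₁]; exact h1 _)).le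
  have hFy : F y ≤ (y : ℚ) := by
    rw [(hy₀ y (le_max_left _ _)).2, hσ₂]
    exact (hlt₂ _ _ (by rw [hπ₂]; exact h2 _)).le
  have hxy : (x : ℚ) < y :=
    lt_of_le_of_lt (min_le_right x₀ 0) (lt_of_lt_of_le zero_lt_one (le_max_right y₀ 1))
  obtain ⟨c, hc1, hc2, hc3⟩ := exCut F x y hxy hFx hFy
  refine ⟨lam.comp σ₁, lam.comp σ₂, c, ?_, ?_⟩
  · rw [hprod]
    exact hc1
  · rintro T hT ⟨hall₁, hall₂⟩
    let w : Iio (1 : ℚ) := ⟨1 / 2, by norm_num⟩
    let w' : Ioi (0 : ℚ) := ⟨1 / 2, by norm_num⟩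
    have hw : (1 / 2 : ℚ) ∈ c := by
      have h3 : π₁ w < π₁ (τ₁ (k₁ * π₁ w * (π₁ x)⁻¹) x) := by
        rw [hπ₁, inv_mul_cancel_right]
        exact h1 _
      have h4 : σ₁ (k₁ * π₁ w * (π₁ x)⁻¹) x ∈ c := fix_mem (hall₁ _) hc2
      rw [hσ₁] at h4
      exact c.lower (hlt₁ _ _ h3).le h4
    obtain ⟨t, ht, htl⟩ := hT (π₂ w') (π₂ y)
    have h3 : π₂ y < π₂ (τ₂ t w') := by
      rw [hπ₂]
      exact htl
    have h4 : σ₂ t (1 / 2 : ℚ) ∈ c := fix_mem (hall₂ t ht) hw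
    have h5 : σ₂ t (1 / 2 : ℚ) = τ₂ t w' := hσ₂ t w'
    rw [h5] at h4
    exact hc3 (c.lower (hlt₂ _ _ h3).le h4)

/-- the opposite order -/
@[instance_reducible] def swapLO {K : Type u} (lo : LinearOrder K) : LinearOrder K :=
  inferInstanceAs (LinearOrder (OrderDual K))

/-- both signs, or every point moves up (after changing the order to its opposite) -/
theorem signs {K : Type u} [Group K] (h : LO K) (k : K) (hk : k ≠ 1) :
    (∃ (lo : LinearOrder K) (_ : ∀ a b c : K, lo.lt a b → lo.lt (c * a) (c * b)) (p q : K),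
      lo.lt p (k * p) ∧ lo.lt (k * q) q) ∨
    ((∃ lo : LinearOrder K, (∀ a b c : K, lo.lt a b → lo.lt (c * a) (c * b)) ∧
      ∀ p, lo.lt p (k * p)) ∧
     (∃ lo : LinearOrder K, (∀ a b c : K, lo.lt a b → lo.lt (c * a) (c * b)) ∧
      ∀ p, lo.lt (k * p) p)) := by
  obtain ⟨lo, hlo⟩ := h
  have hne : ∀ p : K, k * p ≠ p := by
    intro p hp
    exact hk (by simpa using hp)
  by_cases h1 : ∃ p, lo.lt p (k * p)
  · by_cases h2 : ∃ q, lo.lt (k * q) q
    · left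
      obtain ⟨p, hp⟩ := h1
      obtain ⟨q, hq⟩ := h2
      exact ⟨lo, hlo, p, q, hp, hq⟩
    · right
      have h3 : ∀ p, lo.lt p (k * p) := by
        intro p
        let _ := lo
        push Not at h2
        exact lt_of_le_of_ne (h2 p) (hne p).symm
      exact ⟨⟨lo, hlo, h3⟩, ⟨swapLO lo, fun a b c hab => hlo _ _ _ hab, h3⟩⟩
  · right
    have h3 : ∀ p, lo.lt (k * p) p := by
      intro p
      let _ := lo
      push Not at h1
      exact lt_of_le_of_ne (h1 p) (hne p)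
    exact ⟨⟨swapLO lo, fun a b c hab => hlo _ _ _ hab, h3⟩, ⟨lo, hlo, h3⟩⟩

theorem noMaxT {K : Type u} [Group K] [LinearOrder K]
    (hK : ∀ a b c : K, a < b → c * a < c * b) (k : K) (hk : k ≠ 1) (p q : K) :
    ∃ t ∈ (univ : Set K), q < t * p := by
  obtain ⟨h', hh⟩ := noMax hK k hk q
  exact ⟨h' * p⁻¹, mem_univ _, by rwa [inv_mul_cancel_right]⟩

end Ovl

open Ovl

theorem s_ovl : S_OVL.{u, v} := by
  intro K₁ K₂ _ _ _ _ hK₁ hK₂ L hL₁ hL₂
  rcases signs hK₁ _ hL₁ with ⟨lo, hlo, p, q, hp, hq⟩ | ⟨⟨lo₁, hlo₁, hup⟩, -⟩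
  · let _ := lo
    obtain ⟨σ₁, z, h1, h2⟩ := caseA hlo L hL₁ p q hp hq
    exact ⟨LowerSet ℚ, inferInstance, σ₁, 1, z, h1, fun h => h2 h.1⟩
  rcases signs hK₂ _ hL₂ with ⟨lo, hlo, p, q, hp, hq⟩ | ⟨-, ⟨lo₂, hlo₂, hdn⟩⟩
  · let _ := lo
    have e : ((L.map Sum.swap).map (Sum.elim (fun x => x) (fun _ => (1 : K₂)))).prod =
        (L.map (Sum.elim (fun _ => (1 : K₂)) (fun x => x))).prod := by
      rw [List.map_map]
      congr 2
      funext x
      cases x <;> rfl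
    obtain ⟨σ₁, z, h1, h2⟩ := caseA (K₁ := K₂) (K₂ := K₁) hlo (L.map Sum.swap) (by rwa [e]) p q
      (by rw [e]; exact hp) (by rw [e]; exact hq)
    refine ⟨LowerSet ℚ, inferInstance, 1, σ₁, z, ?_, fun h => h2 h.2⟩
    rw [List.map_map] at h1
    convert h1 using 4
    funext x
    cases x <;> rfl
  · let _ := lo₁
    let _ := lo₂
    obtain ⟨σ₁, σ₂, z, h1, h2⟩ := caseB hlo₁ hlo₂ L hup hdn
    refine ⟨LowerSet ℚ, inferInstance, σ₁, σ₂, z, h1, fun h => ?_⟩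
    exact h2 univ (noMaxT hlo₂ _ hL₂) ⟨h.1, fun t _ => h.2 t⟩

theorem s_ovlz : S_OVLZ.{u} := by
  intro K₁ _ _ hK₁ L hL₁ hL₂
  have : Countable (Multiplicative ℤ) := inferInstanceAs (Countable ℤ)
  rcases signs hK₁ _ hL₁ with ⟨lo, hlo, p, q, hp, hq⟩ | ⟨⟨lo₁, hlo₁, hup⟩, -⟩
  · let _ := lo
    obtain ⟨σ₁, z, h1, h2⟩ := caseA hlo L hL₁ p q hp hq
    exact ⟨LowerSet ℚ, inferInstance, σ₁, 1, z, h1, fun h => h2 h.1⟩
  let _ := lo₁
  have hZ : ∀ (a b c : Multiplicative ℤ), a < b → c * a < c * b := by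
    intro a b c h
    exact mul_lt_mul_right h c
  have arch : ∀ x : Multiplicative ℤ, x ≠ 1 → ∀ p q : Multiplicative ℤ,
      (∃ j : ℤ, q < x ^ j * p) ∧ ∃ j : ℤ, x ^ j * p < q := by
    intro x hx p q
    have hx' : Multiplicative.toAdd x ≠ 0 := hx
    set n := Multiplicative.toAdd x with hn
    have key : ∀ m : ℤ, (∃ j : ℤ, m < j * n) ∧ ∃ j : ℤ, j * n < m := by
      intro m
      rcases lt_or_gt_of_ne hx' with h | h
      · exact ⟨⟨-(|m| + 1), by nlinarith [le_abs_self m, abs_nonneg m]⟩,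
          ⟨|m| + 1, by nlinarith [neg_abs_le m, abs_nonneg m]⟩⟩
      · exact ⟨⟨|m| + 1, by nlinarith [le_abs_self m, abs_nonneg m]⟩,
          ⟨-(|m| + 1), by nlinarith [neg_abs_le m, abs_nonneg m]⟩⟩
    obtain ⟨⟨j, hj⟩, ⟨j', hj'⟩⟩ := key (Multiplicative.toAdd q - Multiplicative.toAdd p)
    refine ⟨⟨j, ?_⟩, ⟨j', ?_⟩⟩
    · rw [← Multiplicative.toAdd_lt]
      rw [toAdd_mul, toAdd_zpow, smul_eq_mul]
      linarith
    · rw [← Multiplicative.toAdd_lt]
      rw [toAdd_mul, toAdd_zpow, smul_eq_mul]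
      linarith
  set k₂ := (L.map (Sum.elim (fun _ => (1 : Multiplicative ℤ)) (fun x => x))).prod with hk₂
  rcases lt_or_gt_of_ne hL₂ with hlt | hlt
  · have hdn : ∀ p : Multiplicative ℤ, k₂ * p < p := by
      intro p
      have := hZ k₂ 1 p hlt
      rwa [mul_one, mul_comm] at this
    obtain ⟨σ₁, σ₂, z, h1, h2⟩ := caseB hlo₁ hZ L hup hdn
    refine ⟨LowerSet ℚ, inferInstance, σ₁, σ₂, z, h1, ?_⟩
    rintro ⟨h3, x, hx, h4⟩
    refine h2 (Subgroup.zpowers x : Set (Multiplicative ℤ)) ?_ ⟨h3, ?_⟩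
    · intro p q
      obtain ⟨⟨j, hj⟩, -⟩ := arch x hx p q
      exact ⟨x ^ j, ⟨j, rfl⟩, hj⟩
    · rintro t ⟨j, rfl⟩
      have : σ₂ x ∈ MulAction.stabilizer (LowerSet ℚ ≃o LowerSet ℚ) z := h4
      have h5 := Subgroup.zpow_mem _ this j
      rw [← map_zpow] at h5
      exact h5
  · have hdn : ∀ p : Multiplicative ℤ, p < k₂ * p := by
      intro p
      have := hZ 1 k₂ p hlt
      rwa [mul_one, mul_comm] at this
    let lo₂ : LinearOrder (Multiplicative ℤ) := swapLO inferInstance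
    obtain ⟨σ₁, σ₂, z, h1, h2⟩ := @caseB K₁ (Multiplicative ℤ) _ _ _ _ lo₁ lo₂ hlo₁
      (fun a b c h => hZ _ _ _ h) L hup hdn
    refine ⟨LowerSet ℚ, inferInstance, σ₁, σ₂, z, h1, ?_⟩
    rintro ⟨h3, x, hx, h4⟩
    refine h2 (Subgroup.zpowers x : Set (Multiplicative ℤ)) ?_ ⟨h3, ?_⟩
    · intro p q
      obtain ⟨-, ⟨j, hj⟩⟩ := arch x hx p q
      exact ⟨x ^ j, ⟨j, rfl⟩, hj⟩
    · rintro t ⟨j, rfl⟩
      have : σ₂ x ∈ MulAction.stabilizer (LowerSet ℚ ≃o LowerSet ℚ) z := h4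
      have h5 := Subgroup.zpow_mem _ this j
      rw [← map_zpow] at h5
      exact h5

end Pool.Agent.H341.FS
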