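import Pool.Agent.H341.FS.Stm2

set_option autoImplicit false

/-!
# FS-7: the statements `S_RCA` and `S_RCB`
-/

namespace Pool.Agent.H341.FS

open Monoid Function

universe u v

namespace RCAB

/-- the action of a left-orderable group on itself -/
theorem lo_act {K : Type u} [Group K] (h : LO K) :
    ∃ (_ : LinearOrder K) (σ : K →* (K ≃o K)), ∀ x y, σ x y = x * y := by
  obtain ⟨lo, hlo⟩ := h
  let _ := lo
  have hlt : ∀ a b c : K, c * a < c * b ↔ a < b := by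
    intro a b c
    constructor
    · intro h
      have h1 := hlo _ _ c⁻¹ h
      rwa [inv_mul_cancel_left, inv_mul_cancel_left] at h1
    · intro h
      exact hlo _ _ c h
  have hle : ∀ a b c : K, c * a ≤ c * b ↔ a ≤ b := by
    intro a b c
    rw [← not_lt, ← not_lt, hlt]
  refine ⟨lo, MonoidHom.mk' (fun x => ⟨Equiv.mulLeft x, fun {a b} => hle a b x⟩) ?_, ?_⟩
  · intro x y
    apply RelIso.ext
    intro z
    exact mul_assoc x y z
  · intro x y
    rfl

/-- subgroups of left-orderable groups -/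
theorem lo_sub {G : Type u} [Group G] (h : LO G) (K : Subgroup G) : LO K := by
  obtain ⟨lo, hlo⟩ := h
  let _ := lo
  refine ⟨LinearOrder.lift' (Subtype.val : K → G) Subtype.val_injective, ?_⟩
  intro a b c hab
  exact hlo _ _ _ hab

section kap
variable {G : Bool → Type u} [∀ s, Group (G s)] {H : Subgroup (CoprodI G)} {s : Bool}
  {g₀ : CoprodI G} {κ : CoprodI G → CoprodI G → Kst (CoprodI.of : G s →* CoprodI G) H g₀}

/-- the orbit -/
def Orb (H : Subgroup (CoprodI G)) (s : Bool) (g₀ g : CoprodI G) : Prop :=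
  ∃ h ∈ H, ∃ y : G s, g = h * g₀ * CoprodI.of y

theorem orb_self : Orb H s g₀ g₀ := ⟨1, H.one_mem, 1, by simp⟩

theorem orb_mul {g : CoprodI G} (x : G s) (h : Orb H s g₀ (g * CoprodI.of x)) : Orb H s g₀ g := by
  obtain ⟨h, hh, y, hy⟩ := h
  refine ⟨h, hh, y * x⁻¹, ?_⟩
  rw [map_mul, map_inv, ← mul_assoc, ← hy, mul_inv_cancel_right]

theorem kap_one (hκ : Kap H s g₀ κ) (g : CoprodI G) : κ g 1 = 1 := by
  have h := hκ.mul g 1 1
  rw [mul_one, mul_one] at h
  exact mul_eq_left.mp h.symm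

theorem kap_cases (hκ : Kap H s g₀ κ) (s' : Bool) (g : CoprodI G) (x : G s') :
    κ g (CoprodI.of x) = 1 ∨ (s' = s ∧ Orb H s g₀ g) := by
  by_cases hs : s' = s
  · subst hs
    by_cases ho : Orb H s' g₀ g
    · exact Or.inr ⟨rfl, ho⟩
    · exact Or.inl (hκ.off g ho x)
  · exact Or.inl (hκ.other s' hs g x)

end kap

end RCAB

open RCAB in
theorem rca_of (hQ : S_RCQ.{u, u}) : S_RCA.{u} := by
  intro G _ hG H s g₀ κ hκ w hw hne h1
  obtain ⟨lo, σ, hσ⟩ := lo_act (lo_sub (hG s) (Kst (CoprodI.of : G s →* CoprodI G) H g₀))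
  refine hQ (CoprodI G) H _ κ _ lo σ 1 hκ.mul hκ.inv w hw ?_ ?_
  · rw [h1, hσ, mul_one]
  · obtain ⟨m, hm, hm1⟩ := (Subgroup.ne_bot_iff_exists_ne_one.mp hne).elim fun m hm =>
      (⟨m, trivial, hm⟩ : ∃ m : Kst (CoprodI.of : G s →* CoprodI G) H g₀, True ∧ m ≠ 1)
    obtain ⟨x, hx, hxm⟩ := hκ.surj g₀ orb_self m
    refine ⟨g₀ * CoprodI.of x * g₀⁻¹, hx, ?_⟩
    rw [hσ, mul_one]
    intro h2
    apply hm1
    have e1 : κ 1 (g₀ * CoprodI.of x * g₀⁻¹) =
        κ 1 g₀ * m * κ (g₀ * CoprodI.of x) g₀⁻¹ := by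
      rw [hκ.mul, hκ.mul, one_mul, one_mul, hxm]
    have e2 : κ (g₀ * CoprodI.of x) g₀⁻¹ = κ g₀ g₀⁻¹ := by
      have h3 := hκ.inv _ hx g₀ g₀⁻¹
      rwa [inv_mul_cancel_right] at h3
    have e3 : κ 1 g₀ * κ g₀ g₀⁻¹ = 1 := by
      have h3 := hκ.mul 1 g₀ g₀⁻¹
      rw [mul_inv_cancel, kap_one hκ, one_mul] at h3
      exact h3.symm
    have e4 : κ g₀ g₀⁻¹ = (κ 1 g₀)⁻¹ := eq_inv_of_mul_eq_one_right e3
    rw [e1, e2, e4] at h2
    have h5 : m = (κ 1 g₀)⁻¹ * (κ 1 g₀ * m * (κ 1 g₀)⁻¹) * κ 1 g₀ := by group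
    rw [h5, h2]
    group

namespace RCAB

section two

variable {G : Bool → Type u} [∀ s, Group (G s)] {H : Subgroup (CoprodI G)} {s₁ s₂ : Bool}
  {g₁ g₂ : CoprodI G} {κ₁ : CoprodI G → CoprodI G → Kst (CoprodI.of : G s₁ →* CoprodI G) H g₁}
  {κ₂ : CoprodI G → CoprodI G → Kst (CoprodI.of : G s₂ →* CoprodI G) H g₂}

/-- the stabilisers are countable -/
theorem kst_countable {s : Bool} {g₀ : CoprodI G} (hH : Countable H) :
    Countable (Kst (CoprodI.of : G s →* CoprodI G) H g₀) := by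
  classical
  have hinj : Function.Injective (fun x : Kst (CoprodI.of : G s →* CoprodI G) H g₀ =>
      (⟨g₀ * CoprodI.of x.1 * g₀⁻¹, x.2⟩ : H)) := by
    intro x y h
    have h1 : g₀ * CoprodI.of x.1 * g₀⁻¹ = g₀ * CoprodI.of y.1 * g₀⁻¹ := congrArg Subtype.val h
    have h2 : (CoprodI.of x.1 : CoprodI G) = CoprodI.of y.1 :=
      mul_left_cancel (mul_right_cancel h1)
    exact Subtype.ext (CoprodI.of_injective s h2)
  exact hinj.countable

/-- the letters -/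
theorem exists_list (h₁ : Kap H s₁ g₁ κ₁) (h₂ : Kap H s₂ g₂ κ₂) (y : CoprodI G) :
    ∀ g : CoprodI G, ∃ L : List (Kst (CoprodI.of : G s₁ →* CoprodI G) H g₁ ⊕
        Kst (CoprodI.of : G s₂ →* CoprodI G) H g₂),
      (L.map (Sum.elim (fun x => x) (fun _ => 1))).prod = κ₁ g y ∧
      (L.map (Sum.elim (fun _ => 1) (fun x => x))).prod = κ₂ g y ∧
      ∀ (Q : Type) [Group Q] (σ₁ : Kst (CoprodI.of : G s₁ →* CoprodI G) H g₁ →* Q)
        (σ₂ : Kst (CoprodI.of : G s₂ →* CoprodI G) H g₂ →* Q) (t : CoprodI G → CoprodI G → Q),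
        (∀ s g (x : G s), t g (CoprodI.of x) = σ₁ (κ₁ g (CoprodI.of x)) *
          σ₂ (κ₂ g (CoprodI.of x))) →
        (∀ g x y, t g (x * y) = t g x * t (g * x) y) →
        (L.map (Sum.elim (fun x => σ₁ x) (fun x => σ₂ x))).prod = t g y := by
  induction y using CoprodI.induction_on with
  | one =>
    intro g
    refine ⟨[], ?_, ?_, ?_⟩
    · rw [kap_one h₁]
      rfl
    · rw [kap_one h₂]
      rfl
    · intro Q _ σ₁ σ₂ t _ ht
      have h := ht g 1 1
      rw [mul_one, mul_one] at h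
      rw [mul_eq_left.mp h.symm]
      rfl
  | of s x =>
    intro g
    refine ⟨[Sum.inl (κ₁ g (CoprodI.of x)), Sum.inr (κ₂ g (CoprodI.of x))], ?_, ?_, ?_⟩
    · simp
    · simp
    · intro Q _ σ₁ σ₂ t ht _
      rw [ht]
      simp
  | mul x y hx hy =>
    intro g
    obtain ⟨L, hL1, hL2, hL3⟩ := hx g
    obtain ⟨L', hL1', hL2', hL3'⟩ := hy (g * x)
    refine ⟨L ++ L', ?_, ?_, ?_⟩
    · rw [List.map_append, List.prod_append, hL1, hL1', h₁.mul]
    · rw [List.map_append, List.prod_append, hL2, hL2', h₂.mul]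
    · intro Q _ σ₁ σ₂ t ht ht'
      rw [List.map_append, List.prod_append, hL3 Q σ₁ σ₂ t ht ht', hL3' Q σ₁ σ₂ t ht ht', ht']

end two

end RCAB

open RCAB in
theorem rcb_of (hC : S_COC.{u, 0}) (hQ : S_RCQ.{u, 0}) (hO : S_OVL.{u, u}) : S_RCB.{u} := by
  intro G _ hG H hH s₁ s₂ g₁ g₂ κ₁ κ₂ h₁ h₂ hdis w hw hw1 hw2
  have c1 : Countable (Kst (CoprodI.of : G s₁ →* CoprodI G) H g₁) := kst_countable hH
  have c2 : Countable (Kst (CoprodI.of : G s₂ →* CoprodI G) H g₂) := kst_countable hH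
  obtain ⟨L, hL1, hL2, hL3⟩ := exists_list h₁ h₂ w 1
  rw [← hL1] at hw1
  rw [← hL2] at hw2
  obtain ⟨Ω, lo, σ₁, σ₂, z, hz, hnz⟩ := hO _ _ (lo_sub (hG s₁) _) (lo_sub (hG s₂) _) L hw1 hw2
  -- both cocycles cannot be nontrivial at the same orbit
  have key : ∀ (s : Bool) (g : CoprodI G) (x y : G s),
      κ₁ (g * CoprodI.of x) (CoprodI.of y) = 1 ∨ κ₂ g (CoprodI.of x) = 1 := by
    intro s g x y
    rcases kap_cases h₁ s (g * CoprodI.of x) y with h | ⟨hs, ho⟩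
    · exact Or.inl h
    · rcases kap_cases h₂ s g x with h' | ⟨hs', ho'⟩
      · exact Or.inr h'
      · exfalso
        subst hs
        exact hdis hs' g ⟨orb_mul x ho, ho'⟩
  obtain ⟨t, ht1, ht2, ht3⟩ := hC G (Ω ≃o Ω) H
    (fun s g x => σ₁ (κ₁ g (CoprodI.of x)) * σ₂ (κ₂ g (CoprodI.of x))) (by
      intro s g x y
      simp only [map_mul, h₁.mul, h₂.mul]
      rcases key s g x y with h | h
      · rw [h, map_one, mul_one, one_mul, mul_assoc]
      · rw [h, map_one, one_mul, mul_one, mul_assoc]) (by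
      intro s h hh g x
      simp only [h₁.inv h hh, h₂.inv h hh])
  have hwz : t 1 w z = z := by
    rw [← hL3 _ σ₁ σ₂ t ht1 ht2]
    exact hz
  refine hQ (CoprodI G) H (Ω ≃o Ω) t Ω lo (MonoidHom.id _) z ht2 ht3 w hw hwz ?_
  by_contra hcon
  push Not at hcon
  have hcon' : ∀ h ∈ H, t 1 h z = z := hcon
  -- the points
  let Z : CoprodI G → Ω := fun g => (t 1 g)⁻¹ z
  have t11 : t 1 1 = 1 := by
    have h := ht2 1 1 1
    rw [mul_one] at h
    exact mul_eq_left.mp h.symm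
  have Z1 : Z 1 = z := by
    change (t 1 1)⁻¹ z = z
    rw [t11, inv_one]
    rfl
  have inv_apply : ∀ (q : Ω ≃o Ω) (y : Ω), q y = y → q⁻¹ y = y := by
    intro q y hq
    have h : q⁻¹ (q y) = y := RelIso.inv_apply_self q y
    rw [hq] at h
    exact h
  have ZH : ∀ h ∈ H, ∀ g, Z (h * g) = Z g := by
    intro h hh g
    change (t 1 (h * g))⁻¹ z = (t 1 g)⁻¹ z
    have e1 : t 1 (h * g) = t 1 h * t 1 g := by
      rw [ht2, one_mul]
      have := ht3 h hh 1 g
      rw [mul_one] at this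
      rw [this]
    rw [e1, mul_inv_rev]
    change (t 1 g)⁻¹ ((t 1 h)⁻¹ z) = _
    rw [inv_apply _ _ (hcon' h hh)]
  have ZM : ∀ g x, Z (g * x) = (t g x)⁻¹ (Z g) := by
    intro g x
    change (t 1 (g * x))⁻¹ z = (t g x)⁻¹ ((t 1 g)⁻¹ z)
    rw [ht2, one_mul, mul_inv_rev]
    rfl
  have fix1 : ∀ g, Orb H s₁ g₁ g → ∀ m, σ₁ m (Z g) = Z g := by
    intro g hg m
    obtain ⟨x, hx, hxm⟩ := h₁.surj g hg m
    have e1 : Z (g * CoprodI.of x) = Z g := by
      have h := ZH _ hx g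
      rwa [inv_mul_cancel_right] at h
    have e2 : κ₂ g (CoprodI.of x) = 1 := by
      rcases kap_cases h₂ s₁ g x with h | ⟨hs, ho⟩
      · exact h
      · exact absurd ⟨hg, ho⟩ (hdis hs g)
    rw [ZM, ht1, hxm, e2, map_one, mul_one] at e1
    have h3 : σ₁ m ((σ₁ m)⁻¹ (Z g)) = Z g := RelIso.apply_inv_self _ _
    rw [e1] at h3
    exact h3
  have fix2 : ∀ g, Orb H s₂ g₂ g → ∀ m, σ₂ m (Z g) = Z g := by
    intro g hg m
    obtain ⟨x, hx, hxm⟩ := h₂.surj g hg m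
    have e1 : Z (g * CoprodI.of x) = Z g := by
      have h := ZH _ hx g
      rwa [inv_mul_cancel_right] at h
    have e2 : κ₁ g (CoprodI.of x) = 1 := by
      rcases kap_cases h₁ s₂ g x with h | ⟨hs, ho⟩
      · exact h
      · exact absurd ⟨ho, hg⟩ (hdis hs.symm g)
    rw [ZM, ht1, hxm, e2, map_one, one_mul] at e1
    have h3 : σ₂ m ((σ₂ m)⁻¹ (Z g)) = Z g := RelIso.apply_inv_self _ _
    rw [e1] at h3
    exact h3
  have Zlet : ∀ g (s : Bool) (x : G s), Z (g * CoprodI.of x) = Z g := by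
    intro g s x
    rw [ZM]
    apply inv_apply
    rw [ht1]
    change σ₁ (κ₁ g (CoprodI.of x)) (σ₂ (κ₂ g (CoprodI.of x)) (Z g)) = Z g
    have e2 : σ₂ (κ₂ g (CoprodI.of x)) (Z g) = Z g := by
      rcases kap_cases h₂ s g x with h | ⟨hs, ho⟩
      · rw [h, map_one]
        rfl
      · exact fix2 g ho _
    rw [e2]
    rcases kap_cases h₁ s g x with h | ⟨hs, ho⟩
    · rw [h, map_one]
      rfl
    · exact fix1 g ho _
  have Zall : ∀ x g : CoprodI G, Z (g * x) = Z g := by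
    intro x
    induction x using CoprodI.induction_on with
    | one =>
      intro g
      rw [mul_one]
    | of s x =>
      intro g
      exact Zlet g s x
    | mul x y hx hy =>
      intro g
      rw [← mul_assoc, hy, hx]
  have Zz : ∀ g, Z g = z := by
    intro g
    have h := Zall g 1
    rw [one_mul] at h
    rw [h, Z1]
  apply hnz
  refine ⟨fun x => ?_, fun x => ?_⟩
  · have h := fix1 g₁ orb_self x
    rwa [Zz] at h
  · have h := fix2 g₂ orb_self x
    rwa [Zz] at h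

end Pool.Agent.H341.FS
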