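import Pool.Agent.H341.FS.FS_BH
import Pool.Agent.H341.FS.FS_COC
import Pool.Agent.H341.FS.FS_ORB
import Pool.Agent.H341.FS.FS_OVL
import Pool.Agent.H341.FS.FS_PER
import Pool.Agent.H341.FS.FS_GR
import Pool.Agent.H341.FS.FS_RCAB
import Pool.Agent.H341.FS.RCCD
import Pool.Agent.H341.FS.FS_ASM2

set_option autoImplicit false

/-!
# Part I: certificates exist
-/

namespace Pool.Agent.H341.FS

open Monoid

universe u

theorem s_rc2 : S_RC2.{u} :=
  s_asm2 (kap_of s_coc) s_chi (rca_of s_rcq) (rcb_of s_coc s_rcq s_ovl) (rcc_of s_coc s_rcq s_ovlz)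
    (rcd_of s_rcq) s_gr1 s_gr2

/-- Part I. -/
theorem cert {G : Bool → Type u} [∀ s, Group (G s)] (hG : ∀ s, LO (G s)) {k : ℕ} [NeZero k]
    (a : ZMod k → G false) (b : ZMod k → G true) (ha : ∀ i, a i ≠ 1) (hb : ∀ i, b i ≠ 1)
    (hper : ∀ d : ZMod k, d ≠ 0 → ¬ ((∀ i, a (i + d) = a i) ∧ ∀ i, b (i + d) = b i)) :
    HasCert (fun i => (CoprodI.of (a i) : CoprodI G)) (fun i => (CoprodI.of (b i) : CoprodI G)) :=
  Pool.Agent.H399.FSBH.s_bh (CoprodI G) k _ _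
    (fun H hH hwH hpq => s_rc2 G hG k a b ha hb hper H hH hwH hpq)

end Pool.Agent.H341.FS
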