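import Pool.Agent.H341.FS.Stm3

set_option autoImplicit false

/-!
# Normal form property of free products of two groups
-/

namespace Pool.Agent.H341.FS

open Monoid Function

universe u

theorem altw_word (G : Bool → Type u) [∀ s, Group (G s)] : ∀ (l : List (CoprodI G)) (s : Bool),
    altw (rng G) s l → ∃ w : CoprodI.Word G, w.prod = l.prod ∧ w.toList.length = l.length ∧
      w.fstIdx ≠ some (!s) := by
  classical
  intro l
  induction l with
  | nil =>
    intro s _
    exact ⟨CoprodI.Word.empty, by simp, by simp [CoprodI.Word.empty],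
      by simp [CoprodI.Word.fstIdx, CoprodI.Word.empty]⟩
  | cons g l ih =>
    rintro s ⟨hg, hg1, hl⟩
    obtain ⟨w, hw1, hw2, hw3⟩ := ih (!s) hl
    obtain ⟨m, rfl⟩ := hg
    have hm : m ≠ 1 := by
      rintro rfl
      exact hg1 (map_one _)
    have h2 : w.fstIdx ≠ some s := by simpa using hw3
    refine ⟨CoprodI.Word.cons m w h2 hm, ?_, ?_, ?_⟩
    · rw [CoprodI.Word.prod_cons, hw1, List.prod_cons]
    · simp [CoprodI.Word.cons, hw2]
    · rw [CoprodI.Word.fstIdx_cons]
      cases s <;> simp

theorem s_nf : S_NF.{u} := by
  classical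
  intro G _
  constructor
  · intro s l hl halt hprod
    obtain ⟨w, hw1, hw2, -⟩ := altw_word G l s halt
    have h1 : w = CoprodI.Word.empty := by
      apply CoprodI.Word.equiv.symm.injective
      change w.prod = CoprodI.Word.empty.prod
      rw [hw1, hprod, CoprodI.Word.prod_empty]
    rw [h1] at hw2
    simp only [CoprodI.Word.empty, List.length_nil] at hw2
    exact hl (List.length_eq_zero_iff.mp hw2.symm)
  · rw [eq_top_iff]
    intro x _
    induction x using CoprodI.induction_on with
    | one => exact Subgroup.one_mem _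
    | of s m =>
      cases s
      · exact Subgroup.mem_sup_left ⟨m, rfl⟩
      · exact Subgroup.mem_sup_right ⟨m, rfl⟩
    | mul x y hx hy => exact Subgroup.mul_mem _ (hx trivial) (hy trivial)

end Pool.Agent.H341.FS
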