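import Pool.Agent.H341.FS.Stm4

set_option autoImplicit false

/-!
# Asphericity (statements)
-/

namespace Pool.Agent.H341.FS

open Monoid Function

universe u

/-- (ASPW) identity property for words with nontrivial aperiodic letters -/
def S_ASPW : Prop :=
  ∀ (G : Bool → Type u) [∀ s, Group (G s)], (∀ s, LO (G s)) → ∀ (k : ℕ) [NeZero k]
    (a : ZMod k → G false) (b : ZMod k → G true), (∀ i, a i ≠ 1) → (∀ i, b i ≠ 1) →
    (∀ d : ZMod k, d ≠ 0 → ¬ ((∀ i, a (i + d) = a i) ∧ ∀ i, b (i + d) = b i)) →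
    ∀ l : List (CoprodI G × Bool),
      (l.map (fun t => t.1 * (if t.2 = true then W a b else (W a b)⁻¹) * t.1⁻¹)).prod = 1 →
      ∀ (g : CoprodI G) (f : CoprodI G → ℤ),
        (∀ c, g⁻¹ * c ∈ Subgroup.normalClosure ({W a b} : Set (CoprodI G)) → f c = 1) →
        (∀ c, g⁻¹ * c ∉ Subgroup.normalClosure ({W a b} : Set (CoprodI G)) → f c = 0) →
        (l.map (fun t => if t.2 = true then f t.1 else - f t.1)).sum = 0

/-- the relator `x` freely generates its relation module: if a product of powers of conjugates `c x c⁻¹` lies in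
`[N, N]`, `N` the normal closure of `x`, then for each coset `g N` the exponents of the `c ∈ g N` add up to `0` -/
def Asph {P : Type u} [Group P] (x : P) : Prop :=
  ∀ l : List (P × ℤ), (l.map (fun t => (t.1 * x * t.1⁻¹) ^ t.2)).prod ∈
      ⁅Subgroup.normalClosure ({x} : Set P), Subgroup.normalClosure ({x} : Set P)⁆ →
    ∀ (g : P) (f : P → ℤ),
      (∀ c, g⁻¹ * c ∈ Subgroup.normalClosure ({x} : Set P) → f c = 1) →
      (∀ c, g⁻¹ * c ∉ Subgroup.normalClosure ({x} : Set P) → f c = 0) →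
      (l.map (fun t => f t.1 * t.2)).sum = 0

/-- (AMI) asphericity for `CoprodI` over `Bool` -/
def S_AMI : Prop :=
  ∀ (G : Bool → Type u) [∀ s, Group (G s)], (∀ s, LO (G s)) → ∀ x : CoprodI G,
    (¬ ∃ (s : Bool) (g : G s) (c : CoprodI G), x = c * CoprodI.of g * c⁻¹) →
    (∀ (s : CoprodI G) (n : ℕ), 2 ≤ n → s ^ n ≠ x) → Asph x

/-- (ACOP) asphericity for `Coprod A B` -/
def S_ACOP : Prop :=
  ∀ (A B : Type u) [Group A] [Group B], LO A → LO B → ∀ r : Coprod A B,
    (∀ (g : Coprod A B) (a : A), r ≠ g * Coprod.inl a * g⁻¹) →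
    (∀ (g : Coprod A B) (b : B), r ≠ g * Coprod.inr b * g⁻¹) →
    (∀ (s : Coprod A B) (n : ℕ), 2 ≤ n → s ^ n ≠ r) → Asph r

/-- (ORD) the order of `r` in the quotient by `r ^ m` is `m` -/
def S_ORD : Prop :=
  ∀ (A B : Type u) [Group A] [Group B], LO A → LO B → ∀ r : Coprod A B,
    (∀ (g : Coprod A B) (a : A), r ≠ g * Coprod.inl a * g⁻¹) →
    (∀ (g : Coprod A B) (b : B), r ≠ g * Coprod.inr b * g⁻¹) →
    (∀ (s : Coprod A B) (n : ℕ), 2 ≤ n → s ^ n ≠ r) →
    ∀ (m j : ℤ), r ^ j ∈ Subgroup.normalClosure ({r ^ m} : Set (Coprod A B)) → m ∣ j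

open scoped Classical in
/-- asphericity of a finite presentation with relators `rs`: the relators freely generate the relation module -/
def AsphP {X ι : Type} (rs : ι → FreeGroup X) : Prop :=
  ∀ l : List (FreeGroup X × ι × ℤ),
    (l.map (fun t : FreeGroup X × ι × ℤ => (t.1 * rs t.2.1 * t.1⁻¹) ^ t.2.2)).prod ∈
      ⁅Subgroup.normalClosure (Set.range rs), Subgroup.normalClosure (Set.range rs)⁆ →
    ∀ (i : ι) (g : FreeGroup X),
      (l.map (fun t : FreeGroup X × ι × ℤ =>
        if t.2.1 = i ∧ g⁻¹ * t.1 ∈ Subgroup.normalClosure (Set.range rs) then t.2.2 else 0)).sum = 0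

/-- the relators of the extended presentation -/
def ext {n m : ℕ} (rs : Fin m → FreeGroup (Fin n)) (r : FreeGroup (Option (Fin n))) :
    Option (Fin m) → FreeGroup (Option (Fin n)) :=
  fun o => Option.elim o r (fun i => FreeGroup.map some (rs i))

/-- (IVA) Ivanov's question for left-orderable `H` -/
def S_IVA : Prop :=
  ∀ (n m : ℕ) (rs : Fin m → FreeGroup (Fin n)) (r : FreeGroup (Option (Fin n))),
    LO (FreeGroup (Fin n) ⧸ Subgroup.normalClosure (Set.range rs)) →
    AsphP rs →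
    -- `r` is not conjugate into `H` in `H * ⟨x⟩`
    (∀ (g : FreeGroup (Option (Fin n))) (h : FreeGroup (Fin n)),
      g * r * g⁻¹ * (FreeGroup.map some h)⁻¹ ∉
        Subgroup.normalClosure (Set.range (fun i => FreeGroup.map some (rs i)))) →
    -- the group `G` of the extended presentation is torsion-free
    (∀ (w : FreeGroup (Option (Fin n))) (k : ℕ), 0 < k →
      w ^ k ∈ Subgroup.normalClosure (Set.range (ext rs r)) →
      w ∈ Subgroup.normalClosure (Set.range (ext rs r))) →
    (∀ w : FreeGroup (Fin n), FreeGroup.map some w ∈ Subgroup.normalClosure (Set.range (ext rs r)) →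
      w ∈ Subgroup.normalClosure (Set.range rs)) ∧
    AsphP (ext rs r)

end Pool.Agent.H341.FS
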