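import Pool.Agent.H341.FS.Asph4
import Pool.Agent.H341.FS.Stm5
import Pool.Agent.H341.FS.FS_NF
import Pool.Agent.H341.FS.Cert

set_option autoImplicit false

/-!
# Asphericity: products, basic faces, conclusion
-/

namespace Pool.Agent.H341.FS

open Finset Module

universe u

section
variable {P Γ : Type u} [Group P] [Group Γ] {k : ℕ} [NeZero k] {G : Bool → Subgroup P} {a b : ZMod k → P}
  {π : P →* Γ}

theorem RepA.mul {l l' : List (Γ × Bool)} {u u' : P} (h0 : RepA G a b π l u) (h0' : RepA G a b π l' u') :
    RepA G a b π (l ++ l') (u * u') := by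
  classical
  obtain ⟨E, X, F, _, _, _, _, _, es, v, U, ed, Sg, x0, D0, h, L, hS, h1, h2, rfl, rfl⟩ := h0
  obtain ⟨E', X', F', _, _, _, _, _, es', v', U', ed', Sg', x0', D0', h', L', hS', h1', h2', rfl, rfl⟩ := h0'
  let μ : Bool → X' → X ⊕ X' := fun r y => if r = false ∧ y = x0' then Sum.inl x0 else Sum.inr y
  let V : Bool → E ⊕ E' → X ⊕ X' := fun r => Sum.elim (fun e => Sum.inl (v r e)) (fun e => μ r (v' r e))
  let UU : Bool → E ⊕ E' → P := fun r => Sum.elim (fun e => U r e) (fun e => U' r e)
  let D : F ⊕ F' → ZMod k × Bool → E ⊕ E' := Sum.elim (fun f p => Sum.inl (ed f p)) (fun f p => Sum.inr (ed' f p))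
  have hsd := wk_sd hS.walk
  have hsd' := wk_sd hS'.walk
  have hval : ∀ {Q : Type u} [Group Q] (θ : E ⊕ E' → Q), altp θ false (Sg.map Sum.inl ++ Sg'.map Sum.inr) =
      altp (θ ∘ Sum.inl) false Sg * altp (θ ∘ Sum.inr) false Sg' := by
    intro Q _ θ
    rw [altp_append, sd_map, hsd, altp_map, altp_map]
  have hval0 : ∀ {Q : Type} [Group Q] (θ : E ⊕ E' → Q), altp θ false (Sg.map Sum.inl ++ Sg'.map Sum.inr) =
      altp (θ ∘ Sum.inl) false Sg * altp (θ ∘ Sum.inr) false Sg' := by
    intro Q _ θ
    rw [altp_append, sd_map, hsd, altp_map, altp_map]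
  refine ⟨E ⊕ E', X ⊕ X', F ⊕ F', inferInstance, inferInstance, inferInstance, inferInstance, inferInstance,
    es.disjSum es', V, UU, D, Sg.map Sum.inl ++ Sg'.map Sum.inr, Sum.inl x0,
    Sum.elim D0 D0', fun r => Sum.elim (h r) (h' r),
    L.map (fun t => (t.1.map Sum.inl, Sum.inl t.2.1, t.2.2)) ++
      L'.map (fun t => (t.1.map Sum.inr, Sum.inr t.2.1, t.2.2)), ?_, ?_, h2, ?_, ?_⟩
  · refine ⟨?_, ?_, ?_, ?_, ?_, ?_, ?_, ?_, ?_, ?_, ?_, ?_⟩
    · rintro r (e | e)
      · exact hS.hU r e
      · exact hS'.hU r e
    · rintro (f | f) p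
      · exact Finset.inl_mem_disjSum.2 (hS.hes f p)
      · exact Finset.inr_mem_disjSum.2 (hS'.hes f p)
    · rintro (f | f) p
      · show Sum.inl (v _ _) = Sum.inl (v _ _)
        rw [hS.hv]
      · show μ _ (v' _ _) = μ _ (v' _ _)
        rw [hS'.hv]
    · rintro (f | f) p
      · exact hS.hc f p
      · exact hS'.hc f p
    · rw [wk_append, sd_map, hsd]
      refine ⟨Sum.inl x0, wk_map (v := v) (v' := V) Sum.inl (fun _ x => Sum.inl x) (fun _ _ => rfl) hS.walk, ?_⟩
      have := wk_map (v := v') (v' := V) Sum.inr μ (fun _ _ => rfl) hS'.walk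
      simpa [μ] using this
    · intro e he
      rw [List.mem_append, List.mem_map, List.mem_map] at he
      rcases he with ⟨c, hc, rfl⟩ | ⟨c, hc, rfl⟩
      · exact Finset.inl_mem_disjSum.2 (hS.wes c hc)
      · exact Finset.inr_mem_disjSum.2 (hS'.wes c hc)
    · have hinl : ∀ e : E, (univ.filter (fun q : (F ⊕ F') × (ZMod k × Bool) => D q.1 q.2 = Sum.inl e)).card ≤
          (univ.filter (fun q : F × (ZMod k × Bool) => ed q.1 q.2 = e)).card := by
        intro e
        apply Finset.card_le_card_of_surjOn (fun q : F × (ZMod k × Bool) => ((Sum.inl q.1 : F ⊕ F'), q.2))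
        rintro ⟨f | f, p⟩ hq
        · simp only [Finset.coe_filter, Finset.mem_univ, true_and, Set.mem_ofPred_eq, D, Sum.elim_inl,
            Sum.inl.injEq] at hq
          exact ⟨(f, p), by simpa using hq, rfl⟩
        · simp [D] at hq
      have hinr : ∀ e : E', (univ.filter (fun q : (F ⊕ F') × (ZMod k × Bool) => D q.1 q.2 = Sum.inr e)).card ≤
          (univ.filter (fun q : F' × (ZMod k × Bool) => ed' q.1 q.2 = e)).card := by
        intro e
        apply Finset.card_le_card_of_surjOn (fun q : F' × (ZMod k × Bool) => ((Sum.inr q.1 : F ⊕ F'), q.2))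
        rintro ⟨f | f, p⟩ hq
        · simp [D] at hq
        · simp only [Finset.coe_filter, Finset.mem_univ, true_and, Set.mem_ofPred_eq, D, Sum.elim_inr,
            Sum.inr.injEq] at hq
          exact ⟨(f, p), by simpa using hq, rfl⟩
      rintro (e | e)
      · rw [count_app, count_emb _ Sum.inl_injective, count_emb_zero _ _ _ (by simp)]
        have := hS.s3 e
        have := hinl e
        omega
      · rw [count_app, count_emb _ Sum.inr_injective, count_emb_zero _ _ _ (by simp)]
        have := hS'.s3 e
        have := hinr e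
        omega
    · rintro r (e | e)
      · exact hS.dev r e
      · show (Sum.elim (h r) (h' r) (μ r (v' r e))) * π (U' r e) = D0' e
        rw [← hS'.dev r e]
        simp only [μ]
        split_ifs with h5
        · rw [h5.2, h5.1]
          simp [h2, h2']
        · rfl
    · intro t0 ht0
      rw [List.mem_append] at ht0
      rcases ht0 with ht0 | ht0
      · obtain ⟨t, ht, rfl⟩ := List.mem_map.1 ht0
        exact wk_map (v := v) (v' := V) Sum.inl (fun _ x => Sum.inl x) (fun _ _ => rfl) (hS.lw t ht)
      · obtain ⟨t, ht, rfl⟩ := List.mem_map.1 ht0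
        have := wk_map (v := v') (v' := V) Sum.inr μ (fun _ _ => rfl) (hS'.lw t ht)
        have e1 : μ false x0' = Sum.inl x0 := by simp [μ]
        rw [e1] at this
        exact this
    · rw [List.map_append, List.map_map, List.map_map, List.nodup_append]
      refine ⟨?_, ?_, ?_⟩
      · have : (L.map ((fun t : List (E ⊕ E') × (F ⊕ F') × Bool => t.2.1) ∘
            fun t => (t.1.map Sum.inl, Sum.inl t.2.1, t.2.2))) = (L.map (fun t => t.2.1)).map Sum.inl := by
          rw [List.map_map]; rfl
        rw [this]
        exact List.Nodup.map Sum.inl_injective hS.lnd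
      · have : (L'.map ((fun t : List (E ⊕ E') × (F ⊕ F') × Bool => t.2.1) ∘
            fun t => (t.1.map Sum.inr, Sum.inr t.2.1, t.2.2))) = (L'.map (fun t => t.2.1)).map Sum.inr := by
          rw [List.map_map]; rfl
        rw [this]
        exact List.Nodup.map Sum.inr_injective hS'.lnd
      · intro x hx y hy hxy
        obtain ⟨t, _, rfl⟩ := List.mem_map.1 hx
        obtain ⟨t', _, rfl⟩ := List.mem_map.1 hy
        simp at hxy
    · rintro (f | f)
      · obtain ⟨t, ht, htf⟩ := hS.lall f
        refine ⟨_, List.mem_append_left _ (List.mem_map.2 ⟨t, ht, rfl⟩), ?_⟩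
        simp [htf]
      · obtain ⟨t, ht, htf⟩ := hS'.lall f
        refine ⟨_, List.mem_append_right _ (List.mem_map.2 ⟨t, ht, rfl⟩), ?_⟩
        simp [htf]
    · rw [hval0, List.map_append, List.prod_append]
      have e1 := congrArg (FreeGroup.lift (FreeGroup.of ∘ (Sum.inl : E → E ⊕ E'))) hS.ident
      have e2 := congrArg (FreeGroup.lift (FreeGroup.of ∘ (Sum.inr : E' → E ⊕ E'))) hS'.ident
      rw [lift_altp, map_list_prod, List.map_map] at e1 e2
      rw [e1, e2, List.map_map, List.map_map]
      congr 2
      · apply List.map_congr_left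
        intro t _
        simp only [Function.comp_apply]
        rw [lift_fac]
        unfold fac
        simp only
        rw [altp_map]
        rfl
      · apply List.map_congr_left
        intro t _
        simp only [Function.comp_apply]
        rw [lift_fac]
        unfold fac
        simp only
        rw [altp_map]
        rfl
  · -- rank
    rw [Fintype.card_sum]
    refine le_trans ?_ (Nat.add_le_add h1 h1')
    have hmap : ∀ z ∈ Z V (es.disjSum es'), (fun e => z (Sum.inl e)) ∈ Z v es ∧
        (fun e => z (Sum.inr e)) ∈ Z v' es' := by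
      intro z hz
      have hsum : ∀ r y, (∑ e, if V r (Sum.inl e) = y then z (Sum.inl e) else 0) +
          (∑ e, if V r (Sum.inr e) = y then z (Sum.inr e) else 0) = 0 := by
        intro r y
        have := hz.2 r y
        rw [Finset.sum_filter, Fintype.sum_sum_type] at this
        exact this
      have hl : ∀ r y, ∑ e with v r e = y, z (Sum.inl e) = 0 := by
        apply balance v _ (false, x0)
        intro r y hry
        have h3 := hsum r (Sum.inl y)
        have h4 : ∀ e : E', V r (Sum.inr e) ≠ Sum.inl y := by
          intro e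
          show μ r (v' r e) ≠ Sum.inl y
          simp only [μ]
          split_ifs with h5
          · intro h6
            rw [Sum.inl.injEq] at h6
            apply hry
            rw [h5.1, h6]
          · simp
        simp only [h4, if_false, Finset.sum_const_zero, add_zero] at h3
        rw [Finset.sum_filter]
        refine Eq.trans (Finset.sum_congr rfl ?_) h3
        intro e _
        simp [V]
      have hr : ∀ r y, ∑ e with v' r e = y, z (Sum.inr e) = 0 := by
        intro r y
        by_cases hry : r = false ∧ y = x0'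
        · obtain ⟨rfl, rfl⟩ := hry
          have h3 := hsum false (Sum.inl x0)
          have h4 := hl false x0
          rw [Finset.sum_filter] at h4
          have h5 : (∑ e, if V false (Sum.inl e) = Sum.inl x0 then z (Sum.inl e) else 0) = 0 := by
            refine Eq.trans (Finset.sum_congr rfl ?_) h4
            intro e _
            simp [V]
          rw [h5, zero_add] at h3
          rw [Finset.sum_filter]
          refine Eq.trans (Finset.sum_congr rfl ?_) h3
          intro e _
          simp [V, μ]
        · have h3 := hsum r (Sum.inr y)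
          have h5 : (∑ e, if V r (Sum.inl e) = Sum.inr y then z (Sum.inl e) else 0) = 0 := by
            apply Finset.sum_eq_zero
            intro e _
            simp [V]
          rw [h5, zero_add] at h3
          rw [Finset.sum_filter]
          refine Eq.trans (Finset.sum_congr rfl ?_) h3
          intro e _
          have h6 : (V r (Sum.inr e) = Sum.inr y) ↔ v' r e = y := by
            show μ r (v' r e) = Sum.inr y ↔ _
            simp only [μ]
            constructor
            · split_ifs with h7
              · intro h8; simp at h8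
              · intro h8; simpa using h8
            · intro h7
              rw [h7, if_neg hry]
          simp only [h6]
      exact ⟨⟨fun e he => hz.1 _ (fun h => he (Finset.inl_mem_disjSum.1 h)), hl⟩,
        ⟨fun e he => hz.1 _ (fun h => he (Finset.inr_mem_disjSum.1 h)), hr⟩⟩
    let φ : Z V (es.disjSum es') →ₗ[ℚ] (Z v es × Z v' es') :=
      { toFun := fun z => (⟨fun e => z.1 (Sum.inl e), (hmap z.1 z.2).1⟩, ⟨fun e => z.1 (Sum.inr e), (hmap z.1 z.2).2⟩)
        map_add' := fun _ _ => rfl
        map_smul' := fun _ _ => rfl }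
    rw [← Module.finrank_prod]
    apply LinearMap.finrank_le_finrank_of_injective (f := φ)
    rw [injective_iff_map_eq_zero]
    intro z hz
    have e1 : ∀ e, z.1 (Sum.inl e) = 0 := fun e => congrFun (congrArg (fun y => y.1.1) hz) e
    have e2 : ∀ e, z.1 (Sum.inr e) = 0 := fun e => congrFun (congrArg (fun y => y.2.1) hz) e
    apply Subtype.ext
    funext e
    rcases e with e | e
    · exact e1 e
    · exact e2 e
  · rw [List.map_append, List.map_map, List.map_map]
    rfl
  · rw [hval]
    rfl

theorem RepA.base (hπ : π (wd a b) = 1) (haG : ∀ i, a i ∈ G false) (hbG : ∀ i, b i ∈ G true) :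
    RepA G a b π [(1, true)] (wd a b) := by
  classical
  let v : Bool → ZMod k × Bool → ZMod k := fun r p => if r = true ∧ p.2 = false then p.1 - 1 else p.1
  let U : Bool → ZMod k × Bool → P := fun r p =>
    if r = false ∧ p.2 = true then a p.1 else if r = true ∧ p.2 = false then b (p.1 - 1) else 1
  have hc : ∀ p : ZMod k × Bool, U p.2 (nxt p) = U p.2 p * ltr a b p := by
    rintro ⟨i, _ | _⟩
    · simp [U, nxt, ltr]
    · simp [U, nxt, ltr]
  have hvv : ∀ p : ZMod k × Bool, v p.2 (nxt p) = v p.2 p := by
    rintro ⟨i, _ | _⟩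
    · simp [v, nxt]
    · simp [v, nxt]
  have hwalk : ∀ n, wk v false 0 (bdl k n) false (n : ZMod k) := by
    intro n
    induction n with
    | zero => exact ⟨rfl, by simp⟩
    | succ n ih =>
      rw [bdl, wk_append, sd_bdl]
      refine ⟨(n : ZMod k), ih, ?_⟩
      refine ⟨by simp [v], by simp [v], rfl, ?_⟩
      simp [v]
  refine ⟨ZMod k × Bool, ZMod k, Unit, inferInstance, inferInstance, inferInstance, inferInstance, inferInstance,
    univ, v, U, fun _ p => p, bdl k k, 0, fun p => π (pre a b p),
    fun r i => π (pre a b (i, r)), [([], (), true)], ?_, ?_, ?_, ?_, ?_⟩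
  · refine ⟨?_, ?_, fun _ p => hvv p, fun _ p => hc p, ?_, ?_, ?_, ?_, ?_, ?_, ?_, ?_⟩
    · rintro r ⟨i, c⟩
      simp only [U]
      split_ifs with h1 h2
      · rw [h1.1]; exact haG i
      · rw [h2.1]; exact hbG _
      · exact (G r).one_mem
    · intro _ p; exact Finset.mem_univ _
    · have := hwalk k
      simpa using this
    · intro e _; exact Finset.mem_univ _
    · intro e
      have h1 : (univ.filter (fun q : Unit × (ZMod k × Bool) => q.2 = e)).card ≤ 1 := by
        rw [Finset.card_le_one]
        rintro ⟨x, p⟩ hp ⟨y, q⟩ hq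
        simp only [Finset.mem_filter, Finset.mem_univ, true_and] at hp hq
        rw [hp, hq]
      have h2 : @List.count (ZMod k × Bool) instBEqOfDecidableEq e (bdl k k) ≤ 1 := by
        rw [count_inst inferInstance inferInstance, count_bdl k le_rfl]
        split_ifs <;> simp
      exact Nat.add_le_add h1 h2
    · rintro r ⟨i, c⟩
      have hn : ∀ j : ZMod k, π (pre a b (j + 1, false)) = π (pre a b (j, true)) * π (b j) := by
        intro j
        rcases pre_nxt a b (j, true) with h1 | h1
        · simp only [nxt, ltr, if_true] at h1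
          rw [h1, map_mul]
        · simp only [nxt, ltr, if_true] at h1
          have := congrArg π h1
          rw [map_mul, hπ, one_mul, map_mul] at this
          exact this
      cases r <;> cases c
      · simp [v, U]
      · simp [v, U, pre]
      · simp only [v, U]
        have := hn (i - 1)
        rw [sub_add_cancel] at this
        simp [this]
      · simp [v, U]
    · intro t ht
      simp only [List.mem_singleton] at ht
      subst ht
      exact ⟨rfl, by simp [v]⟩
    · simp
    · intro f
      exact ⟨_, List.mem_singleton.2 rfl, rfl⟩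
    · rw [altp_bdl]
      simp only [List.map_cons, List.map_nil, List.prod_cons, List.prod_nil, mul_one]
      simp [fac, altp, sg, Phi]
  · -- rank
    let φ : Z v univ →ₗ[ℚ] ℚ :=
      (LinearMap.proj ((0 : ZMod k), false) : (ZMod k × Bool → ℚ) →ₗ[ℚ] ℚ).comp (Z v univ).subtype
    have : Function.Injective φ := by
      rw [injective_iff_map_eq_zero]
      intro z hz
      have h0 : z.1 (0, false) = 0 := hz
      have hsum : ∀ p : ZMod k × Bool, z.1 p + z.1 (nxt p) = 0 := by
        intro p
        have h1 := z.2.2 p.2 (v p.2 p)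
        have h2 : (univ.filter (fun e => v p.2 e = v p.2 p)) = {p, nxt p} := by
          ext q
          simp only [Finset.mem_filter, Finset.mem_univ, true_and, Finset.mem_insert, Finset.mem_singleton]
          rcases p with ⟨i, _ | _⟩ <;> rcases q with ⟨j, _ | _⟩ <;> simp [v, nxt, sub_eq_iff_eq_add]
        rw [h2, Finset.sum_pair] at h1
        · exact h1
        · intro h3
          have := nxt_snd p
          rw [← h3] at this
          revert this
          cases p.2 <;> simp
      have hall := nxt_closed (univ.filter (fun p : ZMod k × Bool => z.1 p = 0)) ⟨(0, false), by simp [h0]⟩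
        (by
          intro p hp
          simp only [Finset.mem_filter, Finset.mem_univ, true_and] at hp ⊢
          have := hsum p
          rw [hp, zero_add] at this
          exact this)
      apply Subtype.ext
      funext e
      have := hall e
      simpa using this
    have h2 := LinearMap.finrank_le_finrank_of_injective this
    simpa using h2
  · simp [pre, pp]
  · simp [pre, pp]
  · rw [altp_bdl]
    have := Phi_th a b U (fun p => p) hc
    unfold Phi at this
    rw [this]
    simp [U]

theorem RepA.conj_all (hgen : G false ⊔ G true = ⊤) (c : P) : ∀ (l : List (Γ × Bool)) (u : P),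
    RepA G a b π l u → RepA G a b π (l.map (fun t => (π c * t.1, t.2))) (c * u * c⁻¹) := by
  have hcomp : ∀ (x y : Γ) (l : List (Γ × Bool)), (l.map (fun t => (y * t.1, t.2))).map (fun t => (x * t.1, t.2)) =
      l.map (fun t => (x * y * t.1, t.2)) := by
    intro x y l
    rw [List.map_map]
    apply List.map_congr_left
    intro t _
    simp [mul_assoc]
  have hid : ∀ l : List (Γ × Bool), l.map (fun t => ((1 : Γ) * t.1, t.2)) = l := by
    intro l
    simp
  let N : Subgroup P :=
    { carrier := {c | ∀ (l : List (Γ × Bool)) (u : P),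
        RepA G a b π (l.map (fun t => (π c * t.1, t.2))) (c * u * c⁻¹) ↔ RepA G a b π l u}
      one_mem' := by
        intro l u
        rw [map_one, hid]
        simp
      mul_mem' := by
        intro c d hc hd l u
        have h1 : c * d * u * (c * d)⁻¹ = c * (d * u * d⁻¹) * c⁻¹ := by group
        rw [h1, map_mul, ← hcomp, hc, hd]
      inv_mem' := by
        intro c hc l u
        have h1 := hc (l.map (fun t => (π c⁻¹ * t.1, t.2))) (c⁻¹ * u * c⁻¹⁻¹)
        rw [← h1, hcomp, ← map_mul, mul_inv_cancel, map_one, hid]
        have h2 : c * (c⁻¹ * u * c⁻¹⁻¹) * c⁻¹ = u := by group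
        rw [h2] }
  have h1 : ∀ s, G s ≤ N := by
    intro s c hc l u
    constructor
    · intro h
      have h2 : RepA G a b π ((l.map (fun t => (π c * t.1, t.2))).map (fun t => (π c⁻¹ * t.1, t.2)))
          (c⁻¹ * (c * u * c⁻¹) * c⁻¹⁻¹) := by
        cases s
        · exact h.conj_false ((G false).inv_mem hc)
        · exact h.conj_true ((G true).inv_mem hc)
      have h3 : c⁻¹ * (c * u * c⁻¹) * c⁻¹⁻¹ = u := by group
      rw [h3, hcomp, ← map_mul, inv_mul_cancel, map_one, hid] at h2
      exact h2
    · intro h
      cases s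
      · exact h.conj_false hc
      · exact h.conj_true hc
  have h2 : N = ⊤ := by
    rw [eq_top_iff, ← hgen]
    exact sup_le (h1 false) (h1 true)
  intro l u h
  have h3 : c ∈ N := by rw [h2]; exact Subgroup.mem_top c
  exact (h3 l u).2 h

theorem RepA.of_list (hπ : π (wd a b) = 1) (hgen : G false ⊔ G true = ⊤) (haG : ∀ i, a i ∈ G false)
    (hbG : ∀ i, b i ∈ G true) (l : List (P × Bool)) :
    RepA G a b π (l.map (fun t => (π t.1, t.2))) (l.map (fun t => t.1 * sg t.2 (wd a b) * t.1⁻¹)).prod := by
  induction l with
  | nil => exact RepA.one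
  | cons t l ih =>
    rw [List.map_cons, List.map_cons, List.prod_cons]
    have hb : RepA G a b π [(1, t.2)] (sg t.2 (wd a b)) := by
      obtain ⟨c, ε⟩ := t
      cases ε
      · simpa [sg] using (RepA.base hπ haG hbG).inv
      · simpa [sg] using RepA.base hπ haG hbG
    have h1 := RepA.conj_all hgen t.1 _ _ hb
    have h2 := h1.mul ih
    simpa using h2

theorem asph_core (hNF : NF G) (hgen : G false ⊔ G true = ⊤) (haG : ∀ i, a i ∈ G false)
    (hbG : ∀ i, b i ∈ G true) (hcert : HasCert a b) (hπ : π (wd a b) = 1) :
    ∀ (n : ℕ) (l : List (P × Bool)), l.length = n →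
      (l.map (fun t => t.1 * sg t.2 (wd a b) * t.1⁻¹)).prod = 1 → ZS (l.map (fun t => (π t.1, t.2))) := by
  obtain ⟨S, hS1, hS2, hS3, hS4⟩ := hcert
  intro n
  induction n using Nat.strong_induction_on with
  | _ n ih =>
  intro l hl hprod
  obtain ⟨E, X, F, _, _, _, _, _, es, v, U, ed, Sg, x0, D, h, L, hSt, h1, h2, h3, h4⟩ :=
    RepA.of_list hπ hgen haG hbG l
  have hcard : Fintype.card F = n := by
    rw [← hSt.len, ← hl]
    have := congrArg List.length h3
    simpa using this
  have h5 := Sa.main hNF hπ S hS1 hS2 hS3 hS4
    (by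
      intro l' hl' hp'
      exact ih l'.length (by omega) l' rfl hp')
    Sg.length es v U ed Sg x0 D h L rfl hSt h1 (by rw [h4]; exact hprod)
  rw [h3] at h5
  exact h5

end

open Monoid

theorem s_aspw : S_ASPW.{u} := by
  classical
  intro G _ hG k _ a b ha hb hper l hl g f hf1 hf0
  obtain ⟨hNF, hgen⟩ := s_nf G
  set N := Subgroup.normalClosure ({W a b} : Set (CoprodI G)) with hN
  have hπ : QuotientGroup.mk' N (W a b) = 1 := by
    rw [QuotientGroup.mk'_apply, QuotientGroup.eq_one_iff]
    exact Subgroup.subset_normalClosure (Set.mem_singleton _)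
  have h1 := asph_core (G := rng G) hNF hgen (fun i => ⟨a i, rfl⟩) (fun i => ⟨b i, rfl⟩)
    (cert hG a b ha hb hper) hπ l.length l rfl (by
      rw [← hl]
      congr 1)
  have h2 := h1 (fun γ => if γ = QuotientGroup.mk' N g then 1 else 0)
  rw [List.map_map] at h2
  rw [← h2]
  congr 1
  apply List.map_congr_left
  intro t _
  simp only [Function.comp_apply]
  have h3 : f t.1 = if (QuotientGroup.mk' N t.1 = QuotientGroup.mk' N g) then 1 else 0 := by
    split_ifs with h4
    · apply hf1
      rw [QuotientGroup.mk'_apply, QuotientGroup.mk'_apply, eq_comm, QuotientGroup.eq] at h4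
      exact h4
    · apply hf0
      intro h5
      apply h4
      rw [QuotientGroup.mk'_apply, QuotientGroup.mk'_apply, eq_comm, QuotientGroup.eq]
      exact h5
  rw [h3]

end Pool.Agent.H341.FS
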