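import Pool.Agent.H341.FS.Defs

set_option autoImplicit false

/-!
# The counting step
-/

namespace Pool.Agent.H341.FS

open Finset Module

universe u

/-- the next position -/
def nxt {k : ℕ} (p : ZMod k × Bool) : ZMod k × Bool := if p.2 then (p.1 + 1, false) else (p.1, true)

/-- the letter after a position -/
def ltr {P : Type u} {k : ℕ} (a b : ZMod k → P) (p : ZMod k × Bool) : P := if p.2 then b p.1 else a p.1

theorem nxt_snd {k : ℕ} (p : ZMod k × Bool) : (nxt p).2 = !p.2 := by
  rcases p with ⟨i, _ | _⟩ <;> rfl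

theorem nxt_surj {k : ℕ} (p : ZMod k × Bool) : ∃ q, nxt q = p := by
  rcases p with ⟨i, _ | _⟩
  · exact ⟨(i - 1, true), by simp [nxt]⟩
  · exact ⟨(i, false), by simp [nxt]⟩

theorem nxt_inj {k : ℕ} {p q : ZMod k × Bool} (h : nxt p = nxt q) : p = q := by
  rcases p with ⟨i, _ | _⟩ <;> rcases q with ⟨j, _ | _⟩ <;> simp_all [nxt]

/-- a set of positions closed under `nxt` is empty or everything -/
theorem nxt_closed {k : ℕ} [NeZero k] (T : Finset (ZMod k × Bool)) (hT : T.Nonempty)
    (h : ∀ p ∈ T, nxt p ∈ T) : ∀ p, p ∈ T := by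
  obtain ⟨⟨i, c⟩, hi⟩ := hT
  have h2 : ∃ j, (j, false) ∈ T := by
    rcases c with _ | _
    · exact ⟨i, hi⟩
    · exact ⟨i + 1, by simpa [nxt] using h _ hi⟩
  obtain ⟨j, hj⟩ := h2
  have h3 : ∀ n : ℕ, (j + n, false) ∈ T := by
    intro n
    induction n with
    | zero => simpa using hj
    | succ n ih =>
      have h4 := h _ (h _ ih)
      simp only [nxt] at h4
      simpa [add_assoc] using h4
  have h5 : ∀ l : ZMod k, (l, false) ∈ T := by
    intro l
    have h6 := h3 (l - j).val
    rw [ZMod.natCast_zmod_val] at h6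
    simpa using h6
  intro p
  rcases p with ⟨l, _ | _⟩
  · exact h5 l
  · simpa [nxt] using h _ (h5 l)

theorem card_nxt_lt {k : ℕ} [NeZero k] (T : Finset (ZMod k × Bool)) (hT : T.Nonempty)
    (hT2 : ∃ p, p ∉ T) : (T.filter (fun p => nxt p ∈ T)).card + 1 ≤ T.card := by
  by_contra hcon
  have h1 : T.filter (fun p => nxt p ∈ T) = T := by
    apply Finset.eq_of_subset_of_card_le (Finset.filter_subset _ _)
    omega
  obtain ⟨p, hp⟩ := hT2
  apply hp
  apply nxt_closed T hT
  intro q hq
  rw [← h1] at hq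
  exact (Finset.mem_filter.1 hq).2

theorem pre_nxt {P : Type u} [Group P] {k : ℕ} [NeZero k] (a b : ZMod k → P) (p : ZMod k × Bool) :
    pre a b (nxt p) = pre a b p * ltr a b p ∨
      wd a b * pre a b (nxt p) = pre a b p * ltr a b p := by
  rcases p with ⟨i, _ | _⟩
  · left
    simp [pre, nxt, ltr]
  · have hk : i.val < k := ZMod.val_lt i
    have h0 : ((i.val : ℕ) : ZMod k) = i := ZMod.natCast_zmod_val i
    rcases Nat.lt_or_ge (i.val + 1) k with h | h
    · left
      have h1 : (i + 1).val = i.val + 1 := by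
        have : (i + 1) = ((i.val + 1 : ℕ) : ZMod k) := by push_cast; rw [h0]
        rw [this, ZMod.val_natCast, Nat.mod_eq_of_lt h]
      simp [pre, nxt, ltr, h1, pp, h0, mul_assoc]
    · right
      have h1 : i.val + 1 = k := by omega
      have h2 : (i + 1 : ZMod k) = 0 := by
        have : (i + 1) = ((i.val + 1 : ℕ) : ZMod k) := by push_cast; rw [h0]
        rw [this, h1]; simp
      have h3 : wd a b = pp (fun n : ℕ => a (n : ZMod k) * b (n : ZMod k)) (i.val + 1) := by
        rw [wd, h1]
      rw [h3]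
      simp [pre, nxt, ltr, h2, pp, h0, mul_assoc]

/-- integral cycles of the graph with edges `es` -/
def Z {E X : Type} [Fintype E] [DecidableEq X] (v : Bool → E → X) (es : Finset E) :
    Submodule ℚ (E → ℚ) where
  carrier := {z | (∀ e, e ∉ es → z e = 0) ∧ ∀ s x, ∑ e with v s e = x, z e = 0}
  add_mem' := by
    rintro z z' ⟨h1, h2⟩ ⟨h3, h4⟩
    refine ⟨fun e he => by simp [h1 e he, h3 e he], fun s x => ?_⟩
    simp [Finset.sum_add_distrib, h2 s x, h4 s x]
  zero_mem' := ⟨fun _ _ => rfl, fun _ _ => by simp⟩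
  smul_mem' := by
    rintro c z ⟨h1, h2⟩
    refine ⟨fun e he => by simp [h1 e he], fun s x => ?_⟩
    have : ∑ e with v s e = x, (c • z) e = c * ∑ e with v s e = x, z e := by
      rw [Finset.mul_sum]; rfl
    rw [this, h2 s x, mul_zero]

theorem mem_Z {E X : Type} [Fintype E] [DecidableEq X] {v : Bool → E → X} {es : Finset E}
    {z : E → ℚ} : z ∈ Z v es ↔ (∀ e, e ∉ es → z e = 0) ∧ ∀ s x, ∑ e with v s e = x, z e = 0 := Iff.rfl

theorem Z_mono {E X : Type} [Fintype E] [DecidableEq X] (v : Bool → E → X) {es es' : Finset E}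
    (h : es ⊆ es') : Z v es ≤ Z v es' := fun _ hz => ⟨fun e he => hz.1 e (fun h' => he (h h')), hz.2⟩

theorem Z_dim {E X : Type} [Fintype E] [Fintype X] [DecidableEq E] [DecidableEq X] (v : Bool → E → X)
    (es : Finset E) (exc : Bool × X) (V : Finset (Bool × X))
    (hV : ∀ e ∈ es, ∀ s, (s, v s e) ≠ exc → (s, v s e) ∈ V) :
    es.card ≤ finrank ℚ (Z v es) + V.card := by
  let Λ : (E → ℚ) →ₗ[ℚ] (V ⊕ {e // e ∉ es} → ℚ) :=
    LinearMap.pi (fun y => Sum.elim (fun y : V => ∑ e with v y.1.1 e = y.1.2, LinearMap.proj e)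
      (fun e : {e // e ∉ es} => LinearMap.proj e.1) y)
  have h1 : LinearMap.ker Λ ≤ Z v es := by
    intro z hz
    rw [LinearMap.mem_ker] at hz
    have hz1 : ∀ e, e ∉ es → z e = 0 := by
      intro e he
      have := congrFun hz (Sum.inr ⟨e, he⟩)
      simpa [Λ] using this
    have hz2 : ∀ y ∈ V, ∑ e with v y.1 e = y.2, z e = 0 := by
      intro y hy
      have := congrFun hz (Sum.inl ⟨y, hy⟩)
      simpa [Λ] using this
    have hz3 : ∀ s x, (s, x) ≠ exc → ∑ e with v s e = x, z e = 0 := by
      intro s x hsx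
      by_cases hy : (s, x) ∈ V
      · exact hz2 _ hy
      · apply Finset.sum_eq_zero
        intro e he
        rw [Finset.mem_filter] at he
        apply hz1
        intro hes
        apply hy
        have := hV e hes s
        rw [he.2] at this
        exact this hsx
    have hz4 : ∀ s, ∑ x, ∑ e with v s e = x, z e = ∑ e, z e := by
      intro s
      exact Finset.sum_fiberwise _ _ _
    refine ⟨hz1, fun s x => ?_⟩
    by_cases hsx : (s, x) = exc
    · have h5 : ∑ e, z e = 0 := by
        rw [← hz4 (!s)]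
        apply Finset.sum_eq_zero
        intro x' _
        apply hz3
        intro h
        rw [← hsx] at h
        have := congrArg Prod.fst h
        simp at this
      rw [← hz4 s] at h5
      rw [Finset.sum_eq_single x] at h5
      · exact h5
      · intro x' _ hx'
        apply hz3
        intro h
        rw [← hsx] at h
        exact hx' (congrArg Prod.snd h)
      · intro h; exact absurd (Finset.mem_univ _) h
    · exact hz3 s x hsx
  have h2 := LinearMap.finrank_range_add_finrank_ker Λ
  have h3 : finrank ℚ (LinearMap.range Λ) ≤ V.card + (Fintype.card E - es.card) := by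
    refine le_trans (Submodule.finrank_le _) ?_
    rw [Module.finrank_fintype_fun_eq_card, Fintype.card_sum, Fintype.card_coe]
    have : Fintype.card {e // e ∉ es} = Fintype.card E - es.card := by
      rw [Fintype.card_subtype_compl, Fintype.card_coe]
    rw [this]
  have h4 : finrank ℚ (LinearMap.ker Λ) ≤ finrank ℚ (Z v es) := Submodule.finrank_mono h1
  have h5 : es.card ≤ Fintype.card E := Finset.card_le_univ _
  rw [Module.finrank_fintype_fun_eq_card] at h2
  omega

end Pool.Agent.H341.FS
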