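import Mathlib

set_option autoImplicit false

/-!
# One-relator products of left-orderable groups: basic definitions

`w = a_0 b_0 a_1 b_1 ⋯ a_(k-1) b_(k-1)`; a position is a pair `(i, false)` (before `a_i`) or
`(i, true)` (between `a_i` and `b_i`), `i : ZMod k`.
-/

namespace Pool.Agent.H341.FS

universe u v

/-- partial products `c 0 * c 1 * ⋯ * c (n - 1)` -/
def pp {M : Type u} [Monoid M] (c : ℕ → M) : ℕ → M
  | 0 => 1
  | n + 1 => pp c n * c n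

/-- the word `a_0 b_0 ⋯ a_(k-1) b_(k-1)` -/
def wd {P : Type u} [Group P] {k : ℕ} (a b : ZMod k → P) : P :=
  pp (fun n : ℕ => a (n : ZMod k) * b (n : ZMod k)) k

/-- the part of the word before a position -/
def pre {P : Type u} [Group P] {k : ℕ} (a b : ZMod k → P) (p : ZMod k × Bool) : P :=
  pp (fun n : ℕ => a (n : ZMod k) * b (n : ZMod k)) p.1.val * (if p.2 then a p.1 else 1)

/-- certificate: a subsemigroup `S` without `1`, invariant under multiplication by `w ^ (±1)`, that contains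
`π_p π_q⁻¹` or its inverse, for any two different positions `p`, `q` -/
def HasCert {P : Type u} [Group P] {k : ℕ} (a b : ZMod k → P) : Prop :=
  ∃ S : Set P, (∀ s ∈ S, ∀ t ∈ S, s * t ∈ S) ∧ (1 : P) ∉ S ∧
    (∀ s ∈ S, wd a b * s ∈ S ∧ (wd a b)⁻¹ * s ∈ S ∧ s * wd a b ∈ S ∧ s * (wd a b)⁻¹ ∈ S) ∧
    ∀ p q : ZMod k × Bool, p ≠ q →
      pre a b p * (pre a b q)⁻¹ ∈ S ∨ pre a b q * (pre a b p)⁻¹ ∈ S

/-- left-orderable groups -/
def LO (G : Type u) [Group G] : Prop :=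
  ∃ lo : LinearOrder G, ∀ a b c : G, lo.lt a b → lo.lt (c * a) (c * b)

/-- `H` has a proper relatively convex subgroup that contains `w` -/
def RC {P : Type u} [Group P] (H : Subgroup P) (w : P) : Prop :=
  ∃ (S : Set P) (H' : Subgroup P), H' ≤ H ∧ H' ≠ H ∧ w ∈ H' ∧ (∀ s ∈ S, s ∈ H) ∧
    (∀ s ∈ S, ∀ t ∈ S, s * t ∈ S) ∧ (∀ s ∈ S, ∀ h ∈ H', s * h ∈ S ∧ h * s ∈ S) ∧
    (∀ g ∈ H, g ∈ H' ∨ g ∈ S ∨ g⁻¹ ∈ S) ∧ (1 : P) ∉ S

end Pool.Agent.H341.FS
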