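import Pool.Agent.H341.FS.Stm6

set_option autoImplicit false
set_option linter.unusedSectionVars false

/-!
# FS-19 (helper665): aspherical presentations define torsion-free groups
-/

namespace Pool.Agent.H341.FS.ATF

theorem fg_tf {α : Type} (x : FreeGroup α) (p : ℕ) (hp : 0 < p)
    (h : x ^ p ∈ commutator (FreeGroup α)) : x ∈ commutator (FreeGroup α) := by
  let a : FreeAbelianGroup α := Additive.ofMul (Abelianization.of x)
  have h1 : p • a = 0 := by
    have h2 : Abelianization.of (x ^ p) = 1 := by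
      rw [← MonoidHom.mem_ker, Abelianization.ker_of]
      exact h
    rw [map_pow] at h2
    exact h2
  have h3 : p • FreeAbelianGroup.equivFinsupp α a = 0 := by
    rw [← map_nsmul, h1, map_zero]
  have h4 : FreeAbelianGroup.equivFinsupp α a = 0 := by
    refine (smul_eq_zero.1 h3).resolve_left (by omega)
  have h5 : a = 0 := (FreeAbelianGroup.equivFinsupp α).map_eq_zero_iff.1 h4
  have h6 : Abelianization.of x = 1 := h5
  rwa [← MonoidHom.mem_ker, Abelianization.ker_of] at h6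

theorem free_tf {G : Type} [Group G] [IsFreeGroup G] (x : G) (p : ℕ) (hp : 0 < p)
    (h : x ^ p ∈ commutator G) : x ∈ commutator G := by
  let e := IsFreeGroup.toFreeGroup G
  have hc : ∀ y : G, e y ∈ commutator (FreeGroup (IsFreeGroup.Generators G)) ↔
      y ∈ commutator G := by
    intro y
    rw [← Abelianization.ker_of, ← Abelianization.ker_of, MonoidHom.mem_ker, MonoidHom.mem_ker]
    constructor
    · intro h1
      have := congrArg (Abelianization.map e.symm.toMonoidHom) h1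
      rw [Abelianization.map_of, map_one] at this
      simpa using this
    · intro h1
      have := congrArg (Abelianization.map e.toMonoidHom) h1
      rw [Abelianization.map_of, map_one] at this
      simpa using this
  refine (hc x).1 (fg_tf (e x) p hp ?_)
  rw [← map_pow]
  exact (hc _).2 h

/-- step 1 -/
theorem root_mem {X : Type} (N : Subgroup (FreeGroup X)) [N.Normal] (u : FreeGroup X) (p : ℕ)
    (hp : 0 < p) (h : u ^ p ∈ ⁅N, N⁆) : u ∈ N := by
  let U : Subgroup (FreeGroup X) := Subgroup.zpowers u ⊔ N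
  have hu : u ∈ U := (le_sup_left : Subgroup.zpowers u ≤ U) (Subgroup.mem_zpowers u)
  have hN : N ≤ U := le_sup_right
  have h1 : (⟨u, hu⟩ : U) ^ p ∈ commutator U := by
    have h2 : u ^ p ∈ (commutator U).map U.subtype := by
      rw [Subgroup.map_subtype_commutator]
      exact Subgroup.commutator_mono hN hN h
    obtain ⟨y, hy, hy2⟩ := h2
    have : y = (⟨u, hu⟩ : U) ^ p := Subtype.ext hy2
    rwa [← this]
  have h3 : (⟨u, hu⟩ : U) ∈ commutator U := free_tf _ p hp h1
  have h4 : u ∈ ⁅U, U⁆ := by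
    rw [← Subgroup.map_subtype_commutator]
    exact ⟨_, h3, rfl⟩
  have h5 : ⁅U, U⁆ ≤ N := by
    rw [Subgroup.commutator_le]
    intro a ha b hb
    have key : ∀ c ∈ U, ∃ n : ℤ, (QuotientGroup.mk c : FreeGroup X ⧸ N) =
        (QuotientGroup.mk u : FreeGroup X ⧸ N) ^ n := by
      intro c hc
      obtain ⟨s, hs, t, ht, rfl⟩ := Subgroup.mem_sup_of_normal_right.1 hc
      obtain ⟨n, rfl⟩ := Subgroup.mem_zpowers_iff.1 hs
      refine ⟨n, ?_⟩
      rw [QuotientGroup.mk_mul, (QuotientGroup.eq_one_iff t).2 ht, mul_one, QuotientGroup.mk_zpow]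
    obtain ⟨n, hn⟩ := key a ha
    obtain ⟨m, hm⟩ := key b hb
    rw [← QuotientGroup.eq_one_iff, commutatorElement_def]
    rw [QuotientGroup.mk_mul, QuotientGroup.mk_mul, QuotientGroup.mk_mul, QuotientGroup.mk_inv,
      QuotientGroup.mk_inv, hn, hm, ← zpow_neg, ← zpow_neg, ← zpow_add, ← zpow_add, ← zpow_add]
    have : n + m + -n + -m = 0 := by ring
    rw [this, zpow_zero]
  exact h5 h4


section mod

variable {F : Type} [Group F] (N : Subgroup F) [N.Normal]

/-- the relation module -/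
abbrev T := Additive (Abelianization N)

/-- the class of an element of `N` -/
def cls (x : N) : T N := Additive.ofMul (Abelianization.of x)

theorem cls_mul (x y : N) : cls N (x * y) = cls N x + cls N y := by
  simp only [cls, map_mul, ofMul_mul]

theorem cls_one : cls N 1 = 0 := by
  simp only [cls, map_one, ofMul_one]

theorem cls_inv (x : N) : cls N x⁻¹ = - cls N x := by
  simp only [cls, map_inv, ofMul_inv]

theorem cls_zpow (x : N) (e : ℤ) : cls N (x ^ e) = e • cls N x := by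
  simp only [cls, map_zpow, ofMul_zpow]

theorem cls_surj (a : T N) : ∃ x, cls N x = a := by
  obtain ⟨x, hx⟩ := QuotientGroup.mk_surjective (Additive.toMul a)
  exact ⟨x, congrArg Additive.ofMul hx⟩

theorem cls_eq_zero (x : N) : cls N x = 0 ↔ (x : F) ∈ ⁅N, N⁆ := by
  have h1 : cls N x = 0 ↔ x ∈ commutator N := by
    rw [← Abelianization.ker_of, MonoidHom.mem_ker]
    rfl
  rw [h1, ← Subgroup.map_subtype_commutator]
  constructor
  · intro h
    exact ⟨x, h, rfl⟩
  · rintro ⟨y, hy, hy2⟩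
    have : y = x := Subtype.ext hy2
    rwa [← this]

/-- conjugation -/
def act (g : F) : T N →+ T N :=
  (Abelianization.map (MulAut.conjNormal g : N ≃* N).toMonoidHom).toAdditive

theorem act_cls (g : F) (x : N) : act N g (cls N x) = cls N (MulAut.conjNormal g x) := by
  rfl

theorem act_mul (g h : F) (a : T N) : act N (g * h) a = act N g (act N h a) := by
  obtain ⟨x, rfl⟩ := cls_surj N a
  rw [act_cls, act_cls, act_cls, map_mul]
  rfl

theorem act_mem (n : F) (hn : n ∈ N) (a : T N) : act N n a = a := by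
  obtain ⟨x, rfl⟩ := cls_surj N a
  rw [act_cls]
  have : (MulAut.conjNormal n x : N) = ⟨n, hn⟩ * x * ⟨n, hn⟩⁻¹ := by
    apply Subtype.ext
    rw [MulAut.conjNormal_apply]
    rfl
  rw [this, cls_mul, cls_mul, cls_inv]
  abel

theorem act_eq {g h : F} (hgh : g⁻¹ * h ∈ N) (a : T N) : act N g a = act N h a := by
  have : h = g * (g⁻¹ * h) := by group
  rw [this, act_mul, act_mem N _ hgh]

variable {ι : Type} (r : ι → N)

/-- the class of a conjugate of a relator -/
noncomputable def ga (p : ι × (F ⧸ N)) : T N := act N p.2.out (cls N (r p.1))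

theorem ga_eq (c : F) (i : ι) : ga N r (i, (c : F ⧸ N)) = act N c (cls N (r i)) := by
  refine act_eq N ?_ _
  rw [← QuotientGroup.eq]
  exact Quotient.out_eq' _

/-- the map from the free module -/
noncomputable def pi : (ι × (F ⧸ N) →₀ ℤ) →+ T N :=
  Finsupp.liftAddHom fun p => zmultiplesHom (T N) (ga N r p)

theorem pi_single (p : ι × (F ⧸ N)) (a : ℤ) : pi N r (Finsupp.single p a) = a • ga N r p := by
  simp [pi]

theorem pi_apply (φ : ι × (F ⧸ N) →₀ ℤ) : pi N r φ = φ.sum fun p a => a • ga N r p := by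
  simp only [pi, Finsupp.liftAddHom_apply]
  rfl

/-- the shift -/
def sh (q : F ⧸ N) : (ι × (F ⧸ N) →₀ ℤ) ≃+ (ι × (F ⧸ N) →₀ ℤ) :=
  Finsupp.domCongr (Equiv.prodCongr (Equiv.refl ι) (Equiv.mulLeft q))

theorem sh_apply (q : F ⧸ N) (φ : ι × (F ⧸ N) →₀ ℤ) (i : ι) (s : F ⧸ N) :
    sh N q φ (i, s) = φ (i, q⁻¹ * s) := by
  rfl

theorem sh_single (q : F ⧸ N) (i : ι) (s : F ⧸ N) (a : ℤ) :
    sh N q (Finsupp.single (i, s) a) = Finsupp.single (i, q * s) a := by
  rw [sh, Finsupp.domCongr_apply, Finsupp.equivMapDomain_single]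
  rfl

theorem pi_sh (g : F) (φ : ι × (F ⧸ N) →₀ ℤ) :
    pi N r (sh N (g : F ⧸ N) φ) = act N g (pi N r φ) := by
  induction φ using Finsupp.induction_linear with
  | zero => simp only [map_zero]
  | add f g' hf hg => rw [map_add, map_add, hf, hg, map_add, map_add]
  | single p a =>
    obtain ⟨i, s⟩ := p
    obtain ⟨c, rfl⟩ := QuotientGroup.mk_surjective s
    rw [sh_single, pi_single, pi_single, map_zsmul, ← QuotientGroup.mk_mul, ga_eq, ga_eq, act_mul]

theorem list_val (l : List (F × ι × ℤ)) :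
    ∃ x : N, (x : F) = (l.map fun t : F × ι × ℤ =>
      (t.1 * (r t.2.1 : F) * t.1⁻¹) ^ t.2.2).prod ∧
      cls N x = (l.map fun t => t.2.2 • ga N r (t.2.1, (t.1 : F ⧸ N))).sum := by
  induction l with
  | nil => exact ⟨1, by simp, by simp [cls_one]⟩
  | cons t l ih =>
    obtain ⟨x, hx1, hx2⟩ := ih
    refine ⟨(MulAut.conjNormal t.1 (r t.2.1)) ^ t.2.2 * x, ?_, ?_⟩
    · rw [List.map_cons, List.prod_cons, ← hx1, Subgroup.coe_mul, Subgroup.coe_zpow,
        MulAut.conjNormal_apply]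
    · rw [List.map_cons, List.sum_cons, ← hx2, cls_mul, cls_zpow, ga_eq, act_cls]

theorem pi_surj (hN : Subgroup.normalClosure (Set.range fun i => (r i : F)) = N) (x : N) :
    ∃ φ, pi N r φ = cls N x := by
  let H : Subgroup N :=
    { carrier := {y | ∃ φ, pi N r φ = cls N y}
      mul_mem' := by
        rintro a b ⟨φ, hφ⟩ ⟨ψ, hψ⟩
        exact ⟨φ + ψ, by rw [map_add, hφ, hψ, cls_mul]⟩
      one_mem' := ⟨0, by rw [map_zero, cls_one]⟩
      inv_mem' := by
        rintro a ⟨φ, hφ⟩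
        exact ⟨-φ, by rw [map_neg, hφ, cls_inv]⟩ }
  have h1 : N ≤ H.map N.subtype := by
    conv_lhs => rw [← hN]
    rw [Subgroup.normalClosure, Subgroup.closure_le]
    intro y hy
    obtain ⟨z, ⟨i, rfl⟩, hz⟩ := Group.mem_conjugatesOfSet_iff.1 hy
    obtain ⟨c, hc⟩ := isConj_iff.1 hz
    refine ⟨MulAut.conjNormal c (r i), ⟨Finsupp.single (i, (c : F ⧸ N)) 1, ?_⟩, ?_⟩
    · rw [pi_single, one_smul, ga_eq, act_cls]
    · rw [Subgroup.coe_subtype, MulAut.conjNormal_apply]
      exact hc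
  obtain ⟨y, hy, hy2⟩ := h1 x.2
  have : y = x := Subtype.ext hy2
  rw [← this]
  exact hy

end mod

section inv

variable {ι Q : Type} [Group Q]

/-- invariant functions are traces -/
theorem exists_trace (w : Q) (hw : IsOfFinOrder w) (φ : ι × Q →₀ ℤ)
    (hφ : ∀ i q, φ (i, w⁻¹ * q) = φ (i, q)) :
    ∃ ψ : ι × Q →₀ ℤ, ∀ i q, φ (i, q) = ∑ t ∈ Finset.range (orderOf w), ψ (i, (w ^ t)⁻¹ * q) := by
  classical
  have hpos : 0 < orderOf w := hw.orderOf_pos
  have hpow : ∀ (t : ℕ) i q, φ (i, (w ^ t)⁻¹ * q) = φ (i, q) := by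
    intro t
    induction t with
    | zero => intro i q; simp
    | succ t ih =>
      intro i q
      rw [pow_succ, mul_inv_rev, mul_assoc, hφ, ih]
  let rep : Q → Q := fun q => (Quotient.out (Quotient.mk (MulAction.orbitRel (Subgroup.zpowers w) Q) q))
  have hrep : ∀ q, ∃ t < orderOf w, (w ^ t)⁻¹ * q = rep q := by
    intro q
    have h1 : (MulAction.orbitRel (Subgroup.zpowers w) Q).r (rep q) q := Quotient.exact (Quotient.out_eq _)
    obtain ⟨⟨g, hg⟩, hgq⟩ := MulAction.orbitRel_apply.1 h1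
    obtain ⟨n, rfl⟩ := Subgroup.mem_zpowers_iff.1 hg
    have h2 : w ^ n * q = rep q := hgq
    refine ⟨((-n) % (orderOf w : ℤ)).toNat, ?_, ?_⟩
    · have h3 := Int.emod_lt_of_pos (-n) (b := (orderOf w : ℤ)) (by exact_mod_cast hpos)
      have h4 := Int.emod_nonneg (-n) (b := (orderOf w : ℤ)) (by exact_mod_cast hpos.ne')
      omega
    · have h4 := Int.emod_nonneg (-n) (b := (orderOf w : ℤ)) (by exact_mod_cast hpos.ne')
      rw [← h2]
      congr 1
      rw [← zpow_natCast, Int.toNat_of_nonneg h4, ← zpow_neg]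
      have h5 : w ^ ((-n) % (orderOf w : ℤ)) = w ^ (-n) := zpow_mod_orderOf w (-n)
      rw [zpow_neg, h5, zpow_neg, inv_inv]
  have hrr : ∀ (t : ℕ) q, rep ((w ^ t)⁻¹ * q) = rep q := by
    intro t q
    refine congrArg Quotient.out (Quotient.sound ?_)
    refine MulAction.orbitRel_apply.2 ⟨⟨(w ^ t)⁻¹, ?_⟩, rfl⟩
    exact Subgroup.inv_mem _ (Subgroup.npow_mem_zpowers w t)
  refine ⟨φ.filter fun p => p.2 = rep p.2, fun i q => ?_⟩
  obtain ⟨t, ht, htq⟩ := hrep q
  rw [Finset.sum_eq_single t]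
  · rw [Finsupp.filter_apply, if_pos, hpow]
    change (w ^ t)⁻¹ * q = rep ((w ^ t)⁻¹ * q)
    rw [hrr, htq]
  · intro s hs hst
    rw [Finsupp.filter_apply, if_neg]
    intro h
    change (w ^ s)⁻¹ * q = rep ((w ^ s)⁻¹ * q) at h
    rw [hrr, ← htq] at h
    have h1 : w ^ s = w ^ t := inv_injective (mul_right_cancel h)
    exact hst (pow_injOn_Iio_orderOf (Finset.mem_range.1 hs) ht h1)
  · intro h
    exact absurd (Finset.mem_range.2 ht) h

end inv

theorem pow_cls {F : Type} [Group F] (N : Subgroup F) [N.Normal] (w : F) (y : N) (n : ℕ) :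
    ∃ z : N, (z : F) = ((y : F)⁻¹ * w) ^ n * (w ^ n)⁻¹ ∧
      cls N z = - ∑ t ∈ Finset.range n, act N (w ^ t) (cls N y) := by
  induction n with
  | zero => exact ⟨1, by simp, by simp [cls_one]⟩
  | succ n ih =>
    obtain ⟨z, hz1, hz2⟩ := ih
    refine ⟨z * MulAut.conjNormal (w ^ n) y⁻¹, ?_, ?_⟩
    · rw [Subgroup.coe_mul, hz1, MulAut.conjNormal_apply, Subgroup.coe_inv]
      rw [pow_succ, pow_succ]
      group
    · rw [cls_mul, hz2, ← act_cls, cls_inv, map_neg, Finset.sum_range_succ, neg_add]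

end Pool.Agent.H341.FS.ATF

namespace Pool.Agent.H341.FS

open ATF

theorem s_atf : S_ATF := by
  classical
  intro X ι rs hP w k hk hw
  set N := Subgroup.normalClosure (Set.range rs) with hNdef
  have hrs : ∀ i, rs i ∈ N := fun i => Subgroup.subset_normalClosure ⟨i, rfl⟩
  let r : ι → N := fun i => ⟨rs i, hrs i⟩
  have hN : Subgroup.normalClosure (Set.range fun i => (r i : FreeGroup X)) = N := rfl
  -- injectivity
  have hinj : ∀ φ, pi N r φ = 0 → φ = 0 := by
    intro φ hφ
    ext ⟨i, q⟩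
    obtain ⟨g, rfl⟩ := QuotientGroup.mk_surjective q
    let f : ι × (FreeGroup X ⧸ N) → FreeGroup X × ι × ℤ := fun p => (p.2.out, p.1, φ p)
    have hout : ∀ p : ι × (FreeGroup X ⧸ N), ((p.2.out : FreeGroup X) : FreeGroup X ⧸ N) = p.2 :=
      fun p => Quotient.out_eq' _
    obtain ⟨x, hx1, hx2⟩ := list_val N r (φ.support.toList.map f)
    have hx3 : cls N x = 0 := by
      rw [hx2, ← hφ, pi_apply, Finsupp.sum, ← Finset.sum_map_toList, List.map_map]
      congr 1
      refine List.map_congr_left fun p _ => ?_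
      change φ p • ga N r (p.1, ((p.2.out : FreeGroup X) : FreeGroup X ⧸ N)) = _
      rw [hout p]
    have h1 := hP (φ.support.toList.map f) (by
      rw [← hNdef]
      rw [cls_eq_zero, hx1] at hx3
      exact hx3) i g
    rw [List.map_map, Finset.sum_map_toList] at h1
    rw [Finsupp.coe_zero, Pi.zero_apply, ← h1]
    have h2 : ∀ p ∈ φ.support, ((fun t : FreeGroup X × ι × ℤ =>
        if t.2.1 = i ∧ g⁻¹ * t.1 ∈ Subgroup.normalClosure (Set.range rs) then t.2.2 else 0) ∘ f) p =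
        if p = (i, (g : FreeGroup X ⧸ N)) then φ p else 0 := by
      intro p _
      change (if p.1 = i ∧ g⁻¹ * p.2.out ∈ N then φ p else 0) = _
      have h3 : (p.1 = i ∧ g⁻¹ * p.2.out ∈ N) ↔ p = (i, (g : FreeGroup X ⧸ N)) := by
        rw [← QuotientGroup.eq, hout p, Prod.ext_iff]
        exact ⟨fun h => ⟨h.1, h.2.symm⟩, fun h => ⟨h.1, h.2.symm⟩⟩
      by_cases h4 : p = (i, (g : FreeGroup X ⧸ N))
      · rw [if_pos h4, if_pos (h3.2 h4)]
      · rw [if_neg h4, if_neg fun h => h4 (h3.1 h)]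
    rw [Finset.sum_congr rfl h2, Finset.sum_ite_eq']
    split_ifs with h5
    · rfl
    · exact Finsupp.notMem_support_iff.1 h5
  -- the order of `w`
  have hfin : IsOfFinOrder (w : FreeGroup X ⧸ N) := by
    refine isOfFinOrder_iff_pow_eq_one.2 ⟨k, hk, ?_⟩
    rw [← QuotientGroup.mk_pow]
    exact (QuotientGroup.eq_one_iff _).2 hw
  set m := orderOf (w : FreeGroup X ⧸ N) with hm
  have hmpos : 0 < m := hfin.orderOf_pos
  have hwm : w ^ m ∈ N := by
    rw [← QuotientGroup.eq_one_iff, QuotientGroup.mk_pow]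
    exact pow_orderOf_eq_one _
  obtain ⟨φ, hφ⟩ := pi_surj N r hN ⟨w ^ m, hwm⟩
  have hinv : sh N (w : FreeGroup X ⧸ N) φ = φ := by
    rw [← sub_eq_zero]
    refine hinj _ ?_
    rw [map_sub, pi_sh, hφ, act_cls, sub_eq_zero]
    congr 1
    apply Subtype.ext
    rw [MulAut.conjNormal_apply]
    change w * w ^ m * w⁻¹ = w ^ m
    rw [← pow_succ', pow_succ, mul_inv_cancel_right]
  obtain ⟨ψ, hψ⟩ := exists_trace (w : FreeGroup X ⧸ N) hfin φ (by
    intro i q
    rw [← sh_apply, hinv])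
  have hsum : φ = ∑ t ∈ Finset.range m, sh N ((w ^ t : FreeGroup X) : FreeGroup X ⧸ N) ψ := by
    ext ⟨i, q⟩
    rw [hψ, Finsupp.finsetSum_apply]
    refine Finset.sum_congr rfl fun t _ => ?_
    rw [sh_apply, QuotientGroup.mk_pow]
  obtain ⟨y, hy⟩ := cls_surj N (pi N r ψ)
  obtain ⟨z, hz1, hz2⟩ := pow_cls N w y m
  have hv : ((y : FreeGroup X)⁻¹ * w) ^ m ∈ ⁅N, N⁆ := by
    have h1 : cls N (z * ⟨w ^ m, hwm⟩) = 0 := by
      rw [cls_mul, hz2, ← hφ]
      conv_lhs => rw [hsum]
      rw [map_sum, hy]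
      have : ∀ t ∈ Finset.range m, pi N r (sh N ((w ^ t : FreeGroup X) : FreeGroup X ⧸ N) ψ) =
          act N (w ^ t) (pi N r ψ) := fun t _ => pi_sh N r _ _
      rw [Finset.sum_congr rfl this, neg_add_cancel]
    rw [cls_eq_zero] at h1
    have h2 : ((z * ⟨w ^ m, hwm⟩ : N) : FreeGroup X) = ((y : FreeGroup X)⁻¹ * w) ^ m := by
      rw [Subgroup.coe_mul, hz1]
      simp
    rwa [h2] at h1
  have h3 := root_mem N _ m hmpos hv
  have h4 := N.mul_mem y.2 h3
  rwa [mul_inv_cancel_left] at h4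

end Pool.Agent.H341.FS
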