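import Pool.Agent.H341.FS.Stm

set_option autoImplicit false

/-!
# Burns–Hale induction (task FS-1)
-/

namespace Pool.Agent.H399.FSBH

open Pool.Agent.H341.FS

universe u

section
variable {P : Type u} [Group P] {k : ℕ} [NeZero k] (a b : ZMod k → P)

/-- the pairs of different positions whose quotient is in `H` -/
def prs (H : Subgroup P) : Set ((ZMod k × Bool) × (ZMod k × Bool)) :=
  {x | x.1 ≠ x.2 ∧ pre a b x.1 * (pre a b x.2)⁻¹ ∈ H}

/-- the conclusion for a subgroup -/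
def Goal (H : Subgroup P) : Prop :=
  ∃ S : Set P, (∀ s ∈ S, s ∈ H) ∧ (∀ s ∈ S, ∀ t ∈ S, s * t ∈ S) ∧ (1 : P) ∉ S ∧
    (∀ s ∈ S, wd a b * s ∈ S ∧ (wd a b)⁻¹ * s ∈ S ∧ s * wd a b ∈ S ∧ s * (wd a b)⁻¹ ∈ S) ∧
    ∀ p q : ZMod k × Bool, p ≠ q → pre a b p * (pre a b q)⁻¹ ∈ H →
      pre a b p * (pre a b q)⁻¹ ∈ S ∨ pre a b q * (pre a b p)⁻¹ ∈ S

theorem ind
    (h : ∀ H : Subgroup P, H.FG → wd a b ∈ H →
      (∃ p q : ZMod k × Bool, p ≠ q ∧ pre a b p * (pre a b q)⁻¹ ∈ H) → RC H (wd a b)) :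
    ∀ (n : ℕ) (H : Subgroup P), wd a b ∈ H → (prs a b H).ncard = n → Goal a b H := by
  intro n
  induction n using Nat.strong_induction_on with
  | _ n ih =>
    intro H hw hn
    by_cases hex : ∃ p q : ZMod k × Bool, p ≠ q ∧ pre a b p * (pre a b q)⁻¹ ∈ H
    · let T : Set P := insert (wd a b)
        ((fun x : (ZMod k × Bool) × (ZMod k × Bool) => pre a b x.1 * (pre a b x.2)⁻¹) '' prs a b H)
      have hTfin : T.Finite := ((Set.toFinite (prs a b H)).image _).insert _
      let H1 : Subgroup P := Subgroup.closure T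
      have hFG : H1.FG := (Subgroup.fg_iff _).2 ⟨T, rfl, hTfin⟩
      have hw1 : wd a b ∈ H1 := Subgroup.subset_closure (Set.mem_insert _ _)
      have hH1 : H1 ≤ H := by
        rw [Subgroup.closure_le]
        rintro x (rfl | ⟨y, hy, rfl⟩)
        · exact hw
        · exact hy.2
      have hf1 : ∀ p q : ZMod k × Bool, p ≠ q → pre a b p * (pre a b q)⁻¹ ∈ H →
          pre a b p * (pre a b q)⁻¹ ∈ H1 := fun p q hpq hf =>
        Subgroup.subset_closure (Set.mem_insert_of_mem _ ⟨(p, q), ⟨hpq, hf⟩, rfl⟩)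
      obtain ⟨p0, q0, hpq0, hf0⟩ := hex
      obtain ⟨S1, H', hle, hne, hwH', hS1, hmul, hSH, htri, hone⟩ :=
        h H1 hFG hw1 ⟨p0, q0, hpq0, hf1 p0 q0 hpq0 hf0⟩
      have hsub : prs a b H' ⊆ prs a b H := fun x hx => ⟨hx.1, hH1 (hle hx.2)⟩
      have hss : prs a b H' ⊂ prs a b H := by
        refine ⟨hsub, fun hcon => hne (le_antisymm hle ?_)⟩
        rw [Subgroup.closure_le]
        rintro x (rfl | ⟨y, hy, rfl⟩)
        · exact hwH'
        · exact (hcon hy).2
      have hcard : (prs a b H').ncard < n := by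
        rw [← hn]
        exact Set.ncard_lt_ncard hss (Set.toFinite _)
      obtain ⟨S2, hS2, hmul2, hone2, hw2, hf2⟩ := ih _ hcard H' hwH' rfl
      refine ⟨S1 ∪ S2, ?_, ?_, ?_, ?_, ?_⟩
      · rintro s (hs | hs)
        · exact hH1 (hS1 s hs)
        · exact hH1 (hle (hS2 s hs))
      · rintro s (hs | hs) t (ht | ht)
        · exact Or.inl (hmul s hs t ht)
        · exact Or.inl (hSH s hs t (hS2 t ht)).1
        · exact Or.inl (hSH t ht s (hS2 s hs)).2
        · exact Or.inr (hmul2 s hs t ht)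
      · rintro (h1 | h1)
        · exact hone h1
        · exact hone2 h1
      · rintro s (hs | hs)
        · exact ⟨Or.inl (hSH s hs _ hwH').2, Or.inl (hSH s hs _ (H'.inv_mem hwH')).2,
            Or.inl (hSH s hs _ hwH').1, Or.inl (hSH s hs _ (H'.inv_mem hwH')).1⟩
        · obtain ⟨e1, e2, e3, e4⟩ := hw2 s hs
          exact ⟨Or.inr e1, Or.inr e2, Or.inr e3, Or.inr e4⟩
      · intro p q hpq hf
        rcases htri _ (hf1 p q hpq hf) with h1 | h1 | h1
        · rcases hf2 p q hpq h1 with h3 | h3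
          · exact Or.inl (Or.inr h3)
          · exact Or.inr (Or.inr h3)
        · exact Or.inl (Or.inl h1)
        · rw [mul_inv_rev, inv_inv] at h1
          exact Or.inr (Or.inl h1)
    · refine ⟨∅, by simp, by simp, by simp, by simp, ?_⟩
      intro p q hpq hf
      exact absurd ⟨p, q, hpq, hf⟩ hex

end

theorem s_bh : S_BH.{u} := by
  intro P _ k _ a b h
  obtain ⟨S, -, h2, h3, h4, h5⟩ := ind a b h _ ⊤ (Subgroup.mem_top _) rfl
  exact ⟨S, h2, h3, h4, fun p q hpq => h5 p q hpq (Subgroup.mem_top _)⟩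

end Pool.Agent.H399.FSBH
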