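import Pool.Agent.H341.FS.Stm3

set_option autoImplicit false

/-!
# FS-12 (helper549): words with periodic letters are powers of shorter words
-/

namespace Pool.Agent.H341.FS

open Monoid Function

universe u

namespace PERR

theorem pp_add {M : Type u} [Monoid M] (c : ℕ → M) (m l : ℕ) :
    pp c (m + l) = pp c m * pp (fun j => c (m + j)) l := by
  induction l with
  | zero => simp [pp]
  | succ l ih => rw [← Nat.add_assoc]; simp only [pp]; rw [ih, mul_assoc]

theorem pp_periodic {M : Type u} [Monoid M] (c : ℕ → M) (g : ℕ) (hc : ∀ j, c (g + j) = c j)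
    (n : ℕ) : pp c (g * n) = (pp c g) ^ n := by
  induction n with
  | zero => simp [pp]
  | succ n ih =>
    have h1 : g * (n + 1) = g + g * n := by ring
    have h2 : (fun j => c (g + j)) = c := funext hc
    rw [h1, pp_add, h2, ih, pow_succ']

theorem pp_congr {M : Type u} [Monoid M] (c c' : ℕ → M) (n : ℕ) (h : ∀ m < n, c m = c' m) :
    pp c n = pp c' n := by
  induction n with
  | zero => rfl
  | succ n ih =>
    show pp c n * c n = pp c' n * c' n
    rw [ih fun m hm => h m (by omega), h n (by omega)]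

end PERR

open PERR in
theorem s_perr : S_PERR.{u} := by
  intro G _ k _ a b d hd ha hb
  have hk : 0 < k := Nat.pos_of_ne_zero (NeZero.ne k)
  have hdv : 0 < d.val := Nat.pos_of_ne_zero (fun h => hd ((ZMod.val_eq_zero d).1 h))
  have hdk : d.val < k := ZMod.val_lt d
  set g := Nat.gcd d.val k with hg
  have hgpos : 0 < g := Nat.gcd_pos_of_pos_left _ hdv
  have hgk : g < k := lt_of_le_of_lt (Nat.gcd_le_left _ hdv) hdk
  obtain ⟨n, hn⟩ := Nat.gcd_dvd_right d.val k
  rw [← hg] at hn
  have hma : ∀ (m : ℕ) (i : ZMod k), a (i + m * d) = a i := by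
    intro m
    induction m with
    | zero => intro i; simp
    | succ m ih =>
      intro i
      have : i + ((m + 1 : ℕ) : ZMod k) * d = (i + m * d) + d := by push_cast; ring
      rw [this, ha, ih]
  have hmb : ∀ (m : ℕ) (i : ZMod k), b (i + m * d) = b i := by
    intro m
    induction m with
    | zero => intro i; simp
    | succ m ih =>
      intro i
      have : i + ((m + 1 : ℕ) : ZMod k) * d = (i + m * d) + d := by push_cast; ring
      rw [this, hb, ih]
  have hgd : ∃ m : ℕ, ((g : ℕ) : ZMod k) = m * d := by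
    have h1 : ((g : ℕ) : ℤ) = d.val * Nat.gcdA d.val k + k * Nat.gcdB d.val k :=
      Nat.gcd_eq_gcd_ab d.val k
    have h2 : ((g : ℕ) : ZMod k) = d * ((Nat.gcdA d.val k : ℤ) : ZMod k) := by
      have := congrArg (fun x : ℤ => (x : ZMod k)) h1
      simp only [Int.cast_natCast, Int.cast_add, Int.cast_mul] at this
      rw [this]
      simp
    refine ⟨((Nat.gcdA d.val k : ℤ) : ZMod k).val, ?_⟩
    rw [h2, ZMod.natCast_zmod_val, mul_comm]
  obtain ⟨m, hm⟩ := hgd
  have hne : NeZero g := ⟨hgpos.ne'⟩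
  set c : ℕ → CoprodI G := fun n : ℕ =>
    CoprodI.of (a (n : ZMod k)) * CoprodI.of (b (n : ZMod k)) with hcdef
  have hc : ∀ j : ℕ, c (g + j) = c j := by
    intro j
    rw [hcdef]
    simp only
    have : ((g + j : ℕ) : ZMod k) = (j : ZMod k) + m * d := by
      push_cast; rw [hm]; ring
    rw [this, hma, hmb]
  refine ⟨g, hne, fun i => a ((i.val : ℕ) : ZMod k), fun i => b ((i.val : ℕ) : ZMod k), n, hgk,
    fun i => ⟨_, rfl⟩, fun i => ⟨_, rfl⟩, ?_⟩
  have e1 : W a b = pp c k := rfl
  have e2 : W (fun i : ZMod g => a ((i.val : ℕ) : ZMod k))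
      (fun i : ZMod g => b ((i.val : ℕ) : ZMod k)) = pp c g := by
    refine pp_congr _ _ _ fun j hj => ?_
    have h1 : ((j : ℕ) : ZMod g).val = j := ZMod.val_natCast_of_lt hj
    simp only [h1]
    rfl
  rw [e2, ← pp_periodic c g hc n, ← hn, e1]

end Pool.Agent.H341.FS
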