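import Pool.Agent.H341.FS.Stm5

set_option autoImplicit false

/-!
# Aspherical presentations define torsion-free groups (statement)
-/

namespace Pool.Agent.H341.FS

/-- (ATF) the group of an aspherical presentation is torsion-free -/
def S_ATF : Prop :=
  ∀ (X ι : Type) (rs : ι → FreeGroup X), AsphP rs → ∀ (w : FreeGroup X) (k : ℕ), 0 < k →
    w ^ k ∈ Subgroup.normalClosure (Set.range rs) → w ∈ Subgroup.normalClosure (Set.range rs)

end Pool.Agent.H341.FS
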