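import Pool.Agent.H597.FS.FS_IVA
import Pool.Agent.H341.FS.Asph
import Pool.Agent.H341.FS.Stm6

set_option autoImplicit false

/-!
# One-relator extensions of aspherical presentations of left-orderable groups
-/

namespace Pool.Agent.H341.FS

open Monoid Function Pool.Agent.H597.FS Multiplicative

theorem lo_tf {H : Type} [Group H] (h : LO H) (x : H) (k : ℕ) (hk : 0 < k) (hx : x ^ k = 1) : x = 1 := by
  obtain ⟨o, ho⟩ := h
  have hpos : ∀ y : H, o.lt 1 y → ∀ j : ℕ, 0 < j → o.lt 1 (y ^ j) := by
    intro y hy j hj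
    induction j with
    | zero => omega
    | succ i ih =>
      rcases Nat.eq_zero_or_pos i with h0 | h0
      · subst h0; simpa using hy
      · have h1 := ih h0
        have h2 : o.lt (y * 1) (y * y ^ i) := ho 1 (y ^ i) y h1
        rw [pow_succ']
        rw [mul_one] at h2
        exact @lt_trans H o.toPreorder _ _ _ hy h2
  rcases @lt_trichotomy H o 1 x with h1 | h1 | h1
  · have h2 := hpos x h1 k hk
    rw [hx] at h2
    exact absurd h2 (@lt_irrefl H o.toPreorder 1)
  · exact h1.symm
  · have h3 : o.lt 1 x⁻¹ := by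
      have h4 : o.lt (x⁻¹ * x) (x⁻¹ * 1) := ho x 1 x⁻¹ h1
      simpa using h4
    have h2 := hpos x⁻¹ h3 k hk
    rw [inv_pow, hx, inv_one] at h2
    exact absurd h2 (@lt_irrefl H o.toPreorder 1)

/-- a relator in `H * ⟨x⟩` which is not conjugate into `H`, `H` left-orderable -/
theorem rel_embed {A : Type} [Group A] (hA : LO A) (w : Coprod A ZZ)
    (h1 : ∀ (g : Coprod A ZZ) (a : A), w ≠ g * Coprod.inl a * g⁻¹) (a : A)
    (ha : Coprod.inl a ∈ Subgroup.normalClosure ({w} : Set (Coprod A ZZ))) : a = 1 := by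
  by_cases hc : ∃ (g : Coprod A ZZ) (z : ZZ), w = g * Coprod.inr z * g⁻¹
  · obtain ⟨g, z, hgz⟩ := hc
    have h : Subgroup.normalClosure ({w} : Set (Coprod A ZZ)) ≤
        (Coprod.fst : Coprod A ZZ →* A).ker := by
      apply Subgroup.normalClosure_le_normal
      intro x hx
      rw [Set.mem_singleton_iff] at hx
      show Coprod.fst x = 1
      rw [hx, hgz]
      simp
    have h2 : Coprod.fst (Coprod.inl a : Coprod A ZZ) = 1 := h ha
    simpa using h2
  · push Not at hc
    have h2 := (s_frei A ZZ hA lo_ZZ w h1 hc 1 le_rfl).1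
    apply h2
    rw [map_one]
    refine (QuotientGroup.eq_one_iff _).2 ?_
    rw [pow_one]
    exact ha

/-- a relator that is conjugate to a generator of the cyclic factor -/
theorem gen_tf {A : Type} [Group A] (hA : LO A) (w g : Coprod A ZZ) (z : ZZ)
    (hw : w = g * Coprod.inr z * g⁻¹) (hz : toAdd z = 1 ∨ toAdd z = -1)
    (s : Coprod A ZZ) (n : ℕ) (hn : 0 < n)
    (hs : s ^ n ∈ Subgroup.normalClosure ({w} : Set (Coprod A ZZ))) :
    s ∈ Subgroup.normalClosure ({w} : Set (Coprod A ZZ)) := by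
  set N := Subgroup.normalClosure ({w} : Set (Coprod A ZZ)) with hN
  have hwN : w ∈ N := Subgroup.subset_normalClosure (Set.mem_singleton _)
  have hzN : Coprod.inr z ∈ N := by
    have h1 : g⁻¹ * w * g⁻¹⁻¹ ∈ N := Subgroup.Normal.conj_mem inferInstance w hwN g⁻¹
    have h2 : g⁻¹ * w * g⁻¹⁻¹ = Coprod.inr z := by rw [hw]; group
    rwa [h2] at h1
  have h1N : ∀ y : ZZ, (Coprod.inr y : Coprod A ZZ) ∈ N := by
    intro y
    rcases hz with h | h
    · have h2 : y = z ^ (toAdd y) := by
        apply toAdd.injective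
        rw [toAdd_zpow, h]; simp
      rw [h2, map_zpow]
      exact Subgroup.zpow_mem _ hzN _
    · have h2 : y = z ^ (- toAdd y) := by
        apply toAdd.injective
        rw [toAdd_zpow, h]; simp
      rw [h2, map_zpow]
      exact Subgroup.zpow_mem _ hzN _
  -- modulo `N` every element is `inl (fst s)`
  have hmod : ∀ x : Coprod A ZZ, x * (Coprod.inl (Coprod.fst x))⁻¹ ∈ N := by
    intro x
    have h3 : (QuotientGroup.mk' N) = (QuotientGroup.mk' N).comp (Coprod.inl.comp Coprod.fst) := by
      apply Coprod.hom_ext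
      · ext a; simp
      · ext
        simp only [MonoidHom.comp_apply, Coprod.fst_apply_inr, map_one]
        exact (QuotientGroup.eq_one_iff _).2 (h1N _)
    have h4 := DFunLike.congr_fun h3 x
    simp only [MonoidHom.comp_apply] at h4
    have h5 : (QuotientGroup.mk' N) (x * (Coprod.inl (Coprod.fst x))⁻¹) = 1 := by
      rw [map_mul, map_inv, ← h4, mul_inv_cancel]
    exact (QuotientGroup.eq_one_iff _).1 h5
  have hker : N ≤ (Coprod.fst : Coprod A ZZ →* A).ker := by
    apply Subgroup.normalClosure_le_normal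
    intro x hx
    rw [Set.mem_singleton_iff] at hx
    show Coprod.fst x = 1
    rw [hx, hw]
    simp
  have h5 : (Coprod.fst s) ^ n = 1 := by
    rw [← map_pow]; exact hker hs
  have h6 := lo_tf hA _ n hn h5
  have h7 := hmod s
  rw [h6] at h7
  simpa using h7

/-- for a relator which is not conjugate into `H`: asphericity if it is not a proper power -/
theorem rel_asph {A : Type} [Group A] (hA : LO A) (w : Coprod A ZZ)
    (h1 : ∀ (g : Coprod A ZZ) (a : A), w ≠ g * Coprod.inl a * g⁻¹)
    (hp : ∀ (s : Coprod A ZZ) (k : ℕ), 2 ≤ k → s ^ k ≠ w) : Asph w := by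
  by_cases hc : ∃ (g : Coprod A ZZ) (z : ZZ), w = g * Coprod.inr z * g⁻¹
  · obtain ⟨g, z, hgz⟩ := hc
    have hz1 : z ≠ 1 := by
      rintro rfl
      apply h1 1 1
      rw [hgz]; simp
    have hz : toAdd z = 1 ∨ toAdd z = -1 := by
      by_contra hcon
      push Not at hcon
      have h0 : toAdd z ≠ 0 := fun h => hz1 (toAdd.injective h)
      have h3 : 2 ≤ (toAdd z).natAbs := by omega
      -- z = (±1)^|z|
      apply hp (g * Coprod.inr (ofAdd (Int.sign (toAdd z))) * g⁻¹) _ h3
      rw [hgz, conj_pow, ← map_pow]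
      congr 3
      apply toAdd.injective
      rw [toAdd_pow, toAdd_ofAdd, nsmul_eq_mul, mul_comm]
      exact Int.sign_mul_natAbs _
    exact (case1 w g z hgz hz1 (gen_tf hA w g z hgz hz)).2
  · push Not at hc
    exact s_acop A ZZ hA lo_ZZ w h1 hc hp

/-- for a relator which is not conjugate into `H`: torsion-free quotients -/
theorem rel_np {A : Type} [Group A] (hA : LO A) (w : Coprod A ZZ)
    (h1 : ∀ (g : Coprod A ZZ) (a : A), w ≠ g * Coprod.inl a * g⁻¹)
    (htf : ∀ (s : Coprod A ZZ) (n : ℕ), 0 < n → s ^ n ∈ Subgroup.normalClosure ({w} : Set (Coprod A ZZ)) →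
      s ∈ Subgroup.normalClosure ({w} : Set (Coprod A ZZ))) :
    ∀ (s : Coprod A ZZ) (k : ℕ), 2 ≤ k → s ^ k ≠ w := by
  by_cases hc : ∃ (g : Coprod A ZZ) (z : ZZ), w = g * Coprod.inr z * g⁻¹
  · obtain ⟨g, z, hgz⟩ := hc
    have hz1 : z ≠ 1 := by
      rintro rfl
      apply h1 1 1
      rw [hgz]; simp
    have h0 : toAdd z ≠ 0 := fun h => hz1 (toAdd.injective h)
    intro s k hk hs
    have h3 := htf s k (by omega) (by rw [hs]; exact Subgroup.subset_normalClosure (Set.mem_singleton _))
    -- the exponents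
    let e : Coprod A ZZ →* ZZ := Coprod.snd
    have h4 : ∀ x ∈ Subgroup.normalClosure ({w} : Set (Coprod A ZZ)), toAdd z ∣ toAdd (e x) := by
      have h5 : Subgroup.normalClosure ({w} : Set (Coprod A ZZ)) ≤
          (Subgroup.zpowers z).comap e := by
        apply Subgroup.normalClosure_le_normal
        intro x hx
        rw [Set.mem_singleton_iff] at hx
        show e x ∈ Subgroup.zpowers z
        rw [hx, hgz]
        have : e (g * Coprod.inr z * g⁻¹) = z := by
          simp [e, mul_comm]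
        rw [this]
        exact Subgroup.mem_zpowers z
      intro x hx
      obtain ⟨j, hj⟩ := h5 hx
      refine ⟨j, ?_⟩
      have : z ^ j = e x := hj
      rw [← this, toAdd_zpow, smul_eq_mul, mul_comm]
    obtain ⟨j, hj⟩ := h4 s h3
    have h6 : (k : ℤ) * toAdd (e s) = toAdd z := by
      have : e (s ^ k) = z := by
        rw [hs, hgz]
        simp [e, mul_comm]
      rw [← this, map_pow, toAdd_pow, nsmul_eq_mul]
    rw [hj] at h6
    have h7 : (k : ℤ) * j = 1 := by
      have h8 : toAdd z * ((k : ℤ) * j) = toAdd z * 1 := by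
        rw [mul_one]; linarith
      exact mul_left_cancel₀ h0 h8
    have h8 : (k : ℤ) = 1 := Int.eq_one_of_mul_eq_one_right (by positivity) h7
    omega
  · push Not at hc
    exact not_power s_ord hA lo_ZZ w h1 hc htf

section

variable {n m : ℕ} (rs : Fin m → FreeGroup (Fin n)) (r : FreeGroup (Option (Fin n)))

/-- `r` is conjugate into `H` in `H * ⟨x⟩` -/
def ConjInto : Prop :=
  ∃ (g : FreeGroup (Option (Fin n))) (h : FreeGroup (Fin n)),
      g * r * g⁻¹ * (FreeGroup.map some h)⁻¹ ∈
        Subgroup.normalClosure (Set.range (fun i => FreeGroup.map some (rs i)))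

/-- `r` is a proper power in `H * ⟨x⟩` -/
def PowIn : Prop :=
  ∃ (s : FreeGroup (Option (Fin n))) (k : ℕ), 2 ≤ k ∧ r * (s ^ k)⁻¹ ∈
        Subgroup.normalClosure (Set.range (fun i => FreeGroup.map some (rs i)))

/-- the group of a presentation is torsion-free -/
def TF {X ι : Type} (rs : ι → FreeGroup X) : Prop :=
  ∀ (w : FreeGroup X) (k : ℕ), 0 < k →
    w ^ k ∈ Subgroup.normalClosure (Set.range rs) → w ∈ Subgroup.normalClosure (Set.range rs)

/-- **The full statement.** -/
theorem iva_full (hatf : S_ATF)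
    (hLO : LO (FreeGroup (Fin n) ⧸ Subgroup.normalClosure (Set.range rs)))
    (hr : ¬ ConjInto rs r) :
    (∀ w : FreeGroup (Fin n), FreeGroup.map some w ∈ Subgroup.normalClosure (Set.range (ext rs r)) →
      w ∈ Subgroup.normalClosure (Set.range rs)) ∧
    (AsphP rs → (TF (ext rs r) → ¬ PowIn rs r) ∧ (¬ PowIn rs r → AsphP (ext rs r)) ∧
      (AsphP (ext rs r) → TF (ext rs r))) := by
  have hLO' : LO (HH rs) := hLO
  have hnH : ∀ (g : Coprod (HH rs) ZZ) (a : HH rs), qq rs r ≠ g * Coprod.inl a * g⁻¹ := by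
    intro g a h
    obtain ⟨x, rfl⟩ := qq_surj rs g
    obtain ⟨y, rfl⟩ := QuotientGroup.mk'_surjective (RR rs) a
    apply hr
    refine ⟨x⁻¹, y, ?_⟩
    apply qq_ker
    have h2 : qq rs (FreeGroup.map some y) = Coprod.inl (QuotientGroup.mk' (RR rs) y) :=
      qq_map rs y
    simp only [map_mul, map_inv, h2, h]
    group
  have hemb : ∀ w : FreeGroup (Fin n), io n w ∈ NN rs r → w ∈ RR rs := by
    intro w hw
    rw [mem_NN, qq_map] at hw
    exact (QuotientGroup.eq_one_iff _).1 (rel_embed hLO' (qq rs r) hnH _ hw)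
  refine ⟨hemb, fun hP => ⟨?_, ?_, ?_⟩⟩
  · rintro htf ⟨s, k, hk, hs⟩
    have htf' : ∀ (s : Coprod (HH rs) ZZ) (k : ℕ), 0 < k →
        s ^ k ∈ Subgroup.normalClosure ({qq rs r} : Set (Coprod (HH rs) ZZ)) →
        s ∈ Subgroup.normalClosure ({qq rs r} : Set (Coprod (HH rs) ZZ)) := by
      intro s k hk hs
      obtain ⟨x, rfl⟩ := qq_surj rs s
      rw [← map_pow, ← mem_NN] at hs
      exact (mem_NN rs r x).1 (htf x k hk hs)
    apply rel_np hLO' (qq rs r) hnH htf' (qq rs s) k hk
    have h3 := qq_MM rs _ hs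
    rw [map_mul, map_inv, map_pow] at h3
    exact (mul_inv_eq_one.1 h3).symm
  · intro hp
    apply core hP hemb
    apply rel_asph hLO' (qq rs r) hnH
    intro s k hk hs
    obtain ⟨x, rfl⟩ := qq_surj rs s
    apply hp
    refine ⟨x, k, hk, ?_⟩
    apply qq_ker
    rw [map_mul, map_inv, map_pow, hs, mul_inv_cancel]
  · intro h w k hk hw
    exact hatf _ _ _ h w k hk hw

/-- nonzero exponent sum -/
theorem not_conjInto (h : toAdd
      (FreeGroup.lift (fun a : Option (Fin n) =>
        if a = none then ofAdd (1 : ℤ) else (1 : Multiplicative ℤ)) r) ≠ 0) : ¬ ConjInto rs r := by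
  rintro ⟨g, y, hg⟩
  apply h
  set e : FreeGroup (Option (Fin n)) →* ZZ := FreeGroup.lift (fun a : Option (Fin n) =>
        if a = none then ofAdd (1 : ℤ) else (1 : Multiplicative ℤ)) with he
  have h0 : ∀ x : FreeGroup (Fin n), e (FreeGroup.map some x) = 1 := by
    intro x
    have : (e.comp (FreeGroup.map some)) = 1 := by
      ext i
      simp [he]
    exact DFunLike.congr_fun this x
  have h1 : Subgroup.normalClosure (Set.range (fun i => FreeGroup.map some (rs i))) ≤ e.ker := by
    apply Subgroup.normalClosure_le_normal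
    rintro _ ⟨i, rfl⟩
    exact h0 _
  have h2 : e (g * r * g⁻¹ * (FreeGroup.map some y)⁻¹) = 1 := h1 hg
  rw [map_mul, map_mul, map_mul, map_inv, map_inv, h0, inv_one, mul_one, mul_comm (e g),
    mul_inv_cancel_right] at h2
  rw [h2]
  rfl

end

end Pool.Agent.H341.FS
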