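import Pool.Agent.H341.FS.Defs

set_option autoImplicit false

/-!
# Part I: certificates for words in free products of two left-orderable groups (statements)

Notation: `G : Bool → Type u` are the two factors, `P = CoprodI G`, `a i : G false`, `b i : G true`,
`w = wd (of ∘ a) (of ∘ b) = a_0 b_0 ⋯ a_(k-1) b_(k-1)`; positions `p = (i, false)` (before `a_i`), `(i, true)`
(between `a_i` and `b_i`); `pre p` the prefix of `w` before the position `p`. `H` is a subgroup of `P` with `w ∈ H`.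
The right coset `H (pre p)` is a point of the right `P`-set `H \ P`; the path of `w` starting at the coset `H` is
closed.
-/

namespace Pool.Agent.H341.FS

open Monoid Function

universe u v

/-- the word in `P = CoprodI G` -/
abbrev W {G : Bool → Type u} [∀ s, Group (G s)] {k : ℕ} (a : ZMod k → G false) (b : ZMod k → G true) :
    CoprodI G :=
  wd (fun i => CoprodI.of (a i)) (fun i => CoprodI.of (b i))

/-- the prefixes in `P = CoprodI G` -/
abbrev pr {G : Bool → Type u} [∀ s, Group (G s)] {k : ℕ} (a : ZMod k → G false) (b : ZMod k → G true)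
    (p : ZMod k × Bool) : CoprodI G :=
  pre (fun i => CoprodI.of (a i)) (fun i => CoprodI.of (b i)) p

/-- (BH) Burns–Hale induction. -/
def S_BH : Prop :=
  ∀ (P : Type u) [Group P] (k : ℕ) [NeZero k] (a b : ZMod k → P),
    (∀ H : Subgroup P, H.FG → wd a b ∈ H →
      (∃ p q : ZMod k × Bool, p ≠ q ∧ pre a b p * (pre a b q)⁻¹ ∈ H) → RC H (wd a b)) →
    HasCert a b

/-- (COC) cocycles over the right `P`-set `H \ P`, given on the two factors, extend to the free product. -/
def S_COC : Prop :=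
  ∀ (G : Bool → Type u) [∀ s, Group (G s)] (Q : Type v) [Group Q] (H : Subgroup (CoprodI G))
    (tt : (s : Bool) → CoprodI G → G s → Q),
    (∀ s g x y, tt s g (x * y) = tt s g x * tt s (g * CoprodI.of x) y) →
    (∀ s, ∀ h ∈ H, ∀ g x, tt s (h * g) x = tt s g x) →
    ∃ t : CoprodI G → CoprodI G → Q,
      (∀ s g (x : G s), t g (CoprodI.of x) = tt s g x) ∧
      (∀ g x y, t g (x * y) = t g x * t (g * x) y) ∧
      (∀ h ∈ H, ∀ g x, t (h * g) x = t g x)

/-- the stabiliser in `A` of the point `H g₀` of `H \ P` -/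
def Kst {A : Type u} {P : Type v} [Group A] [Group P] (ι : A →* P) (H : Subgroup P) (g₀ : P) : Subgroup A :=
  H.comap ((MulAut.conj g₀).toMonoidHom.comp ι)

/-- (ORB) the cocycle of an `A`-orbit `H g₀ A` in `H \ P` with values in the stabiliser `K` of a point. -/
def S_ORB : Prop :=
  ∀ (A : Type u) (P : Type v) [Group A] [Group P] (ι : A →* P) (H : Subgroup P) (g₀ : P),
    ∃ κ : P → A → Kst ι H g₀,
      (∀ g x y, κ g (x * y) = κ g x * κ (g * ι x) y) ∧
      (∀ h ∈ H, ∀ g x, κ (h * g) x = κ g x) ∧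
      (∀ g, (¬ ∃ h ∈ H, ∃ y : A, g = h * g₀ * ι y) → ∀ x, κ g x = 1) ∧
      (∀ g, (∃ h ∈ H, ∃ y : A, g = h * g₀ * ι y) →
        ∀ m : Kst ι H g₀, ∃ x : A, g * ι x * g⁻¹ ∈ H ∧ κ g x = m)

/-- (OVL) two countable left-orderable groups, and a word `L` in their free product (a list of letters of both
groups) whose images in both factors are nontrivial: there are actions on a chain such that `L` fixes a point
that is not fixed by both groups. -/
def S_OVL : Prop :=
  ∀ (K₁ : Type u) (K₂ : Type v) [Group K₁] [Group K₂] [Countable K₁] [Countable K₂], LO K₁ → LO K₂ →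
    ∀ L : List (K₁ ⊕ K₂),
      (L.map (Sum.elim (fun x => x) (fun _ => (1 : K₁)))).prod ≠ 1 →
      (L.map (Sum.elim (fun _ => (1 : K₂)) (fun x => x))).prod ≠ 1 →
      ∃ (Ω : Type) (_ : LinearOrder Ω) (σ₁ : K₁ →* (Ω ≃o Ω)) (σ₂ : K₂ →* (Ω ≃o Ω)) (z : Ω),
        (L.map (Sum.elim (fun x => σ₁ x) (fun x => σ₂ x))).prod z = z ∧
        ¬ ((∀ x, σ₁ x z = z) ∧ ∀ x, σ₂ x z = z)

/-- (OVLZ) the same for `K₂ = ℤ`, with a stronger conclusion: the point is not fixed by both `K₁` and a nonzero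
integer. -/
def S_OVLZ : Prop :=
  ∀ (K₁ : Type u) [Group K₁] [Countable K₁], LO K₁ →
    ∀ L : List (K₁ ⊕ Multiplicative ℤ),
      (L.map (Sum.elim (fun x => x) (fun _ => (1 : K₁)))).prod ≠ 1 →
      (L.map (Sum.elim (fun _ => (1 : Multiplicative ℤ)) (fun x => x))).prod ≠ 1 →
      ∃ (Ω : Type) (_ : LinearOrder Ω) (σ₁ : K₁ →* (Ω ≃o Ω)) (σ₂ : Multiplicative ℤ →* (Ω ≃o Ω)) (z : Ω),
        (L.map (Sum.elim (fun x => σ₁ x) (fun x => σ₂ x))).prod z = z ∧
        ¬ ((∀ x, σ₁ x z = z) ∧ ∃ x, x ≠ 1 ∧ σ₂ x z = z)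

/-- (PER) periodic words are proper powers. -/
def S_PER : Prop :=
  ∀ (P : Type u) [Group P] (k : ℕ) [NeZero k] (a b : ZMod k → P) (d : ZMod k), d ≠ 0 →
    (∀ i, a (i + d) = a i) → (∀ i, b (i + d) = b i) → ∃ (s : P) (n : ℕ), 2 ≤ n ∧ s ^ n = wd a b

/-- (GR1) closed path without backtracking in a finite bipartite graph with edge set `E` and vertex sets `VA`, `VB`,
which passes through all edges: there is an integral weight of the edges which is not a coboundary and has
value `0` on the path, or the path is periodic if it passes through an edge twice. -/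
def S_GR1 : Prop :=
  ∀ (k : ℕ) [NeZero k] (E VA VB : Type) [Fintype E] [Fintype VA] [Fintype VB]
    (ξ : ZMod k × Bool → E) (α : E → VA) (β : E → VB),
    Surjective ξ → Surjective α → Surjective β →
    (∀ i, α (ξ (i, false)) = α (ξ (i, true))) → (∀ i, β (ξ (i, true)) = β (ξ (i + 1, false))) →
    (∀ i, ξ (i, false) ≠ ξ (i, true)) → (∀ i, ξ (i, true) ≠ ξ (i + 1, false)) →
    (∃ N : E → ℤ, (∑ i, (N (ξ (i, true)) - N (ξ (i, false))) = 0) ∧
      ¬ ∃ (mA : VA → ℚ) (mB : VB → ℚ), ∀ e, (N e : ℚ) = mB (β e) - mA (α e)) ∨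
    (∀ i j c c', ξ (i, c) = ξ (j, c') →
      c = c' ∧ ∀ l, ξ (i + l, false) = ξ (j + l, false) ∧ ξ (i + l, true) = ξ (j + l, true))

/-- (GR2) closed path in a finite bipartite graph which passes through all edges and backtracks at most at one vertex:
the graph is not a tree. -/
def S_GR2 : Prop :=
  ∀ (k : ℕ) [NeZero k] (E VA VB : Type) [Fintype E] [Fintype VA] [Fintype VB]
    (ξ : ZMod k × Bool → E) (α : E → VA) (β : E → VB) (BA : Finset VA) (BB : Finset VB),
    Surjective ξ → Surjective α → Surjective β →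
    (∀ i, α (ξ (i, false)) = α (ξ (i, true))) → (∀ i, β (ξ (i, true)) = β (ξ (i + 1, false))) →
    (∀ i, α (ξ (i, false)) ∉ BA → ξ (i, false) ≠ ξ (i, true)) →
    (∀ i, β (ξ (i, true)) ∉ BB → ξ (i, true) ≠ ξ (i + 1, false)) →
    BA.card + BB.card ≤ 1 →
    ∃ N : E → ℤ, ¬ ∃ (mA : VA → ℚ) (mB : VB → ℚ), ∀ e, (N e : ℚ) = mB (β e) - mA (α e)

/-- (RC) the main statement: finitely generated subgroups `H ∋ w` which contain a quotient `pre p (pre q)⁻¹`,
`p ≠ q`, have a proper relatively convex subgroup containing `w`. -/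
def S_RC : Prop :=
  ∀ (G : Bool → Type u) [∀ s, Group (G s)], (∀ s, LO (G s)) → ∀ (k : ℕ) [NeZero k]
    (a : ZMod k → G false) (b : ZMod k → G true), (∀ i, a i ≠ 1) → (∀ i, b i ≠ 1) →
    (∀ (s : CoprodI G) (n : ℕ), 2 ≤ n → s ^ n ≠ W a b) →
    ∀ H : Subgroup (CoprodI G), H.FG → W a b ∈ H →
      (∃ p q : ZMod k × Bool, p ≠ q ∧ pr a b p * (pr a b q)⁻¹ ∈ H) → RC H (W a b)

/-- Part I. -/
def S_CERT : Prop :=
  ∀ (G : Bool → Type u) [∀ s, Group (G s)], (∀ s, LO (G s)) → ∀ (k : ℕ) [NeZero k]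
    (a : ZMod k → G false) (b : ZMod k → G true), (∀ i, a i ≠ 1) → (∀ i, b i ≠ 1) →
    (∀ (s : CoprodI G) (n : ℕ), 2 ≤ n → s ^ n ≠ W a b) →
    HasCert (fun i => (CoprodI.of (a i) : CoprodI G)) (fun i => (CoprodI.of (b i) : CoprodI G))

theorem cert_of (h1 : S_BH.{u}) (h2 : S_RC.{u}) : S_CERT.{u} := by
  intro G _ hG k _ a b ha hb hw
  exact h1 (CoprodI G) k _ _ (fun H hH hwH hpq => h2 G hG k a b ha hb hw H hH hwH hpq)

end Pool.Agent.H341.FS
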