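import Pool.Agent.H341.FS.Step
import Pool.Agent.H341.FS.Stm

set_option autoImplicit false

/-!
# Free product facts, reductions and transfers (statements)
-/

namespace Pool.Agent.H341.FS

open Monoid Function

universe u

/-- the images of the two factors -/
def rng (G : Bool → Type u) [∀ s, Group (G s)] (s : Bool) : Subgroup (CoprodI G) :=
  (CoprodI.of : G s →* CoprodI G).range

/-- (NF) normal form property, and generation by the factors -/
def S_NF : Prop :=
  ∀ (G : Bool → Type u) [∀ s, Group (G s)], NF (rng G) ∧ rng G false ⊔ rng G true = ⊤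

/-- (CYC) every element is conjugate into a factor or to a word `a_0 b_0 ⋯ a_(k-1) b_(k-1)` with nontrivial
letters, `k ≥ 1` -/
def S_CYC : Prop :=
  ∀ (G : Bool → Type u) [∀ s, Group (G s)] (x : CoprodI G),
    (∃ (s : Bool) (g : G s) (c : CoprodI G), x = c * CoprodI.of g * c⁻¹) ∨
    (∃ (k : ℕ) (_ : NeZero k) (a : ZMod k → G false) (b : ZMod k → G true) (c : CoprodI G),
      (∀ i, a i ≠ 1) ∧ (∀ i, b i ≠ 1) ∧ x = c * W a b * c⁻¹)

/-- (PERR) a word with periodic letters is a power of a shorter word -/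
def S_PERR : Prop :=
  ∀ (G : Bool → Type u) [∀ s, Group (G s)] (k : ℕ) [NeZero k] (a : ZMod k → G false) (b : ZMod k → G true)
    (d : ZMod k), d ≠ 0 → (∀ i, a (i + d) = a i) → (∀ i, b (i + d) = b i) →
    ∃ (k' : ℕ) (_ : NeZero k') (a' : ZMod k' → G false) (b' : ZMod k' → G true) (n : ℕ),
      k' < k ∧ (∀ i, ∃ j, a' i = a j) ∧ (∀ i, ∃ j, b' i = b j) ∧ W a b = (W a' b') ^ n

/-- (MI0) the Freiheitssatz for the factor `G false` -/
def S_MI0 : Prop :=
  ∀ (G : Bool → Type u) [∀ s, Group (G s)], (∀ s, LO (G s)) → ∀ x : CoprodI G,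
    (¬ ∃ (s : Bool) (g : G s) (c : CoprodI G), x = c * CoprodI.of g * c⁻¹) →
    ∀ g : G false, CoprodI.of g ∈ Subgroup.normalClosure ({x} : Set (CoprodI G)) → g = 1

/-- (MI) the Freiheitssatz for both factors -/
def S_MI : Prop :=
  ∀ (G : Bool → Type u) [∀ s, Group (G s)], (∀ s, LO (G s)) → ∀ x : CoprodI G,
    (¬ ∃ (s : Bool) (g : G s) (c : CoprodI G), x = c * CoprodI.of g * c⁻¹) →
    ∀ (s : Bool) (g : G s), CoprodI.of g ∈ Subgroup.normalClosure ({x} : Set (CoprodI G)) → g = 1

/-- (FREI) the Freiheitssatz, for `Monoid.Coprod A B` and all powers -/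
def S_FREI : Prop :=
  ∀ (A B : Type u) [Group A] [Group B], LO A → LO B → ∀ r : Coprod A B,
    (∀ (g : Coprod A B) (a : A), r ≠ g * Coprod.inl a * g⁻¹) →
    (∀ (g : Coprod A B) (b : B), r ≠ g * Coprod.inr b * g⁻¹) →
    ∀ m : ℕ, 1 ≤ m →
      Injective ((QuotientGroup.mk' (Subgroup.normalClosure ({r ^ m} : Set (Coprod A B)))).comp
        (Coprod.inl : A →* Coprod A B)) ∧
      Injective ((QuotientGroup.mk' (Subgroup.normalClosure ({r ^ m} : Set (Coprod A B)))).comp
        (Coprod.inr : B →* Coprod A B))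

/-- (LOF) free products of left-orderable groups are left-orderable -/
def S_LOF : Prop :=
  ∀ (ι : Type) [DecidableEq ι] (G : ι → Type u) [∀ i, Group (G i)], (∀ i, LO (G i)) → LO (CoprodI G)

end Pool.Agent.H341.FS
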