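import Pool.Agent.H341.FS.Main2
import Pool.Agent.H341.FS.Cert
import Pool.Agent.H341.FS.Stm3
import Pool.Agent.H341.FS.FS_NF
import Pool.Agent.H341.FS.FS_PERR
import Pool.Agent.H341.FS.FS_XF

set_option autoImplicit false

/-!
# The Freiheitssatz
-/

namespace Pool.Agent.H341.FS

open Monoid

universe u

theorem mi_word {G : Bool → Type u} [∀ s, Group (G s)] (hG : ∀ s, LO (G s)) :
    ∀ (n : ℕ) (k : ℕ) [NeZero k] (a : ZMod k → G false) (b : ZMod k → G true), k = n →
      (∀ i, a i ≠ 1) → (∀ i, b i ≠ 1) →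
      ∀ g : G false, CoprodI.of g ∈ Subgroup.normalClosure ({W a b} : Set (CoprodI G)) → g = 1 := by
  intro n
  induction n using Nat.strong_induction_on with
  | _ n ih =>
  intro k _ a b hk ha hb g hg
  by_cases hper : ∃ d : ZMod k, d ≠ 0 ∧ (∀ i, a (i + d) = a i) ∧ ∀ i, b (i + d) = b i
  · obtain ⟨d, hd, hda, hdb⟩ := hper
    obtain ⟨k', _, a', b', m, hk', ha', hb', hW⟩ := s_perr G k a b d hd hda hdb
    refine ih k' (hk ▸ hk') k' a' b' rfl ?_ ?_ g ?_
    · intro i
      obtain ⟨j, hj⟩ := ha' i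
      rw [hj]; exact ha j
    · intro i
      obtain ⟨j, hj⟩ := hb' i
      rw [hj]; exact hb j
    · have h1 : Subgroup.normalClosure ({W a b} : Set (CoprodI G)) ≤
          Subgroup.normalClosure ({W a' b'} : Set (CoprodI G)) := by
        apply Subgroup.normalClosure_le_normal
        intro x hx
        rw [Set.mem_singleton_iff] at hx
        rw [hx, hW]
        exact Subgroup.pow_mem _ (Subgroup.subset_normalClosure (Set.mem_singleton _)) m
      exact h1 hg
  · have hcert := cert hG a b ha hb (fun d hd h => hper ⟨d, hd, h.1, h.2⟩)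
    obtain ⟨hNF, hgen⟩ := s_nf G
    have h1 := part2 (G := rng G) hNF hgen (fun i => ⟨a i, rfl⟩) (fun i => ⟨b i, rfl⟩) hcert
      (CoprodI.of g) ⟨g, rfl⟩ hg
    exact (CoprodI.of_injective false) (by rw [h1, map_one])

theorem mi0_of (hcyc : S_CYC.{u}) : S_MI0.{u} := by
  intro G _ hG x hx g hg
  rcases hcyc G x with h | ⟨k, _, a, b, c, ha, hb, rfl⟩
  · exact absurd h hx
  · apply mi_word hG k k a b rfl ha hb g
    have h1 : Subgroup.normalClosure ({c * W a b * c⁻¹} : Set (CoprodI G)) ≤
        Subgroup.normalClosure ({W a b} : Set (CoprodI G)) := by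
      apply Subgroup.normalClosure_le_normal
      intro y hy
      rw [Set.mem_singleton_iff] at hy
      rw [hy]
      exact Subgroup.Normal.conj_mem inferInstance _
        (Subgroup.subset_normalClosure (Set.mem_singleton _)) c
    exact h1 hg

theorem mi_main (hcyc : S_CYC.{u}) : S_MI.{u} := mi_of (mi0_of hcyc)

theorem frei_main (hcyc : S_CYC.{u}) : S_FREI.{u} := frei_of (mi_main hcyc)

end Pool.Agent.H341.FS
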