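import Pool.Agent.H341.FS.Step3

set_option autoImplicit false

/-!
# Every product of conjugates is the value of a state
-/

namespace Pool.Agent.H341.FS

open Finset Module

universe u

theorem wk_reverse {E X : Type} {v : Bool → E → X} {s s' : Bool} {x x' : X} {L : List E}
    (h : wk v s x L s' x') : wk v s' x' L.reverse s x := by
  induction L generalizing s x with
  | nil =>
    obtain ⟨rfl, rfl⟩ := h
    exact ⟨rfl, rfl⟩
  | cons e L ih =>
    obtain ⟨h1, h2⟩ := h
    have h3 := ih h2
    rw [List.reverse_cons, wk_append]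
    have h4 := wk_sd h3
    rw [h4]
    refine ⟨v (!s) e, h3, rfl, ?_⟩
    rw [Bool.not_not]
    exact ⟨rfl, h1⟩

theorem sd_reverse {E : Type} (s : Bool) (L : List E) : sd (sd s L) L.reverse = s := by
  induction L generalizing s with
  | nil => rfl
  | cons e L ih =>
    rw [List.reverse_cons, sd_append]
    show sd (sd (sd (!s) L) L.reverse) [e] = s
    rw [ih]
    simp [sd]

theorem altp_reverse {P : Type u} [Group P] {E : Type} (θ : E → P) (s : Bool) (L : List E) :
    altp θ (sd s L) L.reverse = (altp θ s L)⁻¹ := by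
  induction L generalizing s with
  | nil => simp [altp]
  | cons e L ih =>
    rw [List.reverse_cons, altp_append]
    show altp θ (sd (!s) L) L.reverse * altp θ (sd (sd (!s) L) L.reverse) [e] = _
    rw [ih, sd_reverse]
    simp only [altp, mul_one, mul_inv_rev]
    cases s <;> simp

/-- sums at all vertices but one determine the last one -/
theorem balance {E X : Type} [Fintype E] [Fintype X] [DecidableEq X] (v : Bool → E → X) (z : E → ℚ)
    (exc : Bool × X) (h : ∀ s x, (s, x) ≠ exc → ∑ e with v s e = x, z e = 0) :
    ∀ s x, ∑ e with v s e = x, z e = 0 := by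
  have hz4 : ∀ s, ∑ x, ∑ e with v s e = x, z e = ∑ e, z e := by
    intro s
    exact Finset.sum_fiberwise _ _ _
  intro s x
  by_cases hsx : (s, x) = exc
  · have h5 : ∑ e, z e = 0 := by
      rw [← hz4 (!s)]
      apply Finset.sum_eq_zero
      intro x' _
      apply h
      intro h
      rw [← hsx] at h
      have := congrArg Prod.fst h
      simp at this
    rw [← hz4 s] at h5
    rw [Finset.sum_eq_single x] at h5
    · exact h5
    · intro x' _ hx'
      apply h
      intro h
      rw [← hsx] at h
      exact hx' (congrArg Prod.snd h)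
    · intro h; exact absurd (Finset.mem_univ _) h
  · exact h s x hsx

theorem count_emb {E E' : Type} [DecidableEq E] [DecidableEq E'] (i : E → E') (hi : Function.Injective i)
    (L : List E) (e : E) : (L.map i).count (i e) = L.count e := List.count_map_of_injective _ _ hi _

theorem count_emb_zero {E E' : Type} [DecidableEq E'] (i : E → E')
    (L : List E) (e : E') (h : ∀ c, i c ≠ e) : (L.map i).count e = 0 := by
  apply List.count_eq_zero_of_not_mem
  intro h2
  obtain ⟨c, _, hc⟩ := List.mem_map.1 h2
  exact h c hc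

theorem count_spike {E : Type} [DecidableEq E] (c d : E) (hcd : c ≠ d) (L : List E) (e : E) :
    ([c, d] ++ (L ++ [d, c])).count e = (if e = c ∨ e = d then 2 else 0) + L.count e := by
  simp only [List.count_append, List.count_cons, List.count_nil, beq_iff_eq]
  by_cases h1 : e = c
  · subst h1
    simp [Ne.symm hcd]
    omega
  · by_cases h2 : e = d
    · subst h2
      simp [hcd]
      omega
    · simp [h1, h2, Ne.symm h1, Ne.symm h2]

/-- representation of an element by a state with `m` faces -/
def Rep {P : Type u} [Group P] {k : ℕ} [NeZero k] (G : Bool → Subgroup P) (a b : ZMod k → P) (m : ℕ)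
    (u : P) : Prop :=
  ∃ (E X F : Type) (_ : Fintype E) (_ : Fintype X) (_ : Fintype F) (_ : DecidableEq E)
    (_ : DecidableEq X) (es : Finset E) (v : Bool → E → X) (U : Bool → E → P)
    (ed : F → ZMod k × Bool → E) (Sg : List E) (x0 : X),
    St G a b es v U ed Sg x0 ∧ finrank ℚ (Z v es) ≤ Fintype.card F ∧ Fintype.card F = m ∧
      altp (th U) false Sg = u

variable {P : Type u} [Group P] {k : ℕ} [NeZero k] {G : Bool → Subgroup P} {a b : ZMod k → P}

theorem Rep.one : Rep G a b 0 1 := by
  refine ⟨Empty, Unit, Empty, inferInstance, inferInstance, inferInstance, inferInstance, inferInstance,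
    ∅, fun _ e => e.elim, fun _ e => e.elim, fun e => e.elim, [], (), ?_, ?_, rfl, rfl⟩
  · constructor
    · intro _ e; exact e.elim
    · intro e; exact e.elim
    · intro e; exact e.elim
    · intro e; exact e.elim
    · exact ⟨rfl, rfl⟩
    · intro e he; exact e.elim
    · intro e; exact e.elim
    · intro θ fs _ _
      refine ⟨0, ?_, Ar.zero⟩
      have : fs = ∅ := by
        ext e
        exact e.elim
      rw [this]
      simp
  · refine le_trans (Submodule.finrank_le _) ?_
    simp

theorem Rep.inv {m : ℕ} {u : P} (h : Rep G a b m u) : Rep G a b m u⁻¹ := by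
  obtain ⟨E, X, F, _, _, _, _, _, es, v, U, ed, Sg, x0, hS, h1, h2, rfl⟩ := h
  have hsd := wk_sd hS.walk
  have hval : ∀ θ : E → P, altp θ false Sg.reverse = (altp θ false Sg)⁻¹ := by
    intro θ
    have := altp_reverse θ false Sg
    rwa [hsd] at this
  refine ⟨E, X, F, inferInstance, inferInstance, inferInstance, inferInstance, inferInstance,
    es, v, U, ed, Sg.reverse, x0, ?_, h1, h2, hval _⟩
  constructor
  · exact hS.hU
  · exact hS.hes
  · exact hS.hv
  · exact hS.hc
  · exact wk_reverse hS.walk
  · intro e he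
    exact hS.wes e (List.mem_reverse.1 he)
  · intro e
    rw [List.count_reverse]
    exact hS.s3 e
  · intro θ fs h3 h4
    obtain ⟨n, hn, hA⟩ := hS.jj θ fs h3 h4
    refine ⟨n, hn, ?_⟩
    rw [hval]
    exact hA.inv

theorem Rep.conj_false {m : ℕ} {u c : P} (hc : c ∈ G false) (h : Rep G a b m u) :
    Rep G a b m (c * u * c⁻¹) := by
  classical
  obtain ⟨E, X, F, _, _, _, _, _, es, v, U, ed, Sg, x0, hS, h1, h2, rfl⟩ := h
  let γ : Bool → X → P := fun r y => if r = false ∧ y = x0 then c else 1
  have hγG : ∀ r y, γ r y ∈ G r := by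
    intro r y
    simp only [γ]
    split_ifs with h1
    · rw [h1.1]; exact hc
    · exact (G r).one_mem
  refine ⟨E, X, F, inferInstance, inferInstance, inferInstance, inferInstance, inferInstance,
    es, v, fun r d => γ r (v r d) * U r d, ed, Sg, x0, ?_, h1, h2, ?_⟩
  · constructor
    · intro r d
      exact (G r).mul_mem (hγG _ _) (hS.hU _ _)
    · exact hS.hes
    · exact hS.hv
    · intro f p
      show γ _ _ * _ = γ _ _ * _ * _
      rw [hS.hv, hS.hc, mul_assoc]
    · exact hS.walk
    · exact hS.wes
    · exact hS.s3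
    · exact hS.jj
  · rw [gauge (U := U) γ (fun _ _ => rfl) hS.walk]
    simp [γ]

theorem Rep.conj_true {m : ℕ} {u d : P} (hd : d ∈ G true) (h : Rep G a b m u) :
    Rep G a b m (d * u * d⁻¹) := by
  classical
  obtain ⟨E, X, F, _, _, _, _, _, es, v, U, ed, Sg, x0, hS, h1, h2, rfl⟩ := h
  let v' : Bool → E ⊕ Bool → X ⊕ Unit := fun r => Sum.elim (fun e => Sum.inl (v r e))
    (fun c => if c = true ∧ r = false then Sum.inl x0 else Sum.inr ())
  let U' : Bool → E ⊕ Bool → P := fun r => Sum.elim (fun e => U r e)
    (fun c => if c = true ∧ r = true then d else 1)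
  let Sg' : List (E ⊕ Bool) := [Sum.inr false, Sum.inr true] ++ (Sg.map Sum.inl ++ [Sum.inr true, Sum.inr false])
  have hsd := wk_sd hS.walk
  have hval : ∀ θ : E ⊕ Bool → P, altp θ false Sg' =
      θ (Sum.inr false) * (θ (Sum.inr true))⁻¹ * altp (θ ∘ Sum.inl) false Sg *
        (θ (Sum.inr false) * (θ (Sum.inr true))⁻¹)⁻¹ := by
    intro θ
    simp only [Sg']
    rw [altp_append, altp_append]
    have e1 : sd false [(Sum.inr false : E ⊕ Bool), Sum.inr true] = false := rfl
    rw [e1, sd_map, hsd, altp_map]
    simp [altp, mul_assoc]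
  have hwalk : wk v' false (Sum.inr ()) Sg' false (Sum.inr ()) := by
    simp only [Sg']
    rw [wk_append]
    refine ⟨Sum.inl x0, ⟨by simp [v'], by simp [v'], rfl, by simp [v']⟩, ?_⟩
    have e1 : sd false [(Sum.inr false : E ⊕ Bool), Sum.inr true] = false := rfl
    rw [e1, wk_append, sd_map, hsd]
    refine ⟨Sum.inl x0, wk_map (v := v) (v' := v') Sum.inl (fun _ x => Sum.inl x) (fun _ _ => rfl) hS.walk, ?_⟩
    exact ⟨by simp [v'], by simp [v'], rfl, by simp [v']⟩
  refine ⟨E ⊕ Bool, X ⊕ Unit, F, inferInstance, inferInstance, inferInstance, inferInstance, inferInstance,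
    es.disjSum univ, v', U', fun f p => Sum.inl (ed f p), Sg', Sum.inr (), ?_, ?_, h2, ?_⟩
  · constructor
    · rintro r (e | c)
      · exact hS.hU r e
      · show (if c = true ∧ r = true then d else 1) ∈ G r
        split_ifs with h3
        · rw [h3.2]; exact hd
        · exact (G r).one_mem
    · intro f p
      exact Finset.inl_mem_disjSum.2 (hS.hes f p)
    · intro f p
      show Sum.inl (v _ _) = Sum.inl (v _ _)
      rw [hS.hv]
    · intro f p
      exact hS.hc f p
    · exact hwalk
    · intro e he
      simp only [Sg', List.mem_append, List.mem_cons, List.mem_map, List.not_mem_nil, or_false] at he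
      rcases he with (rfl | rfl) | ⟨c, hc, rfl⟩ | rfl | rfl
      · exact Finset.inr_mem_disjSum.2 (Finset.mem_univ _)
      · exact Finset.inr_mem_disjSum.2 (Finset.mem_univ _)
      · exact Finset.inl_mem_disjSum.2 (hS.wes c hc)
      · exact Finset.inr_mem_disjSum.2 (Finset.mem_univ _)
      · exact Finset.inr_mem_disjSum.2 (Finset.mem_univ _)
    · rintro (e | c)
      · have h3 := hS.s3 e
        have h4 : (univ.filter (fun q : F × (ZMod k × Bool) => (Sum.inl (ed q.1 q.2) : E ⊕ Bool) = Sum.inl e)) =
            univ.filter (fun q : F × (ZMod k × Bool) => ed q.1 q.2 = e) := by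
          ext q; simp
        rw [h4, count_spike _ _ (by simp), count_emb _ Sum.inl_injective]
        simpa using h3
      · have h4 : (univ.filter (fun q : F × (ZMod k × Bool) => (Sum.inl (ed q.1 q.2) : E ⊕ Bool) = Sum.inr c)) = ∅ := by
          ext q; simp
        rw [h4, count_spike _ _ (by simp), count_emb_zero _ _ _ (by simp)]
        split_ifs <;> simp
    · intro θ fs h3 h4
      obtain ⟨n, hn, hA⟩ := hS.jj (θ ∘ Sum.inl) fs h3 h4
      refine ⟨n, hn, ?_⟩
      rw [hval]
      exact hA.conj _
  · -- rank
    refine le_trans ?_ h1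
    have hmap : ∀ z ∈ Z v' (es.disjSum univ), z (Sum.inr false) = 0 ∧ z (Sum.inr true) = 0 ∧
        (fun e => z (Sum.inl e)) ∈ Z v es := by
      intro z hz
      have e1 := hz.2 false (Sum.inr ())
      have e2 := hz.2 true (Sum.inr ())
      rw [Finset.sum_filter, Fintype.sum_sum_type] at e1 e2
      simp [v'] at e1 e2
      rw [e1, add_zero] at e2
      refine ⟨e1, e2, ?_⟩
      refine ⟨fun e he => hz.1 _ (fun h => he (Finset.inl_mem_disjSum.1 h)), fun r y => ?_⟩
      have e3 := hz.2 r (Sum.inl y)
      rw [Finset.sum_filter, Fintype.sum_sum_type] at e3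
      simp only [Fintype.sum_bool, e1, e2, ite_self, add_zero] at e3
      rw [Finset.sum_filter]
      refine Eq.trans (Finset.sum_congr rfl ?_) e3
      intro e _
      simp [v']
    let φ : Z v' (es.disjSum univ) →ₗ[ℚ] Z v es :=
      { toFun := fun z => ⟨fun e => z.1 (Sum.inl e), (hmap z.1 z.2).2.2⟩
        map_add' := fun _ _ => rfl
        map_smul' := fun _ _ => rfl }
    apply LinearMap.finrank_le_finrank_of_injective (f := φ)
    rw [injective_iff_map_eq_zero]
    intro z hz
    have e1 : ∀ e, z.1 (Sum.inl e) = 0 := fun e => congrFun (congrArg Subtype.val hz) e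
    apply Subtype.ext
    funext e
    rcases e with e | c
    · exact e1 e
    · cases c
      · exact (hmap z.1 z.2).1
      · exact (hmap z.1 z.2).2.1
  · rw [hval]
    have e1 : (th U' ∘ Sum.inl) = th U := by funext e; rfl
    rw [e1]
    simp [th, U']

end Pool.Agent.H341.FS
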