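import Pool.Agent.H341.FS.Rep

set_option autoImplicit false

/-!
# Products and the basic faces
-/

namespace Pool.Agent.H341.FS

open Finset Module

universe u

variable {P : Type u} [Group P] {k : ℕ} [NeZero k] {G : Bool → Subgroup P} {a b : ZMod k → P}

theorem count_app {E : Type} [DecidableEq E] (L L' : List E) (e : E) :
    (L ++ L').count e = L.count e + L'.count e := List.count_append

theorem count_inst {E : Type} [DecidableEq E] (i : BEq E) (_ : LawfulBEq E) (L : List E) (e : E) :
    @List.count E instBEqOfDecidableEq e L = @List.count E i e L := by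
  induction L with
  | nil => rfl
  | cons c L ih =>
    rw [@List.count_cons E instBEqOfDecidableEq, @List.count_cons E i, ih]
    congr 1
    by_cases h : c = e
    · simp [h]
    · have h1 : (@BEq.beq E i c e) = false := by simpa using h
      rw [h1]
      simp [h]

theorem Rep.mul {m m' : ℕ} {u u' : P} (h : Rep G a b m u) (h' : Rep G a b m' u') :
    Rep G a b (m + m') (u * u') := by
  classical
  obtain ⟨E, X, F, _, _, _, _, _, es, v, U, ed, Sg, x0, hS, h1, h2, rfl⟩ := h
  obtain ⟨E', X', F', _, _, _, _, _, es', v', U', ed', Sg', x0', hS', h1', h2', rfl⟩ := h'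
  let μ : Bool → X' → X ⊕ X' := fun r y => if r = false ∧ y = x0' then Sum.inl x0 else Sum.inr y
  let V : Bool → E ⊕ E' → X ⊕ X' := fun r => Sum.elim (fun e => Sum.inl (v r e)) (fun e => μ r (v' r e))
  let UU : Bool → E ⊕ E' → P := fun r => Sum.elim (fun e => U r e) (fun e => U' r e)
  let D : F ⊕ F' → ZMod k × Bool → E ⊕ E' := Sum.elim (fun f p => Sum.inl (ed f p)) (fun f p => Sum.inr (ed' f p))
  have hsd := wk_sd hS.walk
  have hsd' := wk_sd hS'.walk
  have hval : ∀ θ : E ⊕ E' → P, altp θ false (Sg.map Sum.inl ++ Sg'.map Sum.inr) =
      altp (θ ∘ Sum.inl) false Sg * altp (θ ∘ Sum.inr) false Sg' := by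
    intro θ
    rw [altp_append, sd_map, hsd, altp_map, altp_map]
  refine ⟨E ⊕ E', X ⊕ X', F ⊕ F', inferInstance, inferInstance, inferInstance, inferInstance, inferInstance,
    es.disjSum es', V, UU, D, Sg.map Sum.inl ++ Sg'.map Sum.inr, Sum.inl x0, ?_, ?_, ?_, ?_⟩
  · constructor
    · rintro r (e | e)
      · exact hS.hU r e
      · exact hS'.hU r e
    · rintro (f | f) p
      · exact Finset.inl_mem_disjSum.2 (hS.hes f p)
      · exact Finset.inr_mem_disjSum.2 (hS'.hes f p)
    · rintro (f | f) p
      · show Sum.inl (v _ _) = Sum.inl (v _ _)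
        rw [hS.hv]
      · show μ _ (v' _ _) = μ _ (v' _ _)
        rw [hS'.hv]
    · rintro (f | f) p
      · exact hS.hc f p
      · exact hS'.hc f p
    · rw [wk_append, sd_map, hsd]
      refine ⟨Sum.inl x0, wk_map (v := v) (v' := V) Sum.inl (fun _ x => Sum.inl x) (fun _ _ => rfl) hS.walk, ?_⟩
      have := wk_map (v := v') (v' := V) Sum.inr μ (fun _ _ => rfl) hS'.walk
      simpa [μ] using this
    · intro e he
      rw [List.mem_append, List.mem_map, List.mem_map] at he
      rcases he with ⟨c, hc, rfl⟩ | ⟨c, hc, rfl⟩
      · exact Finset.inl_mem_disjSum.2 (hS.wes c hc)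
      · exact Finset.inr_mem_disjSum.2 (hS'.wes c hc)
    · have hinl : ∀ e : E, (univ.filter (fun q : (F ⊕ F') × (ZMod k × Bool) => D q.1 q.2 = Sum.inl e)).card ≤
          (univ.filter (fun q : F × (ZMod k × Bool) => ed q.1 q.2 = e)).card := by
        intro e
        apply Finset.card_le_card_of_surjOn (fun q : F × (ZMod k × Bool) => ((Sum.inl q.1 : F ⊕ F'), q.2))
        rintro ⟨f | f, p⟩ hq
        · simp only [Finset.coe_filter, Finset.mem_univ, true_and, Set.mem_ofPred_eq, D, Sum.elim_inl,
            Sum.inl.injEq] at hq
          exact ⟨(f, p), by simpa using hq, rfl⟩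
        · simp [D] at hq
      have hinr : ∀ e : E', (univ.filter (fun q : (F ⊕ F') × (ZMod k × Bool) => D q.1 q.2 = Sum.inr e)).card ≤
          (univ.filter (fun q : F' × (ZMod k × Bool) => ed' q.1 q.2 = e)).card := by
        intro e
        apply Finset.card_le_card_of_surjOn (fun q : F' × (ZMod k × Bool) => ((Sum.inr q.1 : F ⊕ F'), q.2))
        rintro ⟨f | f, p⟩ hq
        · simp [D] at hq
        · simp only [Finset.coe_filter, Finset.mem_univ, true_and, Set.mem_ofPred_eq, D, Sum.elim_inr,
            Sum.inr.injEq] at hq
          exact ⟨(f, p), by simpa using hq, rfl⟩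
      rintro (e | e)
      · rw [count_app, count_emb _ Sum.inl_injective, count_emb_zero _ _ _ (by simp)]
        have := hS.s3 e
        have := hinl e
        omega
      · rw [count_app, count_emb _ Sum.inr_injective, count_emb_zero _ _ _ (by simp)]
        have := hS'.s3 e
        have := hinr e
        omega
    · intro θ fs h3 h4
      obtain ⟨n, hn, hA⟩ := hS.jj (θ ∘ Sum.inl) fs.toLeft
        (fun f hf => h3 (Sum.inl f) (Finset.mem_toLeft.1 hf))
        (fun f hf => h4 (Sum.inl f) (fun h => hf (Finset.mem_toLeft.2 h)))
      obtain ⟨n', hn', hA'⟩ := hS'.jj (θ ∘ Sum.inr) fs.toRight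
        (fun f hf => h3 (Sum.inr f) (Finset.mem_toRight.1 hf))
        (fun f hf => h4 (Sum.inr f) (fun h => hf (Finset.mem_toRight.2 h)))
      refine ⟨n + n', ?_, ?_⟩
      · rw [Fintype.card_sum, ← Finset.card_toLeft_add_card_toRight (u := fs)]
        omega
      · rw [hval]
        exact hA.mul hA'
  · -- rank
    rw [Fintype.card_sum]
    refine le_trans ?_ (Nat.add_le_add h1 h1')
    have hmap : ∀ z ∈ Z V (es.disjSum es'), (fun e => z (Sum.inl e)) ∈ Z v es ∧
        (fun e => z (Sum.inr e)) ∈ Z v' es' := by
      intro z hz
      have hsum : ∀ r y, (∑ e, if V r (Sum.inl e) = y then z (Sum.inl e) else 0) +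
          (∑ e, if V r (Sum.inr e) = y then z (Sum.inr e) else 0) = 0 := by
        intro r y
        have := hz.2 r y
        rw [Finset.sum_filter, Fintype.sum_sum_type] at this
        exact this
      have hl : ∀ r y, ∑ e with v r e = y, z (Sum.inl e) = 0 := by
        apply balance v _ (false, x0)
        intro r y hry
        have h3 := hsum r (Sum.inl y)
        have h4 : ∀ e : E', V r (Sum.inr e) ≠ Sum.inl y := by
          intro e
          show μ r (v' r e) ≠ Sum.inl y
          simp only [μ]
          split_ifs with h5
          · intro h6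
            rw [Sum.inl.injEq] at h6
            apply hry
            rw [h5.1, h6]
          · simp
        simp only [h4, if_false, Finset.sum_const_zero, add_zero] at h3
        rw [Finset.sum_filter]
        refine Eq.trans (Finset.sum_congr rfl ?_) h3
        intro e _
        simp [V]
      have hr : ∀ r y, ∑ e with v' r e = y, z (Sum.inr e) = 0 := by
        intro r y
        by_cases hry : r = false ∧ y = x0'
        · obtain ⟨rfl, rfl⟩ := hry
          have h3 := hsum false (Sum.inl x0)
          have h4 := hl false x0
          rw [Finset.sum_filter] at h4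
          have h5 : (∑ e, if V false (Sum.inl e) = Sum.inl x0 then z (Sum.inl e) else 0) = 0 := by
            refine Eq.trans (Finset.sum_congr rfl ?_) h4
            intro e _
            simp [V]
          rw [h5, zero_add] at h3
          rw [Finset.sum_filter]
          refine Eq.trans (Finset.sum_congr rfl ?_) h3
          intro e _
          simp [V, μ]
        · have h3 := hsum r (Sum.inr y)
          have h5 : (∑ e, if V r (Sum.inl e) = Sum.inr y then z (Sum.inl e) else 0) = 0 := by
            apply Finset.sum_eq_zero
            intro e _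
            simp [V]
          rw [h5, zero_add] at h3
          rw [Finset.sum_filter]
          refine Eq.trans (Finset.sum_congr rfl ?_) h3
          intro e _
          have h6 : (V r (Sum.inr e) = Sum.inr y) ↔ v' r e = y := by
            show μ r (v' r e) = Sum.inr y ↔ _
            simp only [μ]
            constructor
            · split_ifs with h7
              · intro h8; simp at h8
              · intro h8; simpa using h8
            · intro h7
              rw [h7, if_neg hry]
          simp only [h6]
      exact ⟨⟨fun e he => hz.1 _ (fun h => he (Finset.inl_mem_disjSum.1 h)), hl⟩,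
        ⟨fun e he => hz.1 _ (fun h => he (Finset.inr_mem_disjSum.1 h)), hr⟩⟩
    let φ : Z V (es.disjSum es') →ₗ[ℚ] (Z v es × Z v' es') :=
      { toFun := fun z => (⟨fun e => z.1 (Sum.inl e), (hmap z.1 z.2).1⟩, ⟨fun e => z.1 (Sum.inr e), (hmap z.1 z.2).2⟩)
        map_add' := fun _ _ => rfl
        map_smul' := fun _ _ => rfl }
    rw [← Module.finrank_prod]
    apply LinearMap.finrank_le_finrank_of_injective (f := φ)
    rw [injective_iff_map_eq_zero]
    intro z hz
    have e1 : ∀ e, z.1 (Sum.inl e) = 0 := fun e => congrFun (congrArg (fun y => y.1.1) hz) e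
    have e2 : ∀ e, z.1 (Sum.inr e) = 0 := fun e => congrFun (congrArg (fun y => y.2.1) hz) e
    apply Subtype.ext
    funext e
    rcases e with e | e
    · exact e1 e
    · exact e2 e
  · rw [Fintype.card_sum, h2, h2']
  · rw [hval]
    rfl

/-- the boundary walk of the basic face -/
def bdl (k : ℕ) : ℕ → List (ZMod k × Bool)
  | 0 => []
  | n + 1 => bdl k n ++ [((n : ZMod k), true), ((n : ZMod k) + 1, false)]

theorem sd_bdl (k n : ℕ) : sd false (bdl k n) = false := by
  induction n with
  | zero => rfl
  | succ n ih => rw [bdl, sd_append, ih]; rfl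

theorem altp_bdl {k : ℕ} (θ : ZMod k × Bool → P) (n : ℕ) : altp θ false (bdl k n) =
    pp (fun n : ℕ => θ ((n : ZMod k), true) * (θ ((n : ZMod k) + 1, false))⁻¹) n := by
  induction n with
  | zero => rfl
  | succ n ih =>
    rw [bdl, altp_append, ih, sd_bdl, pp]
    simp [altp]

theorem count_bdl {k : ℕ} [NeZero k] (n : ℕ) (hn : n ≤ k) (p : ZMod k × Bool) :
    (bdl k n).count p = if (if p.2 then p.1 else p.1 - 1).val < n then 1 else 0 := by
  induction n with
  | zero => simp [bdl]
  | succ n ih =>
    have key : ∀ i : ZMod k, (n : ZMod k) = i ↔ i.val = n := by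
      intro i
      constructor
      · rintro rfl
        rw [ZMod.val_natCast, Nat.mod_eq_of_lt (by omega)]
      · rintro rfl
        exact ZMod.natCast_zmod_val i
    rw [bdl, List.count_append, ih (by omega)]
    rcases p with ⟨i, _ | _⟩
    · have h1 : ([((n : ZMod k), true), ((n : ZMod k) + 1, false)] : List (ZMod k × Bool)).count (i, false) =
          if (i - 1).val = n then 1 else 0 := by
        simp only [List.count_cons, List.count_nil, beq_iff_eq, Prod.mk.injEq, Bool.true_eq_false, and_false,
          if_false, and_true]
        simp only [← key, eq_sub_iff_add_eq]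
        simp
      rw [h1]
      simp only [Bool.false_eq_true, if_false]
      split_ifs <;> omega
    · have h1 : ([((n : ZMod k), true), ((n : ZMod k) + 1, false)] : List (ZMod k × Bool)).count (i, true) =
          if i.val = n then 1 else 0 := by
        simp only [List.count_cons, List.count_nil, beq_iff_eq, Prod.mk.injEq, Bool.false_eq_true, and_false,
          if_false, and_true]
        simp only [← key]
        simp
      rw [h1]
      simp only [if_true]
      split_ifs <;> omega

theorem Rep.base (haG : ∀ i, a i ∈ G false) (hbG : ∀ i, b i ∈ G true) : Rep G a b 1 (wd a b) := by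
  classical
  let v : Bool → ZMod k × Bool → ZMod k := fun r p => if r = true ∧ p.2 = false then p.1 - 1 else p.1
  let U : Bool → ZMod k × Bool → P := fun r p =>
    if r = false ∧ p.2 = true then a p.1 else if r = true ∧ p.2 = false then b (p.1 - 1) else 1
  have hc : ∀ p : ZMod k × Bool, U p.2 (nxt p) = U p.2 p * ltr a b p := by
    rintro ⟨i, _ | _⟩
    · simp [U, nxt, ltr]
    · simp [U, nxt, ltr]
  have hvv : ∀ p : ZMod k × Bool, v p.2 (nxt p) = v p.2 p := by
    rintro ⟨i, _ | _⟩
    · simp [v, nxt]
    · simp [v, nxt]
  have hval : ∀ θ : ZMod k × Bool → P, altp θ false (bdl k k) = Phi θ (fun p => p) := by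
    intro θ
    rw [altp_bdl]
    rfl
  have hwalk : ∀ n, wk v false 0 (bdl k n) false (n : ZMod k) := by
    intro n
    induction n with
    | zero => exact ⟨rfl, by simp⟩
    | succ n ih =>
      rw [bdl, wk_append, sd_bdl]
      refine ⟨(n : ZMod k), ih, ?_⟩
      refine ⟨by simp [v], by simp [v], rfl, ?_⟩
      simp [v]
  refine ⟨ZMod k × Bool, ZMod k, Unit, inferInstance, inferInstance, inferInstance, inferInstance, inferInstance,
    univ, v, U, fun _ p => p, bdl k k, 0, ?_, ?_, by simp, ?_⟩
  · constructor
    · rintro r ⟨i, c⟩
      simp only [U]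
      split_ifs with h1 h2
      · rw [h1.1]; exact haG i
      · rw [h2.1]; exact hbG _
      · exact (G r).one_mem
    · intro _ p; exact Finset.mem_univ _
    · intro _ p; exact hvv p
    · intro _ p; exact hc p
    · have := hwalk k
      simpa using this
    · intro e _; exact Finset.mem_univ _
    · intro e
      have h1 : (univ.filter (fun q : Unit × (ZMod k × Bool) => q.2 = e)).card ≤ 1 := by
        rw [Finset.card_le_one]
        rintro ⟨x, p⟩ hp ⟨y, q⟩ hq
        simp only [Finset.mem_filter, Finset.mem_univ, true_and] at hp hq
        rw [hp, hq]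
      have h2 : @List.count (ZMod k × Bool) instBEqOfDecidableEq e (bdl k k) ≤ 1 := by
        rw [count_inst inferInstance inferInstance, count_bdl k le_rfl]
        split_ifs <;> simp
      exact Nat.add_le_add h1 h2
    · intro θ fs h3 h4
      rw [hval]
      by_cases h5 : () ∈ fs
      · refine ⟨0, ?_, ?_⟩
        · have : fs.card ≤ Fintype.card Unit := Finset.card_le_univ _
          omega
        · rw [h3 () h5]
          exact Ar.zero
      · obtain ⟨c, hc2⟩ := h4 () h5
        refine ⟨1, ?_, ?_⟩
        · have : fs = ∅ := by
            ext x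
            simp only [Finset.notMem_empty, iff_false]
            exact h5
          rw [this]
          simp
        · rw [hc2]
          exact Ar.one_pos _ _
  · -- rank
    let φ : Z v univ →ₗ[ℚ] ℚ :=
      (LinearMap.proj ((0 : ZMod k), false) : (ZMod k × Bool → ℚ) →ₗ[ℚ] ℚ).comp (Z v univ).subtype
    have : Function.Injective φ := by
      rw [injective_iff_map_eq_zero]
      intro z hz
      have h0 : z.1 (0, false) = 0 := hz
      have hsum : ∀ p : ZMod k × Bool, z.1 p + z.1 (nxt p) = 0 := by
        intro p
        have h1 := z.2.2 p.2 (v p.2 p)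
        have h2 : (univ.filter (fun e => v p.2 e = v p.2 p)) = {p, nxt p} := by
          ext q
          simp only [Finset.mem_filter, Finset.mem_univ, true_and, Finset.mem_insert, Finset.mem_singleton]
          rcases p with ⟨i, _ | _⟩ <;> rcases q with ⟨j, _ | _⟩ <;> simp [v, nxt, sub_eq_iff_eq_add]
        rw [h2, Finset.sum_pair] at h1
        · exact h1
        · intro h3
          have := nxt_snd p
          rw [← h3] at this
          revert this
          cases p.2 <;> simp
      have hall := nxt_closed (univ.filter (fun p : ZMod k × Bool => z.1 p = 0)) ⟨(0, false), by simp [h0]⟩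
        (by
          intro p hp
          simp only [Finset.mem_filter, Finset.mem_univ, true_and] at hp ⊢
          have := hsum p
          rw [hp, zero_add] at this
          exact this)
      apply Subtype.ext
      funext e
      have := hall e
      simpa using this
    have h2 := LinearMap.finrank_le_finrank_of_injective this
    simpa using h2
  · rw [hval, Phi_th a b U (fun p => p) hc]
    simp [U]

end Pool.Agent.H341.FS
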