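import Pool.Agent.H341.FS.Walk

set_option autoImplicit false

/-!
# Reduction of a state
-/

namespace Pool.Agent.H341.FS

open Finset Module

universe u

/-- alternating words with nontrivial letters -/
def altw {P : Type u} [Group P] (G : Bool → Subgroup P) : Bool → List P → Prop
  | _, [] => True
  | s, g :: l => g ∈ G s ∧ g ≠ 1 ∧ altw G (!s) l

/-- normal form property of a free product -/
def NF {P : Type u} [Group P] (G : Bool → Subgroup P) : Prop :=
  ∀ s l, l ≠ [] → altw G s l → l.prod ≠ 1

/-- states: a complex and a closed walk -/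
structure St {P : Type u} [Group P] {k : ℕ} [NeZero k] (G : Bool → Subgroup P) (a b : ZMod k → P)
    {E X F : Type} [Fintype F] [DecidableEq E] (es : Finset E) (v : Bool → E → X) (U : Bool → E → P)
    (ed : F → ZMod k × Bool → E) (Sg : List E) (x0 : X) : Prop where
  hU : ∀ s e, U s e ∈ G s
  hes : ∀ f p, ed f p ∈ es
  hv : ∀ f p, v p.2 (ed f (nxt p)) = v p.2 (ed f p)
  hc : ∀ f p, U p.2 (ed f (nxt p)) = U p.2 (ed f p) * ltr a b p
  walk : wk v false x0 Sg false x0
  wes : ∀ e ∈ Sg, e ∈ es
  s3 : ∀ e, (univ.filter (fun q : F × (ZMod k × Bool) => ed q.1 q.2 = e)).card + Sg.count e ≤ 2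
  jj : ∀ (θ : E → P) (fs : Finset F), (∀ f ∈ fs, Phi θ (ed f) = 1) →
    (∀ f, f ∉ fs → ∃ c, Phi θ (ed f) = c * wd a b * c⁻¹) →
    ∃ m, m + fs.card ≤ Fintype.card F ∧ Ar (wd a b) m (altp θ false Sg)

theorem coinc {P : Type u} [Group P] (G : Bool → Subgroup P) {E : Type}
    (U : Bool → E → P) (hU : ∀ s e, U s e ∈ G s) : ∀ (L : List E) (s : Bool) (e : E),
    (∃ (l : List P) (c : P), altw G (!s) l ∧ c ∈ G (sd s (e :: L)) ∧
      altp (th U) s (e :: L) = U s e * l.prod * c ∧ (L ≠ [] → l ≠ [])) ∨
    (∃ L1 e1 e2 L2, e :: L = L1 ++ e1 :: e2 :: L2 ∧ U (!(sd s L1)) e1 = U (!(sd s L1)) e2) := by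
  intro L
  induction L with
  | nil =>
    intro s e
    left
    refine ⟨[], (U (!s) e)⁻¹, trivial, ?_, ?_, fun h => absurd rfl h⟩
    · simpa [sd] using hU (!s) e
    · simp only [altp, th_side, List.prod_nil, mul_one]
  | cons e' L ih =>
    intro s e
    by_cases hee : U (!s) e = U (!s) e'
    · right
      exact ⟨[], e, e', L, rfl, hee⟩
    · rcases ih (!s) e' with ⟨l, c, h1, h2, h3, h4⟩ | ⟨L1, e1, e2, L2, h1, h2⟩
      · left
        refine ⟨((U (!s) e)⁻¹ * U (!s) e') :: l, c, ⟨?_, ?_, h1⟩, h2, ?_, fun _ => by simp⟩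
        · exact (G (!s)).mul_mem ((G (!s)).inv_mem (hU _ _)) (hU _ _)
        · intro h5
          apply hee
          rw [inv_mul_eq_one] at h5
          exact h5
        · rw [altp, th_side, h3, List.prod_cons]
          group
      · right
        refine ⟨e :: L1, e1, e2, L2, by rw [h1]; rfl, ?_⟩
        simpa [sd] using h2

/-- a nontrivial value in `G false` forces a coincidence -/
theorem exists_coinc {P : Type u} [Group P] (G : Bool → Subgroup P) (hNF : NF G) {E X : Type}
    (v : Bool → E → X) (U : Bool → E → P) (hU : ∀ s e, U s e ∈ G s) (Sg : List E) (x0 : X)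
    (hw : wk v false x0 Sg false x0) (hval : altp (th U) false Sg ∈ G false)
    (hne : altp (th U) false Sg ≠ 1) :
    ∃ L1 e1 e2 L2, Sg = L1 ++ e1 :: e2 :: L2 ∧ U (!(sd false L1)) e1 = U (!(sd false L1)) e2 := by
  rcases Sg with _ | ⟨e, L⟩
  · exact absurd rfl hne
  · rcases coinc G U hU L false e with ⟨l, c, h1, h2, h3, h4⟩ | h
    · exfalso
      rw [wk_sd hw] at h2
      have hL : L ≠ [] := by
        rintro rfl
        have := wk_sd hw
        simp [sd] at this
      have hl := h4 hL
      have h5 : l.prod ∈ G false := by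
        have : l.prod = (U false e)⁻¹ * altp (th U) false (e :: L) * c⁻¹ := by
          rw [h3]; group
        rw [this]
        exact (G false).mul_mem ((G false).mul_mem ((G false).inv_mem (hU _ _)) hval)
          ((G false).inv_mem h2)
      by_cases h6 : l.prod = 1
      · exact hNF _ l hl h1 h6
      · apply hNF false (l.prod⁻¹ :: l) (by simp)
        · exact ⟨(G false).inv_mem h5, by simpa using h6, h1⟩
        · simp
    · exact h

section
variable {P : Type u} [Group P] {k : ℕ} [NeZero k] {G : Bool → Subgroup P} {a b : ZMod k → P}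
  {E X F : Type} [Fintype E] [Fintype X] [Fintype F] [DecidableEq E] [DecidableEq X]
  {es : Finset E} {v : Bool → E → X} {U : Bool → E → P} {ed : F → ZMod k × Bool → E} {x0 : X}

omit [Fintype E] [Fintype X] [DecidableEq X] in
/-- drop a backtracking -/
theorem St.drop {L1 L2 : List E} {e : E} (h : St G a b es v U ed (L1 ++ e :: e :: L2) x0) :
    St G a b es v U ed (L1 ++ L2) x0 ∧
      ∀ θ : E → P, altp θ false (L1 ++ e :: e :: L2) = altp θ false (L1 ++ L2) := by
  have hval : ∀ θ : E → P, altp θ false (L1 ++ e :: e :: L2) = altp θ false (L1 ++ L2) := by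
    intro θ
    rw [altp_append, altp_append]
    congr 1
    simp only [altp, Bool.not_not]
    cases sd false L1 <;> simp
  refine ⟨?_, hval⟩
  have hw := h.walk
  rw [wk_append] at hw
  obtain ⟨y, hw1, hw2, hw3, hw4⟩ := hw
  constructor
  · exact h.hU
  · exact h.hes
  · exact h.hv
  · exact h.hc
  · rw [wk_append]
    refine ⟨y, hw1, ?_⟩
    rw [Bool.not_not] at hw4
    rw [← hw2]
    exact hw4
  · intro e' he'
    apply h.wes
    simp only [List.mem_append, List.mem_cons] at he' ⊢
    tauto
  · intro e'
    have := h.s3 e'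
    refine le_trans (Nat.add_le_add_left ?_ _) this
    apply List.Sublist.count_le
    apply List.Sublist.append_left
    exact (List.sublist_cons_self _ _).trans (List.sublist_cons_self _ _)
  · intro θ fs h1 h2
    rw [← hval θ]
    exact h.jj θ fs h1 h2

omit [Fintype E] [Fintype X] in
/-- merge two vertices, with a change of gauge -/
theorem St.merge {Sg : List E} (h : St G a b es v U ed Sg x0) (s : Bool) (x x' : X) (g : P) (hg : g ∈ G s)
    (v' : Bool → E → X) (U' : Bool → E → P)
    (hv' : ∀ r d, v' r d = if r = s ∧ v r d = x' then x else v r d)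
    (hU' : ∀ r d, U' r d = if r = s ∧ v r d = x' then g * U r d else U r d) :
    ∃ (x0' : X) (c : P), c ∈ G false ∧ St G a b es v' U' ed Sg x0' ∧
      altp (th U') false Sg = c * altp (th U) false Sg * c⁻¹ := by
  classical
  let μ : Bool → X → X := fun r y => if r = s ∧ y = x' then x else y
  let γ : Bool → X → P := fun r y => if r = s ∧ y = x' then g else 1
  have hμ : ∀ r d, v' r d = μ r (v r d) := hv'
  have hγ : ∀ r d, U' r d = γ r (v r d) * U r d := by
    intro r d
    rw [hU']
    simp only [γ]
    split_ifs <;> simp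
  have hγG : ∀ r y, γ r y ∈ G r := by
    intro r y
    simp only [γ]
    split_ifs with h1
    · rw [h1.1]; exact hg
    · exact (G r).one_mem
  refine ⟨μ false x0, γ false x0, hγG _ _, ?_, gauge γ hγ h.walk⟩
  constructor
  · intro r d
    rw [hγ]
    exact (G r).mul_mem (hγG _ _) (h.hU _ _)
  · exact h.hes
  · intro f p
    rw [hμ, hμ, h.hv]
  · intro f p
    rw [hγ, hγ, h.hv, h.hc, mul_assoc]
  · have := wk_map (v := v) (v' := v') id μ hμ h.walk
    simpa using this
  · exact h.wes
  · exact h.s3
  · exact h.jj

omit [Fintype X] [DecidableEq E] in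
theorem finrank_merge (es : Finset E) (s : Bool) (x x' : X) (hx : x ≠ x') (v' : Bool → E → X)
    (hv' : ∀ r d, v' r d = if r = s ∧ v r d = x' then x else v r d) :
    finrank ℚ (Z v' es) ≤ finrank ℚ (Z v es) + 1 := by
  classical
  let φ : (Z v' es) →ₗ[ℚ] ℚ :=
    (∑ e with v s e = x, (LinearMap.proj e : (E → ℚ) →ₗ[ℚ] ℚ)).comp (Z v' es).subtype
  have h1 := LinearMap.finrank_range_add_finrank_ker φ
  have h2 : finrank ℚ (LinearMap.range φ) ≤ 1 := by
    refine le_trans (Submodule.finrank_le _) ?_
    simp
  have h3 : finrank ℚ (LinearMap.ker φ) ≤ finrank ℚ (Z v es) := by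
    have h4 : (LinearMap.ker φ).map (Z v' es).subtype ≤ Z v es := by
      rintro z ⟨⟨z', hz'⟩, hz2, rfl⟩
      have hz3 : ∑ e with v s e = x, z' e = 0 := by
        have : φ ⟨z', hz'⟩ = 0 := hz2
        simpa [φ] using this
      simp only [Submodule.subtype_apply]
      refine ⟨hz'.1, fun r y => ?_⟩
      by_cases hrs : r = s
      · subst hrs
        by_cases hy : y = x
        · rw [hy]; exact hz3
        · by_cases hy' : y = x'
          · have h5 := hz'.2 r x
            have h6 : ∑ e with v' r e = x, z' e = ∑ e with v r e = x, z' e + ∑ e with v r e = x', z' e := by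
              rw [← Finset.sum_union]
              · apply Finset.sum_congr _ (fun _ _ => rfl)
                ext d
                simp only [Finset.mem_filter, Finset.mem_univ, true_and, Finset.mem_union, hv']
                by_cases h7 : v r d = x'
                · simp [h7]
                · simp [h7]
              · rw [Finset.disjoint_filter]
                rintro d _ h7 h8
                exact hx (h7.symm.trans h8)
            rw [h6, hz3, zero_add] at h5
            rw [hy']
            exact h5
          · have h5 := hz'.2 r y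
            rw [← h5]
            apply Finset.sum_congr _ (fun _ _ => rfl)
            ext d
            simp only [Finset.mem_filter, Finset.mem_univ, true_and, hv']
            by_cases h7 : v r d = x'
            · simp only [h7, if_true]
              exact ⟨fun h => absurd h.symm hy', fun h => absurd h.symm hy⟩
            · simp [h7]
      · have h5 := hz'.2 r y
        rw [← h5]
        apply Finset.sum_congr _ (fun _ _ => rfl)
        ext d
        simp [hv', hrs]
    have h5 := Submodule.finrank_mono h4
    have h6 : finrank ℚ ((LinearMap.ker φ).map (Z v' es).subtype) = finrank ℚ (LinearMap.ker φ) :=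
      Submodule.finrank_map_subtype_eq _ _
    omega
  omega

end

end Pool.Agent.H341.FS
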