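import Pool.Agent.H341.FS.Step

set_option autoImplicit false

/-!
# Reduction of a state: identification of two edges, and the contradiction
-/

namespace Pool.Agent.H341.FS

open Finset Module

universe u

theorem count_map_redirect {E : Type} [DecidableEq E] {e e' : E} (hee : e ≠ e') (L : List E) :
    (∀ d, (L.map (fun d => if d = e' then e else d)).count d ≤
      if d = e' then 0 else if d = e then L.count e + L.count e' else L.count d) := by
  intro d
  induction L with
  | nil => simp
  | cons c L ih =>
    simp only [List.map_cons, List.count_cons]
    by_cases h1 : c = e'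
    · subst h1
      by_cases h2 : d = c
      · subst h2
        simp only [if_true] at ih ⊢
        simp only [beq_iff_eq]
        rw [if_neg (by simpa using hee)]
        omega
      · rw [if_neg h2] at ih ⊢
        by_cases h3 : d = e
        · subst h3
          simp only [if_true, beq_self_eq_true] at ih ⊢
          split_ifs at ih ⊢ <;> omega
        · rw [if_neg h3] at ih ⊢
          simp only [if_true, beq_iff_eq]
          rw [if_neg (fun h => h3 h.symm)]
          omega
    · rw [if_neg h1]
      by_cases h2 : d = e'
      · subst h2
        simp only [if_true] at ih ⊢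
        simp only [beq_iff_eq]
        rw [if_neg h1]
        omega
      · rw [if_neg h2] at ih ⊢
        by_cases h3 : d = e
        · subst h3
          simp only [if_true] at ih ⊢
          split_ifs <;> omega
        · rw [if_neg h3] at ih ⊢
          split_ifs <;> omega

section
variable {P : Type u} [Group P] {k : ℕ} [NeZero k] {G : Bool → Subgroup P} {a b : ZMod k → P}
  {E X F : Type} [Fintype E] [Fintype X] [Fintype F] [DecidableEq E] [DecidableEq X]
  {es : Finset E} {v : Bool → E → X} {U : Bool → E → P} {ed : F → ZMod k × Bool → E} {x0 : X}

omit [Fintype X] in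
theorem finrank_ident (es : Finset E) {e e' : E} (hee : e ≠ e') (he : e ∈ es) (he' : e' ∈ es)
    (hv : ∀ r, v r e = v r e') : finrank ℚ (Z v (es.erase e')) < finrank ℚ (Z v es) := by
  apply Submodule.finrank_lt_finrank_of_lt
  refine lt_of_le_of_ne (Z_mono v (Finset.erase_subset _ _)) (fun h3 => ?_)
  have h4 : (fun d => (if d = e then (1 : ℚ) else 0) - (if d = e' then (1 : ℚ) else 0)) ∈ Z v es := by
    refine ⟨fun d hd => ?_, fun r y => ?_⟩
    · simp only
      rw [if_neg, if_neg]
      · simp
      · rintro rfl; exact hd he'
      · rintro rfl; exact hd he
    · rw [Finset.sum_sub_distrib]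
      have h5 : ∀ c : E, ∑ d with v r d = y, (if d = c then (1 : ℚ) else 0) =
          if v r c = y then 1 else 0 := by
        intro c
        rw [Finset.sum_ite_eq']
        simp
      rw [h5, h5, hv r, sub_self]
  rw [← h3] at h4
  have h5 := h4.1 e' (by simp)
  simp only [if_true] at h5
  rw [if_neg (fun h => hee h.symm)] at h5
  norm_num at h5

omit [Fintype E] [Fintype X] [DecidableEq X] in
/-- identify two edges with the same vertices and coordinates -/
theorem St.ident {L1 L2 : List E} {e e' : E} (hee : e ≠ e') (h : St G a b es v U ed (L1 ++ e :: e' :: L2) x0)
    (hvv : ∀ r, v r e = v r e') (hUU : ∀ r, U r e = U r e') :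
    St G a b (es.erase e') v U (fun f p => if ed f p = e' then e else ed f p)
      ((L1 ++ L2).map (fun d => if d = e' then e else d)) x0 ∧
      altp (th U) false (L1 ++ e :: e' :: L2) =
        altp (th U) false ((L1 ++ L2).map (fun d => if d = e' then e else d)) := by
  classical
  set ρ : E → E := fun d => if d = e' then e else d with hρ
  have hρe : ρ e = e := by simp only [hρ]; rw [if_neg hee]
  have hρe' : ρ e' = e := by simp [hρ]
  have hvρ : ∀ r d, v r (ρ d) = v r d := by
    intro r d
    simp only [hρ]
    split_ifs with h1
    · rw [h1, hvv]
    · rfl
  have hUρ : ∀ r d, U r (ρ d) = U r d := by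
    intro r d
    simp only [hρ]
    split_ifs with h1
    · rw [h1, hUU]
    · rfl
  have hval : ∀ θ : E → P, θ e = θ e' → altp θ false (L1 ++ e :: e' :: L2) = altp θ false (L1 ++ L2) := by
    intro θ hθ
    rw [altp_append, altp_append]
    congr 1
    simp only [altp, Bool.not_not, hθ]
    cases sd false L1 <;> simp
  have hval2 : ∀ θ : E → P, altp θ false ((L1 ++ L2).map ρ) = altp (θ ∘ ρ) false (L1 ++ e :: e' :: L2) := by
    intro θ
    rw [altp_map, hval]
    simp [Function.comp, hρe, hρe']
  have hes : e ∈ es := h.wes e (by simp)
  constructor
  · constructor
    · exact h.hU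
    · intro f p
      show ρ (ed f p) ∈ es.erase e'
      simp only [hρ]
      split_ifs with h1
      · exact Finset.mem_erase.2 ⟨hee, hes⟩
      · exact Finset.mem_erase.2 ⟨h1, h.hes f p⟩
    · intro f p
      show v p.2 (ρ (ed f (nxt p))) = v p.2 (ρ (ed f p))
      rw [hvρ, hvρ, h.hv]
    · intro f p
      show U p.2 (ρ (ed f (nxt p))) = U p.2 (ρ (ed f p)) * ltr a b p
      rw [hUρ, hUρ, h.hc]
    · have hw := h.walk
      rw [wk_append] at hw
      obtain ⟨y, hw1, hw2, hw3, hw4⟩ := hw
      have hw5 : wk v false x0 (L1 ++ L2) false x0 := by
        rw [wk_append]
        refine ⟨y, hw1, ?_⟩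
        rw [Bool.not_not, ← hvv, hw2] at hw4
        exact hw4
      exact wk_map (v := v) (v' := v) ρ (fun _ x => x) hvρ hw5
    · intro d hd
      rw [List.mem_map] at hd
      obtain ⟨c, hc, rfl⟩ := hd
      simp only [hρ]
      split_ifs with h1
      · exact Finset.mem_erase.2 ⟨hee, hes⟩
      · refine Finset.mem_erase.2 ⟨h1, h.wes c ?_⟩
        simp only [List.mem_append, List.mem_cons] at hc ⊢
        tauto
    · intro d
      have h1 : ((L1 ++ L2).map ρ).count d ≤ if d = e' then 0 else if d = e then
          (L1 ++ L2).count e + (L1 ++ L2).count e' else (L1 ++ L2).count d := count_map_redirect hee (L1 ++ L2) d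
      have h2 : ∀ c, (L1 ++ e :: e' :: L2).count c = (L1 ++ L2).count c +
          ((if e = c then 1 else 0) + if e' = c then 1 else 0) := by
        intro c
        simp only [List.count_append, List.count_cons, beq_iff_eq]
        omega
      show (univ.filter (fun q : F × (ZMod k × Bool) => ρ (ed q.1 q.2) = d)).card + _ ≤ 2
      by_cases hd' : d = e'
      · subst hd'
        have h3 : (univ.filter (fun q : F × (ZMod k × Bool) => ρ (ed q.1 q.2) = d)) = ∅ := by
          rw [Finset.filter_eq_empty_iff]
          intro q _ hq
          simp only [hρ] at hq
          split_ifs at hq with h4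
          · exact hee hq
          · exact h4 hq
        rw [h3, Finset.card_empty]
        rw [if_pos rfl] at h1
        omega
      · rw [if_neg hd'] at h1
        by_cases hde : d = e
        · subst hde
          rw [if_pos rfl] at h1
          have h3 : (univ.filter (fun q : F × (ZMod k × Bool) => ρ (ed q.1 q.2) = d)) ⊆
              (univ.filter (fun q : F × (ZMod k × Bool) => ed q.1 q.2 = d)) ∪
              (univ.filter (fun q : F × (ZMod k × Bool) => ed q.1 q.2 = e')) := by
            intro q hq
            simp only [Finset.mem_filter, Finset.mem_univ, true_and, Finset.mem_union, hρ] at hq ⊢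
            by_cases h4 : ed q.1 q.2 = e'
            · exact Or.inr h4
            · rw [if_neg h4] at hq
              exact Or.inl hq
          have h4 := le_trans (Finset.card_le_card h3) (Finset.card_union_le _ _)
          have h5 := h.s3 d
          have h6 := h.s3 e'
          rw [h2] at h5 h6
          rw [if_pos rfl, if_neg (fun h => hee h.symm)] at h5
          rw [if_neg hee, if_pos rfl] at h6
          omega
        · rw [if_neg hde] at h1
          have h3 : (univ.filter (fun q : F × (ZMod k × Bool) => ρ (ed q.1 q.2) = d)) ⊆
              (univ.filter (fun q : F × (ZMod k × Bool) => ed q.1 q.2 = d)) := by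
            intro q hq
            simp only [Finset.mem_filter, Finset.mem_univ, true_and, hρ] at hq ⊢
            by_cases h4 : ed q.1 q.2 = e'
            · rw [if_pos h4] at hq
              exact absurd hq.symm hde
            · rw [if_neg h4] at hq
              exact hq
          have h4 := Finset.card_le_card h3
          have h5 := h.s3 d
          rw [h2] at h5
          omega
    · intro θ fs h1 h2
      rw [hval2 θ]
      exact h.jj (θ ∘ ρ) fs h1 h2
  · rw [hval2]
    apply altp_congr
    intro d _
    simp only [Function.comp, th, hUρ]

/-- the contradiction: two edges of the walk with the same vertices, but different coordinates at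
one side -/
theorem St.contra (S : Set P)
    (hS1 : ∀ s ∈ S, ∀ t ∈ S, s * t ∈ S) (hS2 : (1 : P) ∉ S)
    (hS3 : ∀ s ∈ S, wd a b * s ∈ S ∧ (wd a b)⁻¹ * s ∈ S ∧ s * wd a b ∈ S ∧ s * (wd a b)⁻¹ ∈ S)
    (hS4 : ∀ p q, p ≠ q → pre a b p * (pre a b q)⁻¹ ∈ S ∨ pre a b q * (pre a b p)⁻¹ ∈ S)
    {L1 L2 : List E} {e e' : E} (hee : e ≠ e') (h : St G a b es v U ed (L1 ++ e :: e' :: L2) x0)
    (hvv : ∀ r, v r e = v r e') (hUU : U (!(sd false L1)) e = U (!(sd false L1)) e')
    (hdim : finrank ℚ (Z v es) ≤ Fintype.card F)
    (hmin : ∀ m, m + 2 ≤ Fintype.card F → ¬ Ar (wd a b) m (altp (th U) false (L1 ++ e :: e' :: L2))) :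
    False := by
  classical
  set ρ : E → E := fun d => if d = e' then e else d with hρ
  have hρe : ρ e = e := by simp only [hρ]; rw [if_neg hee]
  have hρe' : ρ e' = e := by simp [hρ]
  have hvρ : ∀ r d, v r (ρ d) = v r d := by
    intro r d
    simp only [hρ]
    split_ifs with h1
    · rw [h1, hvv]
    · rfl
  have hes : e ∈ es := h.wes e (by simp)
  have hes' : e' ∈ es := h.wes e' (by simp)
  have hlt := finrank_ident (v := v) es hee hes hes' hvv
  set s := sd false L1 with hs
  -- (i)
  have hinj : ∀ p f f', ρ (ed f p) = ρ (ed f' p) → f = f' := by
    intro p f f' hff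
    by_contra hne
    have h2 : ∀ c, (L1 ++ e :: e' :: L2).count c = L1.count c + L2.count c +
        ((if e = c then 1 else 0) + if e' = c then 1 else 0) := by
      intro c
      simp only [List.count_append, List.count_cons, beq_iff_eq]
      omega
    -- the two edges
    have hcases : (ed f p = ed f' p) ∨ (ed f p = e ∧ ed f' p = e') ∨ (ed f p = e' ∧ ed f' p = e) := by
      simp only [hρ] at hff
      split_ifs at hff with h3 h4 h4
      · left; rw [h3, h4]
      · right; right; exact ⟨h3, hff.symm⟩
      · right; left; exact ⟨hff, h4⟩
      · left; exact hff
    -- usage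
    have hstr1 : ∀ (q : F × (ZMod k × Bool)), (ed q.1 q.2 = ed f p ∨ ed q.1 q.2 = ed f' p) →
        q = (f, p) ∨ q = (f', p) := by
      intro q hq
      by_contra hq2
      push Not at hq2
      have h3 := h.s3 (ed q.1 q.2)
      rw [h2] at h3
      rcases hcases with h4 | ⟨h4, h5⟩ | ⟨h4, h5⟩
      · have h6 : ({q, (f, p), (f', p)} : Finset (F × (ZMod k × Bool))) ⊆
            univ.filter (fun r : F × (ZMod k × Bool) => ed r.1 r.2 = ed q.1 q.2) := by
          intro r hr
          simp only [Finset.mem_insert, Finset.mem_singleton] at hr
          simp only [Finset.mem_filter, Finset.mem_univ, true_and]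
          rcases hr with rfl | rfl | rfl
          · rfl
          · rcases hq with hq | hq
            · exact hq.symm
            · rw [hq, h4]
          · rcases hq with hq | hq
            · rw [hq, h4]
            · exact hq.symm
        have h7 := Finset.card_le_card h6
        rw [Finset.card_insert_of_notMem (by simp [hq2.1, hq2.2]),
          Finset.card_insert_of_notMem (by simp [hne]), Finset.card_singleton] at h7
        omega
      · rcases hq with hq | hq
        · have h6 : ({q, (f, p)} : Finset (F × (ZMod k × Bool))) ⊆
              univ.filter (fun r : F × (ZMod k × Bool) => ed r.1 r.2 = ed q.1 q.2) := by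
            intro r hr
            simp only [Finset.mem_insert, Finset.mem_singleton] at hr
            simp only [Finset.mem_filter, Finset.mem_univ, true_and]
            rcases hr with rfl | rfl
            · rfl
            · exact hq.symm
          have h7 := Finset.card_le_card h6
          rw [Finset.card_insert_of_notMem (by simp [hq2.1]), Finset.card_singleton] at h7
          rw [hq, h4, if_pos rfl] at h3
          rw [hq, h4] at h7
          omega
        · have h6 : ({q, (f', p)} : Finset (F × (ZMod k × Bool))) ⊆
              univ.filter (fun r : F × (ZMod k × Bool) => ed r.1 r.2 = ed q.1 q.2) := by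
            intro r hr
            simp only [Finset.mem_insert, Finset.mem_singleton] at hr
            simp only [Finset.mem_filter, Finset.mem_univ, true_and]
            rcases hr with rfl | rfl
            · rfl
            · exact hq.symm
          have h7 := Finset.card_le_card h6
          rw [Finset.card_insert_of_notMem (by simp [hq2.2]), Finset.card_singleton] at h7
          rw [hq, h5, if_pos rfl] at h3
          rw [hq, h5] at h7
          omega
      · rcases hq with hq | hq
        · have h6 : ({q, (f, p)} : Finset (F × (ZMod k × Bool))) ⊆
              univ.filter (fun r : F × (ZMod k × Bool) => ed r.1 r.2 = ed q.1 q.2) := by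
            intro r hr
            simp only [Finset.mem_insert, Finset.mem_singleton] at hr
            simp only [Finset.mem_filter, Finset.mem_univ, true_and]
            rcases hr with rfl | rfl
            · rfl
            · exact hq.symm
          have h7 := Finset.card_le_card h6
          rw [Finset.card_insert_of_notMem (by simp [hq2.1]), Finset.card_singleton] at h7
          rw [hq, h4, if_pos rfl] at h3
          rw [hq, h4] at h7
          omega
        · have h6 : ({q, (f', p)} : Finset (F × (ZMod k × Bool))) ⊆
              univ.filter (fun r : F × (ZMod k × Bool) => ed r.1 r.2 = ed q.1 q.2) := by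
            intro r hr
            simp only [Finset.mem_insert, Finset.mem_singleton] at hr
            simp only [Finset.mem_filter, Finset.mem_univ, true_and]
            rcases hr with rfl | rfl
            · rfl
            · exact hq.symm
          have h7 := Finset.card_le_card h6
          rw [Finset.card_insert_of_notMem (by simp [hq2.2]), Finset.card_singleton] at h7
          rw [hq, h5, if_pos rfl] at h3
          rw [hq, h5] at h7
          omega
    -- modified weight
    obtain ⟨t, ht⟩ := exists_kill a b p
    let θ : E → P := fun d => if d = ed f p ∨ d = ed f' p then U false d * t * (U true d)⁻¹ else th U d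
    have hθD : ∀ d, (d = ed f p ∨ d = ed f' p) → θ d = U false d * t * (U true d)⁻¹ := by
      intro d hd; simp only [θ]; rw [if_pos hd]
    have hθN : ∀ d, ¬ (d = ed f p ∨ d = ed f' p) → θ d = th U d := by
      intro d hd; simp only [θ]; rw [if_neg hd]
    have hkill : ∀ g, (g = f ∨ g = f') → Phi θ (ed g) = 1 := by
      intro g hg
      have h3 := Phi_eq a b U θ (ed g) (fun q => if q = p then t else 1) (h.hc g) (by
        intro q
        by_cases hq : q = p
        · subst hq
          rw [hθD _ (by rcases hg with rfl | rfl <;> simp)]
          simp
        · rw [hθN, if_neg hq]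
          · simp [th]
          · intro h4
            rcases hstr1 (g, q) h4 with h5 | h5
            · exact hq (congrArg Prod.snd h5)
            · exact hq (congrArg Prod.snd h5))
      rw [h3, ht]
      group
    have hother : ∀ g, g ∉ ({f, f'} : Finset F) → ∃ c, Phi θ (ed g) = c * wd a b * c⁻¹ := by
      intro g hg
      simp only [Finset.mem_insert, Finset.mem_singleton, not_or] at hg
      refine ⟨U false (ed g (0, false)), ?_⟩
      rw [← Phi_th a b U (ed g) (h.hc g)]
      unfold Phi
      congr 1
      funext n
      have h5 : ∀ q, θ (ed g q) = th U (ed g q) := by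
        intro q
        apply hθN
        intro h4
        rcases hstr1 (g, q) h4 with h5 | h5
        · exact hg.1 (congrArg Prod.fst h5)
        · exact hg.2 (congrArg Prod.fst h5)
      rw [h5, h5]
    -- the value does not change
    have hvalue : altp θ false (L1 ++ e :: e' :: L2) = altp (th U) false (L1 ++ e :: e' :: L2) := by
      rcases hcases with h4 | h4
      · apply altp_congr
        intro d hd
        apply hθN
        intro h5
        have h6 : d = ed f p := by rcases h5 with h5 | h5; exacts [h5, h5.trans h4.symm]
        have h7 : ({(f, p), (f', p)} : Finset (F × (ZMod k × Bool))) ⊆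
            univ.filter (fun r : F × (ZMod k × Bool) => ed r.1 r.2 = d) := by
          intro r hr
          simp only [Finset.mem_insert, Finset.mem_singleton] at hr
          simp only [Finset.mem_filter, Finset.mem_univ, true_and]
          rcases hr with rfl | rfl
          · exact h6.symm
          · rw [h6, h4]
        have h8 := Finset.card_le_card h7
        rw [Finset.card_insert_of_notMem (by simp [hne]), Finset.card_singleton] at h8
        have h9 := h.s3 d
        have h10 : 0 < (L1 ++ e :: e' :: L2).count d := List.count_pos_iff.2 hd
        omega
      · -- D = {e, e'}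
        have hD : ∀ d, (d = ed f p ∨ d = ed f' p) ↔ (d = e ∨ d = e') := by
          intro d
          rcases h4 with ⟨h5, h6⟩ | ⟨h5, h6⟩
          · rw [h5, h6]
          · rw [h5, h6]; tauto
        have hstre : ∀ c, (c = e ∨ c = e') → 0 < (univ.filter (fun r : F × (ZMod k × Bool) => ed r.1 r.2 = c)).card := by
          intro c hc
          rw [Finset.card_pos]
          rcases (hD c).2 hc with hc | hc
          · exact ⟨(f, p), by simp [hc]⟩
          · exact ⟨(f', p), by simp [hc]⟩
        have hcount : ∀ c, (c = e ∨ c = e') → c ∉ L1 ∧ c ∉ L2 := by
          intro c hc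
          have h7 := h.s3 c
          have h8 := hstre c hc
          rw [h2] at h7
          have h9 : (1 : ℕ) ≤ (if e = c then 1 else 0) + (if e' = c then 1 else 0) := by
            rcases hc with rfl | rfl
            · simp
            · simp
          constructor
          · intro h10
            have := List.count_pos_iff.2 h10
            omega
          · intro h10
            have := List.count_pos_iff.2 h10
            omega
        have h11 : ∀ (L : List E) r, (∀ d ∈ L, ¬ (d = e ∨ d = e')) → altp θ r L = altp (th U) r L := by
          intro L r hL
          apply altp_congr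
          intro d hd
          apply hθN
          rw [hD]
          exact hL d hd
        rw [altp_append, altp_append]
        rw [h11 L1 _ (fun d hd h12 => (hcount d h12).1 hd)]
        congr 1
        simp only [altp]
        rw [h11 L2 _ (fun d hd h12 => (hcount d h12).2 hd)]
        rw [← mul_assoc, ← mul_assoc]
        congr 1
        rw [hθD e ((hD e).2 (Or.inl rfl)), hθD e' ((hD e').2 (Or.inr rfl))]
        rw [← hs]
        simp only [th]
        cases hsb : s
        · rw [hsb] at hUU
          simp only [Bool.not_false] at hUU
          simp [hUU]
        · rw [hsb] at hUU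
          simp only [Bool.not_true] at hUU
          simp only [Bool.not_true, Bool.false_eq_true, if_true, if_false, hUU]
          group
    obtain ⟨m, hm1, hm2⟩ := h.jj θ {f, f'} (by
      intro g hg
      simp only [Finset.mem_insert, Finset.mem_singleton] at hg
      exact hkill g hg) hother
    rw [Finset.card_insert_of_notMem (by simpa using hne), Finset.card_singleton] at hm1
    rw [hvalue] at hm2
    exact hmin m hm1 hm2
  have h30 := star a b S hS1 hS2 hS3 hS4 v U (fun f p => ρ (ed f p)) (s, v s e)
    (by
      intro f p
      rw [hvρ, hvρ, h.hv])
    (by
      intro f p hexc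
      have h31 : ∀ d, (p.2, v p.2 d) ≠ (s, v s e) → U p.2 (ρ d) = U p.2 d := by
        intro d hd
        simp only [hρ]
        split_ifs with h32
        · subst h32
          by_cases h33 : p.2 = s
          · exfalso
            apply hd
            rw [h33, hvv]
          · have h34 : p.2 = !s := by
              revert h33
              cases p.2 <;> cases s <;> simp
            rw [h34]
            exact hUU
        · rfl
      rw [hvρ] at hexc
      rw [h31 _ hexc, h31 _ (by rw [h.hv]; exact hexc), h.hc])
    hinj (es.erase e') Finset.univ (by
      intro f _ p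
      simp only [hρ]
      split_ifs with h1
      · exact Finset.mem_erase.2 ⟨hee, hes⟩
      · exact Finset.mem_erase.2 ⟨h1, h.hes f p⟩)
  rw [Finset.card_univ] at h30
  omega

end

end Pool.Agent.H341.FS
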