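import Pool.Agent.H341.FS.Step2

set_option autoImplicit false

/-!
# Minimal states have trivial value
-/

namespace Pool.Agent.H341.FS

open Finset Module

universe u

theorem St.main {P : Type u} [Group P] {k : ℕ} [NeZero k] {G : Bool → Subgroup P} {a b : ZMod k → P}
    {E X F : Type} [Fintype E] [Fintype X] [Fintype F] [DecidableEq E] [DecidableEq X]
    (hNF : NF G) (S : Set P)
    (hS1 : ∀ s ∈ S, ∀ t ∈ S, s * t ∈ S) (hS2 : (1 : P) ∉ S)
    (hS3 : ∀ s ∈ S, wd a b * s ∈ S ∧ (wd a b)⁻¹ * s ∈ S ∧ s * wd a b ∈ S ∧ s * (wd a b)⁻¹ ∈ S)
    (hS4 : ∀ p q, p ≠ q → pre a b p * (pre a b q)⁻¹ ∈ S ∨ pre a b q * (pre a b p)⁻¹ ∈ S) :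
    ∀ (n : ℕ) (es : Finset E) (v : Bool → E → X) (U : Bool → E → P) (ed : F → ZMod k × Bool → E)
      (Sg : List E) (x0 : X), Sg.length = n → St G a b es v U ed Sg x0 →
      finrank ℚ (Z v es) ≤ Fintype.card F →
      (∀ m, m + 2 ≤ Fintype.card F → ¬ Ar (wd a b) m (altp (th U) false Sg)) →
      altp (th U) false Sg ∈ G false → altp (th U) false Sg = 1 := by
  intro n
  induction n using Nat.strong_induction_on with
  | _ n ih =>
  intro es v U ed Sg x0 hn h hdim hmin hval
  by_contra hne
  obtain ⟨L1, e, e', L2, rfl, hUU⟩ := exists_coinc G hNF v U h.hU Sg x0 h.walk hval hne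
  by_cases hee : e = e'
  · subst hee
    obtain ⟨h1, h2⟩ := h.drop
    apply hne
    rw [h2]
    rw [h2] at hval hmin
    refine ih (L1 ++ L2).length ?_ es v U ed (L1 ++ L2) x0 rfl h1 hdim hmin hval
    rw [← hn]
    simp only [List.length_append, List.length_cons]
    omega
  · have hw := h.walk
    rw [wk_append] at hw
    obtain ⟨y, hw1, hw2, hw3, hw4⟩ := hw
    have hes : e ∈ es := h.wes e (by simp)
    have hes' : e' ∈ es := h.wes e' (by simp)
    have hr : ∀ r : Bool, r = sd false L1 ∨ r = !(sd false L1) := by
      intro r
      cases r <;> cases sd false L1 <;> simp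
    by_cases hfar : v (sd false L1) e = v (sd false L1) e'
    · have hvv : ∀ r, v r e = v r e' := by
        intro r
        rcases hr r with h1 | h1
        · rw [h1]; exact hfar
        · rw [h1]; exact hw3.symm
      by_cases hU2 : U (sd false L1) e = U (sd false L1) e'
      · have hUU2 : ∀ r, U r e = U r e' := by
          intro r
          rcases hr r with h1 | h1
          · rw [h1]; exact hU2
          · rw [h1]; exact hUU
        obtain ⟨h1, h2⟩ := h.ident hee hvv hUU2
        have h3 := finrank_ident (v := v) es hee hes hes' hvv
        apply hne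
        rw [h2]
        rw [h2] at hval hmin
        refine ih _ ?_ _ v U _ _ x0 rfl h1 (by omega) hmin hval
        rw [← hn]
        simp only [List.length_map, List.length_append, List.length_cons]
        omega
      · exact St.contra S hS1 hS2 hS3 hS4 hee h hvv hUU hdim hmin
    · classical
      set s := sd false L1 with hs
      set x := v s e with hx
      set x' := v s e' with hx'
      set g := U s e * (U s e')⁻¹ with hg
      set v' : Bool → E → X := fun r d => if r = s ∧ v r d = x' then x else v r d with hv'
      set U' : Bool → E → P := fun r d => if r = s ∧ v r d = x' then g * U r d else U r d with hU'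
      obtain ⟨x0', c, hc, hSt, hcv⟩ := h.merge s x x' g
        ((G s).mul_mem (h.hU _ _) ((G s).inv_mem (h.hU _ _))) v' U' (fun _ _ => rfl) (fun _ _ => rfl)
      have hns : ∀ d, v' (!s) d = v (!s) d := by
        intro d
        simp [hv']
      have hnsU : ∀ d, U' (!s) d = U (!s) d := by
        intro d
        simp [hU']
      have hvv : ∀ r, v' r e = v' r e' := by
        intro r
        rcases hr r with h1 | h1
        · subst h1
          simp only [hv']
          rw [if_neg, if_pos]
          · exact ⟨trivial, rfl⟩
          · rintro ⟨_, h2⟩; exact hfar h2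
        · subst h1
          rw [hns, hns, hw3]
      have hUU2 : ∀ r, U' r e = U' r e' := by
        intro r
        rcases hr r with h1 | h1
        · subst h1
          simp only [hU']
          rw [if_neg, if_pos]
          · rw [hg]; group
          · exact ⟨trivial, rfl⟩
          · rintro ⟨_, h2⟩; exact hfar h2
        · subst h1
          rw [hnsU, hnsU, hUU]
      obtain ⟨h1, h2⟩ := hSt.ident hee hvv hUU2
      have h3 := finrank_ident (v := v') es hee hes hes' hvv
      have h4 := finrank_merge (v := v) es s x x' hfar v' (fun _ _ => rfl)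
      have h5 : altp (th U') false (L1 ++ e :: e' :: L2) = 1 := by
        rw [h2]
        refine ih _ ?_ _ v' U' _ _ x0' rfl h1 (by omega) ?_ ?_
        · rw [← hn]
          simp only [List.length_map, List.length_append, List.length_cons]
          omega
        · intro m hm hA
          apply hmin m hm
          rw [← h2, hcv] at hA
          have := hA.conj c⁻¹
          convert this using 1
          group
        · rw [← h2, hcv]
          exact (G false).mul_mem ((G false).mul_mem hc hval) ((G false).inv_mem hc)
      rw [hcv] at h5
      apply hne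
      have h6 : altp (th U) false (L1 ++ e :: e' :: L2) =
          c⁻¹ * (c * altp (th U) false (L1 ++ e :: e' :: L2) * c⁻¹) * c := by group
      rw [h6, h5]
      group

end Pool.Agent.H341.FS
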