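import Pool.Agent.H341.FS.Stm

set_option autoImplicit false

/-!
# Part I: the main statement `S_RC`, cut into cases

`Kap H s g₀ κ`: `κ` is the cocycle of the vertex (orbit) `H g₀ (G s)` with values in the stabiliser of the point
`H g₀` of `H \ P` in `G s`, extended to `P = CoprodI G` by `1` on the other factor.

`Chi H s N t`: `t` is the integral cocycle which is `0` on the factor `G s` and the coboundary of `N` on the other
factor; `NC H s N` says that it does not vanish on `H`.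
-/

namespace Pool.Agent.H341.FS

open Monoid Function

universe u v

structure Kap {G : Bool → Type u} [∀ s, Group (G s)] (H : Subgroup (CoprodI G)) (s : Bool) (g₀ : CoprodI G)
    (κ : CoprodI G → CoprodI G → Kst (CoprodI.of : G s →* CoprodI G) H g₀) : Prop where
  mul : ∀ g x y, κ g (x * y) = κ g x * κ (g * x) y
  inv : ∀ h ∈ H, ∀ g x, κ (h * g) x = κ g x
  other : ∀ s', s' ≠ s → ∀ g (x : G s'), κ g (CoprodI.of x) = 1
  off : ∀ g, (¬ ∃ h ∈ H, ∃ y : G s, g = h * g₀ * CoprodI.of y) → ∀ x : G s, κ g (CoprodI.of x) = 1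
  surj : ∀ g, (∃ h ∈ H, ∃ y : G s, g = h * g₀ * CoprodI.of y) →
    ∀ m, ∃ x : G s, g * CoprodI.of x * g⁻¹ ∈ H ∧ κ g (CoprodI.of x) = m

structure Chi {G : Bool → Type u} [∀ s, Group (G s)] (H : Subgroup (CoprodI G)) (s : Bool)
    (N : CoprodI G → ℤ) (t : CoprodI G → CoprodI G → ℤ) : Prop where
  mul : ∀ g x y, t g (x * y) = t g x + t (g * x) y
  inv : ∀ h ∈ H, ∀ g x, t (h * g) x = t g x
  zero : ∀ g (x : G s), t g (CoprodI.of x) = 0
  diff : ∀ g (x : G (!s)), t g (CoprodI.of x) = N (g * CoprodI.of x) - N g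

/-- `N` is not the sum of a function of the `G s`-orbits and a function of the `G (!s)`-orbits in `H \ P` -/
def NC {G : Bool → Type u} [∀ s, Group (G s)] (H : Subgroup (CoprodI G)) (s : Bool)
    (N : CoprodI G → ℤ) : Prop :=
  ¬ ∃ M : CoprodI G → ℤ, (∀ h ∈ H, ∀ g, M (h * g) = M g) ∧ (∀ g (x : G s), M (g * CoprodI.of x) = M g) ∧
    ∀ g (x : G (!s)), M (g * CoprodI.of x) - M g = N (g * CoprodI.of x) - N g

def S_KAP : Prop :=
  ∀ (G : Bool → Type u) [∀ s, Group (G s)] (H : Subgroup (CoprodI G)) (s : Bool) (g₀ : CoprodI G),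
    ∃ κ, Kap H s g₀ κ

def S_CHI : Prop :=
  ∀ (G : Bool → Type u) [∀ s, Group (G s)] (H : Subgroup (CoprodI G)) (s : Bool) (N : CoprodI G → ℤ),
    (∀ h ∈ H, ∀ g, N (h * g) = N g) → ∃ t, Chi H s N t

/-- (RCA) the cocycle of a nontrivial vertex vanishes on `w` -/
def S_RCA : Prop :=
  ∀ (G : Bool → Type u) [∀ s, Group (G s)], (∀ s, LO (G s)) → ∀ (H : Subgroup (CoprodI G)) (s : Bool)
    (g₀ : CoprodI G) (κ : CoprodI G → CoprodI G → Kst (CoprodI.of : G s →* CoprodI G) H g₀), Kap H s g₀ κ →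
    ∀ w ∈ H, Kst (CoprodI.of : G s →* CoprodI G) H g₀ ≠ ⊥ → κ 1 w = 1 → RC H w

/-- (RCB) the cocycles of two different vertices do not vanish on `w` -/
def S_RCB : Prop :=
  ∀ (G : Bool → Type u) [∀ s, Group (G s)], (∀ s, LO (G s)) → ∀ (H : Subgroup (CoprodI G)), Countable H →
    ∀ (s₁ s₂ : Bool) (g₁ g₂ : CoprodI G)
    (κ₁ : CoprodI G → CoprodI G → Kst (CoprodI.of : G s₁ →* CoprodI G) H g₁)
    (κ₂ : CoprodI G → CoprodI G → Kst (CoprodI.of : G s₂ →* CoprodI G) H g₂),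
    Kap H s₁ g₁ κ₁ → Kap H s₂ g₂ κ₂ →
    (s₁ = s₂ → ∀ g, ¬ ((∃ h ∈ H, ∃ y : G s₁, g = h * g₁ * CoprodI.of y) ∧
      (∃ h ∈ H, ∃ y : G s₂, g = h * g₂ * CoprodI.of y))) →
    ∀ w ∈ H, κ₁ 1 w ≠ 1 → κ₂ 1 w ≠ 1 → RC H w

/-- (RCC) a vertex on the side `s` and an integral cocycle on the side `!s`, both nontrivial on `w` -/
def S_RCC : Prop :=
  ∀ (G : Bool → Type u) [∀ s, Group (G s)], (∀ s, LO (G s)) → ∀ (H : Subgroup (CoprodI G)), Countable H →
    ∀ (s : Bool) (g₀ : CoprodI G) (κ : CoprodI G → CoprodI G → Kst (CoprodI.of : G s →* CoprodI G) H g₀)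
    (N : CoprodI G → ℤ) (t : CoprodI G → CoprodI G → ℤ), Kap H s g₀ κ → Chi H s N t → NC H s N →
    ∀ w ∈ H, κ 1 w ≠ 1 → t 1 w ≠ 0 → RC H w

/-- (RCD) an integral cocycle which does not vanish on `H` and vanishes on `w` -/
def S_RCD : Prop :=
  ∀ (G : Bool → Type u) [∀ s, Group (G s)] (H : Subgroup (CoprodI G)) (s : Bool)
    (N : CoprodI G → ℤ) (t : CoprodI G → CoprodI G → ℤ), Chi H s N t → NC H s N →
    ∀ w ∈ H, t 1 w = 0 → RC H w

/-- (RCQ) the general principle: a cocycle with values in a group `Q` that acts on a chain. -/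
def S_RCQ : Prop :=
  ∀ (P : Type u) [Group P] (H : Subgroup P) (Q : Type v) [Group Q] (t : P → P → Q) (Ω : Type v)
    (_ : LinearOrder Ω) (σ : Q →* (Ω ≃o Ω)) (z : Ω),
    (∀ g x y, t g (x * y) = t g x * t (g * x) y) → (∀ h ∈ H, ∀ g x, t (h * g) x = t g x) →
    ∀ w ∈ H, σ (t 1 w) z = z → (∃ h ∈ H, σ (t 1 h) z ≠ z) → RC H w

/-- (ASM) the case distinction. -/
def S_ASM : Prop :=
  S_KAP.{u} → S_CHI.{u} → S_RCA.{u} → S_RCB.{u} → S_RCC.{u} → S_RCD.{u} → S_GR1 → S_GR2 → S_PER.{u} → S_RC.{u}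

end Pool.Agent.H341.FS
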