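import Pool.Agent.H341.FS.Stm3

set_option autoImplicit false

/-!
# Extensions of the Freiheitssatz (statements)
-/

namespace Pool.Agent.H341.FS

open Monoid Function

universe u

/-- (FREIC) the Freiheitssatz when only the coefficients generate left-orderable subgroups -/
def S_FREIC : Prop :=
  ∀ (A B : Type u) [Group A] [Group B] (A₀ : Subgroup A) (B₀ : Subgroup B), LO A₀ → LO B₀ →
    ∀ r : Coprod A B, r ∈ A₀.map (Coprod.inl : A →* Coprod A B) ⊔ B₀.map (Coprod.inr : B →* Coprod A B) →
    (∀ (g : Coprod A B) (a : A), r ≠ g * Coprod.inl a * g⁻¹) →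
    (∀ (g : Coprod A B) (b : B), r ≠ g * Coprod.inr b * g⁻¹) →
    ∀ m : ℕ, 1 ≤ m →
      Injective ((QuotientGroup.mk' (Subgroup.normalClosure ({r ^ m} : Set (Coprod A B)))).comp
        (Coprod.inl : A →* Coprod A B)) ∧
      Injective ((QuotientGroup.mk' (Subgroup.normalClosure ({r ^ m} : Set (Coprod A B)))).comp
        (Coprod.inr : B →* Coprod A B))

/-- the homomorphism from the free product of the factors in `T` to the whole free product -/
def subProd {ι : Type} (A : ι → Type u) [∀ i, Group (A i)] (T : Set ι) :
    CoprodI (fun i : T => A i) →* CoprodI A :=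
  CoprodI.lift (fun i : T => (CoprodI.of : A i →* CoprodI A))

/-- (NF1) one relator in a free product of a family of left-orderable groups: the free product of all factors
but one embeds, unless the relator is conjugate into it or into the omitted factor -/
def S_NF1 : Prop :=
  ∀ (ι : Type) [DecidableEq ι] (A : ι → Type u) [∀ i, Group (A i)], (∀ i, LO (A i)) →
    ∀ (j : ι) (r : CoprodI A),
      (∀ (g : CoprodI A) (x : CoprodI (fun i : ({j}ᶜ : Set ι) => A i)), r ≠ g * subProd A {j}ᶜ x * g⁻¹) →
      (∀ (g : CoprodI A) (x : A j), r ≠ g * CoprodI.of x * g⁻¹) →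
      ∀ x : CoprodI (fun i : ({j}ᶜ : Set ι) => A i),
        subProd A {j}ᶜ x ∈ Subgroup.normalClosure ({r} : Set (CoprodI A)) → x = 1

/-- (NFAC) one relator in a free product of `n` left-orderable groups: some `n - 1` of the factors
have their free product embedded in the quotient (any power of the relator) -/
def S_NFAC : Prop :=
  ∀ (n : ℕ), 0 < n → ∀ (A : Fin n → Type u) [∀ i, Group (A i)], (∀ i, LO (A i)) → ∀ r : CoprodI A,
    ∃ S : Finset (Fin n), S.card = n - 1 ∧
      Injective ((QuotientGroup.mk' (Subgroup.normalClosure ({r} : Set (CoprodI A)))).comp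
        (CoprodI.lift (M := fun i : S => A i) (fun i => CoprodI.of (i := (i : Fin n)))))

end Pool.Agent.H341.FS
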