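import Pool.Agent.H341.FS.Star

set_option autoImplicit false

/-!
# Walks, values, areas
-/

namespace Pool.Agent.H341.FS

open Finset Module

universe u

/-- value of a walk under a weight of the edges -/
def altp {P : Type u} [Group P] {E : Type} (θ : E → P) : Bool → List E → P
  | _, [] => 1
  | s, e :: L => (if s then (θ e)⁻¹ else θ e) * altp θ (!s) L

/-- the side at the end of a walk -/
def sd {E : Type} : Bool → List E → Bool
  | s, [] => s
  | s, _ :: L => sd (!s) L

/-- walks -/
def wk {E X : Type} (v : Bool → E → X) : Bool → X → List E → Bool → X → Prop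
  | s, x, [], s', x' => s = s' ∧ x = x'
  | s, x, e :: L, s', x' => v s e = x ∧ wk v (!s) (v (!s) e) L s' x'

/-- products of `m` conjugates of `w` and `w⁻¹` -/
inductive Ar {P : Type u} [Group P] (w : P) : ℕ → P → Prop
  | zero : Ar w 0 1
  | pos (m : ℕ) (u c : P) : Ar w m u → Ar w (m + 1) (c * w * c⁻¹ * u)
  | neg (m : ℕ) (u c : P) : Ar w m u → Ar w (m + 1) (c * w⁻¹ * c⁻¹ * u)

theorem Ar.mul {P : Type u} [Group P] {w : P} {m n : ℕ} {u v : P} (h : Ar w m u) (h' : Ar w n v) :
    Ar w (m + n) (u * v) := by
  induction h with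
  | zero => simpa using h'
  | pos m u c _ ih =>
    have := Ar.pos _ _ c ih
    rw [show m + 1 + n = m + n + 1 by omega, mul_assoc]
    exact this
  | neg m u c _ ih =>
    have := Ar.neg _ _ c ih
    rw [show m + 1 + n = m + n + 1 by omega, mul_assoc]
    exact this

theorem Ar.conj {P : Type u} [Group P] {w : P} {m : ℕ} {u : P} (h : Ar w m u) (d : P) :
    Ar w m (d * u * d⁻¹) := by
  induction h with
  | zero => simpa using Ar.zero
  | pos m u c _ ih =>
    have := Ar.pos _ _ (d * c) ih
    convert this using 1
    group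
  | neg m u c _ ih =>
    have := Ar.neg _ _ (d * c) ih
    convert this using 1
    group

theorem Ar.one_pos {P : Type u} [Group P] (w c : P) : Ar w 1 (c * w * c⁻¹) := by
  simpa using Ar.pos 0 1 c (Ar.zero (w := w))

theorem Ar.one_neg {P : Type u} [Group P] (w c : P) : Ar w 1 (c * w⁻¹ * c⁻¹) := by
  simpa using Ar.neg 0 1 c (Ar.zero (w := w))

theorem Ar.inv {P : Type u} [Group P] {w : P} {m : ℕ} {u : P} (h : Ar w m u) : Ar w m u⁻¹ := by
  induction h with
  | zero => simpa using Ar.zero
  | pos m u c _ ih =>
    have := ih.mul (Ar.one_neg w c)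
    convert this using 1
    group
  | neg m u c _ ih =>
    have := ih.mul (Ar.one_pos w c)
    convert this using 1
    group

theorem altp_append {P : Type u} [Group P] {E : Type} (θ : E → P) (s : Bool) (L L' : List E) :
    altp θ s (L ++ L') = altp θ s L * altp θ (sd s L) L' := by
  induction L generalizing s with
  | nil => simp [altp, sd]
  | cons e L ih => simp only [List.cons_append, altp, sd, ih, mul_assoc]

theorem altp_map {P : Type u} [Group P] {E E' : Type} (θ : E' → P) (ρ : E → E') (s : Bool) (L : List E) :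
    altp θ s (L.map ρ) = altp (θ ∘ ρ) s L := by
  induction L generalizing s with
  | nil => simp [altp]
  | cons e L ih => simp only [List.map_cons, altp, ih, Function.comp]

theorem altp_congr {P : Type u} [Group P] {E : Type} {θ θ' : E → P} (s : Bool) (L : List E)
    (h : ∀ e ∈ L, θ e = θ' e) : altp θ s L = altp θ' s L := by
  induction L generalizing s with
  | nil => simp [altp]
  | cons e L ih =>
    simp only [altp]
    rw [ih _ (fun e' he' => h e' (List.mem_cons_of_mem _ he')), h e List.mem_cons_self]

theorem sd_append {E : Type} (s : Bool) (L L' : List E) : sd s (L ++ L') = sd (sd s L) L' := by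
  induction L generalizing s with
  | nil => simp [sd]
  | cons e L ih => simp only [List.cons_append, sd, ih]

theorem sd_map {E E' : Type} (ρ : E → E') (s : Bool) (L : List E) : sd s (L.map ρ) = sd s L := by
  induction L generalizing s with
  | nil => simp [sd]
  | cons e L ih => simp only [List.map_cons, sd, ih]

theorem sd_not {E : Type} (s : Bool) (L : List E) : sd (!s) L = !(sd s L) := by
  induction L generalizing s with
  | nil => simp [sd]
  | cons e L ih => simp only [sd, ih]

theorem wk_sd {E X : Type} {v : Bool → E → X} {s s' : Bool} {x x' : X} {L : List E}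
    (h : wk v s x L s' x') : sd s L = s' := by
  induction L generalizing s x with
  | nil => exact h.1
  | cons e L ih => exact ih h.2

theorem wk_append {E X : Type} {v : Bool → E → X} {s s' : Bool} {x x' : X} {L L' : List E} :
    wk v s x (L ++ L') s' x' ↔ ∃ y, wk v s x L (sd s L) y ∧ wk v (sd s L) y L' s' x' := by
  induction L generalizing s x with
  | nil =>
    simp only [List.nil_append, wk, sd, true_and]
    constructor
    · intro h; exact ⟨x, rfl, h⟩
    · rintro ⟨y, rfl, h⟩; exact h
  | cons e L ih =>
    simp only [List.cons_append, wk, sd, ih]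
    constructor
    · rintro ⟨h1, y, h2, h3⟩; exact ⟨y, ⟨h1, h2⟩, h3⟩
    · rintro ⟨y, ⟨h1, h2⟩, h3⟩; exact ⟨h1, y, h2, h3⟩

theorem wk_map {E E' X X' : Type} {v : Bool → E → X} {v' : Bool → E' → X'} (ρ : E → E') (μ : Bool → X → X')
    (h : ∀ s e, v' s (ρ e) = μ s (v s e)) {s s' : Bool} {x x' : X} {L : List E}
    (hw : wk v s x L s' x') : wk v' s (μ s x) (L.map ρ) s' (μ s' x') := by
  induction L generalizing s x with
  | nil =>
    obtain ⟨rfl, rfl⟩ := hw
    exact ⟨rfl, rfl⟩
  | cons e L ih =>
    obtain ⟨h1, h2⟩ := hw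
    refine ⟨by rw [h, h1], ?_⟩
    rw [h]
    exact ih h2

/-- the weight given by coordinates -/
def th {P : Type u} [Group P] {E : Type} (U : Bool → E → P) (e : E) : P := U false e * (U true e)⁻¹

theorem th_side {P : Type u} [Group P] {E : Type} (U : Bool → E → P) (e : E) (s : Bool) :
    (if s then (th U e)⁻¹ else th U e) = U s e * (U (!s) e)⁻¹ := by
  cases s <;> simp [th]

/-- change of gauge -/
theorem gauge {P : Type u} [Group P] {E X : Type} {v : Bool → E → X} {U U' : Bool → E → P}
    (γ : Bool → X → P) (h : ∀ s e, U' s e = γ s (v s e) * U s e) {s s' : Bool} {x x' : X} {L : List E}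
    (hw : wk v s x L s' x') : altp (th U') s L = γ s x * altp (th U) s L * (γ s' x')⁻¹ := by
  induction L generalizing s x with
  | nil =>
    obtain ⟨rfl, rfl⟩ := hw
    simp [altp]
  | cons e L ih =>
    obtain ⟨h1, h2⟩ := hw
    simp only [altp]
    rw [th_side, th_side, ih h2, h, h, h1]
    group

/-- value of the boundary of a face -/
def Phi {P : Type u} [Group P] {E : Type} {k : ℕ} (θ : E → P) (g : ZMod k × Bool → E) : P :=
  pp (fun n : ℕ => θ (g ((n : ZMod k), true)) * (θ (g ((n : ZMod k) + 1, false)))⁻¹) k

theorem pp_telescope {P : Type u} [Group P] (c u : ℕ → P) (n : ℕ) :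
    pp (fun i => u i * c i * (u (i + 1))⁻¹) n = u 0 * pp c n * (u n)⁻¹ := by
  induction n with
  | zero => simp [pp]
  | succ n ih => simp only [pp, ih]; group

theorem pp_change {P : Type u} [Group P] (c c' : ℕ → P) (j : ℕ) (h : ∀ i, i ≠ j → c' i = c i) (n : ℕ) :
    (n ≤ j → pp c' n = pp c n) ∧
      (j < n → pp c' n = pp c j * c' j * (c j)⁻¹ * (pp c j)⁻¹ * pp c n) := by
  induction n with
  | zero => simp [pp]
  | succ n ih =>
    constructor
    · intro hn
      simp only [pp]
      rw [ih.1 (by omega), h n (by omega)]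
    · intro hn
      rcases Nat.lt_or_ge j n with h1 | h1
      · simp only [pp]
        rw [ih.2 h1, h n (by omega)]
        group
      · have : n = j := by omega
        subst this
        simp only [pp]
        rw [ih.1 le_rfl]
        group

theorem Phi_eq {P : Type u} [Group P] {E : Type} {k : ℕ} [NeZero k] (a b : ZMod k → P) (U : Bool → E → P)
    (θ : E → P) (g : ZMod k × Bool → E) (τ : ZMod k × Bool → P)
    (hc : ∀ p, U p.2 (g (nxt p)) = U p.2 (g p) * ltr a b p)
    (hθ : ∀ p, θ (g p) = U false (g p) * τ p * (U true (g p))⁻¹) :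
    Phi θ g = U false (g (0, false)) *
      pp (fun n : ℕ => a (n : ZMod k) * τ ((n : ZMod k), true) * b (n : ZMod k) *
        (τ ((n : ZMod k) + 1, false))⁻¹) k * (U false (g (0, false)))⁻¹ := by
  have h1 := pp_telescope (fun n : ℕ => a (n : ZMod k) * τ ((n : ZMod k), true) * b (n : ZMod k) *
        (τ ((n : ZMod k) + 1, false))⁻¹) (fun n : ℕ => U false (g ((n : ZMod k), false))) k
  simp only [Nat.cast_zero, ZMod.natCast_self] at h1
  rw [← h1]
  unfold Phi
  congr 1
  funext n
  have h2 := hc ((n : ZMod k), false)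
  have h3 := hc ((n : ZMod k), true)
  simp only [nxt, ltr, Bool.false_eq_true, if_false, if_true] at h2 h3
  rw [hθ, hθ, h2, h3]
  push_cast
  group

theorem Phi_th {P : Type u} [Group P] {E : Type} {k : ℕ} [NeZero k] (a b : ZMod k → P) (U : Bool → E → P)
    (g : ZMod k × Bool → E) (hc : ∀ p, U p.2 (g (nxt p)) = U p.2 (g p) * ltr a b p) :
    Phi (th U) g = U false (g (0, false)) * wd a b * (U false (g (0, false)))⁻¹ := by
  have := Phi_eq a b U (th U) g (fun _ => 1) hc (fun p => by simp [th])
  rw [this]
  simp [wd]

/-- one can kill a face by modifying the weight at one position -/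
theorem exists_kill {P : Type u} [Group P] {k : ℕ} [NeZero k] (a b : ZMod k → P) (p : ZMod k × Bool) :
    ∃ t : P, pp (fun n : ℕ => a (n : ZMod k) * (if ((n : ZMod k), true) = p then t else 1) * b (n : ZMod k) *
        (if ((n : ZMod k) + 1, false) = p then t else 1)⁻¹) k = 1 := by
  have key : ∀ i : ZMod k, i.val < k := fun i => ZMod.val_lt i
  have key2 : ∀ (i : ZMod k) (n : ℕ), n < k → n ≠ i.val → (n : ZMod k) ≠ i := by
    intro i n hn h1 h2
    apply h1
    rw [← h2, ZMod.val_natCast, Nat.mod_eq_of_lt hn]
  have cong : ∀ (c c' : ℕ → P) (m : ℕ), (∀ i, i < m → c i = c' i) → pp c m = pp c' m := by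
    intro c c' m hm
    induction m with
    | zero => rfl
    | succ m ih => simp only [pp]; rw [ih (fun i hi => hm i (by omega)), hm m (by omega)]
  rcases p with ⟨i, _ | _⟩
  · -- p = (i, false), index of i - 1
    set j : ZMod k := i - 1 with hj
    set c : ℕ → P := fun n => a (n : ZMod k) * b (n : ZMod k) with hc
    set q : P := pp c j.val * c j.val with hq
    refine ⟨q⁻¹ * wd a b * q, ?_⟩
    set c' : ℕ → P := fun n => if n = j.val then c n * (q⁻¹ * wd a b * q)⁻¹ else c n with hc'
    have h1 := (pp_change c c' j.val (by intro n hn; simp [hc', hn]) k).2 (key j)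
    rw [cong _ c' k]
    · rw [h1]
      have h2 : c' j.val = c j.val * (q⁻¹ * wd a b * q)⁻¹ := by simp [hc']
      rw [h2]
      have h3 : pp c k = wd a b := rfl
      rw [h3, hq]
      group
    · intro n hn
      simp only [Prod.mk.injEq, Bool.true_eq_false, and_false, if_false, and_true, mul_one, hc', hc]
      by_cases hnj : n = j.val
      · rw [if_pos hnj, if_pos]
        rw [hnj, ZMod.natCast_zmod_val, hj]; ring
      · rw [if_neg hnj, if_neg]
        · simp
        · intro h4
          apply key2 j n hn hnj
          rw [hj, ← h4]; ring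
  · set c : ℕ → P := fun n => a (n : ZMod k) * b (n : ZMod k) with hc
    set q : P := pp c i.val * a i with hq
    refine ⟨q⁻¹ * (wd a b)⁻¹ * q, ?_⟩
    set c' : ℕ → P := fun n => if n = i.val then a (n : ZMod k) * (q⁻¹ * (wd a b)⁻¹ * q) * b (n : ZMod k)
      else c n with hc'
    have h1 := (pp_change c c' i.val (by intro n hn; simp [hc', hn]) k).2 (key i)
    rw [cong _ c' k]
    · rw [h1]
      have h2 : c' i.val = a i * (q⁻¹ * (wd a b)⁻¹ * q) * b i := by
        simp only [hc', if_true, ZMod.natCast_zmod_val]
      have h4 : c i.val = a i * b i := by simp only [hc, ZMod.natCast_zmod_val]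
      rw [h2, h4]
      have h3 : pp c k = wd a b := rfl
      rw [h3, hq]
      group
    · intro n hn
      simp only [Prod.mk.injEq, Bool.false_eq_true, and_false, if_false, and_true, inv_one, mul_one,
        hc', hc]
      by_cases hni : n = i.val
      · rw [if_pos hni, if_pos]
        rw [hni, ZMod.natCast_zmod_val]
      · rw [if_neg hni, if_neg]
        · simp
        · exact key2 i n hn hni

end Pool.Agent.H341.FS
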